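import Pool.Agent.CLR.Defs

/-!
# CLR row B1: the Dirichlet Laplacian `lapB B` of a finite set `B ⊂ Z^3`

`lapB_quad`: expand: with `W = ext B w` (finite support),
`dirE W = Σ_x Σ_i (W (x+e_i)^2 + W x^2 - 2 W x W (x+e_i)) = 6 Σ W x^2 - 2 Σ_x Σ_i W x W(x+e_i)`
(translation invariance of sums of finitely supported functions), and
`Σ_{x,y ∈ B} w x lapZ x y w y = 6 Σ w^2 - Σ_x Σ_{y ~ x} W x W y`, the neighbours of `x` being
`x + e_i`, `x - e_i` (six distinct points).
`lapB_posDef`: symmetric; `dirE W ≥ 0`, and `= 0` forces `W (x + e_0) = W x` for all `x`, so `W` is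
constant along lines in direction `e_0`, hence zero (finite support).
`lapB_row`: row sum is `6 - #(neighbours in B) ≥ 0`.
-/

set_option autoImplicit false

open MeasureTheory Set Filter Topology

noncomputable section

namespace CLR

theorem b1_ez_apply (i j : Fin 3) : ez i j = if j = i then 1 else 0 := by
  unfold ez
  rw [Pi.single_apply]

theorem b1_ez_inj {i j : Fin 3} (h : ez i = ez j) : i = j := by
  have h1 := congrFun h i
  rw [b1_ez_apply, b1_ez_apply, if_pos rfl] at h1
  by_contra hne
  rw [if_neg hne] at h1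
  norm_num at h1

theorem b1_ez_neg (i j : Fin 3) : ez i ≠ - ez j := by
  intro h
  have h1 := congrFun h i
  rw [Pi.neg_apply, b1_ez_apply, b1_ez_apply, if_pos rfl] at h1
  split_ifs at h1 <;> norm_num at h1

theorem b1_ez_ne (i : Fin 3) : ez i ≠ 0 := by
  intro h
  have h1 := congrFun h i
  rw [Pi.zero_apply, b1_ez_apply, if_pos rfl] at h1
  norm_num at h1

theorem b1_lapZ (x y : Z3) : lapZ x y = 6 * (if y = x then 1 else 0) -
    ∑ i : Fin 3, ((if y = x + ez i then (1 : ℝ) else 0) + (if y = x - ez i then 1 else 0)) := by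
  unfold lapZ
  by_cases hxy : x = y
  · subst hxy
    have h1 : ∀ i : Fin 3, ¬ (x = x + ez i) := fun i h => b1_ez_ne i (by
      have := sub_eq_zero.mpr h
      simpa using this)
    have h2 : ∀ i : Fin 3, ¬ (x = x - ez i) := fun i h => b1_ez_ne i (by
      have := sub_eq_zero.mpr h
      simpa using this)
    simp [h1, h2]
  · rw [if_neg hxy, if_neg (Ne.symm hxy)]
    by_cases hn : ∃ i : Fin 3, x = y + ez i ∨ y = x + ez i
    · rw [if_pos hn]
      obtain ⟨j, hj | hj⟩ := hn
      · have h1 : ∀ i : Fin 3, ¬ (y = x + ez i) := by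
          intro i h
          rw [hj] at h
          have h3 : ez i = - ez j := by
            have h4 : ez j + ez i = 0 := by
              have h5 : y + (ez j + ez i) = y + 0 := by rw [add_zero, ← add_assoc]; exact h.symm
              exact add_left_cancel h5
            rw [← add_eq_zero_iff_eq_neg, add_comm]
            exact h4
          exact b1_ez_neg i j h3
        have h2 : ∀ i : Fin 3, (y = x - ez i) ↔ j = i := by
          intro i
          constructor
          · intro h
            rw [hj] at h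
            have h5 : y + ez i = y + ez j := by
              rw [eq_sub_iff_add_eq] at h
              exact h
            exact (b1_ez_inj (add_left_cancel h5)).symm
          · rintro rfl
            rw [hj]
            abel
        simp [h1, h2]
      · have h1 : ∀ i : Fin 3, ¬ (y = x - ez i) := by
          intro i h
          rw [hj] at h
          have h3 : ez j = - ez i := by
            have h5 : x + ez j = x + (- ez i) := by rw [h]; abel
            exact add_left_cancel h5
          exact b1_ez_neg j i h3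
        have h2 : ∀ i : Fin 3, (y = x + ez i) ↔ j = i := by
          intro i
          constructor
          · intro h
            rw [hj] at h
            exact b1_ez_inj (add_left_cancel h)
          · rintro rfl
            exact hj
        simp [h1, h2]
    · rw [if_neg hn]
      have h1 : ∀ i : Fin 3, ¬ (y = x + ez i) := fun i h => hn ⟨i, Or.inr h⟩
      have h2 : ∀ i : Fin 3, ¬ (y = x - ez i) := fun i h => hn ⟨i, Or.inl (by rw [h]; abel)⟩
      simp [h1, h2]

theorem b1_symm (x y : Z3) : lapZ x y = lapZ y x := by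
  unfold lapZ
  by_cases h : x = y
  · subst h; rfl
  · rw [if_neg h, if_neg (Ne.symm h)]
    have h1 : (∃ i : Fin 3, x = y + ez i ∨ y = x + ez i) ↔
        ∃ i : Fin 3, y = x + ez i ∨ x = y + ez i :=
      exists_congr fun i => or_comm
    simp only [h1]

theorem b1_pick (B : Finset Z3) (W : Z3 → ℝ) (hW : ∀ z ∉ B, W z = 0) (a : Z3) :
    ∑ y ∈ B, (if y = a then (1 : ℝ) else 0) * W y = W a := by
  simp only [ite_mul, one_mul, zero_mul]
  rw [Finset.sum_ite_eq']
  split_ifs with h
  · rfl
  · exact (hW a h).symm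

theorem b1_inner (B : Finset Z3) (W : Z3 → ℝ) (hW : ∀ z ∉ B, W z = 0) (x : Z3) :
    ∑ y ∈ B, W x * lapZ x y * W y =
      W x * (6 * W x - ∑ i : Fin 3, (W (x + ez i) + W (x - ez i))) := by
  have h1 : ∀ y ∈ B, W x * lapZ x y * W y = W x * (6 * ((if y = x then (1 : ℝ) else 0) * W y) -
      ∑ i : Fin 3, (((if y = x + ez i then (1 : ℝ) else 0) * W y) +
        ((if y = x - ez i then (1 : ℝ) else 0) * W y))) := by
    intro y _
    rw [b1_lapZ]
    simp only [← add_mul]
    rw [← Finset.sum_mul]
    ring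
  rw [Finset.sum_congr rfl h1, ← Finset.mul_sum, Finset.sum_sub_distrib, ← Finset.mul_sum,
    b1_pick B W hW, Finset.sum_comm]
  congr 2
  refine Finset.sum_congr rfl fun i _ => ?_
  rw [Finset.sum_add_distrib, b1_pick B W hW, b1_pick B W hW]

theorem b1_ext_notMem (B : Finset Z3) (w : B → ℝ) (z : Z3) (hz : z ∉ B) : ext B w z = 0 := by
  unfold ext
  rw [dif_neg hz]

theorem b1_ext_mem (B : Finset Z3) (w : B → ℝ) (z : B) : ext B w z = w z := by
  unfold ext
  rw [dif_pos z.2]

theorem b1_dirE_hasSum (B : Finset Z3) (W : Z3 → ℝ) (hW : ∀ z ∉ B, W z = 0) :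
    HasSum (fun x => ∑ i : Fin 3, (W (x + ez i) - W x) ^ 2)
      (∑ x ∈ B, W x * (6 * W x - ∑ i : Fin 3, (W (x + ez i) + W (x - ez i)))) := by
  have h1 : HasSum (fun x => W x ^ 2) (∑' x, W x ^ 2) := by
    apply Summable.hasSum
    refine summable_of_ne_finset_zero (s := B) fun z hz => ?_
    rw [hW z hz]; ring
  have h3 : ∀ i : Fin 3, HasSum (fun x => W (x + ez i) * W x) (∑' x, W (x + ez i) * W x) := by
    intro i
    apply Summable.hasSum
    refine summable_of_ne_finset_zero (s := B) fun z hz => ?_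
    rw [hW z hz]; ring
  have h2 : ∀ i : Fin 3, HasSum (fun x => W (x + ez i) ^ 2) (∑' x, W x ^ 2) := by
    intro i
    exact (Equiv.addRight (ez i)).hasSum_iff.mpr h1
  have h4 : ∀ i : Fin 3, HasSum (fun x => W x * W (x - ez i)) (∑' x, W (x + ez i) * W x) := by
    intro i
    have h5 := (Equiv.subRight (ez i)).hasSum_iff.mpr (h3 i)
    refine h5.congr_fun ?_
    intro x
    simp [Function.comp]
  have h6 : HasSum (fun x => ∑ i : Fin 3, (W (x + ez i) - W x) ^ 2)
      (∑ i : Fin 3, ((∑' x, W x ^ 2) - 2 * (∑' x, W (x + ez i) * W x) + ∑' x, W x ^ 2)) := by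
    apply hasSum_sum
    intro i _
    have h7 := ((h2 i).sub ((h3 i).mul_left 2)).add h1
    refine h7.congr_fun ?_
    intro x
    ring
  have h8 : HasSum (fun x => W x * (6 * W x - ∑ i : Fin 3, (W (x + ez i) + W (x - ez i))))
      (6 * (∑' x, W x ^ 2) - ∑ i : Fin 3, ((∑' x, W (x + ez i) * W x) +
        ∑' x, W (x + ez i) * W x)) := by
    have h9 : HasSum (fun x => ∑ i : Fin 3, (W (x + ez i) * W x + W x * W (x - ez i)))
        (∑ i : Fin 3, ((∑' x, W (x + ez i) * W x) + ∑' x, W (x + ez i) * W x)) :=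
      hasSum_sum fun i _ => (h3 i).add (h4 i)
    refine ((h1.mul_left 6).sub h9).congr_fun ?_
    intro x
    rw [mul_sub, Finset.mul_sum]
    congr 1
    · ring
    · refine Finset.sum_congr rfl fun i _ => ?_
      ring
  have h10 : HasSum (fun x => W x * (6 * W x - ∑ i : Fin 3, (W (x + ez i) + W (x - ez i))))
      (∑ x ∈ B, W x * (6 * W x - ∑ i : Fin 3, (W (x + ez i) + W (x - ez i)))) :=
    hasSum_sum_of_ne_finset_zero fun x hx => by rw [hW x hx, zero_mul]
  rw [h10.unique h8]
  convert h6 using 1
  simp only [Fin.sum_univ_three]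
  ring

theorem lapB_diag (B : Finset Z3) (x : B) : lapB B x x = 6 := by
  unfold lapB lapZ
  rw [if_pos rfl]

theorem lapB_off (B : Finset Z3) (x y : B) (h : x ≠ y) : lapB B x y ≤ 0 := by
  unfold lapB lapZ
  rw [if_neg fun h1 => h (Subtype.ext h1)]
  split_ifs <;> norm_num

theorem lapB_row (B : Finset Z3) (x : B) : 0 ≤ ∑ y, lapB B x y := by
  have h1 : ∑ y : B, lapB B x y = ∑ y ∈ B, lapZ x y :=
    Finset.sum_coe_sort B (fun y => lapZ x y)
  have h2 : ∀ a : Z3, ∑ y ∈ B, (if y = a then (1 : ℝ) else 0) = if a ∈ B then 1 else 0 := by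
    intro a
    rw [Finset.sum_ite_eq']
  have h3 : ∀ a : Z3, (if a ∈ B then (1 : ℝ) else 0) ≤ 1 := by
    intro a
    split_ifs <;> norm_num
  rw [h1, Finset.sum_congr rfl fun y _ => b1_lapZ x y, Finset.sum_sub_distrib, ← Finset.mul_sum,
    h2, if_pos x.2, Finset.sum_comm]
  simp only [Finset.sum_add_distrib, h2, Fin.sum_univ_three]
  linarith [h3 (x + ez 0), h3 (x + ez 1), h3 (x + ez 2), h3 (x - ez 0), h3 (x - ez 1),
    h3 (x - ez 2)]

theorem lapB_quad (B : Finset Z3) (w : B → ℝ) :
    ∑ x, ∑ y, w x * lapB B x y * w y = dirE (ext B w) := by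
  set W := ext B w with hWd
  have hW : ∀ z ∉ B, W z = 0 := b1_ext_notMem B w
  have h1 : ∑ x : B, ∑ y : B, w x * lapB B x y * w y =
      ∑ x ∈ B, ∑ y ∈ B, W x * lapZ x y * W y := by
    rw [← Finset.sum_coe_sort B (fun x => ∑ y ∈ B, W x * lapZ x y * W y)]
    refine Finset.sum_congr rfl fun x _ => ?_
    rw [← Finset.sum_coe_sort B (fun y => W x * lapZ x y * W y)]
    refine Finset.sum_congr rfl fun y _ => ?_
    rw [hWd, b1_ext_mem, b1_ext_mem]
    rfl
  rw [h1, Finset.sum_congr rfl fun x _ => b1_inner B W hW x]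
  exact (b1_dirE_hasSum B W hW).tsum_eq.symm

theorem lapB_posDef (B : Finset Z3) : (lapB B).PosDef := by
  refine Matrix.PosDef.of_dotProduct_mulVec_pos ?_ ?_
  · ext x y
    rw [Matrix.conjTranspose_apply]
    simp only [star_trivial]
    exact b1_symm y x
  · intro w hw
    have hquad : star w ⬝ᵥ (lapB B).mulVec w = dirE (ext B w) := by
      rw [← lapB_quad]
      simp only [dotProduct, Matrix.mulVec, star_trivial, Finset.mul_sum, mul_assoc]
    rw [hquad]
    set W := ext B w with hWd
    have hW : ∀ z ∉ B, W z = 0 := b1_ext_notMem B w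
    have hs := (b1_dirE_hasSum B W hW).summable
    have hnn : ∀ x, 0 ≤ ∑ i : Fin 3, (W (x + ez i) - W x) ^ 2 := fun x =>
      Finset.sum_nonneg fun i _ => sq_nonneg _
    have h0 : 0 ≤ dirE W := tsum_nonneg hnn
    refine lt_of_le_of_ne h0 fun he => ?_
    have h1 : ∀ x, ∑ i : Fin 3, (W (x + ez i) - W x) ^ 2 = 0 := by
      have h0' : HasSum (fun x => ∑ i : Fin 3, (W (x + ez i) - W x) ^ 2) 0 := by
        rw [he]
        exact hs.hasSum
      have h2 := (hasSum_zero_iff_of_nonneg hnn).mp h0'
      intro x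
      exact congrFun h2 x
    have h2 : ∀ x, W (x + ez 0) = W x := by
      intro x
      have h3 := (Finset.sum_eq_zero_iff_of_nonneg fun i _ => sq_nonneg _).mp (h1 x) 0
        (Finset.mem_univ _)
      have h4 := pow_eq_zero_iff (two_ne_zero) |>.mp h3
      linarith
    have h3 : ∀ (n : ℕ) (x : Z3), W (x + (n : ℤ) • ez 0) = W x := by
      intro n
      induction n with
      | zero => intro x; simp
      | succ n ih =>
        intro x
        have h4 : x + ((n + 1 : ℕ) : ℤ) • ez 0 = (x + (n : ℤ) • ez 0) + ez 0 := by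
          push_cast
          rw [add_smul, one_smul, add_assoc]
        rw [h4, h2, ih]
    apply hw
    funext x
    by_contra hne
    have h4 : W x ≠ 0 := by
      rw [hWd, b1_ext_mem]
      exact hne
    have h5 : ∀ n : ℕ, (x : Z3) + (n : ℤ) • ez 0 ∈ B := by
      intro n
      by_contra h6
      have h7 := hW _ h6
      rw [h3] at h7
      exact h4 h7
    have hinj : Function.Injective fun n : ℕ => (x : Z3) + (n : ℤ) • ez 0 := by
      intro m n hmn
      have h6 := congrFun hmn 0
      simp only [Pi.add_apply, Pi.smul_apply, b1_ez_apply, if_true, smul_eq_mul, mul_one] at h6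
      exact_mod_cast add_left_cancel h6
    exact Set.infinite_of_injective_forall_mem hinj h5 B.finite_toSet

end CLR
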