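import Pool.Agent.CLR.I3

/-!
# CLR row D1: discrete gradient energy of a test function

`h * dirE (x ↦ φ(h x)) = ∫_{E3} g_h(X) dX`, where for `X ∈ cell h x`
`g_h(X) = Σ_i ((φ(pt h (x + e_i)) - φ(pt h x))/h)^2` (cells have volume `h^3`; the sum over `x ∈ Z^3` has
finitely many nonzero terms since `φ` has compact support; `cell_vol`, `cell_disj`, `cell_cover`,
`integral` of a function constant on cells: `HasSum`/`integral_iUnion`, or define
`⌊X/h⌋` and write the sum as an integral).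
As `h → 0+`, `g_h(X) → Σ_i (∂_i φ (X))^2 = ‖fderiv ℝ φ X‖^2` for every `X` (mean value theorem on the
segment from `pt h x` to `pt h x + h e_i`, which tends to `X`; continuity of `fderiv`).  Dominated by
`3 C^2 1_{‖X‖ ≤ R+4}` for `h ≤ 1` (`C` = Lipschitz constant of `φ`).  Dominated convergence.
The norm of a linear form `L` on `E3` satisfies `‖L‖^2 = Σ_i (L (EuclideanSpace.single i 1))^2`.
-/

set_option autoImplicit false

open MeasureTheory Set Filter Topology

noncomputable section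

namespace CLR

/-- the lattice point of the cell containing `X` -/
private def d1_fl (h : ℝ) (X : E3) : Z3 := fun i => ⌊X i / h⌋

private theorem d1_mem_cell {h : ℝ} (hh : 0 < h) (X : E3) (x : Z3) :
    X ∈ cell h x ↔ d1_fl h X = x := by
  unfold cell d1_fl
  rw [Set.mem_setOf_eq, funext_iff]
  apply forall_congr'
  intro i
  rw [Int.floor_eq_iff, le_div_iff₀ hh, div_lt_iff₀ hh, mul_comm h, mul_comm h]

private theorem d1_pt_add (h : ℝ) (x : Z3) (i : Fin 3) :
    pt h (x + ez i) = pt h x + h • EuclideanSpace.single i (1 : ℝ) := by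
  ext j
  simp only [pt, ez, Pi.add_apply, PiLp.add_apply, PiLp.smul_apply, EuclideanSpace.single_apply,
    smul_eq_mul, Pi.single_apply]
  by_cases hji : j = i
  · simp [hji, mul_add]
  · simp [hji]

private theorem d1_norm_single (h : ℝ) (i : Fin 3) :
    ‖h • (EuclideanSpace.single i (1 : ℝ) : E3)‖ = |h| := by
  rw [norm_smul, EuclideanSpace.norm_single, norm_one, mul_one, Real.norm_eq_abs]

private theorem d1_dist {h : ℝ} (hh : 0 < h) (X : E3) : ‖X - pt h (d1_fl h X)‖ ≤ 2 * h := by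
  have h1 := (d1_mem_cell hh X (d1_fl h X)).2 rfl
  unfold cell at h1
  rw [Set.mem_setOf_eq] at h1
  rw [EuclideanSpace.norm_eq]
  apply Real.sqrt_le_iff.mpr
  refine ⟨by positivity, ?_⟩
  have h2 : ∀ i : Fin 3, ‖(X - pt h (d1_fl h X)) i‖ ^ 2 ≤ h ^ 2 := by
    intro i
    have h3 := h1 i
    have h4 : (X - pt h (d1_fl h X)) i = X i - h * (d1_fl h X i : ℝ) := rfl
    rw [h4, Real.norm_eq_abs, sq_abs]
    have h5 : 0 ≤ X i - h * (d1_fl h X i : ℝ) := by linarith [h3.1]
    have h6 : X i - h * (d1_fl h X i : ℝ) ≤ h := by linarith [h3.2]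
    exact pow_le_pow_left₀ h5 h6 2
  calc ∑ i : Fin 3, ‖(X - pt h (d1_fl h X)) i‖ ^ 2 ≤ ∑ _i : Fin 3, h ^ 2 :=
        Finset.sum_le_sum (fun i _ => h2 i)
    _ = 3 * h ^ 2 := by simp
    _ ≤ (2 * h) ^ 2 := by nlinarith [sq_nonneg h]

/-- the discrete gradient at a lattice point -/
private def d1_G (φ : E3 → ℝ) (h : ℝ) (x : Z3) : ℝ :=
  ∑ i : Fin 3, ((φ (pt h (x + ez i)) - φ (pt h x)) / h) ^ 2

private theorem d1_meas_fl (h : ℝ) : Measurable (d1_fl h) := by
  unfold d1_fl
  apply measurable_pi_lambda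
  intro i
  apply Int.measurable_floor.comp
  apply Measurable.div_const
  exact (EuclideanSpace.proj (𝕜 := ℝ) i).continuous.measurable

private theorem d1_meas (φ : E3 → ℝ) (h : ℝ) : Measurable (fun X => d1_G φ h (d1_fl h X)) :=
  (measurable_of_countable (d1_G φ h)).comp (d1_meas_fl h)

private theorem d1_norm_sq (L : E3 →L[ℝ] ℝ) :
    ‖L‖ ^ 2 = ∑ i : Fin 3, (L (EuclideanSpace.single i (1 : ℝ))) ^ 2 := by
  set v : E3 := (InnerProductSpace.toDual ℝ E3).symm L with hv
  have h1 : ‖L‖ = ‖v‖ := by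
    rw [hv, LinearIsometryEquiv.norm_map]
  have h2 : ∀ w, L w = inner ℝ v w := by
    intro w
    rw [hv, InnerProductSpace.toDual_symm_apply]
  rw [h1, EuclideanSpace.norm_sq_eq]
  apply Finset.sum_congr rfl
  intro i _
  rw [h2, EuclideanSpace.inner_single_right, Real.norm_eq_abs, sq_abs]
  simp

private theorem d1_bound {φ : E3 → ℝ} {C : NNReal} (hC : LipschitzWith C φ) {R : ℝ}
    (hR : ∀ X, R < ‖X‖ → φ X = 0) {h : ℝ} (hh : 0 < h) (h1 : h ≤ 1) (X : E3) :
    ‖d1_G φ h (d1_fl h X)‖ ≤ (Metric.closedBall (0 : E3) (R + 3)).indicator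
      (fun _ => 3 * (C : ℝ) ^ 2) X := by
  have hnn : 0 ≤ d1_G φ h (d1_fl h X) := Finset.sum_nonneg (fun i _ => sq_nonneg _)
  rw [Real.norm_of_nonneg hnn]
  by_cases hX : X ∈ Metric.closedBall (0 : E3) (R + 3)
  · rw [Set.indicator_of_mem hX]
    unfold d1_G
    calc ∑ i : Fin 3, ((φ (pt h (d1_fl h X + ez i)) - φ (pt h (d1_fl h X))) / h) ^ 2
        ≤ ∑ _i : Fin 3, (C : ℝ) ^ 2 := by
          apply Finset.sum_le_sum
          intro i _
          rw [← sq_abs]
          apply pow_le_pow_left₀ (abs_nonneg _)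
          rw [abs_div, abs_of_pos hh, div_le_iff₀ hh]
          have h2 := hC.dist_le_mul (pt h (d1_fl h X + ez i)) (pt h (d1_fl h X))
          rw [Real.dist_eq, dist_eq_norm, d1_pt_add, add_sub_cancel_left, d1_norm_single,
            abs_of_pos hh] at h2
          rw [d1_pt_add]
          exact h2
      _ = 3 * (C : ℝ) ^ 2 := by simp
  · rw [Set.indicator_of_notMem hX]
    apply le_of_eq
    rw [mem_closedBall_zero_iff, not_le] at hX
    have hd := d1_dist hh X
    have hp : R + 1 < ‖pt h (d1_fl h X)‖ := by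
      have h3 : ‖X‖ ≤ ‖X - pt h (d1_fl h X)‖ + ‖pt h (d1_fl h X)‖ := by
        have := norm_add_le (X - pt h (d1_fl h X)) (pt h (d1_fl h X))
        rwa [sub_add_cancel] at this
      linarith
    unfold d1_G
    apply Finset.sum_eq_zero
    intro i _
    have h4 : φ (pt h (d1_fl h X)) = 0 := hR _ (by linarith)
    have h5 : φ (pt h (d1_fl h X + ez i)) = 0 := by
      apply hR
      rw [d1_pt_add]
      have h6 := norm_sub_norm_le (pt h (d1_fl h X)) (-(h • (EuclideanSpace.single i (1 : ℝ) : E3)))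
      rw [norm_neg, d1_norm_single, abs_of_pos hh, sub_neg_eq_add] at h6
      linarith
    rw [h4, h5]
    simp

private theorem d1_lim {φ : E3 → ℝ} (hφ : ContDiff ℝ (⊤ : ℕ∞) φ) (X : E3) :
    Tendsto (fun h : ℝ => d1_G φ h (d1_fl h X)) (𝓝[>] 0) (𝓝 (‖fderiv ℝ φ X‖ ^ 2)) := by
  rw [d1_norm_sq]
  unfold d1_G
  apply tendsto_finset_sum
  intro i _
  apply Tendsto.pow
  have hst : HasStrictFDerivAt φ (fderiv ℝ φ X) X :=
    hφ.contDiffAt.hasStrictFDerivAt (by simp)
  have hlo := hst.isLittleO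
  have hpt : Tendsto (fun h : ℝ => pt h (d1_fl h X)) (𝓝[>] 0) (𝓝 X) := by
    rw [tendsto_iff_norm_sub_tendsto_zero]
    have h1 : Tendsto (fun h : ℝ => 2 * h) (𝓝[>] 0) (𝓝 0) := by
      have : Tendsto (fun h : ℝ => 2 * h) (𝓝 0) (𝓝 (2 * 0)) := tendsto_id.const_mul 2
      rw [mul_zero] at this
      exact this.mono_left nhdsWithin_le_nhds
    apply squeeze_zero' (Eventually.of_forall (fun h => norm_nonneg _)) _ h1
    filter_upwards [self_mem_nhdsWithin] with h hh
    rw [norm_sub_rev]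
    exact d1_dist hh X
  have hpt2 : Tendsto (fun h : ℝ => pt h (d1_fl h X + ez i)) (𝓝[>] 0) (𝓝 X) := by
    have h1 : Tendsto (fun h : ℝ => h • (EuclideanSpace.single i (1 : ℝ) : E3)) (𝓝[>] 0) (𝓝 0) := by
      have : Tendsto (fun h : ℝ => h • (EuclideanSpace.single i (1 : ℝ) : E3)) (𝓝 0)
          (𝓝 ((0 : ℝ) • (EuclideanSpace.single i (1 : ℝ) : E3))) := tendsto_id.smul_const _
      rw [zero_smul] at this
      exact this.mono_left nhdsWithin_le_nhds
    have h2 := hpt.add h1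
    rw [add_zero] at h2
    refine h2.congr (fun h => ?_)
    rw [d1_pt_add]
  have hcomp := hlo.comp_tendsto (hpt2.prodMk_nhds hpt)
  have hcomp2 : (fun h : ℝ => φ (pt h (d1_fl h X + ez i)) - φ (pt h (d1_fl h X))
      - h * (fderiv ℝ φ X) (EuclideanSpace.single i (1 : ℝ))) =o[𝓝[>] 0] (fun h : ℝ => h) := by
    have h3 : (fun h : ℝ => φ (pt h (d1_fl h X + ez i)) - φ (pt h (d1_fl h X))
      - h * (fderiv ℝ φ X) (EuclideanSpace.single i (1 : ℝ))) =
      ((fun p : E3 × E3 => φ p.1 - φ p.2 - (fderiv ℝ φ X) (p.1 - p.2)) ∘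
        (fun h : ℝ => (pt h (d1_fl h X + ez i), pt h (d1_fl h X)))) := by
      funext h
      simp only [Function.comp_apply]
      rw [d1_pt_add, add_sub_cancel_left, map_smul, smul_eq_mul]
    rw [h3]
    apply hcomp.trans_isBigO
    apply Asymptotics.IsBigO.of_bound 1
    filter_upwards with h
    simp only [Function.comp_apply]
    rw [d1_pt_add, add_sub_cancel_left, d1_norm_single, one_mul, Real.norm_eq_abs]
  have h4 := hcomp2.tendsto_div_nhds_zero
  have h5 : Tendsto (fun h : ℝ => (φ (pt h (d1_fl h X + ez i)) - φ (pt h (d1_fl h X))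
      - h * (fderiv ℝ φ X) (EuclideanSpace.single i (1 : ℝ))) / h
      + (fderiv ℝ φ X) (EuclideanSpace.single i (1 : ℝ))) (𝓝[>] 0)
      (𝓝 (0 + (fderiv ℝ φ X) (EuclideanSpace.single i (1 : ℝ)))) := h4.add_const _
  rw [zero_add] at h5
  refine h5.congr' ?_
  filter_upwards [self_mem_nhdsWithin] with h hh
  have hh' : h ≠ 0 := (ne_of_gt hh)
  field_simp
  ring

private theorem d1_integral {φ : E3 → ℝ} {h : ℝ} (hh : 0 < h)
    (hint : Integrable (fun X => d1_G φ h (d1_fl h X))) :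
    h * dirE (fun x => φ (pt h x)) = ∫ X : E3, d1_G φ h (d1_fl h X) := by
  have h1 := hasSum_integral_iUnion (f := fun X => d1_G φ h (d1_fl h X)) (μ := volume)
    (fun x => cell_meas h x) (cell_disj h hh) hint.integrableOn
  rw [cell_cover h hh, Measure.restrict_univ] at h1
  rw [← h1.tsum_eq]
  have h2 : ∀ x : Z3, ∫ X in cell h x, d1_G φ h (d1_fl h X)
      = h * ∑ i : Fin 3, (φ (pt h (x + ez i)) - φ (pt h x)) ^ 2 := by
    intro x
    have h3 : ∫ X in cell h x, d1_G φ h (d1_fl h X) = ∫ _X in cell h x, d1_G φ h x := by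
      apply setIntegral_congr_fun (cell_meas h x)
      intro X hX
      simp only
      rw [(d1_mem_cell hh X x).1 hX]
    rw [h3, setIntegral_const, smul_eq_mul, measureReal_def, cell_vol h hh]
    unfold d1_G
    rw [Finset.mul_sum, Finset.mul_sum]
    apply Finset.sum_congr rfl
    intro i _
    field_simp
  simp only [h2]
  unfold dirE
  rw [tsum_mul_left]

theorem grad_lim (φ : E3 → ℝ) (hφ : ContDiff ℝ (⊤ : ℕ∞) φ) (hc : HasCompactSupport φ) :
    Tendsto (fun h : ℝ => h * dirE (fun x => φ (pt h x))) (𝓝[>] 0)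
      (𝓝 (∫ x : E3, ‖fderiv ℝ φ x‖ ^ 2)) := by
  obtain ⟨C, hC⟩ := ContDiff.lipschitzWith_of_hasCompactSupport hc hφ (by simp)
  obtain ⟨R, hR⟩ : ∃ R : ℝ, ∀ X, R < ‖X‖ → φ X = 0 := by
    obtain ⟨R, hR⟩ := hc.isCompact.isBounded.subset_closedBall (0 : E3)
    refine ⟨R, fun X hX => ?_⟩
    by_contra hne
    have h1 : X ∈ tsupport φ := subset_tsupport φ hne
    have h2 := hR h1
    rw [mem_closedBall_zero_iff] at h2
    linarith
  set bound : E3 → ℝ := (Metric.closedBall (0 : E3) (R + 3)).indicator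
      (fun _ => 3 * (C : ℝ) ^ 2) with hbound
  have hbint : Integrable bound := by
    rw [hbound, integrable_indicator_iff measurableSet_closedBall]
    exact integrableOn_const (measure_closedBall_lt_top.ne)
  have hIoc : ∀ᶠ h : ℝ in 𝓝[>] 0, 0 < h ∧ h ≤ 1 := by
    have := Ioc_mem_nhdsGT (show (0 : ℝ) < 1 by norm_num)
    filter_upwards [this] with h hh
    exact ⟨hh.1, hh.2⟩
  have hlim : Tendsto (fun h : ℝ => ∫ X : E3, d1_G φ h (d1_fl h X)) (𝓝[>] 0)
      (𝓝 (∫ x : E3, ‖fderiv ℝ φ x‖ ^ 2)) := by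
    apply tendsto_integral_filter_of_dominated_convergence bound
    · exact Eventually.of_forall (fun h => (d1_meas φ h).aestronglyMeasurable)
    · filter_upwards [hIoc] with h hh
      exact Eventually.of_forall (fun X => d1_bound hC hR hh.1 hh.2 X)
    · exact hbint
    · exact Eventually.of_forall (fun X => d1_lim hφ X)
  refine hlim.congr' ?_
  filter_upwards [hIoc] with h hh
  symm
  apply d1_integral hh.1
  apply hbint.mono' (d1_meas φ h).aestronglyMeasurable
  exact Eventually.of_forall (fun X => d1_bound hC hR hh.1 hh.2 X)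

end CLR
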