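import Pool.Agent.CLR.I3

/-!
# CLR row D2a: the potential term

`pot_lim`: `Σ_x (∫_{cell h x} W) φ(pt h x)^2 = ∫ W(X) φ(pt h ⌊X/h⌋)^2 dX` (for `h > 0`, finitely many nonzero
terms, disjoint cells covering `E3`: `cell_disj`, `cell_cover`, `cell_meas`), and
`φ(pt h ⌊X/h⌋) → φ(X)` as `h → 0+` (`‖pt h ⌊X/h⌋ - X‖ ≤ √3 h`, `φ` continuous); dominated by
`W(X) C 1_{‖X‖ ≤ R+2}` for `h ≤ 1`, integrable since `W ≤ 1 + W^{3/2}`.
-/

set_option autoImplicit false

open MeasureTheory Set Filter Topology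

noncomputable section

namespace CLR

/-- coordinatewise floor -/
private def d2a_fl (h : ℝ) (X : E3) : Z3 := fun i => ⌊X i / h⌋

private theorem d2a_mem (h : ℝ) (hh : 0 < h) (x : Z3) (X : E3) :
    X ∈ cell h x ↔ d2a_fl h X = x := by
  unfold cell d2a_fl
  rw [Set.mem_ofPred_eq, funext_iff]
  refine forall_congr' fun i => ?_
  rw [Int.floor_eq_iff, le_div_iff₀ hh, div_lt_iff₀ hh]
  constructor
  · rintro ⟨h1, h2⟩
    exact ⟨by linarith [mul_comm h (x i : ℝ)], by linarith [mul_comm h ((x i : ℝ) + 1)]⟩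
  · rintro ⟨h1, h2⟩
    exact ⟨by linarith [mul_comm h (x i : ℝ)], by linarith [mul_comm h ((x i : ℝ) + 1)]⟩

private theorem d2a_dist (h : ℝ) (hh : 0 < h) (X : E3) : ‖pt h (d2a_fl h X) - X‖ ≤ 2 * h := by
  rw [EuclideanSpace.norm_eq]
  have h1 : ∀ i : Fin 3, ‖(pt h (d2a_fl h X) - X) i‖ ^ 2 ≤ h ^ 2 := by
    intro i
    have e : (pt h (d2a_fl h X) - X) i = h * (⌊X i / h⌋ : ℝ) - X i := rfl
    rw [e, Real.norm_eq_abs, sq_abs]
    have a1 : (⌊X i / h⌋ : ℝ) ≤ X i / h := Int.floor_le _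
    have a2 : X i / h < (⌊X i / h⌋ : ℝ) + 1 := Int.lt_floor_add_one _
    have b1 : h * (⌊X i / h⌋ : ℝ) ≤ X i := by
      rw [le_div_iff₀ hh] at a1
      linarith [mul_comm h (⌊X i / h⌋ : ℝ)]
    have b2 : X i < h * (⌊X i / h⌋ : ℝ) + h := by
      rw [div_lt_iff₀ hh] at a2
      nlinarith
    nlinarith
  have h2 : ∑ i : Fin 3, ‖(pt h (d2a_fl h X) - X) i‖ ^ 2 ≤ (2 * h) ^ 2 := by
    calc ∑ i : Fin 3, ‖(pt h (d2a_fl h X) - X) i‖ ^ 2 ≤ ∑ _i : Fin 3, h ^ 2 :=
          Finset.sum_le_sum fun i _ => h1 i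
      _ = 3 * h ^ 2 := by simp
      _ ≤ (2 * h) ^ 2 := by nlinarith [sq_nonneg h]
  calc √(∑ i : Fin 3, ‖(pt h (d2a_fl h X) - X) i‖ ^ 2) ≤ √((2 * h) ^ 2) := Real.sqrt_le_sqrt h2
    _ = 2 * h := Real.sqrt_sq (by linarith)

private theorem d2a_meas_fl (h : ℝ) : Measurable (d2a_fl h) := by
  unfold d2a_fl
  refine measurable_pi_lambda _ fun i => ?_
  refine Int.measurable_floor.comp ?_
  refine Measurable.div_const ?_ _
  exact (EuclideanSpace.proj i : E3 →L[ℝ] ℝ).continuous.measurable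

theorem pot_lim (W : E3 → ℝ) (hW : Measurable W) (hW0 : ∀ x, 0 ≤ W x)
    (hWi : Integrable (fun x => W x ^ (3 / 2 : ℝ))) (φ : E3 → ℝ) (hφ : Continuous φ)
    (hc : HasCompactSupport φ) :
    Tendsto (fun h : ℝ => ∑' x : Z3, (∫ X in cell h x, W X) * φ (pt h x) ^ 2) (𝓝[>] 0)
      (𝓝 (∫ x : E3, W x * φ x ^ 2)) := by
  classical
  obtain ⟨C, hC⟩ := hφ.bounded_above_of_compact_support hc
  have hC0 : 0 ≤ C := le_trans (norm_nonneg _) (hC 0)
  obtain ⟨R, hR⟩ := hc.isCompact.isBounded.subset_closedBall (0 : E3)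
  have hφ0 : ∀ x : E3, R < ‖x‖ → φ x = 0 := by
    intro x hx
    by_contra hne
    have h1 : x ∈ tsupport φ := subset_tsupport _ hne
    have h2 := hR h1
    rw [mem_closedBall_zero_iff] at h2
    linarith
  set G : ℝ → E3 → ℝ := fun h X => W X * φ (pt h (d2a_fl h X)) ^ 2 with hG
  set bd : E3 → ℝ := (Metric.closedBall (0 : E3) (R + 2)).indicator
    (fun X => (1 + W X ^ (3 / 2 : ℝ)) * C ^ 2) with hbd
  have hWle : ∀ X, W X ≤ 1 + W X ^ (3 / 2 : ℝ) := by
    intro X
    have h0 := hW0 X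
    have hp : 0 ≤ W X ^ (3 / 2 : ℝ) := Real.rpow_nonneg h0 _
    rcases le_total (W X) 1 with h1 | h1
    · linarith
    · have h2 : W X ^ (1 : ℝ) ≤ W X ^ (3 / 2 : ℝ) :=
        Real.rpow_le_rpow_of_exponent_le h1 (by norm_num)
      rw [Real.rpow_one] at h2
      linarith
  have hGm : ∀ h, AEStronglyMeasurable (G h) volume := by
    intro h
    have m1 : Measurable (fun X : E3 => φ (pt h (d2a_fl h X))) := by
      have m2 : Measurable (fun z : Z3 => φ (pt h z)) := measurable_of_countable _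
      exact m2.comp (d2a_meas_fl h)
    exact (hW.mul (m1.pow_const 2)).aestronglyMeasurable
  have hbi : Integrable bd := by
    rw [hbd, integrable_indicator_iff Metric.isClosed_closedBall.measurableSet]
    refine Integrable.mul_const ?_ _
    refine Integrable.add ?_ hWi.integrableOn
    exact integrableOn_const (isCompact_closedBall (0 : E3) (R + 2)).measure_lt_top.ne
  have hbound : ∀ h, 0 < h → h ≤ 1 → ∀ X, ‖G h X‖ ≤ bd X := by
    intro h hh h1 X
    have hd := d2a_dist h hh X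
    rw [hbd, Set.indicator_apply]
    split_ifs with hX
    · have e : ‖G h X‖ = W X * ‖φ (pt h (d2a_fl h X))‖ ^ 2 := by
        simp only [hG]
        rw [norm_mul, norm_pow, Real.norm_of_nonneg (hW0 X)]
      rw [e]
      have h3 : ‖φ (pt h (d2a_fl h X))‖ ^ 2 ≤ C ^ 2 :=
        pow_le_pow_left₀ (norm_nonneg _) (hC _) 2
      exact mul_le_mul (hWle X) h3 (sq_nonneg _) (le_trans (hW0 X) (hWle X))
    · have h4 : R < ‖pt h (d2a_fl h X)‖ := by
        rw [mem_closedBall_zero_iff, not_le] at hX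
        have h5 : ‖X‖ ≤ ‖pt h (d2a_fl h X)‖ + ‖pt h (d2a_fl h X) - X‖ := by
          have := norm_sub_le (pt h (d2a_fl h X)) (pt h (d2a_fl h X) - X)
          rwa [sub_sub_cancel] at this
        linarith
      simp only [hG]
      rw [hφ0 _ h4]
      simp
  have hint : ∀ h, 0 < h → h ≤ 1 → Integrable (G h) := by
    intro h hh h1
    exact Integrable.mono' hbi (hGm h) (Filter.Eventually.of_forall (hbound h hh h1))
  have hsum : ∀ h, 0 < h → h ≤ 1 →
      ∑' x : Z3, (∫ X in cell h x, W X) * φ (pt h x) ^ 2 = ∫ X, G h X := by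
    intro h hh h1
    have e1 : ∫ X, G h X = ∫ X in ⋃ x : Z3, cell h x, G h X := by
      rw [cell_cover h hh, setIntegral_univ]
    rw [e1, integral_iUnion (fun x => cell_meas h x) (cell_disj h hh)
      (by rw [cell_cover h hh]; exact (hint h hh h1).integrableOn)]
    refine tsum_congr fun x => ?_
    rw [← integral_mul_const]
    refine setIntegral_congr_fun (cell_meas h x) ?_
    intro X hX
    rw [d2a_mem h hh] at hX
    simp only [hG]
    rw [hX]
  have hlim : Tendsto (fun h : ℝ => ∫ X, G h X) (𝓝[>] 0) (𝓝 (∫ x : E3, W x * φ x ^ 2)) := by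
    refine tendsto_integral_filter_of_dominated_convergence bd
      (Filter.Eventually.of_forall hGm) ?_ hbi ?_
    · filter_upwards [Ioc_mem_nhdsGT (zero_lt_one' ℝ)] with h hh
      exact Filter.Eventually.of_forall (hbound h hh.1 hh.2)
    · refine Filter.Eventually.of_forall fun X => ?_
      have t1 : Tendsto (fun h : ℝ => pt h (d2a_fl h X)) (𝓝[>] 0) (𝓝 X) := by
        rw [tendsto_iff_norm_sub_tendsto_zero]
        have t2 : Tendsto (fun h : ℝ => 2 * h) (𝓝[>] 0) (𝓝 0) := by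
          have : Tendsto (fun h : ℝ => 2 * h) (𝓝 0) (𝓝 (2 * 0)) :=
            (continuous_const.mul continuous_id).tendsto 0
          rw [mul_zero] at this
          exact this.mono_left nhdsWithin_le_nhds
        refine squeeze_zero' (Filter.Eventually.of_forall fun h => norm_nonneg _) ?_ t2
        filter_upwards [self_mem_nhdsWithin] with h hh
        exact d2a_dist h hh X
      have t3 : Tendsto (fun h : ℝ => φ (pt h (d2a_fl h X))) (𝓝[>] 0) (𝓝 (φ X)) :=
        (hφ.tendsto X).comp t1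
      exact (t3.pow 2).const_mul (W X)
  refine hlim.congr' ?_
  filter_upwards [Ioc_mem_nhdsGT (zero_lt_one' ℝ)] with h hh
  exact (hsum h hh.1 hh.2).symm

end CLR
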