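import Pool.Agent.CLR.I3

/-!
# CLR row D2b: Hölder on cells

`cell_holder`: Hölder (or Jensen for the convex function `t^{3/2}` on the probability space
`cell h x` with `dX/h^3`): `∫_{cell} W ≤ (∫_{cell} W^{3/2})^{2/3} (h^3)^{1/3}`, i.e.
`((1/h) ∫_{cell} W)^{3/2} ≤ ∫_{cell} W^{3/2}`.
`cell_sum`: disjoint measurable cells, nonnegative integrable function.
`cell_small`: `(1/h) ∫_cell W ≤ (∫_cell W^{3/2})^{2/3}` and `∫_{cell h x} W^{3/2} ≤ ε^{3/2}` for all `x` when
`h` is small, by absolute continuity of the integral (`vol(cell h x) = h^3 → 0`;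
`exists_pos_setLIntegral_lt_of_measure_lt` or `Integrable`/`uniformIntegrable` lemmas).
-/

set_option autoImplicit false

open MeasureTheory Set Filter Topology

noncomputable section

namespace CLR

theorem cell_holder (W : E3 → ℝ) (hW : Measurable W) (hW0 : ∀ x, 0 ≤ W x)
    (hWi : Integrable (fun x => W x ^ (3 / 2 : ℝ))) (h : ℝ) (hh : 0 < h) (x : Z3) :
    ((1 / h) * ∫ X in cell h x, W X) ^ (3 / 2 : ℝ) ≤ ∫ X in cell h x, W X ^ (3 / 2 : ℝ) := by
  have hpq : (3 / 2 : ℝ).HolderConjugate 3 := by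
    rw [Real.holderConjugate_iff]
    constructor <;> norm_num
  have hfin : IsFiniteMeasure (volume.restrict (cell h x)) :=
    ⟨by rw [Measure.restrict_apply_univ]; exact (cell_vol_ne_top h x).lt_top⟩
  have hf : MemLp W (ENNReal.ofReal (3 / 2)) (volume.restrict (cell h x)) := by
    rw [← integrable_norm_rpow_iff hW.aestronglyMeasurable (by simp) ENNReal.ofReal_ne_top]
    rw [ENNReal.toReal_ofReal (by norm_num)]
    refine (hWi.integrableOn (s := cell h x)).congr ?_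
    filter_upwards with X
    rw [Real.norm_of_nonneg (hW0 X)]
  have hg : MemLp (fun _ : E3 => (1 : ℝ)) (ENNReal.ofReal 3) (volume.restrict (cell h x)) :=
    memLp_const _
  have key := integral_mul_le_Lp_mul_Lq_of_nonneg hpq
    (μ := volume.restrict (cell h x)) (f := W) (g := fun _ => (1 : ℝ))
    (Eventually.of_forall hW0) (Eventually.of_forall fun _ => zero_le_one) hf hg
  simp only [mul_one, Real.one_rpow] at key
  rw [integral_const, smul_eq_mul, mul_one, Measure.real, Measure.restrict_apply_univ,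
    cell_vol h hh x] at key
  set J := ∫ X in cell h x, W X ^ (3 / 2 : ℝ) with hJ
  have hJ0 : 0 ≤ J := integral_nonneg fun X => Real.rpow_nonneg (hW0 X) _
  have hI0 : 0 ≤ ∫ X in cell h x, W X := integral_nonneg hW0
  have h3 : (h ^ 3) ^ (1 / (3 : ℝ)) = h := by
    rw [← Real.rpow_natCast, ← Real.rpow_mul hh.le]
    norm_num
  rw [h3] at key
  have h1 : (1 / h) * ∫ X in cell h x, W X ≤ J ^ (1 / (3 / 2 : ℝ)) := by
    rw [one_div, inv_mul_le_iff₀ hh]
    linarith
  calc ((1 / h) * ∫ X in cell h x, W X) ^ (3 / 2 : ℝ)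
      ≤ (J ^ (1 / (3 / 2 : ℝ))) ^ (3 / 2 : ℝ) := by
        apply Real.rpow_le_rpow (by positivity) h1 (by norm_num)
    _ = J := by
        rw [← Real.rpow_mul hJ0]
        norm_num

theorem cell_sum (W : E3 → ℝ) (hW : Measurable W) (hW0 : ∀ x, 0 ≤ W x)
    (hWi : Integrable (fun x => W x ^ (3 / 2 : ℝ))) (h : ℝ) (hh : 0 < h) (B : Finset Z3) :
    ∑ x ∈ B, ∫ X in cell h x, W X ^ (3 / 2 : ℝ) ≤ ∫ X : E3, W X ^ (3 / 2 : ℝ) := by
  rw [← integral_biUnion_finset B (fun i _ => cell_meas h i)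
    (fun i _ j _ hij => cell_disj h hh hij) (fun i _ => hWi.integrableOn)]
  exact setIntegral_le_integral hWi (Eventually.of_forall fun X => Real.rpow_nonneg (hW0 X) _)

theorem cell_small (W : E3 → ℝ) (hW : Measurable W) (hW0 : ∀ x, 0 ≤ W x)
    (hWi : Integrable (fun x => W x ^ (3 / 2 : ℝ))) (ε : ℝ) (hε : 0 < ε) :
    ∀ᶠ h in 𝓝[>] (0 : ℝ), ∀ x : Z3, (1 / h) * ∫ X in cell h x, W X ≤ ε := by
  have hfin : ∫⁻ X, ENNReal.ofReal (W X ^ (3 / 2 : ℝ)) ≠ ⊤ := by
    have := hWi.lintegral_lt_top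
    exact this.ne
  have hε2 : ENNReal.ofReal (ε ^ (3 / 2 : ℝ)) ≠ 0 := by
    rw [Ne, ENNReal.ofReal_eq_zero, not_le]
    positivity
  obtain ⟨δ, hδ, hδ2⟩ := exists_pos_setLIntegral_lt_of_measure_lt hfin hε2
  have hlim : Tendsto (fun h : ℝ => ENNReal.ofReal (h ^ 3)) (𝓝[>] 0) (𝓝 0) := by
    have : Tendsto (fun h : ℝ => ENNReal.ofReal (h ^ 3)) (𝓝 0) (𝓝 (ENNReal.ofReal ((0 : ℝ) ^ 3))) :=
      (ENNReal.continuous_ofReal.comp (continuous_pow 3)).tendsto 0
    simp only [ne_eq, OfNat.ofNat_ne_zero, not_false_eq_true, zero_pow, ENNReal.ofReal_zero] at this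
    exact this.mono_left nhdsWithin_le_nhds
  filter_upwards [hlim.eventually (gt_mem_nhds hδ), self_mem_nhdsWithin] with h h1 h0 x
  have hh : 0 < h := h0
  have hvol : volume (cell h x) = ENNReal.ofReal (h ^ 3) := by
    rw [← cell_vol h hh x, ENNReal.ofReal_toReal (cell_vol_ne_top h x)]
  have h2 := hδ2 (cell h x) (by rw [hvol]; exact h1)
  have h3 : ∫ X in cell h x, W X ^ (3 / 2 : ℝ) ≤ ε ^ (3 / 2 : ℝ) := by
    rw [integral_eq_lintegral_of_nonneg_ae
      (Eventually.of_forall fun X => Real.rpow_nonneg (hW0 X) _) hWi.integrableOn.1]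
    exact ENNReal.toReal_le_of_le_ofReal (by positivity) h2.le
  have h4 := (cell_holder W hW hW0 hWi h hh x).trans h3
  have hI0 : 0 ≤ (1 / h) * ∫ X in cell h x, W X :=
    mul_nonneg (by positivity) (integral_nonneg hW0)
  exact (Real.rpow_le_rpow_iff hI0 hε.le (by norm_num)).1 h4

end CLR
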