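import Mathlib

/-!
# CLR row D3: negative definiteness is an open condition

Proof.  On the compact unit sphere `S = {c | Σ c_i^2 = 1}` the continuous function
`c ↦ Σ_i Σ_j c_i M0 i j c_j` has a maximum `-2 η < 0` (if `n = 0` there is no `c ≠ 0`).  For `t` late,
`|M t i j - M0 i j| ≤ η / (n^2+1)` for all `i, j`, so the form of `M t` is `≤ -η < 0` on `S`
(`|c_i| ≤ 1`), and by homogeneity negative for every `c ≠ 0`.
-/

set_option autoImplicit false

open MeasureTheory Set Filter Topology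

noncomputable section

namespace CLR

theorem evneg {n : ℕ} (M : ℝ → Fin n → Fin n → ℝ) (M0 : Fin n → Fin n → ℝ) (l : Filter ℝ)
    (h : ∀ i j, Tendsto (fun t => M t i j) l (𝓝 (M0 i j)))
    (hneg : ∀ c : Fin n → ℝ, c ≠ 0 → ∑ i, ∑ j, c i * M0 i j * c j < 0) :
    ∀ᶠ t in l, ∀ c : Fin n → ℝ, c ≠ 0 → ∑ i, ∑ j, c i * M t i j * c j < 0 := by
  classical
  rcases Nat.eq_zero_or_pos n with hn | hn
  · subst hn
    refine Filter.Eventually.of_forall fun t c hc => ?_
    exact absurd (funext fun i => i.elim0) hc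
  set S : Set (Fin n → ℝ) := {c | ∑ i, c i ^ 2 = 1} with hS
  have hcoord : ∀ c ∈ S, ∀ i, |c i| ≤ 1 := by
    intro c hc i
    have h1 : c i ^ 2 ≤ ∑ j, c j ^ 2 :=
      Finset.single_le_sum (f := fun j => c j ^ 2) (fun j _ => sq_nonneg (c j)) (Finset.mem_univ i)
    rw [show ∑ j, c j ^ 2 = 1 from hc] at h1
    exact (sq_le_one_iff_abs_le_one _).1 h1
  have hclosed : IsClosed S := by
    have hcont : Continuous fun c : Fin n → ℝ => ∑ i, c i ^ 2 := by fun_prop
    exact isClosed_eq hcont continuous_const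
  have hbdd : Bornology.IsBounded S := by
    rw [isBounded_iff_forall_norm_le]
    refine ⟨1, fun c hc => ?_⟩
    rw [pi_norm_le_iff_of_nonneg zero_le_one]
    intro i
    rw [Real.norm_eq_abs]
    exact hcoord c hc i
  have hcomp : IsCompact S := Metric.isCompact_of_isClosed_isBounded hclosed hbdd
  have hne : S.Nonempty := by
    refine ⟨Pi.single ⟨0, hn⟩ 1, ?_⟩
    show ∑ i, (Pi.single (⟨0, hn⟩ : Fin n) (1 : ℝ) : Fin n → ℝ) i ^ 2 = 1
    rw [Finset.sum_eq_single (⟨0, hn⟩ : Fin n)]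
    · simp
    · intro b _ hb
      simp [Pi.single_eq_of_ne hb]
    · intro h
      exact absurd (Finset.mem_univ _) h
  have hcontF : Continuous fun c : Fin n → ℝ => ∑ i, ∑ j, c i * M0 i j * c j := by fun_prop
  obtain ⟨c0, hc0, hmax⟩ := hcomp.exists_isMaxOn hne hcontF.continuousOn
  have hc0ne : c0 ≠ 0 := by
    rintro rfl
    have h1 : ∑ i : Fin n, (0 : Fin n → ℝ) i ^ 2 = 1 := hc0
    simp at h1
  set η : ℝ := -(∑ i, ∑ j, c0 i * M0 i j * c0 j) / 2 with hη
  have hηpos : 0 < η := by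
    have := hneg c0 hc0ne
    rw [hη]
    linarith
  set δ : ℝ := η / ((n : ℝ) ^ 2 + 1) with hδ
  have hδpos : 0 < δ := by positivity
  have hev : ∀ᶠ t in l, ∀ i j, |M t i j - M0 i j| < δ := by
    rw [Filter.eventually_all]
    intro i
    rw [Filter.eventually_all]
    intro j
    have h1 := (Metric.tendsto_nhds.1 (h i j)) δ hδpos
    filter_upwards [h1] with t ht
    rwa [Real.dist_eq] at ht
  filter_upwards [hev] with t ht c hc
  -- on the sphere
  have hsph : ∀ c ∈ S, ∑ i, ∑ j, c i * M t i j * c j < 0 := by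
    intro c hc
    have h1 : ∑ i, ∑ j, c i * M0 i j * c j ≤ ∑ i, ∑ j, c0 i * M0 i j * c0 j := hmax hc
    have h2 : ∑ i, ∑ j, c i * M t i j * c j - ∑ i, ∑ j, c i * M0 i j * c j ≤ ∑ i : Fin n, ∑ j : Fin n, δ := by
      rw [← Finset.sum_sub_distrib]
      refine Finset.sum_le_sum fun i _ => ?_
      rw [← Finset.sum_sub_distrib]
      refine Finset.sum_le_sum fun j _ => ?_
      have e : c i * M t i j * c j - c i * M0 i j * c j = c i * (M t i j - M0 i j) * c j := by ring
      rw [e]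
      calc c i * (M t i j - M0 i j) * c j ≤ |c i * (M t i j - M0 i j) * c j| := le_abs_self _
        _ = |c i| * |M t i j - M0 i j| * |c j| := by rw [abs_mul, abs_mul]
        _ ≤ 1 * δ * 1 := by
            apply mul_le_mul (mul_le_mul (hcoord c hc i) (ht i j).le (abs_nonneg _) zero_le_one)
              (hcoord c hc j) (abs_nonneg _) (by positivity)
        _ = δ := by ring
    have h3 : ∑ i : Fin n, ∑ j : Fin n, δ < η := by
      simp only [Finset.sum_const, Finset.card_univ, Fintype.card_fin, nsmul_eq_mul]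
      rw [hδ]
      have h4 : (0 : ℝ) < (n : ℝ) ^ 2 + 1 := by positivity
      rw [show (n : ℝ) * ((n : ℝ) * (η / ((n : ℝ) ^ 2 + 1))) = (n : ℝ) ^ 2 * η / ((n : ℝ) ^ 2 + 1) by ring,
        div_lt_iff₀ h4]
      nlinarith
    have h5 : ∑ i, ∑ j, c0 i * M0 i j * c0 j = -2 * η := by
      rw [hη]
      ring
    linarith
  -- scaling
  have hpos : 0 < ∑ i, c i ^ 2 := by
    have hex : ∃ i, c i ≠ 0 := by
      by_contra hcon
      push Not at hcon
      exact hc (funext hcon)
    obtain ⟨i, hi⟩ := hex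
    have h1 : c i ^ 2 ≤ ∑ j, c j ^ 2 :=
      Finset.single_le_sum (f := fun j => c j ^ 2) (fun j _ => sq_nonneg (c j)) (Finset.mem_univ i)
    have h2 : 0 < c i ^ 2 := by positivity
    linarith
  set r : ℝ := Real.sqrt (∑ i, c i ^ 2) with hr
  have hr0 : 0 < r := Real.sqrt_pos.2 hpos
  have hr2 : r ^ 2 = ∑ i, c i ^ 2 := Real.sq_sqrt hpos.le
  have hmem : (fun i => c i / r) ∈ S := by
    show ∑ i, (c i / r) ^ 2 = 1
    simp only [div_pow]
    rw [← Finset.sum_div, ← hr2]
    exact div_self (by positivity)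
  have h6 := hsph _ hmem
  have h7 : ∑ i, ∑ j, c i * M t i j * c j = r ^ 2 * ∑ i, ∑ j, c i / r * M t i j * (c j / r) := by
    rw [Finset.mul_sum]
    refine Finset.sum_congr rfl fun i _ => ?_
    rw [Finset.mul_sum]
    refine Finset.sum_congr rfl fun j _ => ?_
    field_simp
  rw [h7]
  exact mul_neg_of_pos_of_neg (by positivity) h6

end CLR
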