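import Pool.Agent.CLR.D1
import Pool.Agent.CLR.D2a
import Pool.Agent.CLR.D2b
import Pool.Agent.CLR.D3
import Pool.Agent.CLR.B1

/-!
# CLR row D4: discretization

Proof.  For `h > 0` and a test function `φ` put
`q h φ = h * dirE (x ↦ φ(pt h x)) - Σ'_x (∫_{cell h x} W) φ(pt h x)^2` and
`q0 φ = ∫ ‖fderiv ℝ φ‖^2 - W φ^2` (difference of two integrals: `‖fderiv ℝ φ‖^2` is continuous with
compact support, `W φ^2` is integrable since `W ≤ 1 + W^{3/2}`).  By `grad_lim`, `pot_lim`,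
`q h φ → q0 φ` as `h → 0+`.  Both are quadratic forms in `φ` (for `φ = Σ c_i u_i`; for `dirE` and the sum
over `x` all sums are finite sums over a fixed finite set of lattice points for given `h`, e.g. the
lattice points `x` with `‖pt h x‖ ≤ R + h`): with `M h i j = (q h (u_i + u_j) - q h u_i - q h u_j)/2`,
`q h (Σ c_i u_i) = Σ_i Σ_j c_i M h i j c_j`, and the same for `q0`, `M0`.  (Alternatively prove bilinear
versions of the limits by polarization: `dirE(u+w) - dirE(u) - dirE(w) = 2 Σ ...`.)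
So `M h i j → M0 i j` and `evneg` gives: for small `h`, `q h (Σ c_i u_i) < 0` for all `c ≠ 0`.
Choose such an `h`, also with `(1/h) ∫_{cell h x} W ≤ ε` for all `x` (`cell_small`).  Let `B` be a
finite set of lattice points containing all `x` with `u_i (pt h x) ≠ 0` for some `i`;
`v x = (1/h) ∫_{cell h x} W`, `φ i x = u_i (pt h x)` for `x ∈ B`.  `lapB_quad` (the extension by zero of
`φ_c` is `x ↦ (Σ c_i u_i)(pt h x)`): the form of `lapB B` is `dirE = (1/h) (q h + Σ..)`, i.e.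
`h (Σ φ_c lapB φ_c - Σ v φ_c^2) = q h (Σ c_i u_i) < 0`.
`Σ_{x∈B} v x^{3/2} ≤ ∫ W^{3/2}`: `cell_holder`, `cell_sum`.
-/

set_option autoImplicit false

open MeasureTheory Set Filter Topology

noncomputable section

namespace CLR

/-- the discrete form -/
def d4_q (W : E3 → ℝ) (h : ℝ) (φ : E3 → ℝ) : ℝ :=
  h * dirE (fun x => φ (pt h x)) - ∑' x : Z3, (∫ X in cell h x, W X) * φ (pt h x) ^ 2

theorem d4_ext (B : Finset Z3) (f : Z3 → ℝ) (hf : ∀ x, x ∉ B → f x = 0) :
    ext B (fun x : B => f x) = f := by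
  funext z
  unfold ext
  split_ifs with hz
  · rfl
  · exact (hf z hz).symm

theorem d4_q_eq (W : E3 → ℝ) (h : ℝ) (φ : E3 → ℝ) (B : Finset Z3)
    (hB : ∀ x, x ∉ B → φ (pt h x) = 0) :
    d4_q W h φ = h * (∑ x : B, ∑ y : B, φ (pt h x) * lapB B x y * φ (pt h y)) -
      ∑ x : B, (∫ X in cell h x, W X) * φ (pt h x) ^ 2 := by
  unfold d4_q
  have h1 : dirE (fun x => φ (pt h x)) = ∑ x : B, ∑ y : B, φ (pt h x) * lapB B x y * φ (pt h y) := by
    rw [lapB_quad B (fun x : B => φ (pt h x)), d4_ext B (fun x => φ (pt h x)) hB]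
  have h2 : ∑' x : Z3, (∫ X in cell h x, W X) * φ (pt h x) ^ 2 =
      ∑ x : B, (∫ X in cell h x, W X) * φ (pt h x) ^ 2 := by
    rw [tsum_eq_sum (s := B), ← Finset.sum_coe_sort B]
    intro x hx
    rw [hB x hx]
    ring
  rw [h1, h2]

/-- polarization of a quadratic form -/
theorem d4_polar {X : Type} [Fintype X] (G : X → X → ℝ) {n : ℕ} (φ : Fin n → X → ℝ) (c : Fin n → ℝ) :
    ∑ x, ∑ y, (∑ i, c i * φ i x) * G x y * (∑ i, c i * φ i y) =
      ∑ i, ∑ j, c i * (((∑ x, ∑ y, (φ i x + φ j x) * G x y * (φ i y + φ j y)) -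
        (∑ x, ∑ y, φ i x * G x y * φ i y) - (∑ x, ∑ y, φ j x * G x y * φ j y)) / 2) * c j := by
  set b : Fin n → Fin n → ℝ := fun i j => ∑ x, ∑ y, φ i x * G x y * φ j y with hb
  have h1 : ∀ i j, (∑ x, ∑ y, (φ i x + φ j x) * G x y * (φ i y + φ j y)) = b i i + b i j + b j i + b j j := by
    intro i j
    rw [hb]
    simp only
    rw [← Finset.sum_add_distrib, ← Finset.sum_add_distrib, ← Finset.sum_add_distrib]
    refine Finset.sum_congr rfl fun x _ => ?_
    rw [← Finset.sum_add_distrib, ← Finset.sum_add_distrib, ← Finset.sum_add_distrib]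
    refine Finset.sum_congr rfl fun y _ => ?_
    ring
  have h2 : ∑ x, ∑ y, (∑ i, c i * φ i x) * G x y * (∑ i, c i * φ i y) = ∑ i, ∑ j, c i * b i j * c j := by
    have e1 : ∀ x y, (∑ i, c i * φ i x) * G x y * (∑ i, c i * φ i y) =
        ∑ i, ∑ j, c i * (φ i x * G x y * φ j y) * c j := by
      intro x y
      rw [Finset.sum_mul, Finset.sum_mul]
      refine Finset.sum_congr rfl fun i _ => ?_
      rw [Finset.mul_sum]
      refine Finset.sum_congr rfl fun j _ => ?_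
      ring
    have e2 : ∑ x, ∑ y, (∑ i, c i * φ i x) * G x y * (∑ i, c i * φ i y) =
        ∑ x, ∑ y, ∑ i, ∑ j, c i * (φ i x * G x y * φ j y) * c j :=
      Finset.sum_congr rfl fun x _ => Finset.sum_congr rfl fun y _ => e1 x y
    rw [e2]
    have e3 : ∀ x, ∑ y, ∑ i, ∑ j, c i * (φ i x * G x y * φ j y) * c j =
        ∑ i, ∑ j, ∑ y, c i * (φ i x * G x y * φ j y) * c j := by
      intro x
      rw [Finset.sum_comm]
      refine Finset.sum_congr rfl fun i _ => ?_
      rw [Finset.sum_comm]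
    rw [Finset.sum_congr rfl fun x _ => e3 x, Finset.sum_comm]
    refine Finset.sum_congr rfl fun i _ => ?_
    rw [Finset.sum_comm]
    refine Finset.sum_congr rfl fun j _ => ?_
    rw [hb]
    simp only
    rw [Finset.mul_sum, Finset.sum_mul]
    refine Finset.sum_congr rfl fun x _ => ?_
    rw [Finset.mul_sum, Finset.sum_mul]
  rw [h2]
  have h3 : ∑ i, ∑ j, c i * b i j * c j = ∑ i, ∑ j, c i * b j i * c j := by
    rw [Finset.sum_comm]
    refine Finset.sum_congr rfl fun i _ => Finset.sum_congr rfl fun j _ => ?_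
    ring
  have h4 : ∀ i j, c i * (((∑ x, ∑ y, (φ i x + φ j x) * G x y * (φ i y + φ j y)) -
        (∑ x, ∑ y, φ i x * G x y * φ i y) - (∑ x, ∑ y, φ j x * G x y * φ j y)) / 2) * c j =
      (1 / 2) * (c i * b i j * c j) + (1 / 2) * (c i * b j i * c j) := by
    intro i j
    rw [h1 i j]
    have e4 : (∑ x, ∑ y, φ i x * G x y * φ i y) = b i i := rfl
    have e5 : (∑ x, ∑ y, φ j x * G x y * φ j y) = b j j := rfl
    rw [e4, e5]
    ring
  rw [Finset.sum_congr rfl fun i _ => Finset.sum_congr rfl fun j _ => h4 i j]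
  simp only [Finset.sum_add_distrib, ← Finset.mul_sum]
  rw [← h3]
  ring

/-- the form of `d4_q` on linear combinations -/
theorem d4_q_quad (W : E3 → ℝ) (h : ℝ) {n : ℕ} (u : Fin n → E3 → ℝ) (B : Finset Z3)
    (hB : ∀ i, ∀ x, x ∉ B → u i (pt h x) = 0) (c : Fin n → ℝ) :
    d4_q W h (fun y => ∑ i, c i * u i y) =
      ∑ i, ∑ j, c i * ((d4_q W h (fun y => u i y + u j y) - d4_q W h (u i) - d4_q W h (u j)) / 2) * c j := by
  set a : B → ℝ := fun x => ∫ X in cell h x, W X with ha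
  set G : B → B → ℝ := fun x y => h * lapB B x y - if x = y then a x else 0 with hG
  have key : ∀ φ : E3 → ℝ, (∀ x, x ∉ B → φ (pt h x) = 0) →
      d4_q W h φ = ∑ x : B, ∑ y : B, φ (pt h x) * G x y * φ (pt h y) := by
    intro φ hφ
    rw [d4_q_eq W h φ B hφ, Finset.mul_sum, ← Finset.sum_sub_distrib]
    refine Finset.sum_congr rfl fun x _ => ?_
    have e1 : ∀ y : B, φ (pt h x) * G x y * φ (pt h y) =
        h * (φ (pt h x) * lapB B x y * φ (pt h y)) - if x = y then a x * φ (pt h x) * φ (pt h y) else 0 := by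
      intro y
      rw [hG]
      simp only
      split_ifs with hxy
      · ring
      · ring
    rw [Finset.sum_congr rfl fun y _ => e1 y, Finset.sum_sub_distrib, Finset.mul_sum, Finset.sum_ite_eq,
      if_pos (Finset.mem_univ x)]
    ring
  rw [key _ (fun x hx => Finset.sum_eq_zero fun i _ => by rw [hB i x hx, mul_zero])]
  rw [d4_polar G (fun i (x : B) => u i (pt h x)) c]
  refine Finset.sum_congr rfl fun i _ => Finset.sum_congr rfl fun j _ => ?_
  rw [key _ (fun x hx => by rw [hB i x hx, hB j x hx, add_zero]), key _ (hB i), key _ (hB j)]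

theorem d4_norm (h : ℝ) (x : Z3) (i : Fin 3) : |h * (x i : ℝ)| ≤ ‖pt h x‖ := by
  have h1 := PiLp.norm_apply_le (pt h x) i
  exact h1

/-- lattice points where a compactly supported function does not vanish -/
theorem d4_finite (h : ℝ) (hh : 0 < h) (φ : E3 → ℝ) (hc : HasCompactSupport φ) :
    {x : Z3 | φ (pt h x) ≠ 0}.Finite := by
  obtain ⟨R, hR⟩ := hc.isCompact.isBounded.exists_norm_le
  obtain ⟨N, hN⟩ := exists_nat_gt (R / h)
  have h1 : {x : Z3 | φ (pt h x) ≠ 0} ⊆ Set.Icc (fun _ => -(N : ℤ)) (fun _ => (N : ℤ)) := by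
    intro x hx
    have h2 : pt h x ∈ tsupport φ := subset_tsupport _ hx
    have h3 := hR _ h2
    have h4 : ∀ i, |(x i : ℝ)| < N := by
      intro i
      have h5 := (d4_norm h x i).trans h3
      rw [abs_mul, abs_of_pos hh] at h5
      have h6 : |(x i : ℝ)| ≤ R / h := by
        rw [le_div_iff₀ hh]
        linarith
      exact lt_of_le_of_lt h6 hN
    constructor
    · intro i
      have h5 := (abs_lt.1 (h4 i)).1
      have h6 : (-(N : ℤ) : ℤ) < x i := by
        exact_mod_cast h5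
      exact h6.le
    · intro i
      have h5 := (abs_lt.1 (h4 i)).2
      have h6 : x i < (N : ℤ) := by
        exact_mod_cast h5
      exact h6.le
  exact (Set.finite_Icc _ _).subset h1

theorem d4_sum_smooth {n : ℕ} (u : Fin n → E3 → ℝ)
    (hu : ∀ i, ContDiff ℝ (⊤ : ℕ∞) (u i) ∧ HasCompactSupport (u i)) (c : Fin n → ℝ) :
    ContDiff ℝ (⊤ : ℕ∞) (fun y => ∑ i, c i * u i y) ∧ HasCompactSupport (fun y => ∑ i, c i * u i y) := by
  constructor
  · exact ContDiff.sum fun i _ => contDiff_const.mul (hu i).1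
  · have h1 : ∀ s : Finset (Fin n), HasCompactSupport (fun y => ∑ i ∈ s, c i * u i y) := by
      intro s
      induction s using Finset.induction_on with
      | empty =>
        simp only [Finset.sum_empty]
        exact HasCompactSupport.zero
      | insert a s ha ih =>
        have e : (fun y => ∑ i ∈ insert a s, c i * u i y) =
            (fun y => c a * u a y) + fun y => ∑ i ∈ s, c i * u i y := by
          funext y
          rw [Finset.sum_insert ha]
          rfl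
        rw [e]
        exact (HasCompactSupport.mul_left (hu a).2).add ih
    exact h1 Finset.univ

theorem d4_int (W : E3 → ℝ) (hW : Measurable W) (hW0 : ∀ x, 0 ≤ W x)
    (hWi : Integrable (fun x => W x ^ (3 / 2 : ℝ))) (φ : E3 → ℝ) (hφ : ContDiff ℝ (⊤ : ℕ∞) φ)
    (hc : HasCompactSupport φ) :
    Integrable (fun x => ‖fderiv ℝ φ x‖ ^ 2) ∧ Integrable (fun x => W x * φ x ^ 2) := by
  constructor
  · apply Continuous.integrable_of_hasCompactSupport
    · exact ((hφ.continuous_fderiv (by simp)).norm).pow 2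
    · have h1 : HasCompactSupport (fderiv ℝ φ) := hc.fderiv ℝ
      have h2 : HasCompactSupport (fun x => ‖fderiv ℝ φ x‖) := h1.norm
      exact h2.comp_left (g := fun t : ℝ => t ^ 2) (by simp)
  · have hφ2 : HasCompactSupport (fun x => φ x ^ 2) := hc.comp_left (g := fun t : ℝ => t ^ 2) (by simp)
    have hi : Integrable (fun x => φ x ^ 2) :=
      (hφ.continuous.pow 2).integrable_of_hasCompactSupport hφ2
    obtain ⟨C, hC⟩ := (hφ.continuous.pow 2).bounded_above_of_compact_support hφ2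
    have hdom : Integrable (fun x => φ x ^ 2 + C * W x ^ (3 / 2 : ℝ)) := hi.add (hWi.const_mul C)
    refine hdom.mono' ?_ (Eventually.of_forall fun x => ?_)
    · exact (hW.mul (hφ.continuous.measurable.pow_const 2)).aestronglyMeasurable
    · have h1 : W x ≤ 1 + W x ^ (3 / 2 : ℝ) := by
        rcases le_total (W x) 1 with h2 | h2
        · have : 0 ≤ W x ^ (3 / 2 : ℝ) := Real.rpow_nonneg (hW0 x) _
          linarith
        · have : W x ^ (1 : ℝ) ≤ W x ^ (3 / 2 : ℝ) := Real.rpow_le_rpow_of_exponent_le h2 (by norm_num)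
          rw [Real.rpow_one] at this
          linarith
      have h2 : 0 ≤ φ x ^ 2 := sq_nonneg _
      have h3 : φ x ^ 2 ≤ C := by
        have h5 := hC x
        have e : (φ ^ 2) x = φ x ^ 2 := rfl
        rwa [e, Real.norm_of_nonneg h2] at h5
      have h4 : 0 ≤ W x ^ (3 / 2 : ℝ) := Real.rpow_nonneg (hW0 x) _
      rw [Real.norm_of_nonneg (mul_nonneg (hW0 x) h2)]
      calc W x * φ x ^ 2 ≤ (1 + W x ^ (3 / 2 : ℝ)) * φ x ^ 2 := mul_le_mul_of_nonneg_right h1 h2
        _ = φ x ^ 2 + φ x ^ 2 * W x ^ (3 / 2 : ℝ) := by ring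
        _ ≤ φ x ^ 2 + C * W x ^ (3 / 2 : ℝ) := by
            have := mul_le_mul_of_nonneg_right h3 h4
            linarith

theorem d4_lim (W : E3 → ℝ) (hW : Measurable W) (hW0 : ∀ x, 0 ≤ W x)
    (hWi : Integrable (fun x => W x ^ (3 / 2 : ℝ))) (φ : E3 → ℝ) (hφ : ContDiff ℝ (⊤ : ℕ∞) φ)
    (hc : HasCompactSupport φ) :
    Tendsto (fun h => d4_q W h φ) (𝓝[>] 0) (𝓝 (∫ x, (‖fderiv ℝ φ x‖ ^ 2 - W x * φ x ^ 2))) := by
  obtain ⟨h1, h2⟩ := d4_int W hW hW0 hWi φ hφ hc
  rw [integral_sub h1 h2]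
  exact (grad_lim φ hφ hc).sub (pot_lim W hW hW0 hWi φ hφ.continuous hc)

theorem discretize (W : E3 → ℝ) (hW : Measurable W) (hW0 : ∀ x, 0 ≤ W x)
    (hWi : Integrable (fun x => W x ^ (3 / 2 : ℝ))) (n : ℕ) (u : Fin n → E3 → ℝ)
    (hu : ∀ i, ContDiff ℝ (⊤ : ℕ∞) (u i) ∧ HasCompactSupport (u i))
    (hneg : ∀ c : Fin n → ℝ, c ≠ 0 →
      ∫ x, (‖fderiv ℝ (fun y => ∑ i, c i * u i y) x‖ ^ 2 - W x * (∑ i, c i * u i x) ^ 2) < 0)
    (ε : ℝ) (hε : 0 < ε) :
    ∃ (B : Finset Z3) (v : B → ℝ) (φ : Fin n → B → ℝ), (∀ x, 0 ≤ v x ∧ v x ≤ ε) ∧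
      ∑ x, v x ^ (3 / 2 : ℝ) ≤ ∫ x : E3, W x ^ (3 / 2 : ℝ) ∧
      ∀ c : Fin n → ℝ, c ≠ 0 →
        ∑ x, ∑ y, (∑ i, c i * φ i x) * lapB B x y * (∑ i, c i * φ i y) <
          ∑ x, v x * (∑ i, c i * φ i x) ^ 2 := by
  -- the limit forms
  have hadd : ∀ i j, ContDiff ℝ (⊤ : ℕ∞) (fun y => u i y + u j y) ∧
      HasCompactSupport (fun y => u i y + u j y) := by
    intro i j
    exact ⟨(hu i).1.add (hu j).1, (hu i).2.add (hu j).2⟩
  set M : ℝ → Fin n → Fin n → ℝ := fun h i j =>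
    (d4_q W h (fun y => u i y + u j y) - d4_q W h (u i) - d4_q W h (u j)) / 2 with hM
  set Q : (E3 → ℝ) → ℝ := fun φ => ∫ x, (‖fderiv ℝ φ x‖ ^ 2 - W x * φ x ^ 2) with hQ
  set M0 : Fin n → Fin n → ℝ := fun i j => (Q (fun y => u i y + u j y) - Q (u i) - Q (u j)) / 2 with hM0
  have hlim : ∀ i j, Tendsto (fun h => M h i j) (𝓝[>] 0) (𝓝 (M0 i j)) := by
    intro i j
    exact (((d4_lim W hW hW0 hWi _ (hadd i j).1 (hadd i j).2).sub
      (d4_lim W hW hW0 hWi _ (hu i).1 (hu i).2)).sub (d4_lim W hW hW0 hWi _ (hu j).1 (hu j).2)).div_const 2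
  -- finite sets of lattice points
  have hfin : ∀ h : ℝ, 0 < h → ∃ B : Finset Z3, ∀ i, ∀ x, x ∉ B → u i (pt h x) = 0 := by
    intro h hh
    have h1 : (⋃ i, {x : Z3 | u i (pt h x) ≠ 0}).Finite :=
      Set.finite_iUnion fun i => d4_finite h hh (u i) (hu i).2
    refine ⟨h1.toFinset, fun i x hx => ?_⟩
    by_contra hne
    apply hx
    rw [Set.Finite.mem_toFinset]
    exact Set.mem_iUnion.2 ⟨i, hne⟩
  have hquad : ∀ h : ℝ, 0 < h → ∀ c : Fin n → ℝ,
      d4_q W h (fun y => ∑ i, c i * u i y) = ∑ i, ∑ j, c i * M h i j * c j := by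
    intro h hh c
    obtain ⟨B, hB⟩ := hfin h hh
    exact d4_q_quad W h u B hB c
  have hneg0 : ∀ c : Fin n → ℝ, c ≠ 0 → ∑ i, ∑ j, c i * M0 i j * c j < 0 := by
    intro c hc
    have h1 : Tendsto (fun h => d4_q W h (fun y => ∑ i, c i * u i y)) (𝓝[>] 0)
        (𝓝 (∫ x, (‖fderiv ℝ (fun y => ∑ i, c i * u i y) x‖ ^ 2 - W x * (∑ i, c i * u i x) ^ 2))) :=
      d4_lim W hW hW0 hWi _ (d4_sum_smooth u hu c).1 (d4_sum_smooth u hu c).2
    have h2 : Tendsto (fun h => ∑ i, ∑ j, c i * M h i j * c j) (𝓝[>] 0)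
        (𝓝 (∑ i, ∑ j, c i * M0 i j * c j)) :=
      tendsto_finsetSum _ fun i _ => tendsto_finsetSum _ fun j _ =>
        ((hlim i j).const_mul (c i)).mul_const (c j)
    have h3 : (fun h => d4_q W h (fun y => ∑ i, c i * u i y)) =ᶠ[𝓝[>] 0]
        fun h => ∑ i, ∑ j, c i * M h i j * c j := by
      filter_upwards [self_mem_nhdsWithin] with h hh
      exact hquad h hh c
    have h4 := tendsto_nhds_unique (h1.congr' h3) h2
    rw [← h4]
    exact hneg c hc
  have hev := (evneg M M0 (𝓝[>] 0) hlim hneg0).and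
    ((cell_small W hW hW0 hWi ε hε).and (self_mem_nhdsWithin : ∀ᶠ h in 𝓝[>] (0 : ℝ), h ∈ Ioi (0 : ℝ)))
  obtain ⟨h, hneg', hsmall, hh⟩ := hev.exists
  have hh : 0 < h := hh
  obtain ⟨B, hB⟩ := hfin h hh
  have hint0 : ∀ x : Z3, 0 ≤ ∫ X in cell h x, W X := fun x => integral_nonneg fun X => hW0 X
  refine ⟨B, fun x => (1 / h) * ∫ X in cell h x, W X, fun i x => u i (pt h x), ?_, ?_, ?_⟩
  · intro x
    exact ⟨mul_nonneg (by positivity) (hint0 x), hsmall x⟩
  · calc ∑ x : B, ((1 / h) * ∫ X in cell h x, W X) ^ (3 / 2 : ℝ)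
        ≤ ∑ x : B, ∫ X in cell h x, W X ^ (3 / 2 : ℝ) :=
          Finset.sum_le_sum fun x _ => cell_holder W hW hW0 hWi h hh x
      _ = ∑ x ∈ B, ∫ X in cell h x, W X ^ (3 / 2 : ℝ) :=
          Finset.sum_coe_sort B (fun x => ∫ X in cell h x, W X ^ (3 / 2 : ℝ))
      _ ≤ ∫ X : E3, W X ^ (3 / 2 : ℝ) := cell_sum W hW hW0 hWi h hh B
  · intro c hc
    have h1 := hneg' c hc
    rw [← hquad h hh c, d4_q_eq W h _ B
      (fun x hx => Finset.sum_eq_zero fun i _ => by rw [hB i x hx, mul_zero])] at h1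
    have h2 : ∑ x : B, ((1 / h) * ∫ X in cell h x, W X) * (∑ i, c i * u i (pt h x)) ^ 2 =
        (1 / h) * ∑ x : B, (∫ X in cell h x, W X) * (∑ i, c i * u i (pt h x)) ^ 2 := by
      rw [Finset.mul_sum]
      refine Finset.sum_congr rfl fun x _ => ?_
      ring
    have h3 : ∀ A C : ℝ, h * A - C < 0 → A < (1 / h) * C := by
      intro A C hAC
      have h4 : A = (1 / h) * (h * A) := by field_simp
      rw [h4]
      exact mul_lt_mul_of_pos_left (by linarith) (by positivity)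
    rw [h2]
    exact h3 _ _ h1

end CLR
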