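import Mathlib

/-!
# CLR project (MP_8d28ad_mp): L_3 <= 0.112

Common definitions.  Everything is in the namespace `CLR`.
-/

set_option autoImplicit false

open MeasureTheory Set Filter Topology

noncomputable section

namespace CLR

/-- Euclidean three space. -/
abbrev E3 : Type := EuclideanSpace ℝ (Fin 3)

/-- The lattice `Z^3`. -/
abbrev Z3 : Type := Fin 3 → ℤ

/-! ## constants -/

/-- square root of the constant of the dual Lane-Emden inequality -/
def sk : ℝ := 144 * Real.pi * (791 / 20000)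

/-- constant of the dual Lane-Emden inequality -/
def kap : ℝ := sk ^ 2

/-! ## lattice objects -/

/-- the `i`-th unit vector of `Z^3` -/
def ez (i : Fin 3) : Z3 := Pi.single i 1

/-- Dirichlet energy of a function on the lattice (only used for finitely supported functions) -/
def dirE (u : Z3 → ℝ) : ℝ := ∑' x : Z3, ∑ i : Fin 3, (u (x + ez i) - u x) ^ 2

open Classical in
/-- entries of the lattice Laplacian -/
def lapZ (x y : Z3) : ℝ :=
  if x = y then 6 else if (∃ i : Fin 3, x = y + ez i ∨ y = x + ez i) then -1 else 0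

/-- Dirichlet Laplacian of a finite subset of the lattice -/
def lapB (B : Finset Z3) : Matrix B B ℝ := fun x y => lapZ (x : Z3) (y : Z3)

open Classical in
/-- extension by zero -/
def ext (B : Finset Z3) (w : B → ℝ) : Z3 → ℝ := fun z => if h : z ∈ B then w ⟨z, h⟩ else 0

/-! ## finite dimensional objects -/

/-- `D^{-1/2} A D^{-1/2}`, `D = diag v` -/
def Hm {ι : Type} (A : Matrix ι ι ℝ) (v : ι → ℝ) : Matrix ι ι ℝ :=
  fun x y => A x y / (Real.sqrt (v x) * Real.sqrt (v y))

/-- Lieb's function `F_a(E) = ∫_a^∞ (1 - a/s) e^{-sE} ds` -/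
def Fa (a E : ℝ) : ℝ := ∫ s in Ioi a, (1 - a / s) * Real.exp (-(s * E))

/-- weight of a loop -/
def loopW {ι : Type} (P : Matrix ι ι ℝ) {n : ℕ} (ω : Fin (n + 1) → ι) : ℝ :=
  ∏ i : Fin (n + 1), P (ω i) (ω (i + 1))

/-- the loop functional: sum over all rooted loops of
`(weight / length) * S * g(S)`, `S = δ * sum of v along the loop` -/
def Lam {ι : Type} [Fintype ι] (P : Matrix ι ι ℝ) (v : ι → ℝ) (δ : ℝ) (g : ℝ → ℝ) : ℝ :=
  ∑' n : ℕ, ∑ ω : Fin (n + 1) → ι,
    loopW P ω * ((δ * ∑ i, v (ω i)) / (n + 1)) * g (δ * ∑ i, v (ω i))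

/-! ## continuum objects -/

/-- lattice point `h x` as a point of `E3` -/
def pt (h : ℝ) (x : Z3) : E3 := WithLp.toLp 2 (fun i => h * (x i : ℝ))

/-- the half open cell `h (x + [0,1)^3)` -/
def cell (h : ℝ) (x : Z3) : Set E3 := {X | ∀ i, h * (x i : ℝ) ≤ X i ∧ X i < h * ((x i : ℝ) + 1)}

/-- multilinear interpolation of a lattice function -/
def interp (u : Z3 → ℝ) (X : E3) : ℝ :=
  ∑' x : Z3, u x * ∏ i : Fin 3, max (1 - |X i - (x i : ℝ)|) 0

/-- admissible functions: nonnegative, `K`-Lipschitz, zero outside the open ball of radius `R` -/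
structure Adm (K : NNReal) (R : ℝ) (f : E3 → ℝ) : Prop where
  nonneg : ∀ x, 0 ≤ f x
  lip : LipschitzWith K f
  supp : ∀ x, R ≤ ‖x‖ → f x = 0

/-- reflection in the hyperplane `⟨e, x⟩ = b` (`e` a unit vector) -/
def refl (e : E3) (b : ℝ) (x : E3) : E3 := x - (2 * (inner ℝ e x - b)) • e

/-- polarization (two point rearrangement) -/
def pol (e : E3) (b : ℝ) (f : E3 → ℝ) (x : E3) : ℝ :=
  if inner ℝ e x ≤ b then max (f x) (f (refl e b x)) else min (f x) (f (refl e b x))

/-- Gaussian finite difference energy -/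
def gE (s : ℝ) (f : E3 → ℝ) : ℝ :=
  ∫ p : E3 × E3, Real.exp (-‖p.2‖ ^ 2) * (f (p.1 + s • p.2) - f p.1) ^ 2

/-- Gaussian functional -/
def gG (f : E3 → ℝ) : ℝ := ∫ x : E3, f x * Real.exp (-‖x‖ ^ 2)

/-- truncated fourth moment -/
def T4 (t : ℝ) (f : E3 → ℝ) : ℝ := ∫ x : E3, (max (f x - t) 0) ^ 4

end CLR
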