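import Pool.Agent.CLR.P3

/-!
# CLR row P4: radial dual Lane-Emden inequality

Proof.  `κ = kap`.  For `t ≥ 0` let `Φ t = ∫_0^R 8 π κ (max (G r - t) 0)^3 r^2 dr`, continuous in
`t`, `Φ (G 0) = 0`.  If `Φ 0 ≤ 1` take `t = 0`, else (IVT) take `t ∈ [0, G 0]` with `Φ t = 1`.  So
`t ≥ 0`, `Φ t ≤ 1`, `t * Φ t = t`.  Put `s r = max (G r - t) 0` (continuous, antitone on `[0,∞)`,
`s = 0` on `[R, ∞)` because `t ≥ 0`), `m r = ∫_0^r 8 π κ s^3 τ^2 dτ` (C^1, `m 0 = 0`, `m R = Φ t`),
`X = ∫_0^R r^2 s^4 dr`.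
(a) pointwise for `r > 0`: `4 π r^2 G'^2 ≥ -2 m G' - m^2/(4 π r^2)` (complete the square).
(b) integration by parts (`AbsolutelyContinuousOnInterval.integral_mul_deriv_eq_deriv_mul`, Lipschitz
functions are absolutely continuous, or any other way):
`∫_0^R (-2 m G') = -2 [m G]_0^R + 2 ∫ m' G = 2 ∫ 8 π κ s^3 r^2 G` and `s^3 G = s^3 (s + t)`
pointwise (both sides vanish when `G ≤ t`), so it equals `16 π κ X + 2 t m(R) = 16 π κ X + 2 t`.
(c) `radP`: `∫_0^R m^2/(4 π r^2) ≤ 12 π κ X`.
Hence `4 π ∫ r^2 G'^2 ≥ 16 π κ X + 2 t - 12 π κ X = 2 t + κ * (4 π X)`.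
Integrability: `deriv G` is bounded by `K` and measurable (`measurable_deriv`), `m ≤ C r^3`.
-/

set_option autoImplicit false

open MeasureTheory Set Filter Topology

noncomputable section

namespace CLR

theorem p4_kap_pos : 0 < kap := by
  unfold kap sk
  have := Real.pi_pos
  positivity

theorem radDual (G : ℝ → ℝ) (K : NNReal) (R : ℝ) (hR : 0 < R) (hL : LipschitzWith K G)
    (hanti : AntitoneOn G (Ici 0)) (h0 : ∀ r, 0 ≤ G r) (hR0 : ∀ r, R ≤ r → G r = 0) :
    ∃ t : ℝ, 0 ≤ t ∧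
      2 * t + kap * (4 * Real.pi * ∫ r in (0 : ℝ)..R, r ^ 2 * (max (G r - t) 0) ^ 4) ≤
        4 * Real.pi * ∫ r in (0 : ℝ)..R, r ^ 2 * (deriv G r) ^ 2 := by
  have hpi := Real.pi_pos
  have hk := p4_kap_pos
  have hGc : Continuous G := hL.continuous
  set Φ : ℝ → ℝ := fun t => ∫ r in (0 : ℝ)..R, 8 * Real.pi * kap * (max (G r - t) 0) ^ 3 * r ^ 2 with hΦ
  have hΦc : Continuous Φ := by
    apply intervalIntegral.continuous_parametric_intervalIntegral_of_continuous'
    fun_prop
  have hΦG : Φ (G 0) = 0 := by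
    have h1 : Φ (G 0) = ∫ r in (0 : ℝ)..R, (0 : ℝ) := by
      apply intervalIntegral.integral_congr
      intro r hr
      rw [uIcc_of_le hR.le] at hr
      have h2 : G r ≤ G 0 := hanti (mem_Ici.2 le_rfl) (mem_Ici.2 hr.1) hr.1
      show 8 * Real.pi * kap * (max (G r - G 0) 0) ^ 3 * r ^ 2 = 0
      rw [max_eq_right (by linarith)]
      ring
    rw [h1]
    simp
  obtain ⟨t, ht0, ht1, htt⟩ : ∃ t : ℝ, 0 ≤ t ∧ Φ t ≤ 1 ∧ t * Φ t = t := by
    by_cases h : Φ 0 ≤ 1
    · exact ⟨0, le_rfl, h, by ring⟩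
    · push Not at h
      have h1 := intermediate_value_Icc' (h0 0) hΦc.continuousOn (f := Φ)
      have h2 : (1 : ℝ) ∈ Icc (Φ (G 0)) (Φ 0) := ⟨by rw [hΦG]; norm_num, h.le⟩
      obtain ⟨t, ht, ht'⟩ := h1 h2
      exact ⟨t, ht.1, ht'.le, by rw [ht', mul_one]⟩
  refine ⟨t, ht0, ?_⟩
  set s : ℝ → ℝ := fun r => max (G r - t) 0 with hs
  have hsc : Continuous s := by fun_prop
  have hs0 : ∀ r, 0 ≤ s r := fun r => le_max_right _ _
  have hsanti : AntitoneOn s (Ici 0) := by
    intro a ha b hb hab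
    exact max_le_max (sub_le_sub_right (hanti ha hb hab) t) le_rfl
  have hsR : ∀ r, R ≤ r → s r = 0 := by
    intro r hr
    show max (G r - t) 0 = 0
    rw [hR0 r hr]
    exact max_eq_right (by linarith)
  set m : ℝ → ℝ := fun r => ∫ τ in (0 : ℝ)..r, 8 * Real.pi * kap * s τ ^ 3 * τ ^ 2 with hm
  have hfc : Continuous (fun τ : ℝ => 8 * Real.pi * kap * s τ ^ 3 * τ ^ 2) := by fun_prop
  have hm0 : m 0 = 0 := by
    show ∫ τ in (0 : ℝ)..0, 8 * Real.pi * kap * s τ ^ 3 * τ ^ 2 = 0
    exact intervalIntegral.integral_same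
  have hmR : m R = Φ t := rfl
  have hmd : ∀ r, HasDerivAt m (8 * Real.pi * kap * s r ^ 3 * r ^ 2) r := fun r =>
    (hfc.integral_hasStrictDerivAt 0 r).hasDerivAt
  have hmc : Continuous m := continuous_iff_continuousAt.2 fun r => (hmd r).continuousAt
  set X : ℝ := ∫ r in (0 : ℝ)..R, r ^ 2 * s r ^ 4 with hX
  have hP := radP s R hR hsc hsanti hs0 hsR m (fun r => rfl) (by rw [hmR]; exact ht1)
  -- integration by parts
  have hGac : AbsolutelyContinuousOnInterval G 0 R := hL.lipschitzOnWith.absolutelyContinuousOnInterval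
  have hmac : AbsolutelyContinuousOnInterval m 0 R :=
    (hfc.intervalIntegrable 0 R).absolutelyContinuousOnInterval_intervalIntegral (by simp)
  have hparts := AbsolutelyContinuousOnInterval.integral_mul_deriv_eq_deriv_mul hmac hGac
  rw [hR0 R le_rfl, hm0, mul_zero, zero_mul, sub_zero, zero_sub] at hparts
  have hmG : ∫ x in (0 : ℝ)..R, deriv m x * G x = 8 * Real.pi * kap * X + t := by
    have h1 : ∫ x in (0 : ℝ)..R, deriv m x * G x =
        ∫ x in (0 : ℝ)..R, (8 * Real.pi * kap * (x ^ 2 * s x ^ 4) +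
          t * (8 * Real.pi * kap * s x ^ 3 * x ^ 2)) := by
      apply intervalIntegral.integral_congr
      intro r hr
      show deriv m r * G r = 8 * Real.pi * kap * (r ^ 2 * s r ^ 4) +
          t * (8 * Real.pi * kap * s r ^ 3 * r ^ 2)
      rw [(hmd r).deriv]
      rcases le_total (G r - t) 0 with h2 | h2
      · have h3 : s r = 0 := max_eq_right h2
        rw [h3]
        ring
      · have h3 : s r = G r - t := max_eq_left h2
        rw [h3]
        ring
    rw [h1, intervalIntegral.integral_add, intervalIntegral.integral_const_mul,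
      intervalIntegral.integral_const_mul]
    · show 8 * Real.pi * kap * X + t * m R = _
      rw [hmR, htt]
    · apply Continuous.intervalIntegrable
      fun_prop
    · apply Continuous.intervalIntegrable
      fun_prop
  rw [hmG] at hparts
  -- integrability
  have hdb : ∀ r, |deriv G r| ≤ K := fun r => by
    have := norm_deriv_le_of_lipschitz (x₀ := r) hL
    rwa [Real.norm_eq_abs] at this
  have hi1 : IntervalIntegrable (fun r => r ^ 2 * (deriv G r) ^ 2) volume 0 R := by
    rw [intervalIntegrable_iff_integrableOn_Ioc_of_le hR.le]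
    refine Measure.integrableOn_of_bounded (M := R ^ 2 * (K : ℝ) ^ 2) ?_ ?_ ?_
    · simp
    · exact ((measurable_id.pow_const 2).mul ((measurable_deriv G).pow_const 2)).aestronglyMeasurable
    · rw [ae_restrict_iff' measurableSet_Ioc]
      refine Eventually.of_forall fun r hr => ?_
      have h3 : (deriv G r) ^ 2 ≤ (K : ℝ) ^ 2 := by
        rw [← sq_abs]
        exact pow_le_pow_left₀ (abs_nonneg _) (hdb r) 2
      have h4 : r ^ 2 ≤ R ^ 2 := pow_le_pow_left₀ hr.1.le hr.2 2
      rw [Real.norm_eq_abs, abs_of_nonneg (by positivity)]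
      exact mul_le_mul h4 h3 (by positivity) (by positivity)
  have hi2 : IntervalIntegrable (fun r => m r * deriv G r) volume 0 R :=
    hGac.intervalIntegrable_deriv.continuousOn_mul hmc.continuousOn
  set C0 : ℝ := 8 * Real.pi * kap * s 0 ^ 3 with hC0
  have hC0n : 0 ≤ C0 := by
    have := hs0 0
    positivity
  have hmb : ∀ r, 0 ≤ r → |m r| ≤ C0 * r ^ 2 * r := by
    intro r hr
    have h1 := intervalIntegral.norm_integral_le_of_norm_le_const (a := 0) (b := r)
      (f := fun τ : ℝ => 8 * Real.pi * kap * s τ ^ 3 * τ ^ 2) (C := C0 * r ^ 2) (by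
        intro τ hτ
        rw [uIoc_of_le hr] at hτ
        have h2 : s τ ≤ s 0 := hsanti (mem_Ici.2 le_rfl) (mem_Ici.2 hτ.1.le) hτ.1.le
        have h3 : s τ ^ 3 ≤ s 0 ^ 3 := pow_le_pow_left₀ (hs0 τ) h2 3
        have h4 : τ ^ 2 ≤ r ^ 2 := pow_le_pow_left₀ hτ.1.le hτ.2 2
        have h5 := hs0 τ
        rw [Real.norm_eq_abs, abs_of_nonneg (by positivity)]
        have h6 : 8 * Real.pi * kap * s τ ^ 3 ≤ C0 := mul_le_mul_of_nonneg_left h3 (by positivity)
        exact mul_le_mul h6 h4 (by positivity) hC0n)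
    rw [sub_zero, abs_of_nonneg hr, Real.norm_eq_abs] at h1
    exact h1
  have hi3 : IntervalIntegrable (fun r => m r ^ 2 / (4 * Real.pi * r ^ 2)) volume 0 R := by
    rw [intervalIntegrable_iff_integrableOn_Ioc_of_le hR.le]
    refine Measure.integrableOn_of_bounded (M := C0 ^ 2 * R ^ 4 / (4 * Real.pi)) ?_ ?_ ?_
    · simp
    · exact ((hmc.measurable.pow_const 2).div
        ((measurable_id.pow_const 2).const_mul (4 * Real.pi))).aestronglyMeasurable
    · rw [ae_restrict_iff' measurableSet_Ioc]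
      refine Eventually.of_forall fun r hr => ?_
      have hr0 : 0 < r := hr.1
      have h1 : m r ^ 2 ≤ (C0 * r ^ 2 * r) ^ 2 := by
        rw [← sq_abs (m r)]
        exact pow_le_pow_left₀ (abs_nonneg _) (hmb r hr0.le) 2
      have h4 : r ^ 4 ≤ R ^ 4 := pow_le_pow_left₀ hr.1.le hr.2 4
      rw [Real.norm_eq_abs, abs_of_nonneg (by positivity)]
      have h5 : m r ^ 2 / (4 * Real.pi * r ^ 2) ≤ C0 ^ 2 * r ^ 4 / (4 * Real.pi) := by
        rw [div_le_div_iff₀ (by positivity) (by positivity)]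
        calc m r ^ 2 * (4 * Real.pi) ≤ (C0 * r ^ 2 * r) ^ 2 * (4 * Real.pi) :=
              mul_le_mul_of_nonneg_right h1 (by positivity)
          _ = C0 ^ 2 * r ^ 4 * (4 * Real.pi * r ^ 2) := by ring
      refine h5.trans ?_
      rw [div_le_div_iff_of_pos_right (by positivity)]
      exact mul_le_mul_of_nonneg_left h4 (by positivity)
  -- complete the square
  have hsq : 0 ≤ ∫ r in (0 : ℝ)..R, (4 * Real.pi * (r ^ 2 * (deriv G r) ^ 2) + 2 * (m r * deriv G r) +
      m r ^ 2 / (4 * Real.pi * r ^ 2)) := by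
    apply intervalIntegral.integral_nonneg hR.le
    intro r hr
    rcases hr.1.eq_or_lt with h1 | h1
    · rw [← h1, hm0]
      simp
    · have h2 : 4 * Real.pi * (r ^ 2 * (deriv G r) ^ 2) + 2 * (m r * deriv G r) +
          m r ^ 2 / (4 * Real.pi * r ^ 2) =
          4 * Real.pi * r ^ 2 * (deriv G r + m r / (4 * Real.pi * r ^ 2)) ^ 2 := by
        field_simp
        ring
      rw [h2]
      positivity
  rw [intervalIntegral.integral_add ((hi1.const_mul _).add (hi2.const_mul _)) hi3,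
    intervalIntegral.integral_add (hi1.const_mul _) (hi2.const_mul _),
    intervalIntegral.integral_const_mul, intervalIntegral.integral_const_mul, hparts] at hsq
  show 2 * t + kap * (4 * Real.pi * X) ≤ _
  linarith

end CLR
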