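import Pool.Agent.CLR.Defs

/-!
# CLR row P5: polar coordinates for radial functions on `E3`

Proof.  `MeasureTheory.integral_fun_norm_addHaar` (or a neighbour lemma): for `F : ℝ → ℝ`,
`∫ x : E3, F ‖x‖ = 3 * vol(unit ball) * ∫_{(0,∞)} r^2 F r dr`, and the unit ball has volume `4π/3`
(`EuclideanSpace.volume_ball_fin_three` or `EuclideanSpace.volume_ball` with `Gamma (5/2)`).
First claim: `F r = (max (G r - t) 0)^4`, which vanishes for `r ≥ R` (as `t ≥ 0`).
Second claim: `g` is Lipschitz (composition), so differentiable a.e. (Rademacher,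
`LipschitzWith.ae_differentiableAt`).  At a point `x ≠ 0` of differentiability,
`G (‖x‖ + s) = g (x + s • (x/‖x‖))` for small `s`, so `G` is differentiable at `‖x‖` with
`deriv G ‖x‖ = fderiv ℝ g x (x/‖x‖)`, hence `(deriv G ‖x‖)^2 ≤ ‖fderiv ℝ g x‖^2`.  Integrate
(`integral_mono_ae`; the right side is integrable: bounded by `K^2` (norm of fderiv of a Lipschitz
function), zero for `‖x‖ > R`, measurable (`measurable_fderiv`)), and `deriv G r = 0` for `r > R`.
-/

set_option autoImplicit false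

open MeasureTheory Set Filter Topology

noncomputable section

namespace CLR

theorem p5_vol : (volume : Measure E3).real (Metric.ball 0 1) = Real.pi * 4 / 3 := by
  unfold Measure.real
  rw [EuclideanSpace.volume_ball_fin_three]
  simp only [ENNReal.ofReal_one, one_pow, one_mul]
  exact ENNReal.toReal_ofReal (by positivity)

theorem p5_polar (F : ℝ → ℝ) :
    ∫ x : E3, F ‖x‖ = 4 * Real.pi * ∫ y in Ioi (0 : ℝ), y ^ 2 * F y := by
  rw [integral_fun_norm_addHaar (volume : Measure E3) F, p5_vol]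
  have h : Module.finrank ℝ E3 = 3 := by simp
  rw [h]
  simp only [nsmul_eq_mul, smul_eq_mul]
  norm_num
  ring

theorem p5_Ioi (F : ℝ → ℝ) (R : ℝ) (hR : 0 < R) (h : ∀ r, R < r → F r = 0) :
    ∫ y in Ioi (0 : ℝ), y ^ 2 * F y = ∫ r in (0 : ℝ)..R, r ^ 2 * F r := by
  rw [intervalIntegral.integral_of_le hR.le]
  apply setIntegral_eq_of_subset_of_forall_sdiff_eq_zero measurableSet_Ioi
  · intro x hx
    exact hx.1
  · intro x hx
    have h1 : R < x := by
      by_contra h2
      exact hx.2 ⟨hx.1, not_lt.1 h2⟩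
    rw [h x h1, mul_zero]

theorem p5_deriv (g : E3 → ℝ) (G : ℝ → ℝ) (hg : ∀ x, g x = G ‖x‖) {x : E3} (hx : x ≠ 0)
    (hd : DifferentiableAt ℝ g x) : (deriv G ‖x‖) ^ 2 ≤ ‖fderiv ℝ g x‖ ^ 2 := by
  have hn : 0 < ‖x‖ := norm_pos_iff.2 hx
  set u : E3 := ‖x‖⁻¹ • x with hu
  have hun : ‖u‖ = 1 := by
    rw [hu, norm_smul, norm_inv, norm_norm, inv_mul_cancel₀ hn.ne']
  have hxu : ‖x‖ • u = x := by
    rw [hu, smul_smul, mul_inv_cancel₀ hn.ne', one_smul]
  have h1 : HasDerivAt (fun r : ℝ => r • u) u ‖x‖ := by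
    have := (hasDerivAt_id ‖x‖).smul_const u
    simpa using this
  have h2 : HasDerivAt (fun r : ℝ => g (r • u)) (fderiv ℝ g x u) ‖x‖ := by
    have h3 : HasFDerivAt g (fderiv ℝ g x) (‖x‖ • u) := by
      rw [hxu]
      exact hd.hasFDerivAt
    exact h3.comp_hasDerivAt ‖x‖ h1
  have h4 : G =ᶠ[𝓝 ‖x‖] fun r : ℝ => g (r • u) := by
    filter_upwards [lt_mem_nhds hn] with r hr
    rw [hg, norm_smul, hun, mul_one, Real.norm_of_nonneg hr.le]
  have h5 : deriv G ‖x‖ = fderiv ℝ g x u := (h2.congr_of_eventuallyEq h4).deriv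
  rw [h5, ← sq_abs]
  have h6 : |fderiv ℝ g x u| ≤ ‖fderiv ℝ g x‖ := by
    have := (fderiv ℝ g x).le_opNorm u
    rwa [hun, mul_one] at this
  exact pow_le_pow_left₀ (abs_nonneg _) h6 2

theorem radInt (g : E3 → ℝ) (G : ℝ → ℝ) (K : NNReal) (R : ℝ) (hR : 0 < R) (hG : LipschitzWith K G)
    (hg : ∀ x, g x = G ‖x‖) (hR0 : ∀ r, R ≤ r → G r = 0) :
    (∀ t : ℝ, 0 ≤ t → T4 t g = 4 * Real.pi * ∫ r in (0 : ℝ)..R, r ^ 2 * (max (G r - t) 0) ^ 4) ∧
    4 * Real.pi * ∫ r in (0 : ℝ)..R, r ^ 2 * (deriv G r) ^ 2 ≤ ∫ x : E3, ‖fderiv ℝ g x‖ ^ 2 := by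
  constructor
  · intro t ht
    have h1 : T4 t g = ∫ x : E3, (fun r : ℝ => (max (G r - t) 0) ^ 4) ‖x‖ := by
      unfold T4
      simp only [hg]
    rw [h1]
    refine (p5_polar (fun r : ℝ => (max (G r - t) 0) ^ 4)).trans ?_
    rw [p5_Ioi (fun r : ℝ => (max (G r - t) 0) ^ 4) R hR]
    intro r hr
    have h2 : max (G r - t) 0 = 0 := by
      rw [hR0 r hr.le, max_eq_right]
      linarith
    simp only [h2]
    norm_num
  · have h0 : ∀ r, R < r → deriv G r = 0 := by
      intro r hr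
      have h1 : G =ᶠ[𝓝 r] fun _ => (0 : ℝ) := by
        filter_upwards [lt_mem_nhds hr] with s hs
        exact hR0 s hs.le
      rw [h1.deriv_eq, deriv_const]
    have h1 : 4 * Real.pi * ∫ r in (0 : ℝ)..R, r ^ 2 * (deriv G r) ^ 2 =
        ∫ x : E3, (deriv G ‖x‖) ^ 2 := by
      have h2 := p5_polar (fun r => (deriv G r) ^ 2)
      rw [p5_Ioi _ R hR (fun r hr => by rw [h0 r hr]; norm_num)] at h2
      exact h2.symm
    rw [h1]
    have hlip : LipschitzWith K g := by
      have h2 : g = G ∘ norm := funext hg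
      rw [h2]
      simpa using hG.comp (lipschitzWith_one_norm (E := E3))
    have hfd : ∀ x : E3, R < ‖x‖ → fderiv ℝ g x = 0 := by
      intro x hx
      have h2 : g =ᶠ[𝓝 x] fun _ => (0 : ℝ) := by
        have h3 : ∀ᶠ y in 𝓝 x, R < ‖y‖ := (continuous_norm.tendsto x).eventually (lt_mem_nhds hx)
        filter_upwards [h3] with y hy
        rw [hg, hR0 _ hy.le]
      rw [h2.fderiv_eq]
      simp
    refine integral_mono_of_nonneg (Eventually.of_forall fun x => by positivity) ?_ ?_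
    · have h2 : Integrable (indicator (Metric.closedBall (0 : E3) R) (fun _ => (K : ℝ) ^ 2)) := by
        rw [integrable_indicator_iff measurableSet_closedBall]
        exact integrableOn_const measure_closedBall_lt_top.ne
      refine h2.mono' ((measurable_fderiv ℝ g).norm.pow_const 2).aestronglyMeasurable
        (Eventually.of_forall fun x => ?_)
      by_cases hx : x ∈ Metric.closedBall (0 : E3) R
      · rw [indicator_of_mem hx, Real.norm_of_nonneg (by positivity)]
        exact pow_le_pow_left₀ (norm_nonneg _) (norm_fderiv_le_of_lipschitz ℝ hlip) 2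
      · rw [indicator_of_notMem hx, hfd x (by simpa using hx)]
        simp
    · have h2 : ∀ᵐ x : E3, x ≠ 0 := by
        have h3 : ({0} : Set E3)ᶜ ∈ ae (volume : Measure E3) :=
          compl_mem_ae_iff.2 (measure_singleton 0)
        filter_upwards [h3] with x hx
        exact hx
      filter_upwards [h2, hlip.ae_differentiableAt] with x hx hd
      exact p5_deriv g G hg hx hd

end CLR
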