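import Pool.Agent.CLR.R9

/-!
# CLR row R10: small scale limit of the Gaussian energy (uses `gauss_quad` of R9)

Dominated convergence on `E3 × E3`.  For `0 < s ≤ 1` the integrand of `gE s f / s^2` is
`e^{-‖z‖^2} ((f(x+sz) - f x)/s)^2`, dominated by `e^{-‖z‖^2} K^2 ‖z‖^2 1_{‖x‖ ≤ |R| + ‖z‖}` (if
`‖x‖ > |R| + ‖z‖` both values vanish), which is integrable (integrate in `x`: volume of a ball is
`C (|R| + ‖z‖)^3`; then a polynomial times a Gaussian).  For almost every `x` (Rademacher,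
`LipschitzWith.ae_differentiableAt`), `f` is differentiable at `x` and the integrand tends to
`e^{-‖z‖^2} (fderiv ℝ f x z)^2` for every `z`.  Fubini and `gauss_quad` give
`c0 ∫ ‖fderiv ℝ f x‖^2 dx`.
-/

set_option autoImplicit false

open MeasureTheory Set Filter Topology

noncomputable section

namespace CLR

theorem r10_dom (K : NNReal) (R : ℝ) (f : E3 → ℝ) (hf : Adm K R f) (s : ℝ) (hs : 0 < s) (hs1 : s ≤ 1)
    (x z : E3) :
    Real.exp (-‖z‖ ^ 2) * (f (x + s • z) - f x) ^ 2 / s ^ 2 ≤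
      Real.exp (-(1 / 8) * ‖x‖ ^ 2) *
        ((4 * (K : ℝ) ^ 2 * Real.exp (R ^ 2 / 4)) * Real.exp (-(1 / 2) * ‖z‖ ^ 2)) := by
  have hrhs : 0 ≤ Real.exp (-(1 / 8) * ‖x‖ ^ 2) *
        ((4 * (K : ℝ) ^ 2 * Real.exp (R ^ 2 / 4)) * Real.exp (-(1 / 2) * ‖z‖ ^ 2)) := by positivity
  by_cases hx : ‖x‖ ≤ |R| + ‖z‖
  · have h1 : |f (x + s • z) - f x| ≤ K * (s * ‖z‖) := by
      have h := hf.lip.dist_le_mul (x + s • z) x
      rw [Real.dist_eq, dist_eq_norm] at h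
      simpa [norm_smul, abs_of_pos hs] using h
    have h2 : (f (x + s • z) - f x) ^ 2 / s ^ 2 ≤ (K : ℝ) ^ 2 * ‖z‖ ^ 2 := by
      rw [div_le_iff₀ (by positivity), ← sq_abs]
      calc |f (x + s • z) - f x| ^ 2 ≤ (K * (s * ‖z‖)) ^ 2 :=
            pow_le_pow_left₀ (abs_nonneg _) h1 2
        _ = (K : ℝ) ^ 2 * ‖z‖ ^ 2 * s ^ 2 := by ring
    have h3 : ‖z‖ ^ 2 ≤ 4 * Real.exp (‖z‖ ^ 2 / 4) := by
      have := Real.add_one_le_exp (‖z‖ ^ 2 / 4)
      nlinarith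
    have h4 : 1 ≤ Real.exp (R ^ 2 / 4 + ‖z‖ ^ 2 / 4 - ‖x‖ ^ 2 / 8) := by
      apply Real.one_le_exp
      have h5 : ‖x‖ ^ 2 ≤ (|R| + ‖z‖) ^ 2 := pow_le_pow_left₀ (norm_nonneg _) hx 2
      have h6 : |R| ^ 2 = R ^ 2 := sq_abs R
      nlinarith [sq_nonneg (|R| - ‖z‖)]
    calc Real.exp (-‖z‖ ^ 2) * (f (x + s • z) - f x) ^ 2 / s ^ 2
        = Real.exp (-‖z‖ ^ 2) * ((f (x + s • z) - f x) ^ 2 / s ^ 2) := by ring
      _ ≤ Real.exp (-‖z‖ ^ 2) * ((K : ℝ) ^ 2 * (4 * Real.exp (‖z‖ ^ 2 / 4))) := by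
          apply mul_le_mul_of_nonneg_left _ (Real.exp_pos _).le
          exact h2.trans (mul_le_mul_of_nonneg_left h3 (by positivity))
      _ = (Real.exp (-‖z‖ ^ 2) * ((K : ℝ) ^ 2 * (4 * Real.exp (‖z‖ ^ 2 / 4)))) * 1 := by ring
      _ ≤ (Real.exp (-‖z‖ ^ 2) * ((K : ℝ) ^ 2 * (4 * Real.exp (‖z‖ ^ 2 / 4)))) *
            Real.exp (R ^ 2 / 4 + ‖z‖ ^ 2 / 4 - ‖x‖ ^ 2 / 8) :=
          mul_le_mul_of_nonneg_left h4 (by positivity)
      _ = (4 * (K : ℝ) ^ 2) * (Real.exp (-‖z‖ ^ 2) * Real.exp (‖z‖ ^ 2 / 4) *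
            Real.exp (R ^ 2 / 4 + ‖z‖ ^ 2 / 4 - ‖x‖ ^ 2 / 8)) := by ring
      _ = (4 * (K : ℝ) ^ 2) * (Real.exp (-(1 / 8) * ‖x‖ ^ 2) *
            Real.exp (R ^ 2 / 4) * Real.exp (-(1 / 2) * ‖z‖ ^ 2)) := by
          simp only [← Real.exp_add]
          congr 2
          ring
      _ = _ := by ring
  · push Not at hx
    have hR : R ≤ |R| := le_abs_self R
    have h1 : f x = 0 := hf.supp x (by linarith [norm_nonneg z])
    have h2 : f (x + s • z) = 0 := by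
      apply hf.supp
      have h3 : ‖x‖ ≤ ‖x + s • z‖ + ‖s • z‖ := by
        calc ‖x‖ = ‖(x + s • z) - s • z‖ := by congr 1; abel
          _ ≤ _ := norm_sub_le _ _
      have h4 : ‖s • z‖ ≤ ‖z‖ := by
        rw [norm_smul, Real.norm_eq_abs, abs_of_pos hs]
        nlinarith [norm_nonneg z]
      linarith
    rw [h1, h2]
    simpa using hrhs

theorem gE_limit (K : NNReal) (R : ℝ) (f : E3 → ℝ) (hf : Adm K R f) :
    Tendsto (fun s : ℝ => gE s f / s ^ 2) (𝓝[>] 0) (𝓝 (c0 * ∫ x : E3, ‖fderiv ℝ f x‖ ^ 2)) := by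
  have hfc : Continuous f := hf.lip.continuous
  set F : E3 × E3 → ℝ := fun p => Real.exp (-‖p.2‖ ^ 2) * (fderiv ℝ f p.1 p.2) ^ 2 with hF
  set G : ℝ → E3 × E3 → ℝ := fun s p =>
    Real.exp (-‖p.2‖ ^ 2) * (f (p.1 + s • p.2) - f p.1) ^ 2 / s ^ 2 with hG
  set bd : E3 × E3 → ℝ := fun p => Real.exp (-(1 / 8) * ‖p.1‖ ^ 2) *
        ((4 * (K : ℝ) ^ 2 * Real.exp (R ^ 2 / 4)) * Real.exp (-(1 / 2) * ‖p.2‖ ^ 2)) with hbd
  have hbdi : Integrable bd := by
    have h := (r9_gauss_int (1 / 8) (by norm_num)).mul_prod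
      ((r9_gauss_int (1 / 2) (by norm_num)).const_mul (4 * (K : ℝ) ^ 2 * Real.exp (R ^ 2 / 4)))
    exact h
  have hpt : ∀ᵐ p : E3 × E3, Tendsto (fun s => G s p) (𝓝[>] 0) (𝓝 (F p)) := by
    have h1 : ∀ᵐ x : E3, DifferentiableAt ℝ f x := hf.lip.ae_differentiableAt
    have h2 : ∀ᵐ p : E3 × E3, DifferentiableAt ℝ f p.1 :=
      Measure.quasiMeasurePreserving_fst.ae h1
    filter_upwards [h2] with p hp
    have h3 : HasLineDerivAt ℝ f (fderiv ℝ f p.1 p.2) p.1 p.2 :=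
      hp.hasFDerivAt.hasLineDerivAt p.2
    have h4 : HasDerivAt (fun t : ℝ => f (p.1 + t • p.2)) (fderiv ℝ f p.1 p.2) 0 := h3
    rw [hasDerivAt_iff_tendsto_slope_zero] at h4
    have h5 : Tendsto (fun t : ℝ => t⁻¹ • (f (p.1 + (0 + t) • p.2) - f (p.1 + (0 : ℝ) • p.2)))
        (𝓝[>] 0) (𝓝 (fderiv ℝ f p.1 p.2)) :=
      h4.mono_left (nhdsWithin_mono _ (fun x hx => by simpa using (ne_of_gt hx)))
    have h6 := (h5.pow 2).const_mul (Real.exp (-‖p.2‖ ^ 2))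
    refine h6.congr' ?_
    filter_upwards [self_mem_nhdsWithin] with s hs
    have hs' : s ≠ 0 := ne_of_gt hs
    simp only [hG, zero_add, zero_smul, add_zero, smul_eq_mul]
    field_simp
  have hdom : ∀ s : ℝ, 0 < s → s ≤ 1 → ∀ p, ‖G s p‖ ≤ bd p := by
    intro s hs hs1 p
    rw [Real.norm_eq_abs, abs_of_nonneg (by simp only [hG]; positivity)]
    exact r10_dom K R f hf s hs hs1 p.1 p.2
  have hlim : Tendsto (fun s => ∫ p, G s p) (𝓝[>] 0) (𝓝 (∫ p, F p)) := by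
    apply tendsto_integral_filter_of_dominated_convergence bd
    · refine Filter.Eventually.of_forall fun s => ?_
      apply Continuous.aestronglyMeasurable
      simp only [hG]
      fun_prop
    · have : Ioc (0 : ℝ) 1 ∈ 𝓝[>] (0 : ℝ) := Ioc_mem_nhdsGT (by norm_num)
      filter_upwards [this] with s hs
      exact Filter.Eventually.of_forall fun p => hdom s hs.1 hs.2 p
    · exact hbdi
    · exact hpt
  have hFm : Measurable F := by
    have h1 : Measurable (fun p : E3 × E3 => fderiv ℝ f p.1) :=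
      (measurable_fderiv ℝ f).comp measurable_fst
    have h2 : Measurable (fun q : (E3 →L[ℝ] ℝ) × E3 => q.1 q.2) :=
      isBoundedBilinearMap_apply.continuous.measurable
    have h3 : Measurable (fun p : E3 × E3 => fderiv ℝ f p.1 p.2) :=
      h2.comp (h1.prodMk measurable_snd)
    simp only [hF]
    exact (by fun_prop : Measurable (fun p : E3 × E3 => Real.exp (-‖p.2‖ ^ 2))).mul (h3.pow_const 2)
  have hFi : Integrable F := by
    refine hbdi.mono' hFm.aestronglyMeasurable ?_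
    filter_upwards [hpt] with p hp
    rw [Real.norm_eq_abs, abs_of_nonneg (by simp only [hF]; positivity)]
    refine le_of_tendsto hp ?_
    have : Ioc (0 : ℝ) 1 ∈ 𝓝[>] (0 : ℝ) := Ioc_mem_nhdsGT (by norm_num)
    filter_upwards [this] with s hs
    exact (le_abs_self _).trans (hdom s hs.1 hs.2 p)
  have hFint : ∫ p, F p = c0 * ∫ x : E3, ‖fderiv ℝ f x‖ ^ 2 := by
    have h1 : ∫ p, F p = ∫ x : E3, ∫ z : E3, F (x, z) := integral_prod F hFi
    rw [h1, ← integral_const_mul]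
    congr 1
    funext x
    exact gauss_quad (fderiv ℝ f x)
  rw [← hFint]
  refine hlim.congr fun s => ?_
  simp only [hG, gE]
  rw [integral_div]

end CLR
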