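import Pool.Agent.CLR.R1

/-!
# CLR row R8: invariance under all polarizations implies radial and nonincreasing

Proof.  Let `‖x‖ < ‖y‖`, `e = (y - x)/‖y - x‖`, `b = (‖y‖^2 - ‖x‖^2)/(2 ‖y - x‖) > 0`.  Then
`⟨e,x⟩ - b = -‖y - x‖/2 < 0` and `refl e b x = x + ‖y - x‖ e = y`.  So `g y ≤ g x`.  If `‖x‖ = ‖y‖`
and `y ≠ 0`: for `η > 0`, `‖(1+η) y‖ > ‖x‖`, so `g ((1+η) y) ≤ g x`; let `η → 0` (`g` continuous).
If `y = 0` then `x = 0`.
`radial_profile`: choose a unit vector `e0` and put `G r = g (r • e0)`; by radiality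
`G r = g (r e0)`, `g x = G ‖x‖` (`‖x‖ = ‖‖x‖ • e0‖`, two inequalities), `G` is `K`-Lipschitz on `ℝ`,
antitone on `[0,∞)`, nonnegative, zero for `r ≥ R`.
-/

set_option autoImplicit false

open MeasureTheory Set Filter Topology

noncomputable section

namespace CLR

theorem r8_strict (g : E3 → ℝ)
    (h : ∀ (e : E3) (b : ℝ), ‖e‖ = 1 → 0 < b → ∀ x, inner ℝ e x ≤ b → g (refl e b x) ≤ g x)
    (x y : E3) (hxy : ‖x‖ < ‖y‖) : g y ≤ g x := by
  have hne : y - x ≠ 0 := by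
    intro h0
    rw [sub_eq_zero.mp h0] at hxy
    exact lt_irrefl _ hxy
  obtain ⟨r, hr⟩ : ∃ r : ℝ, r = ‖y - x‖ := ⟨_, rfl⟩
  have hr0 : 0 < r := by
    rw [hr]
    exact norm_pos_iff.mpr hne
  have hsq : r ^ 2 = ‖y‖ ^ 2 - 2 * inner ℝ y x + ‖x‖ ^ 2 := by
    rw [hr]
    exact norm_sub_sq_real y x
  have hdiff : 0 < ‖y‖ ^ 2 - ‖x‖ ^ 2 := by
    have h1 : ‖x‖ ^ 2 < ‖y‖ ^ 2 := pow_lt_pow_left₀ hxy (norm_nonneg _) two_ne_zero
    linarith
  obtain ⟨e, he⟩ : ∃ e : E3, e = r⁻¹ • (y - x) := ⟨_, rfl⟩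
  obtain ⟨b, hb⟩ : ∃ b : ℝ, b = (‖y‖ ^ 2 - ‖x‖ ^ 2) / (2 * r) := ⟨_, rfl⟩
  have he1 : ‖e‖ = 1 := by
    rw [he, norm_smul, norm_inv, Real.norm_of_nonneg hr0.le, ← hr]
    exact inv_mul_cancel₀ hr0.ne'
  have hb0 : 0 < b := by
    rw [hb]
    positivity
  have hin : inner ℝ e x - b = -(r / 2) := by
    rw [he, hb, real_inner_smul_left, inner_sub_left, real_inner_self_eq_norm_sq]
    field_simp
    linarith
  have hle : inner ℝ e x ≤ b := by linarith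
  have hrefl : refl e b x = y := by
    unfold refl
    rw [hin, he, smul_smul]
    have h1 : 2 * -(r / 2) * r⁻¹ = -1 := by
      field_simp
    rw [h1, neg_one_smul, sub_neg_eq_add]
    abel
  have h2 := h e b he1 hb0 x hle
  rw [hrefl] at h2
  exact h2

theorem radial_of_pol (K : NNReal) (R : ℝ) (g : E3 → ℝ) (hg : Adm K R g)
    (h : ∀ (e : E3) (b : ℝ), ‖e‖ = 1 → 0 < b → ∀ x, inner ℝ e x ≤ b → g (refl e b x) ≤ g x) :
    ∀ x y : E3, ‖x‖ ≤ ‖y‖ → g y ≤ g x := by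
  intro x y hxy
  by_cases hy : y = 0
  · have hx : x = 0 := by
      rw [hy, norm_zero] at hxy
      exact norm_le_zero_iff.mp hxy
    rw [hx, hy]
  have hy0 : 0 < ‖y‖ := norm_pos_iff.mpr hy
  have hcont : Continuous fun η : ℝ => g ((1 + η) • y) :=
    hg.lip.continuous.comp (by fun_prop)
  have hlim : Tendsto (fun η : ℝ => g ((1 + η) • y)) (𝓝[>] 0) (𝓝 (g y)) := by
    have h1 : Tendsto (fun η : ℝ => g ((1 + η) • y)) (𝓝 0) (𝓝 (g (((1 : ℝ) + 0) • y))) :=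
      hcont.tendsto 0
    rw [add_zero, one_smul] at h1
    exact h1.mono_left nhdsWithin_le_nhds
  refine le_of_tendsto hlim ?_
  filter_upwards [self_mem_nhdsWithin] with η hη
  have hη0 : 0 < η := hη
  refine r8_strict g h x ((1 + η) • y) ?_
  rw [norm_smul, Real.norm_of_nonneg (by linarith)]
  have h1 : 0 < η * ‖y‖ := mul_pos hη0 hy0
  linarith

theorem radial_profile (K : NNReal) (R : ℝ) (g : E3 → ℝ) (hg : Adm K R g)
    (h : ∀ x y : E3, ‖x‖ ≤ ‖y‖ → g y ≤ g x) :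
    ∃ G : ℝ → ℝ, (∀ x, g x = G ‖x‖) ∧ LipschitzWith K G ∧ AntitoneOn G (Ici 0) ∧ (∀ r, 0 ≤ G r) ∧
      ∀ r, 0 ≤ r → R ≤ r → G r = 0 := by
  obtain ⟨e0, he0⟩ : ∃ e0 : E3, ‖e0‖ = 1 :=
    ⟨EuclideanSpace.single 0 1, by simp⟩
  have hn : ∀ r : ℝ, 0 ≤ r → ‖r • e0‖ = r := fun r hr => by
    rw [norm_smul, he0, mul_one, Real.norm_of_nonneg hr]
  refine ⟨fun r => g (r • e0), ?_, ?_, ?_, fun r => hg.nonneg _, ?_⟩
  · intro x
    have h1 : ‖‖x‖ • e0‖ = ‖x‖ := hn _ (norm_nonneg _)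
    exact le_antisymm (h _ _ h1.le) (h _ _ h1.ge)
  · refine LipschitzWith.of_dist_le_mul fun r s => ?_
    have h1 := hg.lip.dist_le_mul (r • e0) (s • e0)
    rw [dist_eq_norm (r • e0), ← sub_smul, norm_smul, he0, mul_one, ← dist_eq_norm] at h1
    exact h1
  · intro r hr s hs hrs
    refine h _ _ ?_
    rw [hn r hr, hn s hs]
    exact hrs
  · intro r hr hRr
    refine hg.supp _ ?_
    rw [hn r hr]
    exact hRr

end CLR
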