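import Pool.Agent.CLR.R7
import Pool.Agent.CLR.R8
import Pool.Agent.CLR.R10
import Pool.Agent.CLR.P4
import Pool.Agent.CLR.P5

/-!
# CLR: dual Lane-Emden inequality (assembly)
-/

set_option autoImplicit false

open MeasureTheory Set Filter Topology

noncomputable section

namespace CLR

theorem dualLE (K : NNReal) (R : ℝ) (hR : 0 < R) (w : E3 → ℝ) (hw : Adm K R w) :
    ∃ t : ℝ, 0 ≤ t ∧ 2 * t + kap * T4 t w ≤ ∫ x : E3, ‖fderiv ℝ w x‖ ^ 2 := by
  obtain ⟨g, hgA, hgT, hgE, hpol⟩ := exists_max K R w hw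
  have hrad := radial_of_pol K R g hgA hpol
  obtain ⟨G, hG, hGL, hGa, hG0, hGR⟩ := radial_profile K R g hgA hrad
  have hGR' : ∀ r, R ≤ r → G r = 0 := fun r hr => hGR r (hR.le.trans hr) hr
  obtain ⟨h1, h2⟩ := radInt g G K R hR hGL hG hGR'
  obtain ⟨t, ht, hmain⟩ := radDual G K R hR hGL hGa hG0 hGR'
  have hlim : ∫ x : E3, ‖fderiv ℝ g x‖ ^ 2 ≤ ∫ x : E3, ‖fderiv ℝ w x‖ ^ 2 := by
    have hw' := gE_limit K R w hw
    have hg' := gE_limit K R g hgA
    have hle := le_of_tendsto_of_tendsto hg' hw' (by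
      filter_upwards [self_mem_nhdsWithin] with s hs
      have hs' : 0 < s := hs
      exact div_le_div_of_nonneg_right (hgE s hs') (by positivity))
    exact le_of_mul_le_mul_left hle c0_pos
  refine ⟨t, ht, ?_⟩
  rw [← hgT t ht, h1 t ht]
  linarith

end CLR
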