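import Pool.Agent.CLR.K2

/-!
# CLR row K3: asymptotics of `k1`, and the heat kernel bound

`k1_le`: given `η > 0` choose `ω ∈ (0,1]` with `(1 - ω^2/12)^(-1/2) ≤ 1 + η/2`.  For `|θ| ≤ ω`,
`1 - cos θ ≥ θ^2/2 - θ^4/24 ≥ (θ^2/2)(1 - ω^2/12)`, so that part of the integral is
`≤ ∫_ℝ exp(-τ (1-ω^2/12) θ^2) dθ = √(π/(τ (1-ω^2/12)))` (`integral_gaussian`), i.e. contributes at most
`(1/(2π)) √(π/τ) (1+η/2) = (1+η/2) (4πτ)^{-1/2}`.  For `ω ≤ |θ| ≤ π`, `1 - cos θ ≥ 1 - cos ω =: c > 0`, that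
part contributes at most `exp(-2τc) ≤ (η/2) (4πτ)^{-1/2}` for `τ ≥ T`.

`heat`: choose `η'` with `(1+η')^3 ≤ 1 + η`; combine `ker_le` (x = y), `kerZ_zero_le`, `k1_le`
(`k1 ≥ 0`), `((4πτ)^{-1/2})^3 = (4π)^(-3/2) τ^(-3/2)`.  Take `T > 0`.
-/

set_option autoImplicit false

open MeasureTheory Set Filter Topology

noncomputable section

namespace CLR

private theorem k3_k1_nonneg (τ : ℝ) : 0 ≤ k1 τ := by
  unfold k1
  have hpi := Real.pi_pos
  apply mul_nonneg (by positivity)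
  apply intervalIntegral.integral_nonneg (by linarith)
  intro θ _
  exact (Real.exp_pos _).le

private theorem k3_pointwise (x ω τ θ : ℝ) (hω0 : 0 < ω) (hω1 : ω ≤ 1) (hx : ω ^ 2 ≤ 9 * x)
    (hτ : 0 < τ) (hθ : |θ| ≤ Real.pi) :
    Real.exp (-(2 * τ * (1 - Real.cos θ))) ≤
      Real.exp (-(τ * (1 - x)) * θ ^ 2) + Real.exp (-(2 * τ * (1 - Real.cos ω))) := by
  rcases le_total |θ| ω with h | h
  · have h1 : |θ| ≤ 1 := h.trans hω1
    have hb := Real.cos_bound h1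
    have hb2 := (abs_le.mp hb).2
    have h4 : |θ| ^ 4 = θ ^ 2 * θ ^ 2 := by
      have : |θ| ^ 2 = θ ^ 2 := sq_abs θ
      nlinarith [this]
    have hsq : θ ^ 2 ≤ ω ^ 2 := by
      rw [← sq_abs θ]
      exact pow_le_pow_left₀ (abs_nonneg _) h 2
    have h5 : θ ^ 2 * θ ^ 2 ≤ θ ^ 2 * (9 * x) :=
      mul_le_mul_of_nonneg_left (hsq.trans hx) (sq_nonneg θ)
    have h6 : (1 - x) * θ ^ 2 ≤ 2 * (1 - Real.cos θ) := by
      rw [h4] at hb2
      nlinarith [sq_nonneg θ]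
    have h7 : Real.exp (-(2 * τ * (1 - Real.cos θ))) ≤ Real.exp (-(τ * (1 - x)) * θ ^ 2) := by
      apply Real.exp_le_exp.mpr
      have := mul_le_mul_of_nonneg_left h6 hτ.le
      nlinarith [this]
    have := Real.exp_pos (-(2 * τ * (1 - Real.cos ω)))
    linarith
  · have h1 : Real.cos θ ≤ Real.cos ω := by
      rw [← Real.cos_abs θ]
      exact Real.cos_le_cos_of_nonneg_of_le_pi hω0.le hθ h
    have h2 : Real.exp (-(2 * τ * (1 - Real.cos θ))) ≤ Real.exp (-(2 * τ * (1 - Real.cos ω))) := by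
      apply Real.exp_le_exp.mpr
      have : 2 * τ * (1 - Real.cos ω) ≤ 2 * τ * (1 - Real.cos θ) :=
        mul_le_mul_of_nonneg_left (by linarith) (by linarith)
      linarith
    have := Real.exp_pos (-(τ * (1 - x)) * θ ^ 2)
    linarith

theorem k1_le (η : ℝ) (hη : 0 < η) : ∃ T : ℝ, 0 < T ∧ ∀ τ : ℝ, T ≤ τ →
    k1 τ ≤ (1 + η) * (4 * Real.pi * τ) ^ (-(1 / 2) : ℝ) := by
  have hpi := Real.pi_pos
  -- choice of constants
  obtain ⟨x, hx0, hx1, hxη⟩ : ∃ x : ℝ, 0 < x ∧ x ≤ 1 / 9 ∧ x ≤ η / 2 :=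
    ⟨min (1 / 9) (η / 2), lt_min (by norm_num) (by linarith), min_le_left _ _, min_le_right _ _⟩
  obtain ⟨ω, hω0, hω1, hωx⟩ : ∃ ω : ℝ, 0 < ω ∧ ω ≤ 1 ∧ ω ^ 2 ≤ 9 * x := by
    refine ⟨Real.sqrt (9 * x), Real.sqrt_pos.mpr (by linarith), ?_, ?_⟩
    · rw [Real.sqrt_le_left (by norm_num)]; linarith
    · rw [Real.sq_sqrt (by linarith)]
  set c : ℝ := 1 - Real.cos ω with hc
  have hc0 : 0 < c := by
    have : Real.cos ω < Real.cos 0 :=
      Real.cos_lt_cos_of_nonneg_of_le_pi le_rfl (by linarith [Real.pi_gt_three]) hω0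
    rw [Real.cos_zero] at this
    rw [hc]; linarith
  refine ⟨4 * Real.pi / (c * η) ^ 2, by positivity, ?_⟩
  intro τ hτ
  have hτ0 : 0 < τ := lt_of_lt_of_le (by positivity) hτ
  -- integral bound
  have hb0 : 0 < τ * (1 - x) := mul_pos hτ0 (by linarith)
  have hint : Integrable (fun θ : ℝ => Real.exp (-(τ * (1 - x)) * θ ^ 2)) :=
    integrable_exp_neg_mul_sq hb0
  have h1 : (∫ θ in (-Real.pi)..Real.pi, Real.exp (-(2 * τ * (1 - Real.cos θ)))) ≤
      ∫ θ in (-Real.pi)..Real.pi, (Real.exp (-(τ * (1 - x)) * θ ^ 2) +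
        Real.exp (-(2 * τ * (1 - Real.cos ω)))) := by
    apply intervalIntegral.integral_mono_on (by linarith)
    · apply Continuous.intervalIntegrable
      fun_prop
    · apply Continuous.intervalIntegrable
      fun_prop
    · intro θ hθ
      exact k3_pointwise x ω τ θ hω0 hω1 hωx hτ0 (abs_le.mpr hθ)
  have h2 : (∫ θ in (-Real.pi)..Real.pi, (Real.exp (-(τ * (1 - x)) * θ ^ 2) +
        Real.exp (-(2 * τ * (1 - Real.cos ω))))) =
      (∫ θ in (-Real.pi)..Real.pi, Real.exp (-(τ * (1 - x)) * θ ^ 2)) +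
        2 * Real.pi * Real.exp (-(2 * τ * c)) := by
    rw [intervalIntegral.integral_add]
    · congr 1
      rw [intervalIntegral.integral_const, smul_eq_mul, hc]
      ring
    · apply Continuous.intervalIntegrable
      fun_prop
    · apply Continuous.intervalIntegrable
      fun_prop
  have h3 : (∫ θ in (-Real.pi)..Real.pi, Real.exp (-(τ * (1 - x)) * θ ^ 2)) ≤
      Real.sqrt (Real.pi / (τ * (1 - x))) := by
    rw [intervalIntegral.integral_of_le (by linarith), ← integral_gaussian]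
    apply setIntegral_le_integral hint
    filter_upwards with θ using (Real.exp_pos _).le
  -- main estimates
  have hu0 : 0 < 1 - x := by linarith
  have hsq : Real.sqrt (Real.pi / (τ * (1 - x))) ≤ (1 + η / 2) * Real.sqrt (Real.pi / τ) := by
    have e1 : (1 + η / 2) * Real.sqrt (Real.pi / τ) = Real.sqrt ((1 + η / 2) ^ 2 * (Real.pi / τ)) := by
      rw [Real.sqrt_mul (by positivity), Real.sqrt_sq (by positivity)]
    rw [e1]
    apply Real.sqrt_le_sqrt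
    have e2 : Real.pi / (τ * (1 - x)) = (1 / (1 - x)) * (Real.pi / τ) := by
      field_simp
    rw [e2]
    apply mul_le_mul_of_nonneg_right _ (by positivity)
    rw [div_le_iff₀ hu0]
    have e3 : (1 + x) ^ 2 * (1 - x) ≥ 1 := by nlinarith [mul_pos hx0 hx0, mul_pos hx0 hu0]
    have e4 : (1 + x) ^ 2 ≤ (1 + η / 2) ^ 2 := pow_le_pow_left₀ (by linarith) (by linarith) 2
    nlinarith [mul_le_mul_of_nonneg_right e4 hu0.le]
  have hrp : (4 * Real.pi * τ) ^ (-(1 / 2) : ℝ) = 1 / Real.sqrt (4 * Real.pi * τ) := by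
    rw [Real.rpow_neg (by positivity), ← Real.sqrt_eq_rpow, one_div]
  have hs : (1 / (2 * Real.pi)) * Real.sqrt (Real.pi / τ) = 1 / Real.sqrt (4 * Real.pi * τ) := by
    have hS : 0 < Real.sqrt (4 * Real.pi * τ) := Real.sqrt_pos.mpr (by positivity)
    rw [eq_div_iff hS.ne', mul_assoc, ← Real.sqrt_mul (by positivity)]
    have : Real.pi / τ * (4 * Real.pi * τ) = (2 * Real.pi) ^ 2 := by
      field_simp; ring
    rw [this, Real.sqrt_sq (by positivity)]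
    field_simp
  have hexp : Real.exp (-(2 * τ * c)) ≤ (η / 2) * (1 / Real.sqrt (4 * Real.pi * τ)) := by
    have hS : 0 < Real.sqrt (4 * Real.pi * τ) := Real.sqrt_pos.mpr (by positivity)
    have f1 : 2 * τ * c ≤ Real.exp (2 * τ * c) := by
      have := Real.add_one_le_exp (2 * τ * c); linarith
    have f0 : 0 < 2 * τ * c := by positivity
    have f2 : Real.exp (-(2 * τ * c)) ≤ 1 / (2 * τ * c) := by
      rw [Real.exp_neg, ← one_div]
      exact one_div_le_one_div_of_le f0 f1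
    refine f2.trans ?_
    have f3 : Real.sqrt (4 * Real.pi * τ) ≤ η * τ * c := by
      rw [Real.sqrt_le_left (by positivity)]
      have g1 : 4 * Real.pi ≤ τ * (c * η) ^ 2 := by
        have := (div_le_iff₀ (by positivity : 0 < (c * η) ^ 2)).mp hτ
        linarith
      have := mul_le_mul_of_nonneg_right g1 hτ0.le
      nlinarith [this]
    rw [mul_one_div, div_le_div_iff₀ f0 hS]
    nlinarith [f3]
  unfold k1
  rw [hrp]
  calc (1 / (2 * Real.pi)) * ∫ θ in (-Real.pi)..Real.pi, Real.exp (-(2 * τ * (1 - Real.cos θ)))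
      ≤ (1 / (2 * Real.pi)) * ((1 + η / 2) * Real.sqrt (Real.pi / τ) +
          2 * Real.pi * Real.exp (-(2 * τ * c))) := by
        apply mul_le_mul_of_nonneg_left _ (by positivity)
        rw [h2] at h1
        linarith
    _ = (1 + η / 2) * ((1 / (2 * Real.pi)) * Real.sqrt (Real.pi / τ)) + Real.exp (-(2 * τ * c)) := by
        field_simp
    _ ≤ (1 + η / 2) * (1 / Real.sqrt (4 * Real.pi * τ)) +
          (η / 2) * (1 / Real.sqrt (4 * Real.pi * τ)) := by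
        rw [hs]; linarith
    _ = (1 + η) * (1 / Real.sqrt (4 * Real.pi * τ)) := by ring

theorem heat (η : ℝ) (hη : 0 < η) : ∃ T : ℝ, 0 < T ∧ ∀ (B : Finset Z3) (δ : ℝ), 0 < δ → δ ≤ 1 / 12 →
    ∀ n : ℕ, T ≤ n * δ → ∀ x : B, ((1 - δ • lapB B) ^ n) x x ≤
      (1 + η) * (4 * Real.pi) ^ (-(3 / 2) : ℝ) * ((n : ℝ) * δ) ^ (-(3 / 2) : ℝ) := by
  have hpi := Real.pi_pos
  obtain ⟨η', h0, h1, h2⟩ : ∃ x : ℝ, 0 < x ∧ x ≤ 1 ∧ x ≤ η / 7 :=
    ⟨min 1 (η / 7), lt_min (by norm_num) (by linarith), min_le_left _ _, min_le_right _ _⟩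
  obtain ⟨T, hT, hk⟩ := k1_le η' h0
  refine ⟨T, hT, ?_⟩
  intro B δ hδ0 hδ1 n hn x
  have hτ0 : 0 < (n : ℝ) * δ := hT.trans_le hn
  have a1 := ker_le B δ hδ0.le (by linarith) n x x
  rw [sub_self] at a1
  have a2 := kerZ_zero_le δ hδ0.le hδ1 n
  have a3 : (k1 (n * δ)) ^ 3 ≤ ((1 + η') * (4 * Real.pi * (n * δ)) ^ (-(1 / 2) : ℝ)) ^ 3 :=
    pow_le_pow_left₀ (k3_k1_nonneg _) (hk _ hn) 3
  have a4 : ((1 + η') * (4 * Real.pi * (n * δ)) ^ (-(1 / 2) : ℝ)) ^ 3 =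
      (1 + η') ^ 3 * ((4 * Real.pi) ^ (-(3 / 2) : ℝ) * ((n : ℝ) * δ) ^ (-(3 / 2) : ℝ)) := by
    rw [mul_pow, ← Real.mul_rpow (by positivity) hτ0.le, ← Real.rpow_natCast
      ((4 * Real.pi * (n * δ)) ^ (-(1 / 2) : ℝ)) 3, ← Real.rpow_mul (by positivity)]
    norm_num
  have a5 : (1 + η') ^ 3 ≤ 1 + η := by nlinarith [mul_nonneg h0.le (sub_nonneg.mpr h1), mul_nonneg (mul_nonneg h0.le h0.le) (sub_nonneg.mpr h1)]
  have a6 : 0 ≤ (4 * Real.pi) ^ (-(3 / 2) : ℝ) * ((n : ℝ) * δ) ^ (-(3 / 2) : ℝ) := by positivity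
  have a7 := mul_le_mul_of_nonneg_right a5 a6
  rw [mul_assoc]
  linarith [a1, a2, a3, a4, a7]

end CLR
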