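import Mathlib

/-!
# CLR row L7: Riemann sums on the half line

Let `ψ t = t^(-5/2) * max (v t - a) 0` for `t > 0` (it vanishes for `t ≤ a/v`), continuous on `(0,∞)`,
`0 ≤ ψ t ≤ v t^(-3/2)` and `ψ` bounded.  The `n`-th term is `δ ψ((n+1) δ)`:
`(1/(n+1)) ((n+1)δ)^(-3/2) max((n+1)δ v - a) 0 = δ ((n+1)δ)^(-5/2) max(..) 0`.
Summable by comparison with `C (n+1)^(-3/2)`.
`Σ_n δ ψ((n+1)δ) = ∫_0^∞ ψ(δ (⌊t/δ⌋ + 1)) dt` and `t < δ(⌊t/δ⌋+1) ≤ t + δ`; as `δ → 0` the integrand tends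
to `ψ t`, dominated (for `δ ≤ 1`) by `sup ψ` on `(0,1]` and `v t^(-3/2)` for `t > 1`.
`∫_0^∞ ψ = ∫_{a/v}^∞ (v t^(-3/2) - a t^(-5/2)) dt = 2 v (a/v)^(-1/2) - (2/3) a (a/v)^(-3/2) = (4/3) a^(-1/2) v^(3/2)`.
(Only the upper bound `limsup ≤` is used later; here it is stated as a limit.  Any proof is fine.)
-/

set_option autoImplicit false

open MeasureTheory Set Filter Topology

noncomputable section

namespace CLR

theorem riem_summable (a v δ : ℝ) (ha : 0 < a) (hv : 0 < v) (hδ : 0 < δ) :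
    Summable (fun n : ℕ => 1 / ((n : ℝ) + 1) * (((n : ℝ) + 1) * δ) ^ (-(3 / 2) : ℝ) *
      max (((n : ℝ) + 1) * δ * v - a) 0) := by
  have hs : Summable (fun n : ℕ => (δ * v * δ ^ (-(3 / 2) : ℝ)) * (1 / ((n : ℝ) + 1) ^ (3 / 2 : ℝ))) := by
    refine Summable.mul_left _ ?_
    have h1 : Summable (fun n : ℕ => 1 / (n : ℝ) ^ (3 / 2 : ℝ)) :=
      Real.summable_one_div_nat_rpow.2 (by norm_num)
    have h2 := (summable_nat_add_iff 1).2 h1
    refine h2.congr fun n => ?_
    push_cast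
    rfl
  refine Summable.of_nonneg_of_le (fun n => ?_) (fun n => ?_) hs
  · positivity
  · have hn : (0 : ℝ) < (n : ℝ) + 1 := by positivity
    have h3 : (((n : ℝ) + 1) * δ) ^ (-(3 / 2) : ℝ) =
        (1 / ((n : ℝ) + 1) ^ (3 / 2 : ℝ)) * δ ^ (-(3 / 2) : ℝ) := by
      rw [Real.mul_rpow hn.le hδ.le, Real.rpow_neg hn.le, one_div]
    have h4 : max (((n : ℝ) + 1) * δ * v - a) 0 ≤ ((n : ℝ) + 1) * δ * v :=
      max_le (by linarith) (by positivity)
    calc 1 / ((n : ℝ) + 1) * (((n : ℝ) + 1) * δ) ^ (-(3 / 2) : ℝ) *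
          max (((n : ℝ) + 1) * δ * v - a) 0
        ≤ 1 / ((n : ℝ) + 1) * (((n : ℝ) + 1) * δ) ^ (-(3 / 2) : ℝ) *
          (((n : ℝ) + 1) * δ * v) := mul_le_mul_of_nonneg_left h4 (by positivity)
      _ = δ * v * δ ^ (-(3 / 2) : ℝ) * (1 / ((n : ℝ) + 1) ^ (3 / 2 : ℝ)) := by
          rw [h3]
          field_simp

theorem riem_lim (a v : ℝ) (ha : 0 < a) (hv : 0 < v) :
    Tendsto (fun δ : ℝ => ∑' n : ℕ, 1 / ((n : ℝ) + 1) * (((n : ℝ) + 1) * δ) ^ (-(3 / 2) : ℝ) *
      max (((n : ℝ) + 1) * δ * v - a) 0) (𝓝[>] 0)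
      (𝓝 (4 / 3 * a ^ (-(1 / 2) : ℝ) * v ^ (3 / 2 : ℝ))) := by
  set c : ℝ := a / v with hcdef
  have hc : 0 < c := div_pos ha hv
  have hcv : c * v = a := by rw [hcdef]; field_simp
  set ψ : ℝ → ℝ := fun s => s⁻¹ * s ^ (-(3 / 2) : ℝ) * max (s * v - a) 0 with hψ
  set g : ℝ → ℝ → ℝ := fun δ t => ψ (((⌊t / δ⌋₊ : ℝ) + 1) * δ) with hg
  set bd : ℝ → ℝ := fun t => v * (max c t) ^ (-(3 / 2) : ℝ) with hbd
  have hψ0 : ∀ s, 0 < s → 0 ≤ ψ s := by
    intro s hs
    simp only [hψ]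
    positivity
  have hψz : ∀ s, s ≤ c → ψ s = 0 := by
    intro s hs
    have h1 : s * v - a ≤ 0 := by
      have := mul_le_mul_of_nonneg_right hs hv.le
      linarith
    simp only [hψ]
    rw [max_eq_right h1, mul_zero]
  have hψb : ∀ s t, 0 < s → t < s → ψ s ≤ bd t := by
    intro s t hs hts
    have hmx : 0 < max c t := lt_of_lt_of_le hc (le_max_left _ _)
    rcases le_or_gt s c with h1 | h1
    · rw [hψz s h1]
      simp only [hbd]
      positivity
    · have h2 : max (s * v - a) 0 ≤ s * v := max_le (by linarith) (by positivity)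
      have h3 : s ^ (-(3 / 2) : ℝ) ≤ (max c t) ^ (-(3 / 2) : ℝ) :=
        Real.rpow_le_rpow_of_nonpos hmx (max_le h1.le hts.le) (by norm_num)
      calc ψ s ≤ s⁻¹ * s ^ (-(3 / 2) : ℝ) * (s * v) := by
            simp only [hψ]
            exact mul_le_mul_of_nonneg_left h2 (by positivity)
        _ = v * s ^ (-(3 / 2) : ℝ) := by field_simp
        _ ≤ v * (max c t) ^ (-(3 / 2) : ℝ) := mul_le_mul_of_nonneg_left h3 hv.le
  have hbc : Continuous bd := by
    simp only [hbd]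
    refine continuous_const.mul ?_
    refine Continuous.rpow_const (continuous_const.max continuous_id) fun t => Or.inl ?_
    exact (lt_of_lt_of_le hc (le_max_left c t)).ne'
  have hbi : IntegrableOn bd (Ici 0) := by
    have h1 : IntegrableOn bd (Icc 0 c) := hbc.continuousOn.integrableOn_Icc
    have h2 : IntegrableOn bd (Ioi c) := by
      have h3 : IntegrableOn (fun t : ℝ => v * t ^ (-(3 / 2) : ℝ)) (Ioi c) :=
        (integrableOn_Ioi_rpow_of_lt (by norm_num) hc).const_mul v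
      refine h3.congr_fun ?_ measurableSet_Ioi
      intro t ht
      simp only [hbd]
      rw [max_eq_right (le_of_lt (mem_Ioi.1 ht))]
    refine (h1.union h2).mono_set ?_
    intro t ht
    rcases le_or_gt t c with h3 | h3
    · exact Or.inl ⟨ht, h3⟩
    · exact Or.inr h3
  have hψm : Measurable ψ := by
    simp only [hψ]
    fun_prop
  have hgm : ∀ δ, Measurable (g δ) := by
    intro δ
    have h1 : Measurable (fun t : ℝ => ((⌊t / δ⌋₊ : ℝ) + 1) * δ) := by
      have h2 : Measurable (fun t : ℝ => (⌊t / δ⌋₊ : ℝ)) :=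
        (measurable_from_top (f := fun n : ℕ => (n : ℝ))).comp
          (Nat.measurable_floor.comp (measurable_id.div_const δ))
      exact (h2.add_const 1).mul_const δ
    exact hψm.comp h1
  have hlt : ∀ δ t, 0 < δ → 0 ≤ t → t < ((⌊t / δ⌋₊ : ℝ) + 1) * δ := by
    intro δ t hδ _
    rw [← div_lt_iff₀ hδ]
    exact Nat.lt_floor_add_one _
  have hle : ∀ δ t, 0 < δ → 0 ≤ t → ((⌊t / δ⌋₊ : ℝ) + 1) * δ ≤ t + δ := by
    intro δ t hδ ht
    have h1 : (⌊t / δ⌋₊ : ℝ) ≤ t / δ := Nat.floor_le (by positivity)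
    rw [le_div_iff₀ hδ] at h1
    linarith
  have hbound : ∀ δ, 0 < δ → ∀ t, 0 ≤ t → ‖g δ t‖ ≤ bd t := by
    intro δ hδ t ht
    have hp : 0 < ((⌊t / δ⌋₊ : ℝ) + 1) * δ := by positivity
    rw [Real.norm_of_nonneg (hψ0 _ hp)]
    exact hψb _ _ hp (hlt δ t hδ ht)
  have hgi : ∀ δ, 0 < δ → IntegrableOn (g δ) (Ici 0) := by
    intro δ hδ
    refine Integrable.mono' hbi (hgm δ).aestronglyMeasurable ?_
    exact (ae_restrict_iff' measurableSet_Ici).2
      (Filter.Eventually.of_forall fun t ht => hbound δ hδ t ht)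
  have hU : ∀ δ, 0 < δ → (⋃ n : ℕ, Ico ((n : ℝ) * δ) (((n : ℝ) + 1) * δ)) = Ici (0 : ℝ) := by
    intro δ hδ
    ext t
    rw [mem_iUnion]
    constructor
    · rintro ⟨n, hn⟩
      exact le_trans (by positivity) hn.1
    · intro ht
      refine ⟨⌊t / δ⌋₊, ?_, hlt δ t hδ ht⟩
      rw [← le_div_iff₀ hδ]
      exact Nat.floor_le (div_nonneg ht hδ.le)
  have hsum : ∀ δ, 0 < δ → ∑' n : ℕ, 1 / ((n : ℝ) + 1) * (((n : ℝ) + 1) * δ) ^ (-(3 / 2) : ℝ) *
      max (((n : ℝ) + 1) * δ * v - a) 0 = ∫ t in Ioi 0, g δ t := by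
    intro δ hδ
    rw [← integral_Ici_eq_integral_Ioi, ← hU δ hδ,
      integral_iUnion (fun n => measurableSet_Ico) ?_ (by rw [hU δ hδ]; exact hgi δ hδ)]
    · refine tsum_congr fun n => ?_
      have h1 : ∫ t in Ico ((n : ℝ) * δ) (((n : ℝ) + 1) * δ), g δ t =
          ∫ _t in Ico ((n : ℝ) * δ) (((n : ℝ) + 1) * δ), ψ (((n : ℝ) + 1) * δ) := by
        refine setIntegral_congr_fun measurableSet_Ico ?_
        intro t ht
        have ht0 : 0 ≤ t := le_trans (by positivity) ht.1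
        have h2 : ⌊t / δ⌋₊ = n := by
          rw [Nat.floor_eq_iff (div_nonneg ht0 hδ.le), le_div_iff₀ hδ, div_lt_iff₀ hδ]
          exact ht
        simp only [hg]
        rw [h2]
      rw [h1, setIntegral_const, Real.volume_real_Ico_of_le (by nlinarith), smul_eq_mul]
      simp only [hψ]
      have hn : (0 : ℝ) < (n : ℝ) + 1 := by positivity
      field_simp
      ring
    · intro m n hmn
      rw [Function.onFun, Set.disjoint_left]
      intro t ht ht'
      apply hmn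
      have ht0 : 0 ≤ t := le_trans (by positivity) ht.1
      have h2 : ⌊t / δ⌋₊ = m := by
        rw [Nat.floor_eq_iff (div_nonneg ht0 hδ.le), le_div_iff₀ hδ, div_lt_iff₀ hδ]
        exact ht
      have h3 : ⌊t / δ⌋₊ = n := by
        rw [Nat.floor_eq_iff (div_nonneg ht0 hδ.le), le_div_iff₀ hδ, div_lt_iff₀ hδ]
        exact ht'
      rw [← h2, ← h3]
  have hval : ∫ t in Ioi 0, ψ t = 4 / 3 * a ^ (-(1 / 2) : ℝ) * v ^ (3 / 2 : ℝ) := by
    have h1 : ∫ t in Ioi 0, ψ t = ∫ t in Ioi c, ψ t := by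
      refine setIntegral_eq_of_subset_of_forall_sdiff_eq_zero measurableSet_Ioi
        (Ioi_subset_Ioi hc.le) ?_
      intro t ht
      exact hψz t (not_lt.1 fun h => ht.2 h)
    have h2 : ∫ t in Ioi c, ψ t =
        ∫ t in Ioi c, (v * t ^ (-(3 / 2) : ℝ) - a * t ^ (-(5 / 2) : ℝ)) := by
      refine setIntegral_congr_fun measurableSet_Ioi ?_
      intro t ht
      have htc : c < t := ht
      have ht0 : 0 < t := hc.trans htc
      have h3 : 0 ≤ t * v - a := by nlinarith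
      have h4 : t ^ (-(5 / 2) : ℝ) = t⁻¹ * t ^ (-(3 / 2) : ℝ) := by
        rw [← Real.rpow_neg_one, ← Real.rpow_add ht0]
        norm_num
      simp only [hψ]
      rw [max_eq_left h3, h4]
      field_simp
    have i1 : IntegrableOn (fun t : ℝ => v * t ^ (-(3 / 2) : ℝ)) (Ioi c) :=
      (integrableOn_Ioi_rpow_of_lt (by norm_num) hc).const_mul v
    have i2 : IntegrableOn (fun t : ℝ => a * t ^ (-(5 / 2) : ℝ)) (Ioi c) :=
      (integrableOn_Ioi_rpow_of_lt (by norm_num) hc).const_mul a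
    rw [h1, h2, integral_sub i1 i2, integral_const_mul, integral_const_mul,
      integral_Ioi_rpow_of_lt (by norm_num) hc, integral_Ioi_rpow_of_lt (by norm_num) hc]
    have e1 : (-(3 / 2) : ℝ) + 1 = -(1 / 2) := by norm_num
    have e2 : (-(5 / 2) : ℝ) + 1 = -(3 / 2) := by norm_num
    rw [e1, e2]
    have e3 : a * c ^ (-(3 / 2) : ℝ) = v * c ^ (-(1 / 2) : ℝ) := by
      have e4 : c ^ (-(1 / 2) : ℝ) = c * c ^ (-(3 / 2) : ℝ) := by
        nth_rewrite 2 [← Real.rpow_one c]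
        rw [← Real.rpow_add hc]
        norm_num
      rw [e4, ← hcv]
      ring
    have e5 : v * c ^ (-(1 / 2) : ℝ) = a ^ (-(1 / 2) : ℝ) * v ^ (3 / 2 : ℝ) := by
      rw [hcdef, Real.div_rpow ha.le hv.le]
      have e6 : v ^ (3 / 2 : ℝ) = v * v ^ (1 / 2 : ℝ) := by
        nth_rewrite 2 [← Real.rpow_one v]
        rw [← Real.rpow_add hv]
        norm_num
      rw [e6, Real.rpow_neg hv.le (1 / 2)]
      field_simp
    have e7 : v * (-c ^ (-(1 / 2) : ℝ) / (-(1 / 2))) - a * (-c ^ (-(3 / 2) : ℝ) / (-(3 / 2))) =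
        2 * (v * c ^ (-(1 / 2) : ℝ)) - 2 / 3 * (a * c ^ (-(3 / 2) : ℝ)) := by ring
    rw [e7, e3, e5]
    ring
  have hlim : Tendsto (fun δ : ℝ => ∫ t in Ioi 0, g δ t) (𝓝[>] 0) (𝓝 (∫ t in Ioi 0, ψ t)) := by
    refine tendsto_integral_filter_of_dominated_convergence bd
      (Filter.Eventually.of_forall fun δ => (hgm δ).aestronglyMeasurable) ?_
      (hbi.mono_set Ioi_subset_Ici_self) ?_
    · filter_upwards [self_mem_nhdsWithin] with δ hδ
      exact (ae_restrict_iff' measurableSet_Ioi).2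
        (Filter.Eventually.of_forall fun t ht => hbound δ hδ t (le_of_lt ht))
    · refine (ae_restrict_iff' measurableSet_Ioi).2 (Filter.Eventually.of_forall fun t ht => ?_)
      have ht0 : 0 < t := ht
      have hcont : ContinuousAt ψ t := by
        simp only [hψ]
        refine ContinuousAt.mul (ContinuousAt.mul (continuousAt_inv₀ ht0.ne')
          (Real.continuousAt_rpow_const _ _ (Or.inl ht0.ne'))) ?_
        exact (((continuous_id.mul continuous_const).sub continuous_const).max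
          continuous_const).continuousAt
      have t1 : Tendsto (fun δ : ℝ => ((⌊t / δ⌋₊ : ℝ) + 1) * δ) (𝓝[>] 0) (𝓝 t) := by
        have t2 : Tendsto (fun δ : ℝ => t + δ) (𝓝[>] 0) (𝓝 t) := by
          have : Tendsto (fun δ : ℝ => t + δ) (𝓝 0) (𝓝 (t + 0)) :=
            (continuous_const.add continuous_id).tendsto 0
          rw [add_zero] at this
          exact this.mono_left nhdsWithin_le_nhds
        refine tendsto_of_tendsto_of_tendsto_of_le_of_le' tendsto_const_nhds t2 ?_ ?_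
        · filter_upwards [self_mem_nhdsWithin] with δ hδ
          exact (hlt δ t hδ ht0.le).le
        · filter_upwards [self_mem_nhdsWithin] with δ hδ
          exact hle δ t hδ ht0.le
      exact hcont.tendsto.comp t1
  rw [← hval]
  refine hlim.congr' ?_
  filter_upwards [self_mem_nhdsWithin] with δ hδ
  exact (hsum δ hδ).symm

end CLR
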