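import Pool.Agent.CLR.L6
import Pool.Agent.CLR.L7

/-!
# CLR row L8: Lieb's trace bound for finite matrices

Proof.  Let `P = 1 - δ A`, `δ > 0` small (`step_small`).  By `loops_jensen`, termwise,
`Lam P v δ (max (1 - a/s) 0) ≤ Σ_n Σ_x (P^(n+1)) x x (1/(n+1)) max ((n+1) δ v x - a) 0`.
If the last factor is nonzero then `(n+1) δ > a / v x ≥ T` (`hT`), so by `hker`
`(P^(n+1)) x x ≤ c ((n+1)δ)^(-3/2)`; so each term is `≤ c * (1/(n+1)) ((n+1)δ)^(-3/2) max(..) 0`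
(if the factor is zero both sides are `0`).
Summable (`riem_summable`), so `Lam ≤ c Σ_x (Riemann sum for v x)`, whose limit as `δ → 0` is
`c Σ_x (4/3) a^(-1/2) (v x)^(3/2)` (`riem_lim`).  With `lam_lower` and `η → 0` the claim follows.
(Summability of the left series: `lam_summable`.)
-/

set_option autoImplicit false

open MeasureTheory Set Filter Topology

noncomputable section

namespace CLR

variable {ι : Type} [Fintype ι] [DecidableEq ι]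

omit [DecidableEq ι] in
private theorem l8_g (a : ℝ) (ha : 0 < a) (s : ℝ) (hs : 0 ≤ s) : |max (1 - a / s) 0| ≤ 1 := by
  rw [abs_of_nonneg (le_max_right _ _)]
  apply max_le _ zero_le_one
  have : 0 ≤ a / s := div_nonneg ha.le hs
  linarith

private theorem l8_term (A : Matrix ι ι ℝ) (v : ι → ℝ) (hv : ∀ x, 0 < v x) (c T δ0 a : ℝ) (hc : 0 < c)
    (ha : 0 < a) (hT : ∀ x, T * v x ≤ a)
    (hker : ∀ δ : ℝ, 0 < δ → δ ≤ δ0 → ∀ n : ℕ, T ≤ n * δ → 0 < n → ∀ x,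
      ((1 - δ • A) ^ n) x x ≤ c * ((n : ℝ) * δ) ^ (-(3 / 2) : ℝ)) (δ : ℝ) (hδ : 0 < δ) (hδ1 : δ ≤ δ0)
    (n : ℕ) (x : ι) :
    ((1 - δ • A) ^ (n + 1)) x x * (1 / ((n : ℝ) + 1) * max (((n : ℝ) + 1) * δ * v x - a) 0) ≤
      c * (1 / ((n : ℝ) + 1) * (((n : ℝ) + 1) * δ) ^ (-(3 / 2) : ℝ) *
        max (((n : ℝ) + 1) * δ * v x - a) 0) := by
  by_cases h : ((n : ℝ) + 1) * δ * v x - a ≤ 0
  · rw [max_eq_right h]
    simp
  · push Not at h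
    have h1 : T ≤ ((n + 1 : ℕ) : ℝ) * δ := by
      have h2 := hT x
      push_cast
      by_contra hc
      push Not at hc
      have := mul_lt_mul_of_pos_right hc (hv x)
      linarith
    have h2 := hker δ hδ hδ1 (n + 1) h1 (Nat.succ_pos n) x
    push_cast at h2
    have h3 : 0 ≤ 1 / ((n : ℝ) + 1) * max (((n : ℝ) + 1) * δ * v x - a) 0 := by positivity
    calc ((1 - δ • A) ^ (n + 1)) x x * (1 / ((n : ℝ) + 1) * max (((n : ℝ) + 1) * δ * v x - a) 0)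
        ≤ (c * (((n : ℝ) + 1) * δ) ^ (-(3 / 2) : ℝ)) *
          (1 / ((n : ℝ) + 1) * max (((n : ℝ) + 1) * δ * v x - a) 0) :=
          mul_le_mul_of_nonneg_right h2 h3
      _ = _ := by ring

private theorem l8_lam (A : Matrix ι ι ℝ) (v : ι → ℝ) (hv : ∀ x, 0 < v x) (c T δ0 a : ℝ) (hc : 0 < c)
    (ha : 0 < a) (hT : ∀ x, T * v x ≤ a)
    (hker : ∀ δ : ℝ, 0 < δ → δ ≤ δ0 → ∀ n : ℕ, T ≤ n * δ → 0 < n → ∀ x,
      ((1 - δ • A) ^ n) x x ≤ c * ((n : ℝ) * δ) ^ (-(3 / 2) : ℝ)) (δ : ℝ) (hδ : 0 < δ) (hδ1 : δ ≤ δ0)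
    (h1 : ∀ x y, 0 ≤ (1 - δ • A) x y) (h2 : (1 - δ • A).PosSemidef)
    (h3 : (1 - (1 - δ • A)).PosDef) :
    Lam (1 - δ • A) v δ (fun s => max (1 - a / s) 0) ≤
      c * ∑ x, ∑' n : ℕ, 1 / ((n : ℝ) + 1) * (((n : ℝ) + 1) * δ) ^ (-(3 / 2) : ℝ) *
        max (((n : ℝ) + 1) * δ * v x - a) 0 := by
  have hs : ∀ x, Summable (fun n : ℕ => 1 / ((n : ℝ) + 1) * (((n : ℝ) + 1) * δ) ^ (-(3 / 2) : ℝ) *
      max (((n : ℝ) + 1) * δ * v x - a) 0) := fun x => riem_summable a (v x) δ ha (hv x) hδ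
  have e : c * ∑ x, ∑' n : ℕ, 1 / ((n : ℝ) + 1) * (((n : ℝ) + 1) * δ) ^ (-(3 / 2) : ℝ) *
        max (((n : ℝ) + 1) * δ * v x - a) 0 =
      ∑' n : ℕ, ∑ x, c * (1 / ((n : ℝ) + 1) * (((n : ℝ) + 1) * δ) ^ (-(3 / 2) : ℝ) *
        max (((n : ℝ) + 1) * δ * v x - a) 0) := by
    rw [Summable.tsum_finsetSum (fun x _ => (hs x).mul_left c), Finset.mul_sum]
    apply Finset.sum_congr rfl
    intro x _
    rw [tsum_mul_left]
  rw [e]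
  unfold Lam
  refine Summable.tsum_le_tsum ?_ ?_ ?_
  · intro n
    refine (loops_jensen (1 - δ • A) h1 v (fun x => (hv x).le) δ a hδ.le ha n).trans ?_
    apply Finset.sum_le_sum
    intro x _
    exact l8_term A v hv c T δ0 a hc ha hT hker δ hδ hδ1 n x
  · exact lam_summable (1 - δ • A) h1 h2 h3 v (fun x => (hv x).le) δ hδ.le
      (fun s => max (1 - a / s) 0) 1 (fun s hs => l8_g a ha s hs)
  · exact summable_sum (fun x _ => (hs x).mul_left c)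

theorem traceA (A : Matrix ι ι ℝ) (hA : A.PosDef) (hoff : ∀ x y, x ≠ y → A x y ≤ 0)
    (v : ι → ℝ) (hv : ∀ x, 0 < v x) (hH : (Hm A v).IsHermitian) (c T δ0 a : ℝ) (hc : 0 < c)
    (hδ0 : 0 < δ0) (ha : 0 < a) (hT : ∀ x, T * v x ≤ a)
    (hker : ∀ δ : ℝ, 0 < δ → δ ≤ δ0 → ∀ n : ℕ, T ≤ n * δ → 0 < n → ∀ x,
      ((1 - δ • A) ^ n) x x ≤ c * ((n : ℝ) * δ) ^ (-(3 / 2) : ℝ)) :
    ∑ j, Fa a (hH.eigenvalues j) ≤ 4 / 3 * c * a ^ (-(1 / 2) : ℝ) * ∑ x, v x ^ (3 / 2 : ℝ) := by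
  apply le_of_forall_pos_le_add
  intro η hη
  have h1 := lam_lower A hA hoff v hv hH a η ha hη
  have h2 := step_small A hA hoff
  have h3 : ∀ᶠ δ in 𝓝[>] (0 : ℝ), δ ≤ δ0 :=
    nhdsWithin_le_nhds (Iic_mem_nhds hδ0)
  have h4 : ∀ᶠ δ in 𝓝[>] (0 : ℝ), 0 < δ := self_mem_nhdsWithin
  have hlim : Tendsto (fun δ : ℝ => c * ∑ x, ∑' n : ℕ, 1 / ((n : ℝ) + 1) *
      (((n : ℝ) + 1) * δ) ^ (-(3 / 2) : ℝ) * max (((n : ℝ) + 1) * δ * v x - a) 0 + η) (𝓝[>] 0)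
      (𝓝 (c * ∑ x, (4 / 3 * a ^ (-(1 / 2) : ℝ) * v x ^ (3 / 2 : ℝ)) + η)) := by
    apply Tendsto.add_const
    apply Tendsto.const_mul
    apply tendsto_finset_sum
    intro x _
    exact riem_lim a (v x) ha (hv x)
  have e : 4 / 3 * c * a ^ (-(1 / 2) : ℝ) * ∑ x, v x ^ (3 / 2 : ℝ) + η =
      c * ∑ x, (4 / 3 * a ^ (-(1 / 2) : ℝ) * v x ^ (3 / 2 : ℝ)) + η := by
    rw [← Finset.mul_sum]
    ring
  rw [e]
  refine ge_of_tendsto hlim ?_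
  filter_upwards [h1, h2, h3, h4] with δ k1 k2 k3 k4
  refine k1.trans ?_
  gcongr
  exact l8_lam A v hv c T δ0 a hc ha hT hker δ k4 k3 k2.1 k2.2.1 k2.2.2

end CLR
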