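import Pool.Agent.CLR.M1

/-!
# CLR row M2: continuous time form of (B')

Proof.  Apply `traceB_discrete` with `δ = t/(2n)`, `n → ∞` (for `n` large `δ A x x ≤ v x` for all `x`,
finitely many conditions): `(1 - t E_j/(2n))^{2n} → exp(-t E_j)` (`Real.tendsto_one_add_div_pow_exp`
along the subsequence `2n`), finite sum, `le_of_tendsto`.
-/

set_option autoImplicit false

open MeasureTheory Set Filter Topology

noncomputable section

namespace CLR

variable {ι : Type} [Fintype ι] [DecidableEq ι]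

private theorem m2_lim (t E : ℝ) :
    Tendsto (fun n : ℕ => (1 - t / (2 * (n : ℝ)) * E) ^ (2 * n)) atTop
      (𝓝 (Real.exp (-(t * E)))) := by
  have h1 := Real.tendsto_one_add_div_pow_exp (-(t * E))
  have h2 : Tendsto (fun n : ℕ => 2 * n) atTop atTop :=
    tendsto_id.const_mul_atTop' (by norm_num)
  have h3 := h1.comp h2
  refine h3.congr fun n => ?_
  simp only [Function.comp_apply]
  push_cast
  congr 1
  ring

theorem traceB (A : Matrix ι ι ℝ) (hA : A.PosDef) (hoff : ∀ x y, x ≠ y → A x y ≤ 0)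
    (hrow : ∀ x, 0 ≤ ∑ y, A x y) (v : ι → ℝ) (hv : ∀ x, 0 < v x) (c1 c2 : ℝ) (hc2 : 0 ≤ c2)
    (hP : ∀ ρ u : ι → ℝ, (∀ x, 0 ≤ ρ x) → ∑ x, ρ x ≤ 1 → (∀ x, 0 ≤ u x) →
      2 * ∑ x, ρ x * u x - ∑ x, ∑ y, u x * A x y * u y ≤
        ∑ x, (c1 * ρ x ^ 2 / v x + c2 * (ρ x * Real.sqrt (v x))))
    (hH : (Hm A v).IsHermitian) (t : ℝ) (ht : 0 < t) :
    ∑ j, (1 / hH.eigenvalues j - c1) * Real.exp (-(t * hH.eigenvalues j)) ≤
      c2 * ∑ x, v x ^ (3 / 2 : ℝ) := by
  have hlim : Tendsto (fun n : ℕ => ∑ j, (1 / hH.eigenvalues j - c1) *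
      (1 - t / (2 * (n : ℝ)) * hH.eigenvalues j) ^ (2 * n)) atTop
      (𝓝 (∑ j, (1 / hH.eigenvalues j - c1) * Real.exp (-(t * hH.eigenvalues j)))) :=
    tendsto_finsetSum _ fun j _ => (m2_lim t (hH.eigenvalues j)).const_mul _
  have hdel : Tendsto (fun n : ℕ => t / (2 * (n : ℝ))) atTop (𝓝 0) :=
    Tendsto.div_atTop tendsto_const_nhds
      (tendsto_natCast_atTop_atTop.const_mul_atTop (by norm_num))
  refine le_of_tendsto hlim ?_
  have hev : ∀ᶠ n : ℕ in atTop, ∀ x, t / (2 * (n : ℝ)) * A x x ≤ v x := by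
    rw [eventually_all]
    intro x
    have h1 : Tendsto (fun n : ℕ => t / (2 * (n : ℝ)) * A x x) atTop (𝓝 (0 * A x x)) :=
      hdel.mul_const _
    rw [zero_mul] at h1
    exact (h1.eventually (gt_mem_nhds (hv x))).mono fun n hn => hn.le
  filter_upwards [hev, eventually_gt_atTop 0] with n hn hn0
  have hn0' : (0 : ℝ) < n := Nat.cast_pos.2 hn0
  exact traceB_discrete A hA hoff hrow v hv c1 c2 hc2 hP hH (t / (2 * (n : ℝ))) (by positivity)
    hn n

end CLR
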