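import Pool.Agent.CLR.M0

/-!
# CLR row M3: counting eigenvalues

Proof.  Let `J = {j | E_j < 1}` and suppose `m > #J`.  With `y_c x = √(v x) * Σ_i c_i φ_i x` the
hypothesis says `⟨y_c, H y_c⟩ < ⟨y_c, y_c⟩` for `c ≠ 0`, `H = Hm A v = D^{-1/2} A D^{-1/2}`.  The
linear map `c ↦ (⟨eigenvector_j, y_c⟩)_{j ∈ J}` from `ℝ^m` to `ℝ^J` has a nonzero kernel element `c`
(dimension).  For it `⟨y_c, H y_c⟩ = Σ_{j ∉ J} E_j ⟨e_j, y_c⟩^2 ≥ Σ_{j ∉ J} ⟨e_j, y_c⟩^2 = ⟨y_c, y_c⟩`,
contradiction (use `spec`: `H = U diag E Uᵀ`, `z = Uᵀ y_c`, `z j = 0` for `j ∈ J`).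
-/

set_option autoImplicit false

open MeasureTheory Set Filter Topology

noncomputable section

namespace CLR

variable {ι : Type} [Fintype ι] [DecidableEq ι]

theorem count (A : Matrix ι ι ℝ) (v : ι → ℝ) (hv : ∀ x, 0 < v x) (hH : (Hm A v).IsHermitian)
    (m : ℕ) (φ : Fin m → ι → ℝ)
    (hneg : ∀ c : Fin m → ℝ, c ≠ 0 →
      ∑ x, ∑ y, (∑ i, c i * φ i x) * A x y * (∑ i, c i * φ i y) <
        ∑ x, v x * (∑ i, c i * φ i x) ^ 2) :
    m ≤ (Finset.univ.filter (fun j => hH.eigenvalues j < 1)).card := by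
  by_contra hlt
  push Not at hlt
  obtain ⟨U, hU1, hU2, hU⟩ := spec (Hm A v) hH
  set J := Finset.univ.filter (fun j => hH.eigenvalues j < 1) with hJ
  -- the linear map
  let Y : (Fin m → ℝ) → ι → ℝ := fun c x => Real.sqrt (v x) * ∑ i, c i * φ i x
  let L : (Fin m → ℝ) →ₗ[ℝ] (J → ℝ) :=
    { toFun := fun c j => (U.transpose.mulVec (Y c)) j.1
      map_add' := by
        intro c d
        funext j
        have h1 : Y (c + d) = Y c + Y d := by
          funext x
          simp only [Y, Pi.add_apply, add_mul, Finset.sum_add_distrib, mul_add]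
        simp only [h1, Matrix.mulVec_add, Pi.add_apply]
      map_smul' := by
        intro a c
        funext j
        have h1 : Y (a • c) = a • Y c := by
          funext x
          simp only [Y, Pi.smul_apply, smul_eq_mul]
          rw [Finset.mul_sum, Finset.mul_sum, Finset.mul_sum]
          refine Finset.sum_congr rfl fun i _ => ?_
          ring
        simp only [h1, Matrix.mulVec_smul, Pi.smul_apply, RingHom.id_apply] }
  have hker : LinearMap.ker L ≠ ⊥ := by
    refine LinearMap.ker_ne_bot_of_finrank_lt ?_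
    simpa using hlt
  obtain ⟨c, hc, hc0⟩ := (Submodule.ne_bot_iff _).1 hker
  have hL : L c = 0 := hc
  have hz : ∀ j ∈ J, (U.transpose.mulVec (Y c)) j = 0 := fun j hj =>
    congrFun hL ⟨j, hj⟩
  -- the two quadratic forms
  have hs : ∀ x, Real.sqrt (v x) * Real.sqrt (v x) = v x := fun x => Real.mul_self_sqrt (hv x).le
  have hs0 : ∀ x, Real.sqrt (v x) ≠ 0 := fun x => (Real.sqrt_pos.2 (hv x)).ne'
  have e1 : ∑ x, ∑ y, (∑ i, c i * φ i x) * A x y * (∑ i, c i * φ i y) =
      Y c ⬝ᵥ ((Hm A v).mulVec (Y c)) := by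
    simp only [dotProduct, Matrix.mulVec, Hm, Y]
    refine Finset.sum_congr rfl fun x _ => ?_
    rw [Finset.mul_sum]
    refine Finset.sum_congr rfl fun y _ => ?_
    have h1 := hs0 x
    have h2 := hs0 y
    field_simp
  have e2 : ∑ x, v x * (∑ i, c i * φ i x) ^ 2 = Y c ⬝ᵥ Y c := by
    simp only [dotProduct, Y]
    refine Finset.sum_congr rfl fun x _ => ?_
    calc v x * (∑ i, c i * φ i x) ^ 2
        = (Real.sqrt (v x) * Real.sqrt (v x)) * (∑ i, c i * φ i x) ^ 2 := by rw [hs x]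
      _ = _ := by ring
  have e3 : Y c ⬝ᵥ ((Hm A v).mulVec (Y c)) =
      ∑ j, hH.eigenvalues j * (U.transpose.mulVec (Y c)) j ^ 2 := by
    conv_lhs => rw [hU]
    rw [← Matrix.mulVec_mulVec, ← Matrix.mulVec_mulVec, Matrix.dotProduct_mulVec,
      ← Matrix.mulVec_transpose]
    simp only [dotProduct, Matrix.mulVec_diagonal]
    refine Finset.sum_congr rfl fun j _ => ?_
    ring
  have e4 : Y c ⬝ᵥ Y c = ∑ j, (U.transpose.mulVec (Y c)) j ^ 2 := by
    have h1 : Y c = U.mulVec (U.transpose.mulVec (Y c)) := by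
      rw [Matrix.mulVec_mulVec, hU1, Matrix.one_mulVec]
    have h2 : Y c ⬝ᵥ (U.mulVec (U.transpose.mulVec (Y c))) =
        (U.transpose.mulVec (Y c)) ⬝ᵥ (U.transpose.mulVec (Y c)) := by
      rw [Matrix.dotProduct_mulVec, ← Matrix.mulVec_transpose]
    rw [← h1] at h2
    rw [h2]
    simp only [dotProduct]
    refine Finset.sum_congr rfl fun j _ => ?_
    ring
  have h := hneg c hc0
  rw [e1, e2, e3, e4] at h
  refine absurd h (not_lt.2 (Finset.sum_le_sum fun j _ => ?_))
  by_cases hj : j ∈ J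
  · rw [hz j hj]
    simp
  · have h1 : 1 ≤ hH.eigenvalues j := by
      rw [hJ] at hj
      simpa using hj
    nlinarith [sq_nonneg ((U.transpose.mulVec (Y c)) j)]

end CLR
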