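import Pool.Agent.CLR.N2

/-!
# CLR row N3: the certificate

`α = 217/250`, `β = 1697/2000`, `a = 4/25`, `b = 255025/1000000 (= .505^2)`, `σ = 13/40`.
`Psi E = α Fa a E + β (1/E - b) e^{-σE}`.
(i) `0 < E ≤ 1`: `Fa a E ≥ Fa a 1 ≥ .6262`, `1/E - b ≥ 1 - b > 0`, `e^{-σE} ≥ e^{-σ} ≥ .72247`.
(ii) `1 < E ≤ 1/b`: both terms are `≥ 0`.
(iii) `E > 1/b`: `Fa_lower` and a cubic Taylor bound of the exponential at `E = 12.35`.
-/

set_option autoImplicit false

open MeasureTheory Set Filter Topology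

noncomputable section

namespace CLR

/-- the certificate function -/
def Psi (E : ℝ) : ℝ :=
  217 / 250 * Fa (4 / 25) E + 1697 / 2000 * ((1 / E - 255025 / 1000000) * Real.exp (-(13 / 40 * E)))

private theorem n3_cubic_le_exp (y : ℝ) : 1 + y + y ^ 2 / 2 + y ^ 3 / 6 ≤ Real.exp y := by
  have hd : ∀ x : ℝ, HasDerivAt (fun x : ℝ => (1 + x + x ^ 2 / 2 + x ^ 3 / 6) * Real.exp (-x))
      (-(x ^ 3 / 6) * Real.exp (-x)) x := by
    intro x
    have h1 : HasDerivAt (fun x : ℝ => 1 + x + x ^ 2 / 2 + x ^ 3 / 6) (1 + x + x ^ 2 / 2) x := by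
      have e1 : HasDerivAt (fun x : ℝ => 1 + x) 1 x := (hasDerivAt_id x).const_add 1
      have e2 : HasDerivAt (fun x : ℝ => x ^ 2 / 2) x x := by
        refine ((hasDerivAt_pow 2 x).div_const 2).congr_deriv ?_
        norm_num
      have e3 : HasDerivAt (fun x : ℝ => x ^ 3 / 6) (x ^ 2 / 2) x := by
        refine ((hasDerivAt_pow 3 x).div_const 6).congr_deriv ?_
        norm_num
        ring
      exact (e1.add e2).add e3
    have h2 : HasDerivAt (fun x : ℝ => Real.exp (-x)) (-Real.exp (-x)) x := by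
      refine ((hasDerivAt_neg x).exp).congr_deriv ?_
      ring
    refine (h1.mul h2).congr_deriv ?_
    ring
  have key : (1 + y + y ^ 2 / 2 + y ^ 3 / 6) * Real.exp (-y) ≤ 1 := by
    have hdiff : Differentiable ℝ (fun x : ℝ => (1 + x + x ^ 2 / 2 + x ^ 3 / 6) * Real.exp (-x)) :=
      fun x => (hd x).differentiableAt
    rcases le_total y 0 with hy | hy
    · have hm : MonotoneOn (fun x : ℝ => (1 + x + x ^ 2 / 2 + x ^ 3 / 6) * Real.exp (-x))
          (Iic 0) := by
        refine monotoneOn_of_deriv_nonneg (convex_Iic 0) hdiff.continuous.continuousOn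
          hdiff.differentiableOn ?_
        intro x hx
        rw [interior_Iic] at hx
        rw [(hd x).deriv]
        have hx' : x < 0 := hx
        have h3 : x ^ 3 ≤ 0 := by
          have : 0 ≤ (-x) ^ 3 := pow_nonneg (by linarith) 3
          nlinarith [this]
        exact mul_nonneg (by linarith) (Real.exp_pos _).le
      have := hm (show y ∈ Iic (0 : ℝ) from hy) (show (0 : ℝ) ∈ Iic (0 : ℝ) from mem_Iic.2 (le_refl _)) hy
      simpa using this
    · have hm : AntitoneOn (fun x : ℝ => (1 + x + x ^ 2 / 2 + x ^ 3 / 6) * Real.exp (-x))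
          (Ici 0) := by
        refine antitoneOn_of_deriv_nonpos (convex_Ici 0) hdiff.continuous.continuousOn
          hdiff.differentiableOn ?_
        intro x hx
        rw [interior_Ici] at hx
        rw [(hd x).deriv]
        have hx' : 0 < x := hx
        have h3 : 0 ≤ x ^ 3 := by positivity
        exact mul_nonpos_of_nonpos_of_nonneg (by linarith) (Real.exp_pos _).le
      have := hm (show (0 : ℝ) ∈ Ici (0 : ℝ) from mem_Ici.2 (le_refl _)) (show y ∈ Ici (0 : ℝ) from hy) hy
      simpa using this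
  rw [Real.exp_neg] at key
  have hpos := Real.exp_pos y
  rw [← div_eq_mul_inv, div_le_one hpos] at key
  exact key

private theorem n3_exp_const : (7.673 : ℝ) ≤ Real.exp 2.03775 := by
  have h1 : (2.7182818283 : ℝ) ≤ Real.exp 1 := Real.exp_one_gt_d9.le
  have h2 := n3_cubic_le_exp 0.03775
  have h3 : Real.exp 2.03775 = Real.exp 1 * Real.exp 1 * Real.exp 0.03775 := by
    rw [← Real.exp_add, ← Real.exp_add]
    norm_num
  rw [h3]
  have h4 : (2.7182818283 : ℝ) * 2.7182818283 ≤ Real.exp 1 * Real.exp 1 :=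
    mul_le_mul h1 h1 (by norm_num) (Real.exp_pos _).le
  have h5 : (2.7182818283 : ℝ) * 2.7182818283 * (1 + 0.03775 + 0.03775 ^ 2 / 2 + 0.03775 ^ 3 / 6) ≤
      Real.exp 1 * Real.exp 1 * Real.exp 0.03775 :=
    mul_le_mul h4 h2 (by norm_num) (by positivity)
  refine le_trans ?_ h5
  norm_num

/-- the polynomial inequality in case (iii) -/
private theorem n3_poly (z : ℝ) (hz : -8.43 ≤ z) :
    1697 / 2000 * ((255025 / 1000000 * (12.35 + z) - 1) *
        ((4 / 25 * (12.35 + z)) ^ 2 + 6 * (4 / 25 * (12.35 + z)) + 6)) ≤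
      217 / 250 * ((4 / 25 * (12.35 + z) + 4) *
        (7.673 * (1 + 0.165 * z + (0.165 * z) ^ 2 / 2 + (0.165 * z) ^ 3 / 6))) := by
  have hq : (0 : ℝ) ≤ (0.32636 - 0.05) + 0.03876490 * z + 0.0007978 * z ^ 2 := by
    nlinarith [mul_nonneg (by linarith : (0 : ℝ) ≤ z + 8.43) (by linarith : (0 : ℝ) ≤ z + 8.43),
      sq_nonneg (z + 8.43)]
  have h1 : 0 ≤ z ^ 2 * ((0.32636 - 0.05) + 0.03876490 * z + 0.0007978 * z ^ 2) :=
    mul_nonneg (sq_nonneg z) hq
  have h3 : (0 : ℝ) ≤ (z + 8.43) * z ^ 2 := mul_nonneg (by linarith) (sq_nonneg z)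
  nlinarith [sq_nonneg z, sq_nonneg (z ^ 2), sq_nonneg (z + 0.2)]

theorem Psi_nonneg (E : ℝ) (hE : 0 < E) : 0 ≤ Psi E := by
  unfold Psi
  by_cases hb : 255025 / 1000000 * E ≤ 1
  · -- both terms are nonnegative
    have h1 : 0 ≤ Fa (4 / 25) E := Fa_nonneg _ _ (by norm_num) hE
    have h2 : 0 ≤ 1 / E - 255025 / 1000000 := by
      rw [sub_nonneg, le_div_iff₀ hE]
      exact hb
    have h3 := (Real.exp_pos (-(13 / 40 * E))).le
    positivity
  · push Not at hb
    have hE2 : (3.92 : ℝ) ≤ E := by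
      by_contra hcon
      push Not at hcon
      nlinarith
    have hF := Fa_lower (4 / 25) E (by norm_num) hE
    set Q : ℝ := (4 / 25 * E) ^ 2 + 6 * (4 / 25 * E) + 6 with hQ
    have hQpos : 0 < Q := by positivity
    -- polynomial inequality
    have hp := n3_poly (E - 12.35) (by linarith)
    have e1 : (12.35 : ℝ) + (E - 12.35) = E := by ring
    rw [e1, ← hQ] at hp
    -- exponential
    have hexp : 7.673 * (1 + 0.165 * (E - 12.35) + (0.165 * (E - 12.35)) ^ 2 / 2 +
        (0.165 * (E - 12.35)) ^ 3 / 6) ≤ Real.exp (0.165 * E) := by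
      have h1 := n3_cubic_le_exp (0.165 * (E - 12.35))
      have h2 := n3_exp_const
      have h3 : Real.exp (0.165 * E) = Real.exp 2.03775 * Real.exp (0.165 * (E - 12.35)) := by
        rw [← Real.exp_add]
        congr 1
        ring
      rw [h3]
      by_cases h0 : 0 ≤ 1 + 0.165 * (E - 12.35) + (0.165 * (E - 12.35)) ^ 2 / 2 +
        (0.165 * (E - 12.35)) ^ 3 / 6
      · exact mul_le_mul h2 h1 h0 (Real.exp_pos _).le
      · push Not at h0
        have : 0 < Real.exp 2.03775 * Real.exp (0.165 * (E - 12.35)) := by positivity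
        nlinarith
    have hmain : 1697 / 2000 * ((255025 / 1000000 * E - 1) * Q) ≤
        217 / 250 * ((4 / 25 * E + 4) * Real.exp (0.165 * E)) := by
      refine hp.trans ?_
      have : 0 ≤ 217 / 250 * (4 / 25 * E + 4) := by positivity
      nlinarith [mul_le_mul_of_nonneg_left hexp this]
    -- now assemble
    have hs : Real.exp (-(4 / 25 * E)) = Real.exp (0.165 * E) * Real.exp (-(13 / 40 * E)) := by
      rw [← Real.exp_add]
      congr 1
      ring
    have hF2 : Real.exp (0.165 * E) * Real.exp (-(13 / 40 * E)) * (4 / 25 * E + 4) / (E * Q) ≤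
        Fa (4 / 25) E := by
      refine le_trans (le_of_eq ?_) hF
      rw [hs]
      field_simp
    have hEQ : 0 < E * Q := by positivity
    rw [div_le_iff₀ hEQ] at hF2
    set X := Real.exp (-(13 / 40 * E)) with hX
    have hXpos : 0 < X := Real.exp_pos _
    have h4 : 0 ≤ (217 / 250 * Fa (4 / 25) E + 1697 / 2000 * ((1 / E - 255025 / 1000000) * X)) *
        (E * Q) := by
      have e2 : (217 / 250 * Fa (4 / 25) E + 1697 / 2000 * ((1 / E - 255025 / 1000000) * X)) *
        (E * Q) = 217 / 250 * (Fa (4 / 25) E * (E * Q)) -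
          X * (1697 / 2000 * ((255025 / 1000000 * E - 1) * Q)) := by
        field_simp
        ring
      rw [e2]
      have h5 := mul_le_mul_of_nonneg_left hmain hXpos.le
      nlinarith
    exact nonneg_of_mul_nonneg_left h4 hEQ

theorem Psi_ge_one (E : ℝ) (hE : 0 < E) (h1 : E ≤ 1) : 1 ≤ Psi E := by
  unfold Psi
  have hF : (0.6262 : ℝ) ≤ Fa (4 / 25) E :=
    Fa_one.trans (Fa_anti (4 / 25) E 1 (by norm_num) hE h1)
  have h2 : (1 : ℝ) ≤ 1 / E := by
    rw [le_div_iff₀ hE]
    linarith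
  have h3 : (0.7224 : ℝ) ≤ Real.exp (-(13 / 40 * E)) := by
    have h4 := n3_cubic_le_exp (-0.1625)
    have h5 : (0.84998 : ℝ) ≤ Real.exp (-0.1625) := by
      refine le_trans ?_ h4
      norm_num
    have h6 : Real.exp (-(13 / 40)) = Real.exp (-0.1625) * Real.exp (-0.1625) := by
      rw [← Real.exp_add]
      norm_num
    have h7 : Real.exp (-(13 / 40)) ≤ Real.exp (-(13 / 40 * E)) := by
      apply Real.exp_le_exp.mpr
      linarith
    refine le_trans ?_ h7
    rw [h6]
    nlinarith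
  have h8 : (0.744975 : ℝ) * 0.7224 ≤ (1 / E - 255025 / 1000000) * Real.exp (-(13 / 40 * E)) :=
    mul_le_mul (by linarith) h3 (by norm_num) (by linarith)
  nlinarith

end CLR
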