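import Pool.Agent.CLR.Defs

/-!
# CLR row N4: the constant

`(4π)^(-3/2) = 1/(8 π √π) = .0224484`, `2 sk * (101/200) = 18.0709..`; the sum is
`.064951 + .046954 = .1119046`.  Use `Real.pi_gt_d6` etc. and `√π ≥ 1.77245`.
-/

set_option autoImplicit false

open MeasureTheory Set Filter Topology

noncomputable section

namespace CLR

theorem const_bound :
    217 / 250 * (4 / 3) * (4 * Real.pi) ^ (-(3 / 2) : ℝ) * (5 / 2) +
      1697 / 2000 / (2 * sk * (101 / 200)) < 0.11195 := by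
  have hpi : (3.14159 : ℝ) < Real.pi := by linarith [Real.pi_gt_d6]
  have hpos : (0 : ℝ) < 4 * Real.pi := by positivity
  have h1 : (4 * Real.pi) ^ (-(3 / 2) : ℝ) ≤ 1 / 44.5461 := by
    rw [Real.rpow_neg hpos.le]
    have h2 : (44.5461 : ℝ) ≤ (4 * Real.pi) ^ (3 / 2 : ℝ) := by
      have h3 : (4 * Real.pi) ^ (3 / 2 : ℝ) = (4 * Real.pi) * Real.sqrt (4 * Real.pi) := by
        rw [Real.sqrt_eq_rpow, show (3 / 2 : ℝ) = 1 + 1 / 2 by norm_num, Real.rpow_add hpos,
          Real.rpow_one]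
      rw [h3]
      have h4 : (3.5449 : ℝ) ≤ Real.sqrt (4 * Real.pi) := by
        apply Real.le_sqrt_of_sq_le
        nlinarith
      nlinarith
    rw [one_div]
    exact inv_anti₀ (by norm_num) h2
  have h5 : (18.0708 : ℝ) ≤ 2 * sk * (101 / 200) := by
    unfold sk
    nlinarith
  have h6 : 1697 / 2000 / (2 * sk * (101 / 200)) ≤ (1697 / 2000 : ℝ) / 18.0708 :=
    div_le_div_of_nonneg_left (by norm_num) (by norm_num) h5
  have h7 : 217 / 250 * (4 / 3) * (4 * Real.pi) ^ (-(3 / 2) : ℝ) * (5 / 2) ≤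
      217 / 250 * (4 / 3) * (1 / 44.5461) * (5 / 2) := by
    have := h1
    nlinarith
  calc _ ≤ 217 / 250 * (4 / 3) * (1 / 44.5461) * (5 / 2) + (1697 / 2000 : ℝ) / 18.0708 := by
        exact add_le_add h7 h6
    _ < 0.11195 := by norm_num

end CLR
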