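import Pool.Agent.CLR.I5
import Pool.Agent.CLR.L8
import Pool.Agent.CLR.K3
import Pool.Agent.CLR.B1
import Pool.Agent.CLR.M2
import Pool.Agent.CLR.M3
import Pool.Agent.CLR.N3
import Pool.Agent.CLR.N4

/-!
# CLR row FT1: the finite theorem, positive potentials (assembly)

Constants: `a = 4/25`, `b = 255025/1000000 = .505^2`, `σ = 13/40`, `α = 217/250`, `β' = 1697/2000`.
`n0 := α * (4/3) * (4π)^(-3/2) * (5/2) + β' / (2 sk * (101/200)) = .111905 < .112`.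
Choose `η > 0`, `δ ∈ (0,1)`, `β > 0` and `ε > 0` such that (continuity)
`α (4/3)(1+η)(4π)^(-3/2)(5/2) + β' /((1-δ) 2 sk √β) ≤ .112 - 1/10^6`, `β/(1-δ) + (2/δ) ε ≤ b`, `T ε ≤ a`
with `T` from `heat η` (e.g. fix `δ` small, `β = (1-δ)(b - small)`, then `ε`).
`finite_pos` (positive `v ≤ ε`): with `A = lapB B`:
* `traceA` with `c = (1+η)(4π)^(-3/2)`, `δ0 = 1/12`, `hker` from `heat`: `Σ Fa a E_j ≤ (4/3) c (5/2) Σ v^{3/2}`
  (`a^(-1/2) = 5/2`).
* `traceB` with `c1 = b`, `c2 = 1/((1-δ) 2 sk √β)`, `t = σ`; `hP` follows from `latP` applied to the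
  extensions by zero of `v, ρ, u` (`lapB_quad` for the form) and `ρ^2 ≤ ε ρ^2/v`.
* `Psi_nonneg`, `Psi_ge_one`, `count`: `n ≤ #{E_j < 1} ≤ Σ_j Psi E_j = α Σ Fa + β' Σ (1/E_j - b) e^{-σE_j}`.
-/

set_option autoImplicit false

open MeasureTheory Set Filter Topology

noncomputable section

namespace CLR

theorem ft1_sk_pos : 0 < sk := by
  unfold sk
  have := Real.pi_pos
  positivity

theorem ft1_ext (B : Finset Z3) (w : B → ℝ) (x : B) : ext B w (x : Z3) = w x := by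
  unfold ext
  rw [dif_pos x.2]

theorem ft1_ext' (B : Finset Z3) (w : B → ℝ) (z : Z3) (h : z ∈ B) : ext B w z = w ⟨z, h⟩ := by
  unfold ext
  rw [dif_pos h]

theorem ft1_ext0 (B : Finset Z3) (w : B → ℝ) (z : Z3) (h : z ∉ B) : ext B w z = 0 := by
  unfold ext
  rw [dif_neg h]

theorem ft1_rpow : (4 / 25 : ℝ) ^ (-(1 / 2) : ℝ) = 5 / 2 := by
  rw [Real.rpow_neg (by norm_num), show (4 / 25 : ℝ) = (2 / 5) ^ (2 : ℝ) by
    rw [Real.rpow_two]; norm_num, ← Real.rpow_mul (by norm_num)]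
  norm_num

/-- the hypothesis `hP` of `traceB` -/
theorem ft1_hP (B : Finset Z3) (v : B → ℝ) (δ ε : ℝ) (hδ0 : 0 < δ) (hδ1 : δ < 1)
    (hε : ε ≤ δ ^ 2 * (255025 / 1000000) / 2) (hv : ∀ x, 0 < v x ∧ v x ≤ ε) (ρ u : B → ℝ)
    (hρ : ∀ x, 0 ≤ ρ x) (hρ1 : ∑ x, ρ x ≤ 1) (hu : ∀ x, 0 ≤ u x) :
    2 * ∑ x, ρ x * u x - ∑ x, ∑ y, u x * lapB B x y * u y ≤
        ∑ x, (255025 / 1000000 * ρ x ^ 2 / v x +
          1 / ((1 - δ) * (2 * sk * ((1 - δ) * (101 / 200)))) * (ρ x * Real.sqrt (v x))) := by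
  have h1 : 0 < 1 - δ := by linarith
  have hβ : 0 < ((1 - δ) * (101 / 200)) ^ 2 := by positivity
  have hsq : Real.sqrt (((1 - δ) * (101 / 200)) ^ 2) = (1 - δ) * (101 / 200) :=
    Real.sqrt_sq (by positivity)
  have hsum : ∀ F : Z3 → ℝ, ∑ x ∈ B, F x = ∑ x : B, F (x : Z3) := fun F =>
    (Finset.sum_coe_sort B F).symm
  have h := latP δ (((1 - δ) * (101 / 200)) ^ 2) hδ0 hδ1 hβ B (ext B v) (ext B ρ) (ext B u)
    (fun x hx => by rw [ft1_ext' B v x hx]; exact (hv _).1)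
    (fun x hx => by rw [ft1_ext' B ρ x hx]; exact hρ _)
    (by rw [hsum]; simpa only [ft1_ext] using hρ1)
    (fun x => by
      by_cases hx : x ∈ B
      · rw [ft1_ext' B u x hx]; exact hu _
      · rw [ft1_ext0 B u x hx])
    (fun x hx => ft1_ext0 B u x hx)
  rw [hsum, hsum, hsum, hsq] at h
  simp only [ft1_ext] at h
  rw [lapB_quad]
  refine h.trans ?_
  rw [Finset.mul_sum, Finset.mul_sum, ← Finset.sum_add_distrib]
  refine Finset.sum_le_sum fun x _ => ?_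
  obtain ⟨hv0, hvε⟩ := hv x
  have hsk := ft1_sk_pos
  have e1 : 1 / (1 - δ) * (((1 - δ) * (101 / 200)) ^ 2 * ρ x ^ 2 / v x +
      ρ x * Real.sqrt (v x) / (2 * sk * ((1 - δ) * (101 / 200)))) =
      (1 - δ) * (255025 / 1000000) * (ρ x ^ 2 / v x) +
        1 / ((1 - δ) * (2 * sk * ((1 - δ) * (101 / 200)))) * (ρ x * Real.sqrt (v x)) := by
    field_simp
    ring
  have e2 : 2 / δ * ρ x ^ 2 ≤ δ * (255025 / 1000000) * (ρ x ^ 2 / v x) := by
    have e3 : ρ x ^ 2 = v x * (ρ x ^ 2 / v x) := by field_simp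
    have e4 : 0 ≤ ρ x ^ 2 / v x := by positivity
    calc 2 / δ * ρ x ^ 2 = 2 / δ * v x * (ρ x ^ 2 / v x) := by rw [mul_assoc, ← e3]
      _ ≤ δ * (255025 / 1000000) * (ρ x ^ 2 / v x) := by
        refine mul_le_mul_of_nonneg_right ?_ e4
        rw [div_mul_eq_mul_div, div_le_iff₀ hδ0]
        nlinarith
  rw [e1]
  have e5 : 255025 / 1000000 * ρ x ^ 2 / v x = (1 - δ) * (255025 / 1000000) * (ρ x ^ 2 / v x) +
      δ * (255025 / 1000000) * (ρ x ^ 2 / v x) := by ring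
  rw [e5]
  linarith

theorem ft1_const (δ η : ℝ) (hδ : δ = 1 / 10000) (hη : η = 1 / 10000) :
    217 / 250 * (4 / 3 * ((1 + η) * (4 * Real.pi) ^ (-(3 / 2) : ℝ)) * (5 / 2)) +
      1697 / 2000 * (1 / ((1 - δ) * (2 * sk * ((1 - δ) * (101 / 200))))) ≤ 0.112 := by
  have h := const_bound
  have hsk := ft1_sk_pos
  obtain ⟨A, hA⟩ : ∃ A, A = 217 / 250 * (4 / 3) * (4 * Real.pi) ^ (-(3 / 2) : ℝ) * (5 / 2) := ⟨_, rfl⟩
  obtain ⟨C, hC⟩ : ∃ C, C = 1697 / 2000 / (2 * sk * (101 / 200)) := ⟨_, rfl⟩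
  have hA0 : 0 ≤ A := by
    rw [hA]
    have := Real.pi_pos
    positivity
  have hC0 : 0 ≤ C := by rw [hC]; positivity
  rw [← hA, ← hC] at h
  have e1 : 217 / 250 * (4 / 3 * ((1 + η) * (4 * Real.pi) ^ (-(3 / 2) : ℝ)) * (5 / 2)) = (1 + η) * A := by
    rw [hA]; ring
  have e2 : 1697 / 2000 * (1 / ((1 - δ) * (2 * sk * ((1 - δ) * (101 / 200))))) = C / (1 - δ) ^ 2 := by
    have : (1 - δ) ≠ 0 := by rw [hδ]; norm_num
    rw [hC]
    field_simp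
  rw [e1, e2, hδ, hη]
  have e3 : C / (1 - 1 / 10000) ^ 2 ≤ 1.0003 * C := by
    rw [div_le_iff₀ (by norm_num)]
    nlinarith
  nlinarith

theorem finite_pos : ∃ ε : ℝ, 0 < ε ∧ ∀ (B : Finset Z3) (v : B → ℝ), (∀ x, 0 < v x ∧ v x ≤ ε) →
    ∀ (n : ℕ) (φ : Fin n → B → ℝ),
      (∀ c : Fin n → ℝ, c ≠ 0 →
        ∑ x, ∑ y, (∑ i, c i * φ i x) * lapB B x y * (∑ i, c i * φ i y) <
          ∑ x, v x * (∑ i, c i * φ i x) ^ 2) →
      (n : ℝ) ≤ 0.112 * ∑ x, v x ^ (3 / 2 : ℝ) := by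
  obtain ⟨T, hT0, hT⟩ := heat (1 / 10000) (by norm_num)
  refine ⟨min ((1 / 10000) ^ 2 * (255025 / 1000000) / 2) (4 / 25 / T), by positivity, ?_⟩
  intro B v hv n φ hneg
  have hv0 : ∀ x, 0 < v x := fun x => (hv x).1
  have hA := lapB_posDef B
  have hH := Hm_posDef (lapB B) hA v hv0
  have hsk := ft1_sk_pos
  have hS : 0 ≤ ∑ x, v x ^ (3 / 2 : ℝ) :=
    Finset.sum_nonneg fun x _ => Real.rpow_nonneg (hv0 x).le _
  have hE : ∀ j, 0 < hH.1.eigenvalues j := fun j => hH.eigenvalues_pos j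
  -- inequality (A)
  have hcA : (0 : ℝ) < (1 + 1 / 10000) * (4 * Real.pi) ^ (-(3 / 2) : ℝ) := by
    have := Real.pi_pos
    positivity
  have h1 := traceA (lapB B) hA (fun x y hxy => lapB_off B x y hxy) v hv0 hH.1
    ((1 + 1 / 10000) * (4 * Real.pi) ^ (-(3 / 2) : ℝ)) T (1 / 12) (4 / 25) hcA (by norm_num) (by norm_num)
    (fun x => by
      have h2 : v x ≤ 4 / 25 / T := (hv x).2.trans (min_le_right _ _)
      rw [le_div_iff₀ hT0] at h2
      linarith)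
    (fun δ hδ0 hδ1 m hm _ x => hT B δ hδ0 hδ1 m hm x)
  rw [ft1_rpow] at h1
  -- inequality (B)
  have h2 := traceB (lapB B) hA (fun x y hxy => lapB_off B x y hxy) (lapB_row B) v hv0
    (255025 / 1000000) (1 / ((1 - 1 / 10000) * (2 * sk * ((1 - 1 / 10000) * (101 / 200)))))
    (by positivity)
    (fun ρ u hρ hρ1 hu => ft1_hP B v (1 / 10000) _ (by norm_num) (by norm_num) (min_le_left _ _) hv
      ρ u hρ hρ1 hu)
    hH.1 (13 / 40) (by norm_num)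
  -- counting
  have h3 := count (lapB B) v hv0 hH.1 n φ hneg
  have h4 : (n : ℝ) ≤ ∑ j, Psi (hH.1.eigenvalues j) := by
    calc (n : ℝ) ≤ ((Finset.univ.filter (fun j => hH.1.eigenvalues j < 1)).card : ℝ) := by
          exact_mod_cast h3
      _ = ∑ j ∈ Finset.univ.filter (fun j => hH.1.eigenvalues j < 1), (1 : ℝ) := by simp
      _ ≤ ∑ j ∈ Finset.univ.filter (fun j => hH.1.eigenvalues j < 1), Psi (hH.1.eigenvalues j) :=
          Finset.sum_le_sum fun j hj => Psi_ge_one _ (hE j) (Finset.mem_filter.1 hj).2.le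
      _ ≤ ∑ j, Psi (hH.1.eigenvalues j) :=
          Finset.sum_le_sum_of_subset_of_nonneg (Finset.filter_subset _ _)
            fun j _ _ => Psi_nonneg _ (hE j)
  have h5 : ∑ j, Psi (hH.1.eigenvalues j) = 217 / 250 * ∑ j, Fa (4 / 25) (hH.1.eigenvalues j) +
      1697 / 2000 * ∑ j, (1 / hH.1.eigenvalues j - 255025 / 1000000) *
        Real.exp (-(13 / 40 * hH.1.eigenvalues j)) := by
    rw [Finset.mul_sum, Finset.mul_sum, ← Finset.sum_add_distrib]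
    rfl
  have h6 := ft1_const (1 / 10000) (1 / 10000) rfl rfl
  calc (n : ℝ) ≤ ∑ j, Psi (hH.1.eigenvalues j) := h4
    _ ≤ 217 / 250 * (4 / 3 * ((1 + 1 / 10000) * (4 * Real.pi) ^ (-(3 / 2) : ℝ)) * (5 / 2) *
          ∑ x, v x ^ (3 / 2 : ℝ)) +
        1697 / 2000 * (1 / ((1 - 1 / 10000) * (2 * sk * ((1 - 1 / 10000) * (101 / 200)))) *
          ∑ x, v x ^ (3 / 2 : ℝ)) := by
        rw [h5]
        exact add_le_add (mul_le_mul_of_nonneg_left h1 (by norm_num))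
          (mul_le_mul_of_nonneg_left h2 (by norm_num))
    _ = (217 / 250 * (4 / 3 * ((1 + 1 / 10000) * (4 * Real.pi) ^ (-(3 / 2) : ℝ)) * (5 / 2)) +
        1697 / 2000 * (1 / ((1 - 1 / 10000) * (2 * sk * ((1 - 1 / 10000) * (101 / 200)))))) *
          ∑ x, v x ^ (3 / 2 : ℝ) := by ring
    _ ≤ 0.112 * ∑ x, v x ^ (3 / 2 : ℝ) := mul_le_mul_of_nonneg_right h6 hS

end CLR
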