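import Pool.Agent.CLR.FT1

/-!
# CLR row FT2: the finite theorem, nonnegative potentials

Proof.  With `ε0` from `finite_pos` take `ε = ε0/2`.  Apply `finite_pos` to `v + τ`, `0 < τ ≤ ε0/2` (the
hypothesis stays true when `v` increases) and let `τ → 0+` (finite sum, `t ↦ t^{3/2}` continuous).
-/

set_option autoImplicit false

open MeasureTheory Set Filter Topology

noncomputable section

namespace CLR

theorem finite_thm : ∃ ε : ℝ, 0 < ε ∧ ∀ (B : Finset Z3) (v : B → ℝ), (∀ x, 0 ≤ v x ∧ v x ≤ ε) →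
    ∀ (n : ℕ) (φ : Fin n → B → ℝ),
      (∀ c : Fin n → ℝ, c ≠ 0 →
        ∑ x, ∑ y, (∑ i, c i * φ i x) * lapB B x y * (∑ i, c i * φ i y) <
          ∑ x, v x * (∑ i, c i * φ i x) ^ 2) →
      (n : ℝ) ≤ 0.112 * ∑ x, v x ^ (3 / 2 : ℝ) := by
  obtain ⟨ε0, hε0, H⟩ := finite_pos
  refine ⟨ε0 / 2, by positivity, fun B v hv n φ hφ => ?_⟩
  have hstep : ∀ τ : ℝ, 0 < τ → τ ≤ ε0 / 2 →
      (n : ℝ) ≤ 0.112 * ∑ x, (v x + τ) ^ (3 / 2 : ℝ) := by
    intro τ h0 h1
    refine H B (fun x => v x + τ) (fun x => ⟨?_, ?_⟩) n φ fun c hc => ?_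
    · have := (hv x).1
      linarith
    · have := (hv x).2
      linarith
    · refine (hφ c hc).trans_le (Finset.sum_le_sum fun x _ => ?_)
      refine mul_le_mul_of_nonneg_right ?_ (sq_nonneg _)
      linarith
  have hcont : Continuous fun τ : ℝ => 0.112 * ∑ x, (v x + τ) ^ (3 / 2 : ℝ) := by
    refine continuous_const.mul (continuous_finsetSum _ fun x _ => ?_)
    exact (continuous_const.add continuous_id).rpow_const fun _ => Or.inr (by norm_num)
  have hlim : Tendsto (fun τ : ℝ => 0.112 * ∑ x, (v x + τ) ^ (3 / 2 : ℝ)) (𝓝[>] 0)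
      (𝓝 (0.112 * ∑ x, (v x + 0) ^ (3 / 2 : ℝ))) := hcont.continuousWithinAt
  simp only [add_zero] at hlim
  refine ge_of_tendsto hlim ?_
  filter_upwards [Ioc_mem_nhdsGT (by positivity : (0 : ℝ) < ε0 / 2)] with τ hτ
  exact hstep τ hτ.1 hτ.2

end CLR
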