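import Pool.Agent.CLR.FT2
import Pool.Agent.CLR.D4

/-!
# CLR: L_3 <= 0.112 (assembly)
-/

set_option autoImplicit false

open MeasureTheory Set Filter Topology

noncomputable section

namespace CLR

theorem clr3 (W : E3 → ℝ) (hW : Measurable W) (hW0 : ∀ x, 0 ≤ W x)
    (hWi : Integrable (fun x => W x ^ (3 / 2 : ℝ))) (n : ℕ) (u : Fin n → E3 → ℝ)
    (hu : ∀ i, ContDiff ℝ (⊤ : ℕ∞) (u i) ∧ HasCompactSupport (u i))
    (hneg : ∀ c : Fin n → ℝ, c ≠ 0 →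
      ∫ x, (‖fderiv ℝ (fun y => ∑ i, c i * u i y) x‖ ^ 2 - W x * (∑ i, c i * u i x) ^ 2) < 0) :
    (n : ℝ) ≤ 0.112 * ∫ x, W x ^ (3 / 2 : ℝ) := by
  obtain ⟨ε, hε, hF⟩ := finite_thm
  obtain ⟨B, v, φ, hv, hsum, hq⟩ := discretize W hW hW0 hWi n u hu hneg ε hε
  have h := hF B v hv n φ hq
  have h2 : (0.112 : ℝ) * ∑ x, v x ^ (3 / 2 : ℝ) ≤ 0.112 * ∫ x, W x ^ (3 / 2 : ℝ) :=
    mul_le_mul_of_nonneg_left hsum (by norm_num)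
  exact h.trans h2

end CLR
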