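import Pool.Agent.CLR.Defs

/-!
# CLR row I1: multilinear interpolation, elementary properties

Let `F = support u` (finite).  `interp u X = Σ_{x ∈ F} u x Π_i Λ(X i - x i)`, `Λ t = max (1-|t|) 0`
(`tsum_eq_sum`: the other terms vanish).  `Λ` is 1-Lipschitz, `0 ≤ Λ ≤ 1`, so each term is Lipschitz
in `X` (product of three bounded 1-Lipschitz functions of the coordinates; `|X i - Y i| ≤ ‖X - Y‖`).
A term vanishes unless `|X i - x i| < 1` for all `i`, so `‖X‖ ≤ ‖x‖ + √3`: choose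
`R = 2 + max_{x ∈ F} ‖x‖` (Euclidean norm of the real vector).
-/

set_option autoImplicit false

open MeasureTheory Set Filter Topology

noncomputable section

namespace CLR

theorem i1_lam (s t : ℝ) : |max (1 - |s|) 0 - max (1 - |t|) 0| ≤ |s - t| := by
  refine (abs_max_sub_max_le_abs _ _ _).trans ?_
  have h : 1 - |s| - (1 - |t|) = |t| - |s| := by ring
  rw [h, abs_sub_comm s t]
  exact abs_abs_sub_abs_le _ _

theorem i1_lam_nonneg (t : ℝ) : 0 ≤ max (1 - |t|) 0 := le_max_right _ _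

theorem i1_lam_le (t : ℝ) : max (1 - |t|) 0 ≤ 1 := by
  refine max_le ?_ zero_le_one
  have := abs_nonneg t
  linarith

theorem i1_coord (X Y : E3) (i : Fin 3) : |X i - Y i| ≤ ‖X - Y‖ := by
  have h := PiLp.norm_apply_le (X - Y) i
  rw [Real.norm_eq_abs] at h
  exact h

theorem i1_prod (a b : Fin 3 → ℝ) (ha : ∀ i, 0 ≤ a i) (ha1 : ∀ i, a i ≤ 1) (hb : ∀ i, 0 ≤ b i)
    (hb1 : ∀ i, b i ≤ 1) (D : ℝ) (hD : ∀ i, |a i - b i| ≤ D) :
    |∏ i, a i - ∏ i, b i| ≤ 3 * D := by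
  rw [Fin.prod_univ_three, Fin.prod_univ_three]
  have h : a 0 * a 1 * a 2 - b 0 * b 1 * b 2 =
      (a 0 - b 0) * (a 1 * a 2) + (a 1 - b 1) * (b 0 * a 2) + (a 2 - b 2) * (b 0 * b 1) := by ring
  have hD0 : 0 ≤ D := (abs_nonneg _).trans (hD 0)
  have key : ∀ i (c : ℝ), 0 ≤ c → c ≤ 1 → |(a i - b i) * c| ≤ D := by
    intro i c hc hc1
    rw [abs_mul, abs_of_nonneg hc]
    calc |a i - b i| * c ≤ D * 1 := mul_le_mul (hD i) hc1 hc hD0
      _ = D := mul_one D
  have k1 := key 0 (a 1 * a 2) (mul_nonneg (ha 1) (ha 2)) (mul_le_one₀ (ha1 1) (ha 2) (ha1 2))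
  have k2 := key 1 (b 0 * a 2) (mul_nonneg (hb 0) (ha 2)) (mul_le_one₀ (hb1 0) (ha 2) (ha1 2))
  have k3 := key 2 (b 0 * b 1) (mul_nonneg (hb 0) (hb 1)) (mul_le_one₀ (hb1 0) (hb 1) (hb1 1))
  rw [h]
  refine (abs_add_three _ _ _).trans ?_
  linarith

theorem i1_norm (X : E3) : ‖X‖ ≤ ∑ i, |X i| := by
  rw [EuclideanSpace.norm_eq, Real.sqrt_le_left (Finset.sum_nonneg fun i _ => abs_nonneg _)]
  rw [Fin.sum_univ_three, Fin.sum_univ_three]
  simp only [Real.norm_eq_abs]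
  have h0 := abs_nonneg (X 0)
  have h1 := abs_nonneg (X 1)
  have h2 := abs_nonneg (X 2)
  nlinarith [mul_nonneg h0 h1, mul_nonneg h0 h2, mul_nonneg h1 h2]

theorem interp_eq_sum (u : Z3 → ℝ) (F : Finset Z3) (hF : ∀ x, x ∉ F → u x = 0) (X : E3) :
    interp u X = ∑ x ∈ F, u x * ∏ i : Fin 3, max (1 - |X i - (x i : ℝ)|) 0 := by
  unfold interp
  rw [tsum_eq_sum (s := F) (fun x hx => by rw [hF x hx, zero_mul])]

theorem interp_adm (u : Z3 → ℝ) (F : Finset Z3) (hF : ∀ x, x ∉ F → u x = 0) (hu : ∀ x, 0 ≤ u x) :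
    ∃ (K : NNReal) (R : ℝ), 0 < R ∧ Adm K R (interp u) := by
  refine ⟨Real.toNNReal (∑ x ∈ F, u x * 3), 4 + ∑ x ∈ F, ∑ i, |(x i : ℝ)|, ?_, ?_, ?_, ?_⟩
  · have h : 0 ≤ ∑ x ∈ F, ∑ i, |(x i : ℝ)| :=
      Finset.sum_nonneg fun x _ => Finset.sum_nonneg fun i _ => abs_nonneg _
    linarith
  · intro X
    rw [interp_eq_sum u F hF]
    exact Finset.sum_nonneg fun x _ => mul_nonneg (hu x)
      (Finset.prod_nonneg fun i _ => i1_lam_nonneg _)
  · apply LipschitzWith.of_dist_le_mul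
    intro X Y
    rw [Real.coe_toNNReal _ (Finset.sum_nonneg fun x _ => mul_nonneg (hu x) (by norm_num)),
      Real.dist_eq, interp_eq_sum u F hF, interp_eq_sum u F hF, ← Finset.sum_sub_distrib,
      dist_eq_norm, Finset.sum_mul]
    refine (Finset.abs_sum_le_sum_abs _ _).trans (Finset.sum_le_sum fun x _ => ?_)
    rw [← mul_sub, abs_mul, abs_of_nonneg (hu x), mul_assoc]
    apply mul_le_mul_of_nonneg_left _ (hu x)
    apply i1_prod _ _ (fun i => i1_lam_nonneg _) (fun i => i1_lam_le _) (fun i => i1_lam_nonneg _)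
      (fun i => i1_lam_le _)
    intro i
    refine (i1_lam _ _).trans ?_
    have h : X i - (x i : ℝ) - (Y i - (x i : ℝ)) = X i - Y i := by ring
    rw [h]
    exact i1_coord X Y i
  · intro X hX
    rw [interp_eq_sum u F hF]
    apply Finset.sum_eq_zero
    intro x hx
    have h1 : ∃ i, 1 ≤ |X i - (x i : ℝ)| := by
      by_contra hcon
      push Not at hcon
      have h2 : ∀ i, |X i| ≤ 1 + |(x i : ℝ)| := by
        intro i
        have h3 := abs_sub_abs_le_abs_sub (X i) (x i : ℝ)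
        have h4 := hcon i
        linarith
      have h5 : ∑ i, |X i| ≤ 3 + ∑ i, |(x i : ℝ)| := by
        rw [Fin.sum_univ_three, Fin.sum_univ_three]
        have := h2 0
        have := h2 1
        have := h2 2
        linarith
      have h6 : ∑ i, |(x i : ℝ)| ≤ ∑ x ∈ F, ∑ i, |(x i : ℝ)| :=
        Finset.single_le_sum (f := fun x : Z3 => ∑ i, |(x i : ℝ)|)
          (fun x _ => Finset.sum_nonneg fun i _ => abs_nonneg _) hx
      have h7 := i1_norm X
      linarith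
    obtain ⟨i, hi⟩ := h1
    rw [Finset.prod_eq_zero (Finset.mem_univ i), mul_zero]
    exact max_eq_right (by linarith)

end CLR
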