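import Pool.Agent.CLR.I1

/-!
# CLR row I2: the interpolation does not increase the Dirichlet energy

Let `Λ t = max (1-|t|) 0`.  If no `X i` is an integer (almost every `X`), `interp u` is
differentiable at `X` and, since `Λ' = 1` on `(-1,0)`, `-1` on `(0,1)`, `0` outside `[-1,1]`,
`∂_0 interp u (X) = Σ_x u x (1_{x_0 - 1 < X_0 < x_0} - 1_{x_0 < X_0 < x_0 + 1}) Λ(X_1-x_1) Λ(X_2-x_2)`
`= Σ_x (u (x + e_0) - u x) 1_{x_0 < X_0 < x_0+1} Λ(X_1-x_1) Λ(X_2-x_2)` (shift the summation index;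
all sums are over a finite set containing the support and its translates by `-e_i`), and similarly
for the other two coordinates.  `‖fderiv‖^2 = Σ_i (∂_i)^2` (norm of a linear form on Euclidean space).
The weights `1_{x_0 < X_0 < x_0+1} Λ(X_1-x_1) Λ(X_2-x_2)` are nonnegative with sum `1` over `x ∈ Z^3`
(`≤ 1` over any finite set suffices), so by Jensen / Cauchy-Schwarz
`(∂_0 interp u)^2 ≤ Σ_x (u (x+e_0) - u x)^2 1_{x_0 < X_0 < x_0+1} Λ(X_1-x_1) Λ(X_2-x_2)`, and the
integral over `X ∈ E3` of each weight is `1 * 1 * 1 = 1` (Fubini; `∫ Λ = 1`).  Sum over `i`.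
To integrate products of functions of the coordinates use the measure preserving equivalence
`EuclideanSpace.volume_preserving_...` (`WithLp` / `MeasurableEquiv.toLp`) and
`MeasureTheory.integral_fintype_prod_eq_prod`.
-/

set_option autoImplicit false

open MeasureTheory Set Filter Topology

noncomputable section

namespace CLR

/-- the hat function -/
def i2_L (t : ℝ) : ℝ := max (1 - |t|) 0

/-- the indicator function of `(0,1)` -/
def i2_c (t : ℝ) : ℝ := (Ioo (0 : ℝ) 1).indicator (fun _ => (1 : ℝ)) t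

theorem i2_c_in {t : ℝ} (h : 0 < t ∧ t < 1) : i2_c t = 1 :=
  Set.indicator_of_mem (s := Ioo (0 : ℝ) 1) h _

theorem i2_c_out {t : ℝ} (h : ¬ (0 < t ∧ t < 1)) : i2_c t = 0 :=
  Set.indicator_of_notMem (s := Ioo (0 : ℝ) 1) h _

theorem i2_c_nonneg (t : ℝ) : 0 ≤ i2_c t := Set.indicator_nonneg (fun _ _ => zero_le_one) _

theorem i2_c_le (t : ℝ) : i2_c t ≤ 1 := by
  by_cases h : 0 < t ∧ t < 1
  · rw [i2_c_in h]
  · rw [i2_c_out h]
    exact zero_le_one

theorem i2_deriv (t : ℝ) (h : ∀ n : ℤ, t ≠ n) : HasDerivAt i2_L (i2_c (t + 1) - i2_c t) t := by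
  have h0 : t ≠ 0 := by simpa using h 0
  have h1 : t ≠ 1 := by simpa using h 1
  have hm : t ≠ -1 := by simpa using h (-1)
  rcases lt_or_gt_of_ne hm with hlt | hgt
  · rw [i2_c_out (by intro hh; linarith [hh.1]), i2_c_out (by intro hh; linarith [hh.1]), sub_self]
    refine (hasDerivAt_const t (0 : ℝ)).congr_of_eventuallyEq ?_
    filter_upwards [Iio_mem_nhds hlt] with s hs
    have hs' : s < -1 := hs
    unfold i2_L
    rw [abs_of_neg (by linarith)]
    exact max_eq_right (by linarith)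
  rcases lt_or_gt_of_ne h0 with hlt | hgt0
  · rw [i2_c_in (by constructor <;> linarith), i2_c_out (by intro hh; linarith [hh.1]), sub_zero]
    refine ((hasDerivAt_id t).const_add 1).congr_of_eventuallyEq ?_
    filter_upwards [Ioo_mem_nhds hgt hlt] with s hs
    unfold i2_L
    rw [abs_of_neg hs.2, sub_neg_eq_add]
    exact max_eq_left (by linarith [hs.1])
  rcases lt_or_gt_of_ne h1 with hlt | hgt1
  · rw [i2_c_out (by intro hh; linarith [hh.2]), i2_c_in (by constructor <;> linarith), zero_sub]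
    refine ((hasDerivAt_id t).const_sub 1).congr_of_eventuallyEq ?_
    filter_upwards [Ioo_mem_nhds hgt0 hlt] with s hs
    unfold i2_L
    rw [abs_of_pos hs.1]
    exact max_eq_left (by linarith [hs.2])
  · rw [i2_c_out (by intro hh; linarith [hh.2]), i2_c_out (by intro hh; linarith [hh.2]), sub_self]
    refine (hasDerivAt_const t (0 : ℝ)).congr_of_eventuallyEq ?_
    filter_upwards [Ioi_mem_nhds hgt1] with s hs
    have hs' : 1 < s := hs
    unfold i2_L
    rw [abs_of_pos (by linarith)]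
    exact max_eq_right (by linarith)

theorem i2_L_cont : Continuous i2_L := by
  unfold i2_L
  fun_prop

theorem i2_L_supp : Function.support i2_L ⊆ Ioc (-1) 1 := by
  intro t ht
  by_contra hcon
  apply ht
  unfold i2_L
  apply max_eq_right
  rw [Set.mem_Ioc, not_and_or, not_lt, not_le] at hcon
  rcases hcon with h | h
  · rw [abs_of_nonpos (by linarith)]
    linarith
  · rw [abs_of_pos (by linarith)]
    linarith

theorem i2_L_int : Integrable i2_L := by
  apply i2_L_cont.integrable_of_hasCompactSupport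
  exact HasCompactSupport.of_support_subset_isCompact isCompact_Icc
    (i2_L_supp.trans Ioc_subset_Icc_self)

theorem i2_L_integral : ∫ t, i2_L t = 1 := by
  rw [← intervalIntegral.integral_eq_integral_of_support_subset i2_L_supp,
    ← intervalIntegral.integral_add_adjacent_intervals (b := 0)
      (i2_L_cont.intervalIntegrable _ _) (i2_L_cont.intervalIntegrable _ _)]
  have h1 : ∫ t in (-1 : ℝ)..0, i2_L t = ∫ t in (-1 : ℝ)..0, (1 + t) := by
    apply intervalIntegral.integral_congr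
    intro t ht
    rw [Set.uIcc_of_le (by norm_num)] at ht
    unfold i2_L
    rw [abs_of_nonpos ht.2, sub_neg_eq_add]
    exact max_eq_left (by linarith [ht.1])
  have h2 : ∫ t in (0 : ℝ)..1, i2_L t = ∫ t in (0 : ℝ)..1, (1 - t) := by
    apply intervalIntegral.integral_congr
    intro t ht
    rw [Set.uIcc_of_le (by norm_num)] at ht
    unfold i2_L
    rw [abs_of_nonneg ht.1]
    exact max_eq_left (by linarith [ht.2])
  rw [h1, h2, intervalIntegral.integral_add (by simp) (by simp),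
    intervalIntegral.integral_sub (by simp) (by simp)]
  simp only [intervalIntegral.integral_const, integral_id]
  norm_num

theorem i2_c_int : Integrable i2_c := by
  unfold i2_c
  rw [integrable_indicator_iff measurableSet_Ioo]
  simp

theorem i2_c_integral : ∫ t, i2_c t = 1 := by
  unfold i2_c
  rw [integral_indicator measurableSet_Ioo]
  simp

/-- the weights -/
def i2_g (i j : Fin 3) : ℝ → ℝ := if j = i then i2_c else i2_L

theorem i2_L_nonneg (t : ℝ) : 0 ≤ i2_L t := le_max_right _ _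

theorem i2_L_zero {t : ℝ} (h : 1 ≤ |t|) : i2_L t = 0 := max_eq_right (by linarith)

theorem i2_g_nonneg (i j : Fin 3) (t : ℝ) : 0 ≤ i2_g i j t := by
  unfold i2_g
  split_ifs
  · exact i2_c_nonneg t
  · exact i2_L_nonneg t

theorem i2_g_int (i j : Fin 3) : Integrable (i2_g i j) := by
  unfold i2_g
  split_ifs
  · exact i2_c_int
  · exact i2_L_int

theorem i2_g_integral (i j : Fin 3) : ∫ t, i2_g i j t = 1 := by
  unfold i2_g
  split_ifs
  · exact i2_c_integral
  · exact i2_L_integral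

/-- the weights on `E3` -/
def i2_w (i : Fin 3) (x : Z3) (X : E3) : ℝ := ∏ j, i2_g i j (X j - x j)

theorem i2_w_nonneg (i : Fin 3) (x : Z3) (X : E3) : 0 ≤ i2_w i x X :=
  Finset.prod_nonneg fun j _ => i2_g_nonneg i j _

theorem i2_w_int (i : Fin 3) (x : Z3) : Integrable (i2_w i x) ∧ ∫ X, i2_w i x X = 1 := by
  have hmp := EuclideanSpace.volume_preserving_symm_measurableEquiv_toLp (Fin 3)
  have hf : Integrable (fun Y : Fin 3 → ℝ => ∏ j, (fun t => i2_g i j (t - x j)) (Y j)) := by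
    rw [volume_pi]
    exact Integrable.fintype_prod (f := fun j t => i2_g i j (t - x j))
      (fun j => (i2_g_int i j).comp_sub_right _)
  constructor
  · exact (hmp.integrable_comp_emb (MeasurableEquiv.measurableEmbedding _)).2 hf
  · have h1 := hmp.integral_comp' (fun Y : Fin 3 → ℝ => ∏ j, (fun t => i2_g i j (t - x j)) (Y j))
    have h2 : ∫ X, i2_w i x X = ∫ X, (fun Y : Fin 3 → ℝ => ∏ j, (fun t => i2_g i j (t - x j)) (Y j))
      ((MeasurableEquiv.toLp 2 (Fin 3 → ℝ)).symm X) := rfl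
    have h3 := integral_fintype_prod_volume_eq_prod (𝕜 := ℝ) (ι := Fin 3) (E := fun _ => ℝ)
      (fun j t => i2_g i j (t - x j))
    rw [h2, h1]
    refine h3.trans ?_
    apply Finset.prod_eq_one
    intro j _
    rw [integral_sub_right_eq_self (i2_g i j) (x j : ℝ), i2_g_integral]

theorem i2_sum_L (S : Finset ℤ) (t : ℝ) : ∑ n ∈ S, i2_L (t - n) ≤ 1 := by
  have h1 : ∑ n ∈ S, i2_L (t - n) ≤ ∑ n ∈ S ∪ {⌊t⌋, ⌊t⌋ + 1}, i2_L (t - n) :=
    Finset.sum_le_sum_of_subset_of_nonneg Finset.subset_union_left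
      (fun n _ _ => i2_L_nonneg _)
  have h2 : ∑ n ∈ ({⌊t⌋, ⌊t⌋ + 1} : Finset ℤ), i2_L (t - n) = ∑ n ∈ S ∪ {⌊t⌋, ⌊t⌋ + 1}, i2_L (t - n) := by
    apply Finset.sum_subset Finset.subset_union_right
    intro n _ hn
    rw [Finset.mem_insert, Finset.mem_singleton, not_or] at hn
    apply i2_L_zero
    have hfl := Int.floor_le t
    have hfl2 := Int.lt_floor_add_one t
    rcases lt_trichotomy n ⌊t⌋ with h | h | h
    · have h3 : (n : ℝ) + 1 ≤ ⌊t⌋ := by exact_mod_cast h
      rw [abs_of_nonneg (by linarith)]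
      linarith
    · exact absurd h hn.1
    · have h3 : (⌊t⌋ : ℝ) + 2 ≤ n := by
        have h4 : ⌊t⌋ + 2 ≤ n := by
          have := hn.2
          omega
        exact_mod_cast h4
      rw [abs_of_neg (by linarith)]
      linarith
  rw [Finset.sum_pair (by omega)] at h2
  have hfl := Int.floor_le t
  have hfl2 := Int.lt_floor_add_one t
  have h3 : i2_L (t - ⌊t⌋) = 1 - (t - ⌊t⌋) := by
    unfold i2_L
    rw [abs_of_nonneg (by linarith)]
    exact max_eq_left (by linarith)
  have h4 : i2_L (t - ((⌊t⌋ + 1 : ℤ) : ℝ)) = t - ⌊t⌋ := by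
    unfold i2_L
    push_cast
    rw [abs_of_neg (by linarith)]
    rw [max_eq_left (by linarith)]
    ring
  rw [h3, h4] at h2
  linarith

theorem i2_sum_c (S : Finset ℤ) (t : ℝ) : ∑ n ∈ S, i2_c (t - n) ≤ 1 := by
  have h1 : ∑ n ∈ S, i2_c (t - n) ≤ ∑ n ∈ S ∪ {⌊t⌋}, i2_c (t - n) :=
    Finset.sum_le_sum_of_subset_of_nonneg Finset.subset_union_left
      (fun n _ _ => i2_c_nonneg _)
  have h2 : ∑ n ∈ ({⌊t⌋} : Finset ℤ), i2_c (t - n) = ∑ n ∈ S ∪ {⌊t⌋}, i2_c (t - n) := by
    apply Finset.sum_subset Finset.subset_union_right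
    intro n _ hn
    rw [Finset.mem_singleton] at hn
    apply i2_c_out
    rintro ⟨h3, h4⟩
    apply hn
    rw [eq_comm, Int.floor_eq_iff]
    constructor <;> linarith
  rw [Finset.sum_singleton] at h2
  have := i2_c_le (t - ⌊t⌋)
  linarith

theorem i2_w_sum (i : Fin 3) (G : Finset Z3) (X : E3) : ∑ x ∈ G, i2_w i x X ≤ 1 := by
  have h1 : ∑ x ∈ G, i2_w i x X ≤ ∑ x ∈ Fintype.piFinset (fun j => G.image (fun x => x j)),
      i2_w i x X := by
    apply Finset.sum_le_sum_of_subset_of_nonneg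
    · intro x hx
      rw [Fintype.mem_piFinset]
      intro j
      exact Finset.mem_image_of_mem _ hx
    · intro x _ _
      exact i2_w_nonneg i x X
  have h2 : ∑ x ∈ Fintype.piFinset (fun j => G.image (fun x => x j)), i2_w i x X =
      ∏ j, ∑ n ∈ G.image (fun x => x j), i2_g i j (X j - n) := by
    rw [Finset.prod_univ_sum]
    rfl
  refine h1.trans ?_
  rw [h2]
  apply Finset.prod_le_one
  · intro j _
    exact Finset.sum_nonneg fun n _ => i2_g_nonneg i j _
  · intro j _
    unfold i2_g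
    split_ifs
    · exact i2_sum_c _ _
    · exact i2_sum_L _ _

theorem i2_cs (G : Finset Z3) (d w : Z3 → ℝ) (hw : ∀ x, 0 ≤ w x) (h1 : ∑ x ∈ G, w x ≤ 1) :
    (∑ x ∈ G, d x * w x) ^ 2 ≤ ∑ x ∈ G, d x ^ 2 * w x := by
  have h2 := Finset.sum_mul_sq_le_sq_mul_sq G (fun x => d x * Real.sqrt (w x))
    (fun x => Real.sqrt (w x))
  have h3 : ∀ x, d x * Real.sqrt (w x) * Real.sqrt (w x) = d x * w x := fun x => by
    rw [mul_assoc, Real.mul_self_sqrt (hw x)]
  have h4 : ∀ x, (d x * Real.sqrt (w x)) ^ 2 = d x ^ 2 * w x := fun x => by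
    rw [mul_pow, Real.sq_sqrt (hw x)]
  have h5 : ∀ x, Real.sqrt (w x) ^ 2 = w x := fun x => Real.sq_sqrt (hw x)
  simp only [h3, h4, h5] at h2
  refine h2.trans ?_
  exact mul_le_of_le_one_right (Finset.sum_nonneg fun x _ => mul_nonneg (sq_nonneg _) (hw x)) h1

/-- almost every point has no integral coordinate -/
theorem i2_ae : ∀ᵐ X : E3, ∀ i : Fin 3, ∀ n : ℤ, X i ≠ n := by
  rw [ae_all_iff]
  intro i
  rw [ae_all_iff]
  intro n
  have hmp := EuclideanSpace.volume_preserving_symm_measurableEquiv_toLp (Fin 3)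
  have h1 : volume {Y : Fin 3 → ℝ | Y i = n} = 0 := Measure.pi_hyperplane _ i _
  have h2 : MeasurableSet {Y : Fin 3 → ℝ | Y i = n} :=
    measurableSet_eq_fun (measurable_pi_apply i) measurable_const
  have h3 := hmp.measure_preimage h2.nullMeasurableSet
  rw [h1] at h3
  rw [ae_iff]
  refine (congrArg volume ?_).trans h3
  ext X
  simp

/-- the partial derivatives -/
def i2_d (u : Z3 → ℝ) (F : Finset Z3) (X : E3) (i : Fin 3) : ℝ :=
  ∑ x ∈ F, u x * ((∏ j ∈ Finset.univ.erase i, i2_L (X j - x j)) *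
    (i2_c (X i - x i + 1) - i2_c (X i - x i)))

theorem i2_fderiv (u : Z3 → ℝ) (F : Finset Z3) (hF : ∀ x, x ∉ F → u x = 0) (X : E3)
    (hX : ∀ i : Fin 3, ∀ n : ℤ, X i ≠ n) :
    HasFDerivAt (interp u) (∑ x ∈ F, u x • ∑ i : Fin 3,
      (∏ j ∈ Finset.univ.erase i, i2_L (X j - x j)) •
        ((i2_c (X i - x i + 1) - i2_c (X i - x i)) • (EuclideanSpace.proj i : E3 →L[ℝ] ℝ))) X := by
  have h0 : interp u = fun Y => ∑ x ∈ F, u x * ∏ i : Fin 3, i2_L (Y i - x i) := by
    funext Y
    exact interp_eq_sum u F hF Y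
  rw [h0]
  apply HasFDerivAt.fun_sum
  intro x _
  apply HasFDerivAt.const_mul
  have h1 : ∀ i ∈ (Finset.univ : Finset (Fin 3)), HasFDerivAt (fun Y : E3 => i2_L (Y i - x i))
      ((i2_c (X i - x i + 1) - i2_c (X i - x i)) • (EuclideanSpace.proj i : E3 →L[ℝ] ℝ)) X := by
    intro i _
    have h2 : HasDerivAt i2_L (i2_c (X i - x i + 1) - i2_c (X i - x i)) (X i - x i) := by
      apply i2_deriv
      intro n hn
      apply hX i (n + x i)
      push_cast
      linarith
    have h3 : HasFDerivAt (fun Y : E3 => Y i - (x i : ℝ)) (EuclideanSpace.proj i : E3 →L[ℝ] ℝ) X :=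
      (EuclideanSpace.proj i : E3 →L[ℝ] ℝ).hasFDerivAt.sub_const _
    exact h2.comp_hasFDerivAt X h3
  exact HasFDerivAt.finsetProd h1

theorem i2_norm (u : Z3 → ℝ) (F : Finset Z3) (hF : ∀ x, x ∉ F → u x = 0) (X : E3)
    (hX : ∀ i : Fin 3, ∀ n : ℤ, X i ≠ n) :
    ‖fderiv ℝ (interp u) X‖ ^ 2 ≤ ∑ i : Fin 3, i2_d u F X i ^ 2 := by
  rw [(i2_fderiv u F hF X hX).fderiv]
  have h0 : 0 ≤ ∑ i : Fin 3, i2_d u F X i ^ 2 := Finset.sum_nonneg fun i _ => sq_nonneg _
  rw [← Real.sq_sqrt h0]
  apply pow_le_pow_left₀ (norm_nonneg _)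
  apply ContinuousLinearMap.opNorm_le_bound _ (Real.sqrt_nonneg _)
  intro v
  have h1 : (∑ x ∈ F, u x • ∑ i : Fin 3,
      (∏ j ∈ Finset.univ.erase i, i2_L (X j - x j)) •
        ((i2_c (X i - x i + 1) - i2_c (X i - x i)) • (EuclideanSpace.proj i : E3 →L[ℝ] ℝ))) v =
      ∑ i : Fin 3, i2_d u F X i * v i := by
    have hpr : ∀ i : Fin 3, (EuclideanSpace.proj i : E3 →L[ℝ] ℝ) v = v i := fun i => rfl
    simp only [sum_apply, smul_apply, smul_eq_mul, hpr, i2_d, Finset.sum_mul, Finset.mul_sum]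
    rw [Finset.sum_comm]
    apply Finset.sum_congr rfl
    intro i _
    apply Finset.sum_congr rfl
    intro x _
    ring
  rw [h1, Real.norm_eq_abs]
  apply abs_le_of_sq_le_sq _ (mul_nonneg (Real.sqrt_nonneg _) (norm_nonneg _))
  rw [mul_pow, Real.sq_sqrt h0, EuclideanSpace.real_norm_sq_eq]
  exact Finset.sum_mul_sq_le_sq_mul_sq _ _ _

/-- the shift -/
theorem i2_shift (u : Z3 → ℝ) (F G : Finset Z3) (hF : ∀ x, x ∉ F → u x = 0) (hFG : F ⊆ G)
    (i : Fin 3) (hG : ∀ x ∈ F, x - ez i ∈ G) (X : E3) :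
    i2_d u F X i = ∑ x ∈ G, (u (x + ez i) - u x) * i2_w i x X := by
  have hw : ∀ x : Z3, i2_w i x X =
      (∏ j ∈ Finset.univ.erase i, i2_L (X j - x j)) * i2_c (X i - x i) := by
    intro x
    unfold i2_w
    rw [← Finset.prod_erase_mul _ _ (Finset.mem_univ i)]
    have h1 : i2_g i i (X i - x i) = i2_c (X i - x i) := by unfold i2_g; rw [if_pos rfl]
    rw [h1]
    congr 1
    apply Finset.prod_congr rfl
    intro j hj
    unfold i2_g
    rw [if_neg (Finset.ne_of_mem_erase hj)]
  have h1 : i2_d u F X i = ∑ x ∈ F, u x * ((∏ j ∈ Finset.univ.erase i, i2_L (X j - x j)) *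
      i2_c (X i - x i + 1)) - ∑ x ∈ F, u x * i2_w i x X := by
    unfold i2_d
    rw [← Finset.sum_sub_distrib]
    apply Finset.sum_congr rfl
    intro x _
    rw [hw]
    ring
  have h2 : ∑ x ∈ F, u x * i2_w i x X = ∑ x ∈ G, u x * i2_w i x X := by
    apply Finset.sum_subset hFG
    intro x _ hx
    rw [hF x hx, zero_mul]
  have h3 : ∑ x ∈ F, u x * ((∏ j ∈ Finset.univ.erase i, i2_L (X j - x j)) *
      i2_c (X i - x i + 1)) = ∑ x ∈ G, u (x + ez i) * i2_w i x X := by
    have h4 : ∑ x ∈ G, u (x + ez i) * i2_w i x X = ∑ x ∈ G.image (fun x => x + ez i),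
        u x * ((∏ j ∈ Finset.univ.erase i, i2_L (X j - x j)) * i2_c (X i - x i + 1)) := by
      rw [Finset.sum_image (fun a _ b _ hab => add_right_cancel hab)]
      apply Finset.sum_congr rfl
      intro x _
      rw [hw]
      have h5 : ∀ j ∈ (Finset.univ : Finset (Fin 3)).erase i, i2_L (X j - ((x + ez i : Z3) j : ℝ)) =
          i2_L (X j - x j) := by
        intro j hj
        have h6 : (x + ez i : Z3) j = x j := by
          rw [Pi.add_apply, ez, Pi.single_eq_of_ne (Finset.ne_of_mem_erase hj), add_zero]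
        rw [h6]
      rw [Finset.prod_congr rfl h5]
      have h7 : (x + ez i : Z3) i = x i + 1 := by
        rw [Pi.add_apply, ez, Pi.single_eq_same]
      have h8 : X i - ((x + ez i : Z3) i : ℝ) + 1 = X i - x i := by
        rw [h7]
        push_cast
        ring
      rw [h8]
    rw [h4]
    apply Finset.sum_subset
    · intro x hx
      exact Finset.mem_image.2 ⟨x - ez i, hG x hx, sub_add_cancel _ _⟩
    · intro x _ hx
      rw [hF x hx, zero_mul]
  rw [h1, h2, h3, ← Finset.sum_sub_distrib]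
  apply Finset.sum_congr rfl
  intro x _
  ring

theorem interp_energy (u : Z3 → ℝ) (F : Finset Z3) (hF : ∀ x, x ∉ F → u x = 0) :
    ∫ X : E3, ‖fderiv ℝ (interp u) X‖ ^ 2 ≤ dirE u := by
  obtain ⟨G, hFG, hG⟩ : ∃ G : Finset Z3, F ⊆ G ∧ ∀ i : Fin 3, ∀ x ∈ F, x - ez i ∈ G := by
    refine ⟨F ∪ Finset.univ.biUnion (fun i : Fin 3 => F.image (fun x => x - ez i)),
      Finset.subset_union_left, ?_⟩
    intro i x hx
    exact Finset.mem_union_right _ (Finset.mem_biUnion.2 ⟨i, Finset.mem_univ i,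
      Finset.mem_image_of_mem _ hx⟩)
  have hdir : dirE u = ∑ x ∈ G, ∑ i : Fin 3, (u (x + ez i) - u x) ^ 2 := by
    unfold dirE
    apply tsum_eq_sum
    intro x hx
    apply Finset.sum_eq_zero
    intro i _
    have h1 : u x = 0 := hF x (fun h => hx (hFG h))
    have h2 : u (x + ez i) = 0 := by
      apply hF
      intro h
      apply hx
      have h3 := hG i _ h
      rwa [add_sub_cancel_right] at h3
    rw [h1, h2]
    norm_num
  have hint : Integrable (fun X : E3 => ∑ i : Fin 3, ∑ x ∈ G,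
      (u (x + ez i) - u x) ^ 2 * i2_w i x X) := by
    apply integrable_finset_sum
    intro i _
    apply integrable_finset_sum
    intro x _
    exact (i2_w_int i x).1.const_mul _
  have hval : ∫ X : E3, ∑ i : Fin 3, ∑ x ∈ G, (u (x + ez i) - u x) ^ 2 * i2_w i x X = dirE u := by
    rw [integral_finset_sum _ (fun i _ => integrable_finset_sum _
      (fun x _ => (i2_w_int i x).1.const_mul _)), hdir, Finset.sum_comm]
    apply Finset.sum_congr rfl
    intro i _
    rw [integral_finset_sum _ (fun x _ => (i2_w_int i x).1.const_mul _)]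
    apply Finset.sum_congr rfl
    intro x _
    rw [integral_const_mul, (i2_w_int i x).2, mul_one]
  rw [← hval]
  apply integral_mono_of_nonneg (Filter.Eventually.of_forall fun X => sq_nonneg _) hint
  filter_upwards [i2_ae] with X hX
  refine (i2_norm u F hF X hX).trans (Finset.sum_le_sum fun i _ => ?_)
  rw [i2_shift u F G hF hFG i (hG i) X]
  exact i2_cs G _ _ (fun x => i2_w_nonneg i x X) (i2_w_sum i G X)

end CLR
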