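import Pool.Agent.CLR.I1

/-!
# CLR row I3: cells, and the mean of the interpolation over a cell

Cells: `cell h x` (`h > 0`) is measurable, of volume `h^3`, the cells are pairwise disjoint and cover
`E3` (`x i = ⌊X i / h⌋`).
`interp_cell`: for `X ∈ cell 1 x`, `interp u X = Σ_{s ∈ {0,1}^3} u (x+s) Π_i (1 - X_i + x_i or X_i - x_i)`
and each factor integrates to `1/2` over `[x_i, x_i + 1)`.  Alternatively integrate each term of the
finite sum of `interp_eq_sum`: `∫_{cell 1 x} Π_i Λ(X_i - z_i) dX = Π_i ∫_{x_i}^{x_i+1} Λ(t - z_i) dt`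
`= Π_i (1/2 if z_i ∈ {x_i, x_i+1} else 0)`.
-/

set_option autoImplicit false

open MeasureTheory Set Filter Topology

noncomputable section

namespace CLR

/-- the box in coordinates -/
def i3_box (h : ℝ) (x : Z3) : Set (Fin 3 → ℝ) :=
  pi univ fun i => Ico (h * (x i : ℝ)) (h * ((x i : ℝ) + 1))

theorem i3_cell_eq (h : ℝ) (x : Z3) :
    cell h x = (@WithLp.ofLp 2 (Fin 3 → ℝ)) ⁻¹' i3_box h x := by
  ext X
  simp only [cell, i3_box, mem_setOf_eq, mem_preimage, Set.mem_pi, mem_univ, forall_const, mem_Ico]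

theorem i3_box_meas (h : ℝ) (x : Z3) : MeasurableSet (i3_box h x) :=
  MeasurableSet.univ_pi fun _ => measurableSet_Ico

theorem i3_vol (h : ℝ) (x : Z3) : volume (cell h x) = ENNReal.ofReal h ^ 3 := by
  rw [i3_cell_eq, (PiLp.volume_preserving_ofLp (Fin 3)).measure_preimage
    (i3_box_meas h x).nullMeasurableSet, i3_box, Real.volume_pi_Ico]
  have h1 : ∀ i : Fin 3, h * ((x i : ℝ) + 1) - h * (x i : ℝ) = h := fun i => by ring
  simp only [h1, Finset.prod_const, Finset.card_univ, Fintype.card_fin]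

theorem cell_meas (h : ℝ) (x : Z3) : MeasurableSet (cell h x) := by
  rw [i3_cell_eq]
  exact (PiLp.volume_preserving_ofLp (Fin 3)).measurable (i3_box_meas h x)

theorem cell_vol (h : ℝ) (hh : 0 < h) (x : Z3) : (volume (cell h x)).toReal = h ^ 3 := by
  rw [i3_vol, ENNReal.toReal_pow, ENNReal.toReal_ofReal hh.le]

theorem cell_vol_ne_top (h : ℝ) (x : Z3) : volume (cell h x) ≠ ⊤ := by
  rw [i3_vol]
  exact ENNReal.pow_ne_top ENNReal.ofReal_ne_top

theorem cell_disj (h : ℝ) (hh : 0 < h) : Pairwise (Function.onFun Disjoint (cell h)) := by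
  intro x y hxy
  rw [Function.onFun, Set.disjoint_left]
  intro X hX hY
  apply hxy
  funext i
  obtain ⟨h1, h2⟩ := hX i
  obtain ⟨h3, h4⟩ := hY i
  have h5 : (x i : ℝ) < (y i : ℝ) + 1 := lt_of_mul_lt_mul_left (h1.trans_lt h4) hh.le
  have h6 : (y i : ℝ) < (x i : ℝ) + 1 := lt_of_mul_lt_mul_left (h3.trans_lt h2) hh.le
  have h7 : x i < y i + 1 := by exact_mod_cast h5
  have h8 : y i < x i + 1 := by exact_mod_cast h6
  omega

theorem cell_cover (h : ℝ) (hh : 0 < h) : (⋃ x : Z3, cell h x) = univ := by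
  refine eq_univ_of_forall fun X => mem_iUnion.2 ⟨fun i => ⌊X i / h⌋, fun i => ⟨?_, ?_⟩⟩
  · have h1 := mul_le_mul_of_nonneg_left (Int.floor_le (X i / h)) hh.le
    rwa [mul_div_cancel₀ _ hh.ne'] at h1
  · have h1 := mul_lt_mul_of_pos_left (Int.lt_floor_add_one (X i / h)) hh
    rwa [mul_div_cancel₀ _ hh.ne'] at h1

/-- the hat function -/
theorem i3_one (a z : ℤ) : ∫ t in Ico (1 * (a : ℝ)) (1 * ((a : ℝ) + 1)),
    max (1 - |t - (z : ℝ)|) 0 = if z = a ∨ z = a + 1 then 1 / 2 else 0 := by
  rw [one_mul, one_mul]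
  have hle : (a : ℝ) ≤ (a : ℝ) + 1 := by linarith
  by_cases h1 : z = a
  · rw [if_pos (Or.inl h1), h1]
    have e : EqOn (fun t : ℝ => max (1 - |t - (a : ℝ)|) 0) (fun t => (1 + (a : ℝ)) - t)
        (Ico (a : ℝ) ((a : ℝ) + 1)) := by
      intro t ht
      obtain ⟨h2, h3⟩ := ht
      simp only
      rw [abs_of_nonneg (by linarith), max_eq_left (by linarith)]
      ring
    rw [setIntegral_congr_fun measurableSet_Ico e, integral_Ico_eq_integral_Ioc,
      ← intervalIntegral.integral_of_le hle, intervalIntegral.integral_sub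
        (by simp) (by simp), intervalIntegral.integral_const, integral_id]
    rw [smul_eq_mul]
    ring
  · by_cases h2 : z = a + 1
    · rw [if_pos (Or.inr h2), h2]
      have e : EqOn (fun t : ℝ => max (1 - |t - ((a + 1 : ℤ) : ℝ)|) 0) (fun t => t - (a : ℝ))
          (Ico (a : ℝ) ((a : ℝ) + 1)) := by
        intro t ht
        obtain ⟨h3, h4⟩ := ht
        simp only
        push_cast
        rw [abs_of_nonpos (by linarith), max_eq_left (by linarith)]
        ring
      rw [setIntegral_congr_fun measurableSet_Ico e, integral_Ico_eq_integral_Ioc,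
        ← intervalIntegral.integral_of_le hle, intervalIntegral.integral_sub
          (by simp) (by simp), intervalIntegral.integral_const, integral_id]
      rw [smul_eq_mul]
      ring
    · rw [if_neg (by tauto)]
      have e : EqOn (fun t : ℝ => max (1 - |t - (z : ℝ)|) 0) (fun _ => 0)
          (Ico (a : ℝ) ((a : ℝ) + 1)) := by
        intro t ht
        obtain ⟨h3, h4⟩ := ht
        simp only
        apply max_eq_right
        rcases lt_or_gt_of_ne h1 with h5 | h5
        · have h6 : (z : ℝ) + 1 ≤ a := by exact_mod_cast h5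
          rw [abs_of_nonneg (by linarith)]
          linarith
        · have h6 : a + 2 ≤ z := by omega
          have h7 : (a : ℝ) + 2 ≤ z := by exact_mod_cast h6
          rw [abs_of_nonpos (by linarith)]
          linarith
      rw [setIntegral_congr_fun measurableSet_Ico e, integral_zero]

/-- the weights -/
def i3_w (x z : Z3) : ℝ := ∏ i : Fin 3, if z i = x i ∨ z i = x i + 1 then (1 / 2 : ℝ) else 0

theorem i3_prod (x z : Z3) :
    ∫ X in cell 1 x, ∏ i : Fin 3, max (1 - |X i - (z i : ℝ)|) 0 = i3_w x z := by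
  have h1 : ∫ X in cell 1 x, ∏ i : Fin 3, max (1 - |X i - (z i : ℝ)|) 0 =
      ∫ y in i3_box 1 x, ∏ i : Fin 3, max (1 - |y i - (z i : ℝ)|) 0 := by
    rw [i3_cell_eq]
    exact (PiLp.volume_preserving_ofLp (Fin 3)).setIntegral_preimage_emb
      (MeasurableEquiv.toLp 2 (Fin 3 → ℝ)).symm.measurableEmbedding
      (fun y : Fin 3 → ℝ => ∏ i : Fin 3, max (1 - |y i - (z i : ℝ)|) 0) (i3_box 1 x)
  have h2 : (i3_box 1 x).indicator (fun y : Fin 3 → ℝ => ∏ i : Fin 3, max (1 - |y i - (z i : ℝ)|) 0)
      = fun y => ∏ i : Fin 3, (Ico (1 * (x i : ℝ)) (1 * ((x i : ℝ) + 1))).indicator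
        (fun t => max (1 - |t - (z i : ℝ)|) 0) (y i) := by
    funext y
    by_cases hy : y ∈ i3_box 1 x
    · rw [indicator_of_mem hy]
      apply Finset.prod_congr rfl
      intro i _
      rw [indicator_of_mem (hy i (mem_univ i))]
    · rw [indicator_of_notMem hy]
      have h3 : ∃ i, y i ∉ Ico (1 * (x i : ℝ)) (1 * ((x i : ℝ) + 1)) := by
        by_contra h4
        push Not at h4
        exact hy fun i _ => h4 i
      obtain ⟨i, hi⟩ := h3
      symm
      exact Finset.prod_eq_zero (Finset.mem_univ i) (indicator_of_notMem hi _)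
  rw [h1, ← integral_indicator (i3_box_meas 1 x), h2,
    integral_fintype_prod_volume_eq_prod (fun (i : Fin 3) (t : ℝ) =>
      (Ico (1 * (x i : ℝ)) (1 * ((x i : ℝ) + 1))).indicator (fun t => max (1 - |t - (z i : ℝ)|) 0) t)]
  unfold i3_w
  apply Finset.prod_congr rfl
  intro i _
  rw [integral_indicator measurableSet_Ico, i3_one]

theorem i3_int (x z : Z3) (c : ℝ) :
    IntegrableOn (fun X : E3 => c * ∏ i : Fin 3, max (1 - |X i - (z i : ℝ)|) 0) (cell 1 x) := by
  refine Measure.integrableOn_of_bounded (M := |c|) (cell_vol_ne_top 1 x) ?_ ?_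
  · apply Continuous.aestronglyMeasurable
    fun_prop
  · refine Filter.Eventually.of_forall fun X => ?_
    rw [norm_mul, Real.norm_eq_abs, Real.norm_eq_abs]
    refine mul_le_of_le_one_right (abs_nonneg c) ?_
    rw [abs_of_nonneg (Finset.prod_nonneg fun i _ => le_max_right _ _)]
    refine Finset.prod_le_one (fun i _ => le_max_right _ _) fun i _ => ?_
    refine max_le ?_ zero_le_one
    linarith [abs_nonneg (X i - (z i : ℝ))]

theorem interp_cell (u : Z3 → ℝ) (F : Finset Z3) (hF : ∀ x, x ∉ F → u x = 0) (x : Z3) :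
    ∫ X in cell 1 x, interp u X =
      (1 / 8) * ∑ s : Fin 3 → Fin 2, u (x + fun i => ((s i : ℕ) : ℤ)) := by
  have h1 : ∫ X in cell 1 x, interp u X = ∑ z ∈ F, u z * i3_w x z := by
    rw [setIntegral_congr_fun (cell_meas 1 x) (fun X _ => interp_eq_sum u F hF X),
      integral_finset_sum _ (fun z _ => i3_int x z (u z))]
    apply Finset.sum_congr rfl
    intro z _
    rw [integral_const_mul, i3_prod]
  have hinj : Function.Injective (fun s : Fin 3 → Fin 2 => x + fun i => ((s i : ℕ) : ℤ)) := by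
    intro s t hst
    have h2 := add_left_cancel hst
    funext i
    have h3 := congrFun h2 i
    exact Fin.ext (by exact_mod_cast h3)
  classical
  obtain ⟨G, hG⟩ : ∃ G : Finset Z3, G = Finset.univ.image
    (fun s : Fin 3 → Fin 2 => x + fun i => ((s i : ℕ) : ℤ)) := ⟨_, rfl⟩
  have h2 : ∑ z ∈ F, u z * i3_w x z = ∑ z ∈ G, u z * i3_w x z := by
    have h3 : ∑ z ∈ F, u z * i3_w x z = ∑ z ∈ F ∪ G, u z * i3_w x z := by
      refine Finset.sum_subset Finset.subset_union_left ?_
      intro z _ hz
      rw [hF z hz, zero_mul]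
    have h4 : ∑ z ∈ G, u z * i3_w x z = ∑ z ∈ F ∪ G, u z * i3_w x z := by
      refine Finset.sum_subset Finset.subset_union_right ?_
      intro z _ hz
      have h5 : ∃ i, ¬ (z i = x i ∨ z i = x i + 1) := by
        by_contra h6
        push Not at h6
        apply hz
        rw [hG, Finset.mem_image]
        refine ⟨fun i => if z i = x i then 0 else 1, Finset.mem_univ _, ?_⟩
        funext i
        simp only [Pi.add_apply]
        rcases h6 i with h7 | h7
        · rw [if_pos h7, h7]
          simp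
        · rw [if_neg (by omega), h7]
          simp
      obtain ⟨i, hi⟩ := h5
      have h6 : i3_w x z = 0 := by
        unfold i3_w
        exact Finset.prod_eq_zero (Finset.mem_univ i) (if_neg hi)
      rw [h6, mul_zero]
    rw [h3, h4]
  rw [h1, h2, hG, Finset.sum_image (fun s _ t _ h => hinj h), Finset.mul_sum]
  apply Finset.sum_congr rfl
  intro s _
  have h3 : i3_w x (x + fun i => ((s i : ℕ) : ℤ)) = 1 / 8 := by
    unfold i3_w
    have h4 : ∀ i : Fin 3, (if (x + fun i => ((s i : ℕ) : ℤ)) i = x i ∨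
        (x + fun i => ((s i : ℕ) : ℤ)) i = x i + 1 then (1 / 2 : ℝ) else 0) = 1 / 2 := by
      intro i
      rw [if_pos]
      simp only [Pi.add_apply]
      have h5 := (s i).isLt
      omega
    rw [Finset.prod_congr rfl fun i _ => h4 i, Finset.prod_const, Finset.card_univ, Fintype.card_fin]
    norm_num
  rw [h3]
  ring

end CLR
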