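import Pool.Agent.CLR.Defs

/-!
# CLR row I4: lattice averages over the corners of a cube

Let `d x = u x - (1/8) Σ_s u (x+s) = (1/8) Σ_s (u x - u (x+s))`.
For `s ∈ {0,1}^3` walk from `x` to `x+s` through at most three lattice edges (coordinates
in increasing order): `(u x - u (x+s))^2 ≤ 3 Σ_{edges of the path} (du)^2`; summing over `x`
(translation invariance) `Σ_x (u x - u(x+s))^2 ≤ 3 Σ_{i : s i = 1} D_i`,
`D_i = Σ_x (u(x+e_i) - u x)^2`.  So (Cauchy-Schwarz for the average of 8 terms)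
`Σ_x (d x)^2 ≤ (3/8) Σ_s Σ_{i : s i = 1} D_i = (3/2) Σ_i D_i = (3/2) dirE u`.
Finally `2 ρ x d x ≤ (3/2) ρ x^2 / δ + (2/3) δ (d x)^2`.
-/

set_option autoImplicit false

open MeasureTheory Set Filter Topology

noncomputable section

namespace CLR

private theorem i4_shift (f : Z3 → ℝ) (hf : ∀ x, 0 ≤ f x) (hs : Summable f) (a : Z3)
    (B : Finset Z3) : ∑ x ∈ B, f (x + a) ≤ ∑' x, f x := by
  have h1 : ∑ x ∈ B, f (x + a) = ∑ x ∈ B.map (addRightEmbedding a), f x := by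
    rw [Finset.sum_map]
    rfl
  rw [h1]
  exact hs.sum_le_tsum _ (fun x _ => hf x)

private theorem i4_step (u : Z3 → ℝ) (y : Z3) (i : Fin 3) : ∀ t : Fin 2,
    (u y - u (y + Pi.single i ((t : ℕ) : ℤ))) ^ 2 ≤ ((t : ℕ) : ℝ) * (u (y + ez i) - u y) ^ 2 := by
  rw [Fin.forall_fin_two]
  constructor
  · simp
  · have h1 : y + Pi.single i (((1 : Fin 2) : ℕ) : ℤ) = y + ez i := rfl
    rw [h1]
    have h2 : (((1 : Fin 2) : ℕ) : ℝ) = 1 := by norm_num
    rw [h2, one_mul]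
    exact le_of_eq (by ring)

private theorem i4_count (i : Fin 3) : ∑ s : Fin 3 → Fin 2, (((s i : ℕ)) : ℝ) = 4 := by
  have h : ∑ s : Fin 3 → Fin 2, ((s i : ℕ)) = 4 := by
    fin_cases i <;> decide
  exact_mod_cast h

theorem corner_est (u : Z3 → ℝ) (F : Finset Z3) (hF : ∀ x, x ∉ F → u x = 0) (δ : ℝ) (hδ : 0 < δ)
    (B : Finset Z3) (ρ : Z3 → ℝ) :
    ∑ x ∈ B, 2 * ρ x * (u x - (1 / 8) * ∑ s : Fin 3 → Fin 2, u (x + fun i => ((s i : ℕ) : ℤ))) ≤
      (2 / δ) * ∑ x ∈ B, ρ x ^ 2 + δ * dirE u := by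
  classical
  -- the energies
  set f : Fin 3 → Z3 → ℝ := fun i x => (u (x + ez i) - u x) ^ 2 with hf
  have hf0 : ∀ i x, 0 ≤ f i x := fun i x => sq_nonneg _
  have hfs : ∀ i, Summable (f i) := by
    intro i
    refine summable_of_finite_support (Set.Finite.subset
      ((F ∪ F.map (addRightEmbedding (-ez i))).finite_toSet) ?_)
    intro x hx
    rw [Function.mem_support] at hx
    by_contra hcon
    apply hx
    rw [Finset.mem_coe, Finset.mem_union, not_or] at hcon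
    have h1 : x + ez i ∉ F := by
      intro h2
      apply hcon.2
      rw [Finset.mem_map]
      exact ⟨x + ez i, h2, by simp⟩
    show (u (x + ez i) - u x) ^ 2 = 0
    rw [hF _ h1, hF _ hcon.1]
    norm_num
  have hdir : dirE u = ∑ i : Fin 3, ∑' x, f i x := by
    unfold dirE
    exact Summable.tsum_finsetSum fun i _ => hfs i
  -- one corner
  have hone : ∀ (s : Fin 3 → Fin 2),
      ∑ x ∈ B, (u x - u (x + fun i => ((s i : ℕ) : ℤ))) ^ 2 ≤
        3 * ∑ i : Fin 3, ((s i : ℕ) : ℝ) * ∑' x, f i x := by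
    intro s
    set a1 : Z3 := Pi.single 0 ((s 0 : ℕ) : ℤ) with ha1
    set a2 : Z3 := a1 + Pi.single 1 ((s 1 : ℕ) : ℤ) with ha2
    have ha3 : (fun i => ((s i : ℕ) : ℤ)) = a2 + Pi.single 2 ((s 2 : ℕ) : ℤ) := by
      ext i
      rw [ha2, ha1]
      fin_cases i <;> simp
    have hpt : ∀ x, (u x - u (x + fun i => ((s i : ℕ) : ℤ))) ^ 2 ≤
        3 * (((s 0 : ℕ) : ℝ) * f 0 (x + 0) + ((s 1 : ℕ) : ℝ) * f 1 (x + a1) +
          ((s 2 : ℕ) : ℝ) * f 2 (x + a2)) := by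
      intro x
      rw [ha3]
      have e0 := i4_step u (x + 0) 0 (s 0)
      have e1 := i4_step u (x + a1) 1 (s 1)
      have e2 := i4_step u (x + a2) 2 (s 2)
      have g0 : x + 0 + Pi.single 0 ((s 0 : ℕ) : ℤ) = x + a1 := by rw [add_zero]
      have g1 : x + a1 + Pi.single 1 ((s 1 : ℕ) : ℤ) = x + a2 := by rw [ha2, add_assoc]
      have g2 : x + a2 + Pi.single 2 ((s 2 : ℕ) : ℤ) = x + (a2 + Pi.single 2 ((s 2 : ℕ) : ℤ)) := by
        rw [add_assoc]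
      rw [g0] at e0
      rw [g1] at e1
      rw [g2] at e2
      have h3 : ∀ p q r : ℝ, (p + q + r) ^ 2 ≤ 3 * (p ^ 2 + q ^ 2 + r ^ 2) := by
        intro p q r
        nlinarith [sq_nonneg (p - q), sq_nonneg (q - r), sq_nonneg (p - r)]
      have h4 := h3 (u (x + 0) - u (x + a1)) (u (x + a1) - u (x + a2))
        (u (x + a2) - u (x + (a2 + Pi.single 2 ((s 2 : ℕ) : ℤ))))
      have h5 : u (x + 0) - u (x + a1) + (u (x + a1) - u (x + a2)) +
          (u (x + a2) - u (x + (a2 + Pi.single 2 ((s 2 : ℕ) : ℤ)))) =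
          u x - u (x + (a2 + Pi.single 2 ((s 2 : ℕ) : ℤ))) := by
        rw [add_zero]
        ring
      rw [h5] at h4
      refine h4.trans ?_
      have : (u (x + 0) - u (x + a1)) ^ 2 + (u (x + a1) - u (x + a2)) ^ 2 +
          (u (x + a2) - u (x + (a2 + Pi.single 2 ((s 2 : ℕ) : ℤ)))) ^ 2 ≤
          ((s 0 : ℕ) : ℝ) * f 0 (x + 0) + ((s 1 : ℕ) : ℝ) * f 1 (x + a1) +
          ((s 2 : ℕ) : ℝ) * f 2 (x + a2) := add_le_add (add_le_add e0 e1) e2
      linarith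
    refine (Finset.sum_le_sum fun x _ => hpt x).trans ?_
    rw [← Finset.mul_sum, Finset.sum_add_distrib, Finset.sum_add_distrib, ← Finset.mul_sum,
      ← Finset.mul_sum, ← Finset.mul_sum, Fin.sum_univ_three]
    have k0 := mul_le_mul_of_nonneg_left (i4_shift (f 0) (hf0 0) (hfs 0) 0 B)
      (Nat.cast_nonneg (α := ℝ) (s 0 : ℕ))
    have k1 := mul_le_mul_of_nonneg_left (i4_shift (f 1) (hf0 1) (hfs 1) a1 B)
      (Nat.cast_nonneg (α := ℝ) (s 1 : ℕ))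
    have k2 := mul_le_mul_of_nonneg_left (i4_shift (f 2) (hf0 2) (hfs 2) a2 B)
      (Nat.cast_nonneg (α := ℝ) (s 2 : ℕ))
    linarith
  -- the difference
  set d : Z3 → ℝ := fun x => u x - (1 / 8) * ∑ s : Fin 3 → Fin 2,
    u (x + fun i => ((s i : ℕ) : ℤ)) with hd
  have hd1 : ∀ x, d x = (1 / 8) * ∑ s : Fin 3 → Fin 2, (u x - u (x + fun i => ((s i : ℕ) : ℤ))) := by
    intro x
    rw [Finset.sum_sub_distrib, Finset.sum_const, Finset.card_univ, Fintype.card_fun,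
      Fintype.card_fin, Fintype.card_fin, nsmul_eq_mul]
    show u x - _ = _
    norm_num
    ring
  have hd2 : ∀ x, d x ^ 2 ≤
      (1 / 8) * ∑ s : Fin 3 → Fin 2, (u x - u (x + fun i => ((s i : ℕ) : ℤ))) ^ 2 := by
    intro x
    have h1 := sq_sum_le_card_mul_sum_sq (s := (Finset.univ : Finset (Fin 3 → Fin 2)))
      (f := fun s => u x - u (x + fun i => ((s i : ℕ) : ℤ)))
    rw [Finset.card_univ, Fintype.card_fun, Fintype.card_fin, Fintype.card_fin] at h1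
    rw [hd1, mul_pow]
    norm_num at h1 ⊢
    linarith
  have hd3 : ∑ x ∈ B, d x ^ 2 ≤ (3 / 2) * dirE u := by
    refine (Finset.sum_le_sum fun x _ => hd2 x).trans ?_
    rw [← Finset.mul_sum, Finset.sum_comm]
    have h1 : ∑ s : Fin 3 → Fin 2, ∑ x ∈ B, (u x - u (x + fun i => ((s i : ℕ) : ℤ))) ^ 2 ≤
        ∑ s : Fin 3 → Fin 2, 3 * ∑ i : Fin 3, ((s i : ℕ) : ℝ) * ∑' x, f i x :=
      Finset.sum_le_sum fun s _ => hone s
    have h2 : ∑ s : Fin 3 → Fin 2, 3 * ∑ i : Fin 3, ((s i : ℕ) : ℝ) * ∑' x, f i x =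
        12 * dirE u := by
      rw [← Finset.mul_sum, Finset.sum_comm]
      have h3 : ∀ i : Fin 3, ∑ s : Fin 3 → Fin 2, ((s i : ℕ) : ℝ) * ∑' x, f i x =
          4 * ∑' x, f i x := by
        intro i
        rw [← Finset.sum_mul, i4_count]
      simp_rw [h3]
      rw [← Finset.mul_sum, ← hdir]
      ring
    linarith
  -- conclusion
  have hfin : ∀ x, 2 * ρ x * d x ≤ (3 / 2 / δ) * ρ x ^ 2 + (2 / 3 * δ) * d x ^ 2 := by
    intro x
    have h1 : (3 / 2 / δ) * ρ x ^ 2 + (2 / 3 * δ) * d x ^ 2 - 2 * ρ x * d x =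
        (3 / 2 / δ) * (ρ x - (2 / 3 * δ) * d x) ^ 2 := by
      field_simp
      ring
    have h2 : 0 ≤ (3 / 2 / δ) * (ρ x - (2 / 3 * δ) * d x) ^ 2 := by positivity
    linarith
  calc ∑ x ∈ B, 2 * ρ x * d x ≤ ∑ x ∈ B, ((3 / 2 / δ) * ρ x ^ 2 + (2 / 3 * δ) * d x ^ 2) :=
        Finset.sum_le_sum fun x _ => hfin x
    _ = (3 / 2 / δ) * ∑ x ∈ B, ρ x ^ 2 + (2 / 3 * δ) * ∑ x ∈ B, d x ^ 2 := by
        rw [Finset.sum_add_distrib, ← Finset.mul_sum, ← Finset.mul_sum]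
    _ ≤ (2 / δ) * ∑ x ∈ B, ρ x ^ 2 + δ * dirE u := by
        have h1 : 0 ≤ ∑ x ∈ B, ρ x ^ 2 := Finset.sum_nonneg fun x _ => sq_nonneg _
        have h2 : (3 / 2 / δ) * ∑ x ∈ B, ρ x ^ 2 ≤ (2 / δ) * ∑ x ∈ B, ρ x ^ 2 := by
          refine mul_le_mul_of_nonneg_right ?_ h1
          exact div_le_div_of_nonneg_right (by norm_num) hδ.le
        have h3 : (2 / 3 * δ) * ∑ x ∈ B, d x ^ 2 ≤ (2 / 3 * δ) * ((3 / 2) * dirE u) :=
          mul_le_mul_of_nonneg_left hd3 (by positivity)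
        linarith

end CLR
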