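import Pool.Agent.CLR.Dual
import Pool.Agent.CLR.I2
import Pool.Agent.CLR.I3
import Pool.Agent.CLR.I4

/-!
# CLR row I5: the lattice Lane-Emden inequality

`elem_ineq`: for `r, y ≥ 0`, `v, β > 0`, `κ = sk^2`:
`2 r y - κ y^4 ≤ β r^2/v + r √v/(2 sk √β)`.  Proof: put `p = √(v/(4β)) = √v/(2√β)`, `γ = √v/(2 sk √β) = p/sk`.
For fixed `y`, `2 r y - γ r - β r^2/v ≤ p^2 (2y - γ)^2` if `2 y ≥ γ` (max over `r` of
`r(2y-γ) - r^2/(4 p^2)` is `p^2 (2y-γ)^2`) and is `≤ 0` if `2 y < γ`; and `p (2y-γ) ≤ sk y^2`, because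
`sk y^2 - 2 p y + p γ = sk y^2 - 2 p y + p^2/sk = (sk y - p)^2/sk ≥ 0`.

`latP`: let `w = (1-δ) interp u`, admissible (`interp_adm` scaled).  `dualLE` gives `t ≥ 0` with
`2 t + κ ∫ (max (w-t) 0)^4 ≤ ∫ ‖∇w‖^2 = (1-δ)^2 ∫ ‖∇ interp u‖^2 ≤ (1-δ)^2 dirE u`.
(`I3`,`I4`) `2 Σ ρ u ≤ 2 Σ_{x∈B} ρ x ∫_{cell 1 x} interp u + (2/δ) Σ ρ^2 + δ dirE u`.
`2 Σ ρ x ∫_{cell} interp u = (1-δ)^{-1} 2 Σ ρ x ∫_{cell} w ≤ (1-δ)^{-1} (2 t Σ ρ x + 2 Σ ρ x ∫_{cell} (max (w-t) 0))`
`≤ (1-δ)^{-1} (2 t + 2 Σ_{x∈B} ρ x ∫_{cell 1 x} max (w-t) 0)` (`w ≤ t + max (w-t) 0`, cells have volume 1).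
And `(1-δ) dirE u ≥ (1-δ)^{-1} (2 t + κ Σ_{x∈B} ∫_{cell 1 x} (max (w-t) 0)^4)` (disjoint cells,
nonnegative integrand).  Subtract:
`2 Σ ρ u - dirE u ≤ (1-δ)^{-1} Σ_{x∈B} ∫_{cell 1 x} [2 ρ x y - κ y^4] + (2/δ) Σ ρ^2`, `y = max (w X - t) 0`,
and apply `elem_ineq` under the integral (cell volume 1).
-/

set_option autoImplicit false

open MeasureTheory Set Filter Topology

noncomputable section

namespace CLR

private theorem i5_sk_pos : 0 < sk := by
  unfold sk
  positivity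

private theorem i5_elem (r y p s : ℝ) (hr : 0 ≤ r) (hp : 0 < p) (hs : 0 < s) :
    2 * r * y - s ^ 2 * y ^ 4 ≤ r ^ 2 / (4 * p ^ 2) + r * (p / s) := by
  rcases le_or_gt (2 * y) (p / s) with h | h
  · have h1 : 0 ≤ s ^ 2 * y ^ 4 := by positivity
    have h2 : 0 ≤ r ^ 2 / (4 * p ^ 2) := by positivity
    have h3 : r * (2 * y) ≤ r * (p / s) := mul_le_mul_of_nonneg_left h hr
    linarith
  · set q : ℝ := 2 * y - p / s with hq
    have hq0 : 0 < q := by rw [hq]; linarith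
    have h1 : p * q ≤ s * y ^ 2 := by
      have h2 : s * y ^ 2 - p * q = (s * y - p) ^ 2 / s := by
        rw [hq]
        field_simp
        ring
      have h3 : 0 ≤ (s * y - p) ^ 2 / s := by positivity
      linarith
    have h2 : (p * q) ^ 2 ≤ (s * y ^ 2) ^ 2 := pow_le_pow_left₀ (by positivity) h1 2
    have h3 : 0 ≤ (r / (2 * p) - p * q) ^ 2 := sq_nonneg _
    have h4 : (r / (2 * p) - p * q) ^ 2 = r ^ 2 / (4 * p ^ 2) - r * q + (p * q) ^ 2 := by
      field_simp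
      ring
    have h5 : r * q = 2 * r * y - r * (p / s) := by rw [hq]; ring
    nlinarith

theorem elem_ineq (r y v β : ℝ) (hr : 0 ≤ r) (hy : 0 ≤ y) (hv : 0 < v) (hβ : 0 < β) :
    2 * r * y - kap * y ^ 4 ≤ β * r ^ 2 / v + r * Real.sqrt v / (2 * sk * Real.sqrt β) := by
  have hsk := i5_sk_pos
  have hv' : 0 < Real.sqrt v := Real.sqrt_pos.mpr hv
  have hβ' : 0 < Real.sqrt β := Real.sqrt_pos.mpr hβ
  have h := i5_elem r y (Real.sqrt v / (2 * Real.sqrt β)) sk hr (by positivity) hsk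
  have h1 : r ^ 2 / (4 * (Real.sqrt v / (2 * Real.sqrt β)) ^ 2) = β * r ^ 2 / v := by
    rw [div_pow, mul_pow, Real.sq_sqrt hv.le, Real.sq_sqrt hβ.le]
    field_simp
    norm_num
  have h2 : r * (Real.sqrt v / (2 * Real.sqrt β) / sk) =
      r * Real.sqrt v / (2 * sk * Real.sqrt β) := by
    field_simp
  rw [h1, h2] at h
  exact h

private theorem i5_fderiv (c : ℝ) (f : E3 → ℝ) (X : E3) :
    fderiv ℝ (fun X => c * f X) X = c • fderiv ℝ f X := by
  rcases eq_or_ne c 0 with rfl | hc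
  · simp
  · have : Invertible c := invertibleOfNonzero hc
    exact fderiv_const_smul_of_invertible c

theorem latP (δ β : ℝ) (hδ0 : 0 < δ) (hδ1 : δ < 1) (hβ : 0 < β) (B : Finset Z3) (v ρ u : Z3 → ℝ)
    (hv : ∀ x ∈ B, 0 < v x) (hρ : ∀ x ∈ B, 0 ≤ ρ x) (hρ1 : ∑ x ∈ B, ρ x ≤ 1)
    (hu : ∀ x, 0 ≤ u x) (hus : ∀ x, x ∉ B → u x = 0) :
    2 * ∑ x ∈ B, ρ x * u x - dirE u ≤
      (1 / (1 - δ)) * ∑ x ∈ B, (β * ρ x ^ 2 / v x + ρ x * Real.sqrt (v x) / (2 * sk * Real.sqrt β))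
        + (2 / δ) * ∑ x ∈ B, ρ x ^ 2 := by
  obtain ⟨K, R, hR, hA⟩ := interp_adm u B hus hu
  have hd : 0 < 1 - δ := by linarith
  have hkap : 0 < kap := by
    unfold kap
    exact pow_pos i5_sk_pos 2
  -- the function `w`
  have hw : Adm K R (fun X => (1 - δ) * interp u X) := by
    refine ⟨fun X => mul_nonneg hd.le (hA.nonneg X), ?_, fun X hX => by rw [hA.supp X hX, mul_zero]⟩
    refine LipschitzWith.of_dist_le_mul fun X Y => ?_
    have h1 := hA.lip.dist_le_mul X Y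
    rw [Real.dist_eq] at h1 ⊢
    rw [← mul_sub, abs_mul, abs_of_pos hd]
    have h2 : (1 - δ) * |interp u X - interp u Y| ≤ 1 * |interp u X - interp u Y| :=
      mul_le_mul_of_nonneg_right (by linarith) (abs_nonneg _)
    linarith
  obtain ⟨t, ht, hmain⟩ := dualLE K R hR _ hw
  have hen : ∫ x : E3, ‖fderiv ℝ (fun X => (1 - δ) * interp u X) x‖ ^ 2 ≤
      (1 - δ) ^ 2 * dirE u := by
    have h1 : ∀ x : E3, ‖fderiv ℝ (fun X => (1 - δ) * interp u X) x‖ ^ 2 =
        (1 - δ) ^ 2 * ‖fderiv ℝ (interp u) x‖ ^ 2 := by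
      intro x
      rw [i5_fderiv, norm_smul, mul_pow, Real.norm_eq_abs, sq_abs]
    simp_rw [h1]
    rw [integral_const_mul]
    exact mul_le_mul_of_nonneg_left (interp_energy u B hus) (by positivity)
  -- integrability
  have hic : Continuous (interp u) := hA.lip.continuous
  have hii : Integrable (interp u) := by
    refine hic.integrable_of_hasCompactSupport (HasCompactSupport.intro (isCompact_closedBall 0 R) ?_)
    intro X hX
    rw [mem_closedBall_zero_iff, not_le] at hX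
    exact hA.supp X hX.le
  set Φ : E3 → ℝ := fun X => max ((1 - δ) * interp u X - t) 0 with hΦ
  have hΦc : Continuous Φ := ((continuous_const.mul hic).sub continuous_const).max continuous_const
  have hΦ0 : ∀ X, 0 ≤ Φ X := fun X => le_max_right _ _
  have hΦs : ∀ X, X ∉ Metric.closedBall (0 : E3) R → Φ X = 0 := by
    intro X hX
    rw [mem_closedBall_zero_iff, not_le] at hX
    show max ((1 - δ) * interp u X - t) 0 = 0
    rw [hA.supp X hX.le, mul_zero]
    exact max_eq_right (by linarith)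
  have hΦi : Integrable Φ :=
    hΦc.integrable_of_hasCompactSupport (HasCompactSupport.intro (isCompact_closedBall 0 R) hΦs)
  have hΦ4i : Integrable (fun X => Φ X ^ 4) := by
    refine (hΦc.pow 4).integrable_of_hasCompactSupport
      (HasCompactSupport.intro (isCompact_closedBall 0 R) fun X hX => ?_)
    show Φ X ^ 4 = 0
    rw [hΦs X hX]
    norm_num
  have hT4 : T4 t (fun X => (1 - δ) * interp u X) = ∫ X, Φ X ^ 4 := rfl
  -- volumes of the cells
  have hvol : ∀ x : Z3, volume.real (cell 1 x) = 1 := by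
    intro x
    have := cell_vol 1 one_pos x
    rw [one_pow] at this
    exact this
  have hconst : ∀ (x : Z3) (c : ℝ), ∫ _ in cell 1 x, c = c := by
    intro x c
    rw [setIntegral_const, hvol, one_smul]
  have hci : ∀ (x : Z3) (c : ℝ), IntegrableOn (fun _ : E3 => c) (cell 1 x) := by
    intro x c
    exact integrableOn_const (cell_vol_ne_top 1 x)
  -- disjoint cells
  have hS1 : ∑ x ∈ B, ∫ X in cell 1 x, Φ X ^ 4 ≤ ∫ X, Φ X ^ 4 := by
    rw [← integral_biUnion_finset B (fun x _ => cell_meas 1 x)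
      ((cell_disj 1 one_pos).set_pairwise _) (fun x _ => hΦ4i.integrableOn)]
    exact setIntegral_le_integral hΦ4i (Eventually.of_forall fun X => by positivity)
  -- the mean values
  have hmean : ∀ x, (1 / 8) * ∑ s : Fin 3 → Fin 2, u (x + fun i => ((s i : ℕ) : ℤ)) =
      ∫ X in cell 1 x, interp u X := fun x => (interp_cell u B hus x).symm
  have hcor := corner_est u B hus δ hδ0 B ρ
  simp_rw [hmean] at hcor
  have hm1 : ∀ x, (1 - δ) * ∫ X in cell 1 x, interp u X ≤ t + ∫ X in cell 1 x, Φ X := by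
    intro x
    rw [← integral_const_mul]
    calc ∫ X in cell 1 x, (1 - δ) * interp u X ≤ ∫ X in cell 1 x, (t + Φ X) := by
          refine setIntegral_mono_on (hii.const_mul _).integrableOn
            ((hci x t).add hΦi.integrableOn) (cell_meas 1 x) fun X _ => ?_
          have : (1 - δ) * interp u X - t ≤ Φ X := le_max_left _ _
          linarith
      _ = t + ∫ X in cell 1 x, Φ X := by
          rw [integral_add (hci x t) hΦi.integrableOn, hconst]
  -- the elementary inequality, integrated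
  have hel : ∀ x ∈ B, 2 * ρ x * (∫ X in cell 1 x, Φ X) - kap * ∫ X in cell 1 x, Φ X ^ 4 ≤
      β * ρ x ^ 2 / v x + ρ x * Real.sqrt (v x) / (2 * sk * Real.sqrt β) := by
    intro x hx
    rw [← integral_const_mul, ← integral_const_mul,
      ← integral_sub (hΦi.const_mul _).integrableOn (hΦ4i.const_mul _).integrableOn]
    rw [← hconst x (β * ρ x ^ 2 / v x + ρ x * Real.sqrt (v x) / (2 * sk * Real.sqrt β))]
    refine setIntegral_mono_on
      ((hΦi.const_mul _).integrableOn.sub (hΦ4i.const_mul _).integrableOn) (hci x _)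
      (cell_meas 1 x) fun X _ => ?_
    exact elem_ineq (ρ x) (Φ X) (v x) β (hρ x hx) (hΦ0 X) (hv x hx) hβ
  have hel2 := Finset.sum_le_sum hel
  rw [Finset.sum_sub_distrib, ← Finset.mul_sum] at hel2
  -- sums
  have hm2 : (1 - δ) * ∑ x ∈ B, 2 * ρ x * ∫ X in cell 1 x, interp u X ≤
      2 * t + ∑ x ∈ B, 2 * ρ x * ∫ X in cell 1 x, Φ X := by
    have h1 : (1 - δ) * ∑ x ∈ B, 2 * ρ x * ∫ X in cell 1 x, interp u X ≤
        ∑ x ∈ B, (2 * t * ρ x + 2 * ρ x * ∫ X in cell 1 x, Φ X) := by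
      rw [Finset.mul_sum]
      refine Finset.sum_le_sum fun x hx => ?_
      have h2 := mul_le_mul_of_nonneg_left (hm1 x) (mul_nonneg two_pos.le (hρ x hx))
      linarith
    rw [Finset.sum_add_distrib, ← Finset.mul_sum] at h1
    have h2 : 2 * t * ∑ x ∈ B, ρ x ≤ 2 * t * 1 :=
      mul_le_mul_of_nonneg_left hρ1 (by linarith)
    linarith
  have hu2 : 2 * ∑ x ∈ B, ρ x * u x = (∑ x ∈ B, 2 * ρ x * ∫ X in cell 1 x, interp u X) +
      ∑ x ∈ B, 2 * ρ x * (u x - ∫ X in cell 1 x, interp u X) := by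
    rw [← Finset.sum_add_distrib, Finset.mul_sum]
    refine Finset.sum_congr rfl fun x _ => ?_
    ring
  set M : ℝ := ∑ x ∈ B, 2 * ρ x * ∫ X in cell 1 x, interp u X with hM
  set Bd : ℝ := ∑ x ∈ B, (β * ρ x ^ 2 / v x + ρ x * Real.sqrt (v x) / (2 * sk * Real.sqrt β))
    with hBd
  have hfin : M - (1 - δ) * dirE u ≤ (1 / (1 - δ)) * Bd := by
    rw [one_div, ← div_eq_inv_mul, le_div_iff₀ hd]
    rw [hT4] at hmain
    have h1 : kap * ∑ x ∈ B, ∫ X in cell 1 x, Φ X ^ 4 ≤ kap * ∫ X, Φ X ^ 4 :=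
      mul_le_mul_of_nonneg_left hS1 hkap.le
    nlinarith
  rw [hu2]
  linarith

end CLR
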