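import Pool.Agent.CLR.Defs

/-!
# CLR row K1: comparison with the free lazy walk on `Z^3`

`kerZ δ n` is the `n`-step kernel of the walk on `Z^3` with generator step `1 - δ L`.
Nonnegative for `0 ≤ δ ≤ 1/6` (induction).
`ker_le`: induction on `n`.  `((1 - δ lapB B)^(n+1)) x y = Σ_z (1 - δ lapB B) x z ((1-δ lapB B)^n) z y`,
the entries `(1 - δ lapB B) x z` are `1 - 6δ` (`z = x`), `δ` (neighbours in `B`), `0` otherwise, and
`((..)^n) z y ≤ kerZ δ n (z - y)`; summing over the neighbours in `B` only drops nonnegative terms of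
`kerZ δ (n+1) (x - y) = (1-6δ) kerZ δ n (x-y) + δ Σ_i (kerZ δ n (x + e_i - y) + kerZ δ n (x - e_i - y))`.
-/

set_option autoImplicit false

open MeasureTheory Set Filter Topology

noncomputable section

namespace CLR

open Classical in
/-- kernel of the `n`-th power of `1 - δ L` on `Z^3` -/
def kerZ (δ : ℝ) : ℕ → Z3 → ℝ
  | 0, x => if x = 0 then 1 else 0
  | n + 1, x => (1 - 6 * δ) * kerZ δ n x + δ * ∑ i : Fin 3, (kerZ δ n (x + ez i) + kerZ δ n (x - ez i))

theorem kerZ_nonneg (δ : ℝ) (h0 : 0 ≤ δ) (h1 : δ ≤ 1 / 6) (n : ℕ) (x : Z3) : 0 ≤ kerZ δ n x := by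
  induction n generalizing x with
  | zero =>
    simp only [kerZ]
    split_ifs <;> norm_num
  | succ n ih =>
    simp only [kerZ]
    have h2 : 0 ≤ (1 - 6 * δ) := by linarith
    have h3 : 0 ≤ ∑ i : Fin 3, (kerZ δ n (x + ez i) + kerZ δ n (x - ez i)) :=
      Finset.sum_nonneg (fun i _ => add_nonneg (ih _) (ih _))
    exact add_nonneg (mul_nonneg h2 (ih x)) (mul_nonneg h0 h3)

open Classical in
theorem K1_sum_ite_le (B : Finset Z3) (a : Z3) (g : Z3 → ℝ) (hg : 0 ≤ g a) :
    ∑ z : B, (if (z : Z3) = a then g (z : Z3) else 0) ≤ g a := by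
  rw [Finset.sum_coe_sort B (fun z => if z = a then g z else 0), Finset.sum_ite_eq']
  split_ifs
  · exact le_refl _
  · exact hg

open Classical in
theorem K1_entry_nonneg (B : Finset Z3) (δ : ℝ) (h0 : 0 ≤ δ) (h1 : δ ≤ 1 / 6) (x z : B) :
    0 ≤ (1 - δ • lapB B) x z := by
  simp only [Matrix.sub_apply, Matrix.smul_apply, Matrix.one_apply, lapB, lapZ, smul_eq_mul]
  by_cases hxz : x = z
  · subst hxz
    simp
    linarith
  · have hxz' : (x : Z3) ≠ (z : Z3) := fun h => hxz (Subtype.ext h)
    rw [if_neg hxz, if_neg hxz']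
    split_ifs <;> simp [h0]

open Classical in
theorem K1_entry_le (B : Finset Z3) (δ : ℝ) (h0 : 0 ≤ δ) (f : Z3 → ℝ)
    (hf : ∀ z, 0 ≤ f z) (x z : B) :
    (1 - δ • lapB B) x z * f (z : Z3) ≤
      (if (z : Z3) = (x : Z3) then (1 - 6 * δ) * f (z : Z3) else 0) +
      ∑ i : Fin 3, ((if (z : Z3) = (x : Z3) + ez i then δ * f (z : Z3) else 0) +
        (if (z : Z3) = (x : Z3) - ez i then δ * f (z : Z3) else 0)) := by
  have hδf : 0 ≤ δ * f (z : Z3) := mul_nonneg h0 (hf _)
  have hterm : ∀ i : Fin 3, 0 ≤ ((if (z : Z3) = (x : Z3) + ez i then δ * f (z : Z3) else 0) +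
        (if (z : Z3) = (x : Z3) - ez i then δ * f (z : Z3) else 0)) := by
    intro i
    apply add_nonneg
    · split_ifs
      · exact hδf
      · exact le_refl _
    · split_ifs
      · exact hδf
      · exact le_refl _
  simp only [Matrix.sub_apply, Matrix.smul_apply, Matrix.one_apply, lapB, lapZ, smul_eq_mul]
  by_cases hxz : x = z
  · subst hxz
    have hs : 0 ≤ ∑ i : Fin 3, ((if (x : Z3) = (x : Z3) + ez i then δ * f (x : Z3) else 0) +
        (if (x : Z3) = (x : Z3) - ez i then δ * f (x : Z3) else 0)) :=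
      Finset.sum_nonneg (fun i _ => hterm i)
    rw [if_pos rfl, if_pos rfl, if_pos rfl]
    linarith
  · have hxz' : (x : Z3) ≠ (z : Z3) := fun h => hxz (Subtype.ext h)
    have hzx' : (z : Z3) ≠ (x : Z3) := fun h => hxz' h.symm
    rw [if_neg hxz, if_neg hxz', if_neg hzx']
    by_cases hadj : ∃ i : Fin 3, (x : Z3) = (z : Z3) + ez i ∨ (z : Z3) = (x : Z3) + ez i
    · rw [if_pos hadj]
      obtain ⟨i, hi⟩ := hadj
      have hle : ((if (z : Z3) = (x : Z3) + ez i then δ * f (z : Z3) else 0) +
        (if (z : Z3) = (x : Z3) - ez i then δ * f (z : Z3) else 0)) ≤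
          ∑ i : Fin 3, ((if (z : Z3) = (x : Z3) + ez i then δ * f (z : Z3) else 0) +
        (if (z : Z3) = (x : Z3) - ez i then δ * f (z : Z3) else 0)) :=
        Finset.single_le_sum (fun j _ => hterm j) (Finset.mem_univ i)
      have h2 : δ * f (z : Z3) ≤ ((if (z : Z3) = (x : Z3) + ez i then δ * f (z : Z3) else 0) +
        (if (z : Z3) = (x : Z3) - ez i then δ * f (z : Z3) else 0)) := by
        rcases hi with hi | hi
        · have h3 : (z : Z3) = (x : Z3) - ez i := by rw [hi]; simp
          rw [if_pos h3]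
          have h4 : (0 : ℝ) ≤ (if (z : Z3) = (x : Z3) + ez i then δ * f (z : Z3) else 0) := by
            split_ifs
            · exact hδf
            · exact le_refl _
          linarith
        · rw [if_pos hi]
          have h4 : (0 : ℝ) ≤ (if (z : Z3) = (x : Z3) - ez i then δ * f (z : Z3) else 0) := by
            split_ifs
            · exact hδf
            · exact le_refl _
          linarith
      have h5 : (0 - δ * (-1)) * f (z : Z3) = δ * f (z : Z3) := by ring
      rw [h5]
      linarith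
    · rw [if_neg hadj]
      have hs : 0 ≤ ∑ i : Fin 3, ((if (z : Z3) = (x : Z3) + ez i then δ * f (z : Z3) else 0) +
        (if (z : Z3) = (x : Z3) - ez i then δ * f (z : Z3) else 0)) :=
        Finset.sum_nonneg (fun i _ => hterm i)
      simpa using hs

theorem ker_le (B : Finset Z3) (δ : ℝ) (h0 : 0 ≤ δ) (h1 : δ ≤ 1 / 6) (n : ℕ) (x y : B) :
    ((1 - δ • lapB B) ^ n) x y ≤ kerZ δ n ((x : Z3) - (y : Z3)) := by
  classical
  induction n generalizing x with
  | zero =>
    simp only [pow_zero, kerZ, Matrix.one_apply]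
    by_cases hxy : x = y
    · subst hxy
      simp
    · have hxy' : (x : Z3) - (y : Z3) ≠ 0 := fun h => hxy (Subtype.ext (sub_eq_zero.mp h))
      rw [if_neg hxy, if_neg hxy']
  | succ n ih =>
    rw [pow_succ', Matrix.mul_apply]
    have hk : ∀ z : Z3, 0 ≤ kerZ δ n (z - (y : Z3)) := fun z => kerZ_nonneg δ h0 h1 n _
    have hδ6 : 0 ≤ 1 - 6 * δ := by linarith
    calc ∑ z : B, (1 - δ • lapB B) x z * ((1 - δ • lapB B) ^ n) z y
        ≤ ∑ z : B, (1 - δ • lapB B) x z * kerZ δ n ((z : Z3) - (y : Z3)) :=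
          Finset.sum_le_sum (fun z _ =>
            mul_le_mul_of_nonneg_left (ih z) (K1_entry_nonneg B δ h0 h1 x z))
      _ ≤ ∑ z : B, ((if (z : Z3) = (x : Z3) then (1 - 6 * δ) * kerZ δ n ((z : Z3) - (y : Z3)) else 0) +
          ∑ i : Fin 3, ((if (z : Z3) = (x : Z3) + ez i then δ * kerZ δ n ((z : Z3) - (y : Z3)) else 0) +
          (if (z : Z3) = (x : Z3) - ez i then δ * kerZ δ n ((z : Z3) - (y : Z3)) else 0))) :=
          Finset.sum_le_sum (fun z _ =>
            K1_entry_le B δ h0 (fun z => kerZ δ n (z - (y : Z3))) hk x z)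
      _ = (∑ z : B, (if (z : Z3) = (x : Z3) then (1 - 6 * δ) * kerZ δ n ((z : Z3) - (y : Z3)) else 0)) +
          ∑ i : Fin 3, ((∑ z : B, (if (z : Z3) = (x : Z3) + ez i then
              δ * kerZ δ n ((z : Z3) - (y : Z3)) else 0)) +
            ∑ z : B, (if (z : Z3) = (x : Z3) - ez i then
              δ * kerZ δ n ((z : Z3) - (y : Z3)) else 0)) := by
          rw [Finset.sum_add_distrib, Finset.sum_comm]
          simp only [Finset.sum_add_distrib]
      _ ≤ (1 - 6 * δ) * kerZ δ n ((x : Z3) - (y : Z3)) +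
          ∑ i : Fin 3, (δ * kerZ δ n ((x : Z3) + ez i - (y : Z3)) +
            δ * kerZ δ n ((x : Z3) - ez i - (y : Z3))) := by
          apply add_le_add
          · exact K1_sum_ite_le B (x : Z3) (fun z => (1 - 6 * δ) * kerZ δ n (z - (y : Z3)))
              (mul_nonneg hδ6 (hk _))
          · apply Finset.sum_le_sum
            intro i _
            apply add_le_add
            · exact K1_sum_ite_le B ((x : Z3) + ez i) (fun z => δ * kerZ δ n (z - (y : Z3)))
                (mul_nonneg h0 (hk _))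
            · exact K1_sum_ite_le B ((x : Z3) - ez i) (fun z => δ * kerZ δ n (z - (y : Z3)))
                (mul_nonneg h0 (hk _))
      _ = kerZ δ (n + 1) ((x : Z3) - (y : Z3)) := by
          simp only [kerZ, Finset.mul_sum, mul_add]
          congr 1
          apply Finset.sum_congr rfl
          intro i _
          have e1 : (x : Z3) + ez i - (y : Z3) = (x : Z3) - (y : Z3) + ez i := by abel
          have e2 : (x : Z3) - ez i - (y : Z3) = (x : Z3) - (y : Z3) - ez i := by abel
          rw [e1, e2]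

end CLR
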