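import Pool.Agent.CLR.K1

/-!
# CLR row K2: Fourier bound for the kernel at the origin

Let `Q = [-π,π]^3 ⊂ (Fin 3 → ℝ)` (`Set.pi univ (fun _ => Icc (-π) π)` or `Icc`), `p(θ) = 1 - 2δ Σ_i (1 - cos θ_i)`.
Claim: `kerZ δ n x = (2π)^{-3} ∫_Q p(θ)^n cos(Σ θ_i x_i) dθ` for all `x`.  Induction: `n = 0`: the integral
of `cos(Σ θ_i x_i)` over `Q` is `(2π)^3` if `x = 0`, else `0` (expand
`cos(α+β+γ)`, or take the real part of `Π ∫ e^{iθ x_i}`); step:
`cos(θ·(x+e_i)) + cos(θ·(x-e_i)) = 2 cos θ_i cos(θ·x)`.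
For `0 ≤ δ ≤ 1/12`: `0 ≤ p(θ) ≤ exp(-2δ Σ (1 - cos θ_i))`, so at `x = 0`
`kerZ δ n 0 ≤ (2π)^{-3} ∫_Q exp(-2 n δ Σ (1 - cos θ_i)) = (k1 (n δ))^3` (Fubini for products,
`MeasureTheory.integral_fintype_prod_eq_pow`).
-/

set_option autoImplicit false

open MeasureTheory Set Filter Topology

noncomputable section

namespace CLR

/-- one dimensional heat kernel on the diagonal -/
def k1 (τ : ℝ) : ℝ :=
  (1 / (2 * Real.pi)) * ∫ θ in (-Real.pi)..Real.pi, Real.exp (-(2 * τ * (1 - Real.cos θ)))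

/-- the product measure on the cube -/
def k2_mu : Measure (Fin 3 → ℝ) :=
  Measure.pi fun _ => volume.restrict (Ioc (-Real.pi) Real.pi)

/-- the symbol -/
def k2_p (δ : ℝ) (θ : Fin 3 → ℝ) : ℝ := 1 - 2 * δ * ∑ i, (1 - Real.cos (θ i))

/-- the characters -/
def k2_e (x : Z3) (θ : Fin 3 → ℝ) : ℂ :=
  Complex.exp (((∑ i, θ i * (x i : ℝ) : ℝ) : ℂ) * Complex.I)

instance k2_fin : IsFiniteMeasure k2_mu := by
  unfold k2_mu
  infer_instance

theorem k2_p_cont (δ : ℝ) : Continuous (k2_p δ) := by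
  unfold k2_p
  fun_prop

theorem k2_e_cont (x : Z3) : Continuous (k2_e x) := by
  unfold k2_e
  fun_prop

theorem k2_e_norm (x : Z3) (θ : Fin 3 → ℝ) : ‖k2_e x θ‖ = 1 := by
  unfold k2_e
  exact Complex.norm_exp_ofReal_mul_I _

theorem k2_p_le (δ : ℝ) (h0 : 0 ≤ δ) (θ : Fin 3 → ℝ) : k2_p δ θ ≤ 1 := by
  unfold k2_p
  have h : 0 ≤ ∑ i, (1 - Real.cos (θ i)) :=
    Finset.sum_nonneg fun i _ => by linarith [Real.cos_le_one (θ i)]
  have := mul_nonneg (mul_nonneg (by norm_num : (0 : ℝ) ≤ 2) h0) h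
  linarith

theorem k2_p_nonneg (δ : ℝ) (h0 : 0 ≤ δ) (h1 : δ ≤ 1 / 12) (θ : Fin 3 → ℝ) : 0 ≤ k2_p δ θ := by
  unfold k2_p
  have h : ∑ i, (1 - Real.cos (θ i)) ≤ ∑ _i : Fin 3, (2 : ℝ) :=
    Finset.sum_le_sum fun i _ => by linarith [Real.neg_one_le_cos (θ i)]
  have h2 : ∑ _i : Fin 3, (2 : ℝ) = 6 := by norm_num
  rw [h2] at h
  have h3 := mul_le_mul_of_nonneg_left h (mul_nonneg (by norm_num : (0 : ℝ) ≤ 2) h0)
  linarith

theorem k2_int (δ : ℝ) (h0 : 0 ≤ δ) (h1 : δ ≤ 1 / 12) (n : ℕ) (x : Z3) :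
    Integrable (fun θ => ((k2_p δ θ ^ n : ℝ) : ℂ) * k2_e x θ) k2_mu := by
  refine Integrable.of_bound (C := 1) ?_ ?_
  · apply Continuous.aestronglyMeasurable
    have h2 := k2_p_cont δ
    have h3 := k2_e_cont x
    fun_prop
  · refine Filter.Eventually.of_forall fun θ => ?_
    rw [norm_mul, k2_e_norm, mul_one, Complex.norm_real, Real.norm_eq_abs, abs_of_nonneg
      (pow_nonneg (k2_p_nonneg δ h0 h1 θ) n)]
    exact pow_le_one₀ (k2_p_nonneg δ h0 h1 θ) (k2_p_le δ h0 θ)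

theorem k2_e_add (x : Z3) (i : Fin 3) (θ : Fin 3 → ℝ) :
    k2_e (x + ez i) θ + k2_e (x - ez i) θ = ((2 * Real.cos (θ i) : ℝ) : ℂ) * k2_e x θ := by
  have hs : ∑ j, θ j * (((ez i) j : ℤ) : ℝ) = θ i := by
    rw [Finset.sum_eq_single i]
    · simp [ez]
    · intro j _ hj
      simp [ez, hj]
    · intro h
      exact absurd (Finset.mem_univ i) h
  have h1 : ∑ j, θ j * (((x + ez i) j : ℤ) : ℝ) = ∑ j, θ j * ((x j : ℤ) : ℝ) + θ i := by
    rw [← hs, ← Finset.sum_add_distrib]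
    refine Finset.sum_congr rfl fun j _ => ?_
    rw [Pi.add_apply]
    push_cast
    ring
  have h2 : ∑ j, θ j * (((x - ez i) j : ℤ) : ℝ) = ∑ j, θ j * ((x j : ℤ) : ℝ) - θ i := by
    rw [← hs, ← Finset.sum_sub_distrib]
    refine Finset.sum_congr rfl fun j _ => ?_
    rw [Pi.sub_apply]
    push_cast
    ring
  unfold k2_e
  rw [h1, h2]
  push_cast
  rw [Complex.two_cos, add_mul, sub_mul, Complex.exp_add, Complex.exp_sub, neg_mul,
    Complex.exp_neg]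
  ring

theorem k2_one (k : ℤ) : ∫ t in Ioc (-Real.pi) Real.pi,
    Complex.exp (((t * (k : ℝ) : ℝ) : ℂ) * Complex.I) = if k = 0 then ((2 * Real.pi : ℝ) : ℂ) else 0 := by
  rw [← intervalIntegral.integral_of_le (by linarith [Real.pi_pos])]
  by_cases hk : k = 0
  · subst hk
    simp
    ring
  · rw [if_neg hk]
    have hc : (k : ℂ) * Complex.I ≠ 0 := by
      refine mul_ne_zero ?_ Complex.I_ne_zero
      exact_mod_cast hk
    have h1 : ∀ t : ℝ, Complex.exp (((t * (k : ℝ) : ℝ) : ℂ) * Complex.I) =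
        Complex.exp ((k : ℂ) * Complex.I * (t : ℂ)) := by
      intro t
      congr 1
      push_cast
      ring
    simp only [h1]
    rw [integral_exp_mul_complex hc]
    have h2 : Complex.exp ((k : ℂ) * Complex.I * ((Real.pi : ℝ) : ℂ)) =
        Complex.exp ((k : ℂ) * Complex.I * ((-Real.pi : ℝ) : ℂ)) := by
      have h3 : (k : ℂ) * Complex.I * ((Real.pi : ℝ) : ℂ) =
          (k : ℂ) * Complex.I * ((-Real.pi : ℝ) : ℂ) + (k : ℂ) * (2 * (Real.pi : ℂ) * Complex.I) := by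
        push_cast
        ring
      rw [h3, Complex.exp_add, Complex.exp_int_mul_two_pi_mul_I, mul_one]
    rw [h2, sub_self, zero_div]

theorem k2_zero (x : Z3) : ∫ θ, k2_e x θ ∂k2_mu =
    ((2 * Real.pi : ℝ) : ℂ) ^ 3 * (if x = 0 then 1 else 0) := by
  have h1 : ∀ θ : Fin 3 → ℝ, k2_e x θ =
      ∏ i, Complex.exp (((θ i * (x i : ℝ) : ℝ) : ℂ) * Complex.I) := by
    intro θ
    unfold k2_e
    rw [← Complex.exp_sum]
    congr 1
    push_cast
    rw [Finset.sum_mul]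
  simp only [h1]
  unfold k2_mu
  rw [MeasureTheory.integral_fintype_prod_eq_prod (𝕜 := ℂ)
    (fun i (t : ℝ) => Complex.exp (((t * (x i : ℝ) : ℝ) : ℂ) * Complex.I))]
  simp only [k2_one]
  by_cases hx : x = 0
  · subst hx
    simp
  · rw [if_neg hx, mul_zero]
    have h2 : ∃ i, x i ≠ 0 := by
      by_contra hno
      push Not at hno
      exact hx (funext hno)
    obtain ⟨i, hi⟩ := h2
    exact Finset.prod_eq_zero (Finset.mem_univ i) (if_neg hi)

theorem k2_J (δ : ℝ) (h0 : 0 ≤ δ) (h1 : δ ≤ 1 / 12) (n : ℕ) (x : Z3) :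
    ∫ θ, ((k2_p δ θ ^ n : ℝ) : ℂ) * k2_e x θ ∂k2_mu =
      ((2 * Real.pi : ℝ) : ℂ) ^ 3 * ((kerZ δ n x : ℝ) : ℂ) := by
  induction n generalizing x with
  | zero =>
    simp only [pow_zero, Complex.ofReal_one, one_mul, kerZ]
    rw [k2_zero]
    split_ifs <;> simp
  | succ n ih =>
    have hpt : ∀ θ, ((k2_p δ θ ^ (n + 1) : ℝ) : ℂ) * k2_e x θ =
        (((1 - 6 * δ : ℝ) : ℂ)) * (((k2_p δ θ ^ n : ℝ) : ℂ) * k2_e x θ) +
        ((δ : ℝ) : ℂ) * ∑ i, (((k2_p δ θ ^ n : ℝ) : ℂ) * k2_e (x + ez i) θ +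
          ((k2_p δ θ ^ n : ℝ) : ℂ) * k2_e (x - ez i) θ) := by
      intro θ
      have h2 : ∀ i, ((k2_p δ θ ^ n : ℝ) : ℂ) * k2_e (x + ez i) θ +
          ((k2_p δ θ ^ n : ℝ) : ℂ) * k2_e (x - ez i) θ =
          ((k2_p δ θ ^ n : ℝ) : ℂ) * k2_e x θ * ((2 * Real.cos (θ i) : ℝ) : ℂ) := by
        intro i
        rw [← mul_add, k2_e_add]
        ring
      simp only [h2]
      rw [← Finset.mul_sum]
      have h3 : k2_p δ θ = (1 - 6 * δ) + δ * ∑ i, 2 * Real.cos (θ i) := by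
        unfold k2_p
        rw [Finset.sum_sub_distrib, ← Finset.mul_sum]
        simp
        ring
      have h4 : ((k2_p δ θ : ℝ) : ℂ) = ((1 - 6 * δ : ℝ) : ℂ) +
          ((δ : ℝ) : ℂ) * ∑ i, ((2 * Real.cos (θ i) : ℝ) : ℂ) := by
        rw [← Complex.ofReal_sum, ← Complex.ofReal_mul, ← Complex.ofReal_add, ← h3]
      rw [pow_succ, Complex.ofReal_mul, h4]
      ring
    simp only [hpt]
    have hi := fun y => k2_int δ h0 h1 n y
    have hadd : ∀ i : Fin 3, Integrable (fun θ => ((k2_p δ θ ^ n : ℝ) : ℂ) * k2_e (x + ez i) θ +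
          ((k2_p δ θ ^ n : ℝ) : ℂ) * k2_e (x - ez i) θ) k2_mu := fun i => (hi _).add (hi _)
    have hsum : Integrable (fun θ => ∑ i : Fin 3, (((k2_p δ θ ^ n : ℝ) : ℂ) * k2_e (x + ez i) θ +
          ((k2_p δ θ ^ n : ℝ) : ℂ) * k2_e (x - ez i) θ)) k2_mu :=
      integrable_finsetSum _ fun i _ => hadd i
    rw [integral_add ((hi x).const_mul _) (hsum.const_mul _), integral_const_mul,
      integral_const_mul, integral_finsetSum _ fun i _ => hadd i]
    have h5 : ∀ i, ∫ θ, (((k2_p δ θ ^ n : ℝ) : ℂ) * k2_e (x + ez i) θ +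
          ((k2_p δ θ ^ n : ℝ) : ℂ) * k2_e (x - ez i) θ) ∂k2_mu =
        ((2 * Real.pi : ℝ) : ℂ) ^ 3 * ((kerZ δ n (x + ez i) : ℝ) : ℂ) +
        ((2 * Real.pi : ℝ) : ℂ) ^ 3 * ((kerZ δ n (x - ez i) : ℝ) : ℂ) := by
      intro i
      rw [integral_add (hi _) (hi _), ih, ih]
    rw [Finset.sum_congr rfl fun i _ => h5 i, ih, kerZ]
    push_cast
    simp only [← mul_add]
    rw [← Finset.mul_sum]
    ring


theorem kerZ_zero_le (δ : ℝ) (h0 : 0 ≤ δ) (h1 : δ ≤ 1 / 12) (n : ℕ) :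
    kerZ δ n 0 ≤ (k1 (n * δ)) ^ 3 := by
  have h2 : ∫ θ, k2_p δ θ ^ n ∂k2_mu = (2 * Real.pi) ^ 3 * kerZ δ n 0 := by
    have h3 := k2_J δ h0 h1 n 0
    have h4 : ∀ θ, ((k2_p δ θ ^ n : ℝ) : ℂ) * k2_e 0 θ = ((k2_p δ θ ^ n : ℝ) : ℂ) := by
      intro θ
      have h5 : k2_e 0 θ = 1 := by
        unfold k2_e
        simp
      rw [h5, mul_one]
    simp only [h4] at h3
    rw [integral_complex_ofReal] at h3
    exact_mod_cast h3
  have h3 : ∫ θ, k2_p δ θ ^ n ∂k2_mu ≤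
      ∫ θ, ∏ i : Fin 3, Real.exp (-(2 * (n * δ) * (1 - Real.cos (θ i)))) ∂k2_mu := by
    refine integral_mono ?_ ?_ ?_
    · refine Integrable.of_bound (C := 1) ?_ ?_
      · apply Continuous.aestronglyMeasurable
        have := k2_p_cont δ
        fun_prop
      · refine Filter.Eventually.of_forall fun θ => ?_
        rw [Real.norm_eq_abs, abs_of_nonneg (pow_nonneg (k2_p_nonneg δ h0 h1 θ) n)]
        exact pow_le_one₀ (k2_p_nonneg δ h0 h1 θ) (k2_p_le δ h0 θ)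
    · refine Integrable.of_bound (C := 1) ?_ ?_
      · apply Continuous.aestronglyMeasurable
        fun_prop
      · refine Filter.Eventually.of_forall fun θ => ?_
        rw [Real.norm_eq_abs, abs_of_nonneg (Finset.prod_nonneg fun i _ => (Real.exp_pos _).le)]
        refine Finset.prod_le_one (fun i _ => (Real.exp_pos _).le) fun i _ => ?_
        rw [Real.exp_le_one_iff]
        have := Real.cos_le_one (θ i)
        have h5 : 0 ≤ 2 * (n * δ) * (1 - Real.cos (θ i)) := by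
          apply mul_nonneg
          · positivity
          · linarith
        linarith
    · intro θ
      show k2_p δ θ ^ n ≤ ∏ i : Fin 3, Real.exp (-(2 * (n * δ) * (1 - Real.cos (θ i))))
      rw [← Real.exp_sum]
      have h5 : k2_p δ θ ≤ Real.exp (-(2 * δ * ∑ i, (1 - Real.cos (θ i)))) := by
        unfold k2_p
        have := Real.add_one_le_exp (-(2 * δ * ∑ i, (1 - Real.cos (θ i))))
        linarith
      have h6 : ∑ i : Fin 3, -(2 * (n * δ) * (1 - Real.cos (θ i))) =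
          (n : ℝ) * (-(2 * δ * ∑ i, (1 - Real.cos (θ i)))) := by
        rw [Finset.sum_neg_distrib, ← Finset.mul_sum]
        ring
      rw [h6, Real.exp_nat_mul]
      exact pow_le_pow_left₀ (k2_p_nonneg δ h0 h1 θ) h5 n
  have h4 : ∫ θ, ∏ i : Fin 3, Real.exp (-(2 * (n * δ) * (1 - Real.cos (θ i)))) ∂k2_mu =
      (2 * Real.pi * k1 (n * δ)) ^ 3 := by
    unfold k2_mu
    rw [MeasureTheory.integral_fintype_prod_eq_prod (𝕜 := ℝ)
      (fun _ (t : ℝ) => Real.exp (-(2 * (n * δ) * (1 - Real.cos t))))]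
    have h5 : ∫ t in Ioc (-Real.pi) Real.pi, Real.exp (-(2 * (n * δ) * (1 - Real.cos t))) =
        2 * Real.pi * k1 (n * δ) := by
      unfold k1
      rw [intervalIntegral.integral_of_le (by linarith [Real.pi_pos])]
      have := Real.pi_pos.ne'
      field_simp
    rw [h5]
    simp
  have h6 : (2 * Real.pi * k1 (n * δ)) ^ 3 = (2 * Real.pi) ^ 3 * (k1 (n * δ)) ^ 3 := by ring
  rw [h2, h4, h6] at h3
  have h5 : 0 < (2 * Real.pi) ^ 3 := by positivity
  exact le_of_mul_le_mul_left h3 h5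

end CLR
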