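import Pool.Agent.CLR.Defs

/-!
# CLR row L1: traces as sums over loops

`loopW P ω = Π_{i : Fin (n+1)} P (ω i) (ω (i+1))` (index addition in `Fin (n+1)`, cyclic).
(i) For `j = 0`: `(diagonal g * (P * diagonal f)^(n+1)) x x = g x * Σ_{x_1..x_n} P x x_1 f x_1 P x_1 x_2 f x_2
⋯ P x_n x f x`; prove by induction the path formula
`((P * diagonal f)^(n+1)) x y = Σ_{ω : Fin n → ι} P x (ω 0) f(ω 0) ⋯` or any convenient form (e.g. sum over
`ω : Fin (n+2) → ι` with fixed end points), then close up the path.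
(ii) General `j`: the bijection `ω ↦ (i ↦ ω (i + j))` of `Fin (n+1) → ι` preserves `loopW P ω` and
`Π f (ω i)` (`Equiv.prod_comp` with `Equiv.addRight j`), so the sum does not depend on `j`.
-/

set_option autoImplicit false

open MeasureTheory Set Filter Topology

noncomputable section

namespace CLR

variable {ι : Type} [Fintype ι] [DecidableEq ι]

/-- powers as sums over paths -/
theorem l1_path (Q : Matrix ι ι ℝ) (n : ℕ) : ∀ x y : ι, (Q ^ (n + 1)) x y =
    ∑ τ : Fin n → ι, (∏ i : Fin n, Q ((Fin.cons x τ : Fin (n + 1) → ι) i.castSucc)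
      ((Fin.cons x τ : Fin (n + 1) → ι) i.succ)) *
        Q ((Fin.cons x τ : Fin (n + 1) → ι) (Fin.last n)) y := by
  induction n with
  | zero =>
    intro x y
    simp
  | succ n ih =>
    intro x y
    rw [pow_succ', Matrix.mul_apply]
    simp only [ih]
    rw [← (Fin.consEquiv (fun _ : Fin (n + 1) => ι)).sum_comp, Fintype.sum_prod_type]
    refine Finset.sum_congr rfl fun z _ => ?_
    rw [Finset.mul_sum]
    refine Finset.sum_congr rfl fun τ _ => ?_
    rw [Fin.prod_univ_succ]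
    have h1 : (Fin.cons x ((Fin.consEquiv (fun _ : Fin (n + 1) => ι)) (z, τ)) : Fin (n + 2) → ι)
        (Fin.last (n + 1)) = (Fin.cons z τ : Fin (n + 1) → ι) (Fin.last n) := by
      rw [← Fin.succ_last, Fin.cons_succ]
      rfl
    rw [h1]
    have h2 : ∀ i : Fin n, (Fin.cons x ((Fin.consEquiv (fun _ : Fin (n + 1) => ι)) (z, τ)) :
        Fin (n + 2) → ι) (Fin.succ i).castSucc = (Fin.cons z τ : Fin (n + 1) → ι) i.castSucc := by
      intro i
      rw [← Fin.succ_castSucc, Fin.cons_succ]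
      rfl
    have h3 : ∀ i : Fin (n + 1), (Fin.cons x ((Fin.consEquiv (fun _ : Fin (n + 1) => ι)) (z, τ)) :
        Fin (n + 2) → ι) i.succ = (Fin.cons z τ : Fin (n + 1) → ι) i := by
      intro i
      rw [Fin.cons_succ]
      rfl
    simp only [h2, h3]
    have h4 : (Fin.cons x ((Fin.consEquiv (fun _ : Fin (n + 1) => ι)) (z, τ)) :
        Fin (n + 2) → ι) (Fin.castSucc 0) = x := rfl
    have h5 : (Fin.cons z τ : Fin (n + 1) → ι) 0 = z := rfl
    rw [h4, h5, mul_assoc]

theorem l1_loopW (Q : Matrix ι ι ℝ) (n : ℕ) (ω : Fin (n + 1) → ι) :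
    loopW Q ω = (∏ i : Fin n, Q (ω i.castSucc) (ω i.succ)) * Q (ω (Fin.last n)) (ω 0) := by
  unfold loopW
  rw [Fin.prod_univ_castSucc]
  congr 1
  · refine Finset.prod_congr rfl fun i _ => ?_
    rw [Fin.coeSucc_eq_succ]
  · rw [Fin.last_add_one]

theorem l1_shift (Q : Matrix ι ι ℝ) (g : ι → ℝ) (n : ℕ) (j : Fin (n + 1)) :
    ∑ ω : Fin (n + 1) → ι, loopW Q ω * g (ω j) = ∑ ω : Fin (n + 1) → ι, loopW Q ω * g (ω 0) := by
  rw [← (Equiv.arrowCongr (Equiv.addRight j) (Equiv.refl ι)).sum_comp]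
  refine Finset.sum_congr rfl fun ω _ => ?_
  have h1 : ∀ i, (Equiv.arrowCongr (Equiv.addRight j) (Equiv.refl ι)) ω i = ω (i - j) := by
    intro i
    simp [Equiv.arrowCongr, sub_eq_add_neg]
  have h2 : loopW Q ((Equiv.arrowCongr (Equiv.addRight j) (Equiv.refl ι)) ω) = loopW Q ω := by
    unfold loopW
    simp only [h1]
    rw [← Equiv.prod_comp (Equiv.addRight j)]
    refine Finset.prod_congr rfl fun i _ => ?_
    simp only [Equiv.coe_addRight]
    congr 2
    · abel
    · abel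
  rw [h2, h1]
  simp

theorem loops_trace (P : Matrix ι ι ℝ) (f g : ι → ℝ) (n : ℕ) (j : Fin (n + 1)) :
    ∑ ω : Fin (n + 1) → ι, loopW P ω * (∏ i, f (ω i)) * g (ω j) =
      (Matrix.diagonal g * (P * Matrix.diagonal f) ^ (n + 1)).trace := by
  have h1 : ∀ ω : Fin (n + 1) → ι, loopW P ω * (∏ i, f (ω i)) =
      loopW (P * Matrix.diagonal f) ω := by
    intro ω
    unfold loopW
    rw [← Equiv.prod_comp (Equiv.addRight (1 : Fin (n + 1))) (fun i => f (ω i)),
      ← Finset.prod_mul_distrib]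
    refine Finset.prod_congr rfl fun i _ => ?_
    rw [Matrix.mul_diagonal]
    rfl
  simp only [h1]
  rw [l1_shift, ← (Fin.consEquiv (fun _ : Fin (n + 1) => ι)).sum_comp, Fintype.sum_prod_type,
    Matrix.trace]
  refine Finset.sum_congr rfl fun x _ => ?_
  rw [Matrix.diag_apply, Matrix.diagonal_mul, l1_path, Finset.mul_sum]
  refine Finset.sum_congr rfl fun τ _ => ?_
  rw [l1_loopW]
  have h2 : (Fin.consEquiv (fun _ : Fin (n + 1) => ι)) (x, τ) = (Fin.cons x τ : Fin (n + 1) → ι) :=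
    rfl
  rw [h2, Fin.cons_zero]
  ring

end CLR
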