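import Pool.Agent.CLR.L1

/-!
# CLR row L2: Jensen's inequality for loops, and the exponential functionals

`loops_jensen`: put `S = δ Σ_i v (ω i) ≥ 0`, `N = n+1`.  `S * max (1 - a/S) 0 = max (S - a) 0` if `S > 0`;
if `S = 0` the left term is `0` (and `max (S-a) 0 = 0`, `a > 0`).  Convexity:
`max (S - a) 0 = max ((1/N) Σ_i (N δ v(ω i) - a)) 0 ≤ (1/N) Σ_i max (N δ v (ω i) - a) 0`; multiply by
`loopW ≥ 0`, sum over `ω`, and use `loops_trace` with `f = 1`, `g = max (N δ v - a) 0`: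
each `j` contributes `Tr(diag g P^N) = Σ_x g x (P^N) x x`.

`loops_exp`: `exp(-(m S)) = Π_i exp(-(m δ v(ω i)))`, `S = Σ_j δ v (ω j)`, use `loops_trace` for every `j`
with `f x = exp(-(m δ v x))`, `g = v`.
-/

set_option autoImplicit false

open MeasureTheory Set Filter Topology

noncomputable section

namespace CLR

variable {ι : Type} [Fintype ι] [DecidableEq ι]

omit [Fintype ι] [DecidableEq ι] in
private theorem l2_loopW_nonneg (P : Matrix ι ι ℝ) (hP : ∀ x y, 0 ≤ P x y) {n : ℕ}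
    (ω : Fin (n + 1) → ι) : 0 ≤ loopW P ω :=
  Finset.prod_nonneg fun _ _ => hP _ _

private theorem l2_point (v : ι → ℝ) (hv : ∀ x, 0 ≤ v x)
    (δ a : ℝ) (hδ : 0 ≤ δ) (ha : 0 < a) (n : ℕ) (ω : Fin (n + 1) → ι) :
    ((δ * ∑ i, v (ω i)) / (n + 1)) * max (1 - a / (δ * ∑ i, v (ω i))) 0 ≤
      (1 / ((n : ℝ) + 1)) * ∑ j : Fin (n + 1),
        (1 / ((n : ℝ) + 1) * max (((n : ℝ) + 1) * δ * v (ω j) - a) 0) := by
  have hN : (0 : ℝ) < (n : ℝ) + 1 := by positivity
  have hS0 : 0 ≤ δ * ∑ i, v (ω i) := mul_nonneg hδ (Finset.sum_nonneg fun i _ => hv _)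
  have hrhs : 0 ≤ ∑ j : Fin (n + 1), max (((n : ℝ) + 1) * δ * v (ω j) - a) 0 :=
    Finset.sum_nonneg fun j _ => le_max_right _ _
  have hkey : (δ * ∑ i, v (ω i)) * max (1 - a / (δ * ∑ i, v (ω i))) 0 ≤
      (1 / ((n : ℝ) + 1)) * ∑ j : Fin (n + 1), max (((n : ℝ) + 1) * δ * v (ω j) - a) 0 := by
    rcases hS0.eq_or_lt with h0 | hpos
    · rw [← h0, zero_mul]
      positivity
    · rw [mul_max_of_nonneg _ _ hS0, mul_zero]
      have e1 : (δ * ∑ i, v (ω i)) * (1 - a / (δ * ∑ i, v (ω i))) = δ * ∑ i, v (ω i) - a := by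
        rw [mul_sub, mul_one, mul_div_cancel₀ _ hpos.ne']
      rw [e1]
      apply max_le
      · have e2 : δ * ∑ i, v (ω i) - a =
            (1 / ((n : ℝ) + 1)) * ∑ j : Fin (n + 1), (((n : ℝ) + 1) * δ * v (ω j) - a) := by
          rw [Finset.sum_sub_distrib, ← Finset.mul_sum]
          simp only [Finset.sum_const, Finset.card_univ, Fintype.card_fin, nsmul_eq_mul]
          push_cast
          field_simp
        rw [e2]
        exact mul_le_mul_of_nonneg_left
          (Finset.sum_le_sum fun j _ => le_max_left _ _) (by positivity)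
      · positivity
  rw [← Finset.mul_sum]
  calc ((δ * ∑ i, v (ω i)) / (n + 1)) * max (1 - a / (δ * ∑ i, v (ω i))) 0
      = (1 / ((n : ℝ) + 1)) *
        ((δ * ∑ i, v (ω i)) * max (1 - a / (δ * ∑ i, v (ω i))) 0) := by ring
    _ ≤ _ := mul_le_mul_of_nonneg_left hkey (by positivity)

theorem loops_jensen (P : Matrix ι ι ℝ) (hP : ∀ x y, 0 ≤ P x y) (v : ι → ℝ) (hv : ∀ x, 0 ≤ v x)
    (δ a : ℝ) (hδ : 0 ≤ δ) (ha : 0 < a) (n : ℕ) :
    ∑ ω : Fin (n + 1) → ι, loopW P ω * ((δ * ∑ i, v (ω i)) / (n + 1)) *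
        max (1 - a / (δ * ∑ i, v (ω i))) 0 ≤
      ∑ x, (P ^ (n + 1)) x x * (1 / (n + 1) * max ((n + 1) * δ * v x - a) 0) := by
  have hN : (0 : ℝ) < (n : ℝ) + 1 := by positivity
  set g : ι → ℝ := fun x => 1 / ((n : ℝ) + 1) * max (((n : ℝ) + 1) * δ * v x - a) 0 with hg
  have hj : ∀ j : Fin (n + 1), ∑ ω : Fin (n + 1) → ι, loopW P ω * g (ω j) =
      ∑ x, (P ^ (n + 1)) x x * g x := by
    intro j
    have h := loops_trace P (fun _ => 1) g n j
    simp only [Finset.prod_const_one, mul_one] at h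
    rw [h]
    have hone : (Matrix.diagonal (fun _ : ι => (1 : ℝ))) = 1 := Matrix.diagonal_one
    rw [hone, Matrix.mul_one]
    simp only [Matrix.trace, Matrix.diag, Matrix.diagonal_mul]
    exact Finset.sum_congr rfl fun x _ => mul_comm _ _
  calc ∑ ω : Fin (n + 1) → ι, loopW P ω * ((δ * ∑ i, v (ω i)) / (n + 1)) *
        max (1 - a / (δ * ∑ i, v (ω i))) 0
      ≤ ∑ ω : Fin (n + 1) → ι, loopW P ω * ((1 / ((n : ℝ) + 1)) * ∑ j : Fin (n + 1), g (ω j)) := by
        apply Finset.sum_le_sum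
        intro ω _
        rw [mul_assoc]
        exact mul_le_mul_of_nonneg_left (l2_point v hv δ a hδ ha n ω) (l2_loopW_nonneg P hP ω)
    _ = (1 / ((n : ℝ) + 1)) * ∑ j : Fin (n + 1), ∑ ω : Fin (n + 1) → ι, loopW P ω * g (ω j) := by
        rw [Finset.sum_comm, Finset.mul_sum]
        apply Finset.sum_congr rfl
        intro ω _
        rw [Finset.mul_sum, Finset.mul_sum, Finset.mul_sum]
        apply Finset.sum_congr rfl
        intro j _
        ring
    _ = (1 / ((n : ℝ) + 1)) * ∑ j : Fin (n + 1), ∑ x, (P ^ (n + 1)) x x * g x := by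
        simp only [hj]
    _ = ∑ x, (P ^ (n + 1)) x x * g x := by
        rw [Finset.sum_const, Finset.card_univ, Fintype.card_fin, nsmul_eq_mul]
        push_cast
        field_simp

theorem loops_exp (P : Matrix ι ι ℝ) (v : ι → ℝ) (δ m : ℝ) (n : ℕ) :
    ∑ ω : Fin (n + 1) → ι, loopW P ω * ((δ * ∑ i, v (ω i)) / (n + 1)) *
        Real.exp (-(m * (δ * ∑ i, v (ω i)))) =
      δ * (Matrix.diagonal v *
        (P * Matrix.diagonal (fun x => Real.exp (-(m * (δ * v x))))) ^ (n + 1)).trace := by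
  have hN : (0 : ℝ) < (n : ℝ) + 1 := by positivity
  set f : ι → ℝ := fun x => Real.exp (-(m * (δ * v x))) with hf
  have hexp : ∀ ω : Fin (n + 1) → ι, Real.exp (-(m * (δ * ∑ i, v (ω i)))) = ∏ i, f (ω i) := by
    intro ω
    rw [hf, ← Real.exp_sum]
    congr 1
    rw [Finset.mul_sum, Finset.mul_sum, ← Finset.sum_neg_distrib]
  calc ∑ ω : Fin (n + 1) → ι, loopW P ω * ((δ * ∑ i, v (ω i)) / (n + 1)) *
        Real.exp (-(m * (δ * ∑ i, v (ω i))))
      = (δ / ((n : ℝ) + 1)) * ∑ j : Fin (n + 1), ∑ ω : Fin (n + 1) → ι,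
          loopW P ω * (∏ i, f (ω i)) * v (ω j) := by
        rw [Finset.sum_comm, Finset.mul_sum]
        apply Finset.sum_congr rfl
        intro ω _
        rw [hexp ω, ← Finset.mul_sum]
        ring
    _ = (δ / ((n : ℝ) + 1)) * ∑ j : Fin (n + 1),
          (Matrix.diagonal v * (P * Matrix.diagonal f) ^ (n + 1)).trace := by
        congr 1
        exact Finset.sum_congr rfl fun j _ => loops_trace P f v n j
    _ = _ := by
        rw [Finset.sum_const, Finset.card_univ, Fintype.card_fin, nsmul_eq_mul]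
        push_cast
        field_simp

end CLR
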