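import Pool.Agent.CLR.Defs

/-!
# CLR row M0: matrix facts

`spec`: `Matrix.IsHermitian.spectral_theorem` (real case, `U` the eigenvector matrix).
`Hm_posDef`: `Hm A v = D^{-1/2} A D^{-1/2}`; quadratic form at `x` is the form of `A` at `x/√v`.
`inv_nonneg`: (inverse positivity of a symmetric positive definite matrix with nonpositive
off-diagonal entries).  Let `A u = ρ ≥ 0`; with `u⁻ = max (-u) 0`, `u⁺ = max u 0`:
`0 ≤ ⟨u⁻, ρ⟩ = ⟨u⁻, A u⁺⟩ - ⟨u⁻, A u⁻⟩`, and `⟨u⁻, A u⁺⟩ ≤ 0` (disjoint supports, off-diagonal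
entries `≤ 0`), so `⟨u⁻, A u⁻⟩ ≤ 0`, `u⁻ = 0`.  Apply with `ρ` = basis vectors (columns of `A⁻¹`).
`trace_res`: `D (A + m D)⁻¹ = D^{1/2} (H + m)⁻¹ D^{-1/2}`, `H = Hm A v`; trace is similarity
invariant; `(H+m)⁻¹ = U diag(1/(E+m)) Uᵀ`.
-/

set_option autoImplicit false

open MeasureTheory Set Filter Topology

noncomputable section

namespace CLR

variable {ι : Type} [Fintype ι] [DecidableEq ι]

theorem spec (H : Matrix ι ι ℝ) (hH : H.IsHermitian) :
    ∃ U : Matrix ι ι ℝ, U * U.transpose = 1 ∧ U.transpose * U = 1 ∧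
      H = U * Matrix.diagonal hH.eigenvalues * U.transpose := by
  have h1 : (hH.eigenvectorUnitary : Matrix ι ι ℝ) *
      star (hH.eigenvectorUnitary : Matrix ι ι ℝ) = 1 :=
    Unitary.coe_mul_star_self hH.eigenvectorUnitary
  have h2 : star (hH.eigenvectorUnitary : Matrix ι ι ℝ) *
      (hH.eigenvectorUnitary : Matrix ι ι ℝ) = 1 :=
    Unitary.coe_star_mul_self hH.eigenvectorUnitary
  rw [Matrix.star_eq_conjTranspose, Matrix.conjTranspose_eq_transpose_of_trivial] at h1 h2
  refine ⟨(hH.eigenvectorUnitary : Matrix ι ι ℝ), h1, h2, ?_⟩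
  conv_lhs => rw [hH.spectral_theorem, Unitary.conjStarAlgAut_apply]
  rw [Matrix.star_eq_conjTranspose, Matrix.conjTranspose_eq_transpose_of_trivial]
  rfl

private theorem m0_hm (A : Matrix ι ι ℝ) (v : ι → ℝ) :
    Hm A v = Matrix.diagonal (fun x => 1 / Real.sqrt (v x)) * A *
      Matrix.diagonal (fun x => 1 / Real.sqrt (v x)) := by
  ext x y
  rw [Matrix.mul_diagonal, Matrix.diagonal_mul]
  simp only [Hm]
  field_simp

theorem Hm_posDef (A : Matrix ι ι ℝ) (hA : A.PosDef) (v : ι → ℝ) (hv : ∀ x, 0 < v x) :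
    (Hm A v).PosDef := by
  have hs : ∀ x, 0 < Real.sqrt (v x) := fun x => Real.sqrt_pos.mpr (hv x)
  have hinj : Function.Injective
      (Matrix.diagonal (fun x => 1 / Real.sqrt (v x)) : Matrix ι ι ℝ).mulVec := by
    intro a b hab
    funext x
    have := congrFun hab x
    rw [Matrix.mulVec_diagonal, Matrix.mulVec_diagonal] at this
    have h1 : (1 / Real.sqrt (v x)) ≠ 0 := by
      have := hs x
      positivity
    exact mul_left_cancel₀ h1 this
  have h := hA.conjTranspose_mul_mul_same hinj
  rw [m0_hm]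
  have ht : (Matrix.diagonal (fun x => 1 / Real.sqrt (v x)) : Matrix ι ι ℝ).conjTranspose =
      Matrix.diagonal (fun x => 1 / Real.sqrt (v x)) := by
    rw [Matrix.conjTranspose_eq_transpose_of_trivial, Matrix.diagonal_transpose]
  rwa [ht] at h

theorem inv_nonneg (A : Matrix ι ι ℝ) (hA : A.PosDef) (hoff : ∀ x y, x ≠ y → A x y ≤ 0) (x y : ι) :
    0 ≤ A⁻¹ x y := by
  have hdet : IsUnit A.det := (Matrix.isUnit_iff_isUnit_det A).mp hA.isUnit
  set u : ι → ℝ := fun z => A⁻¹ z y with hu
  set p : ι → ℝ := fun z => max (u z) 0 with hp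
  set q : ι → ℝ := fun z => max (-u z) 0 with hq
  have hpq : ∀ z, u z = p z - q z := by
    intro z
    simp only [hp, hq]
    rcases le_total 0 (u z) with h | h
    · rw [max_eq_left h, max_eq_right (by linarith)]
      ring
    · rw [max_eq_right h, max_eq_left (by linarith)]
      ring
  have hp0 : ∀ z, 0 ≤ p z := fun z => le_max_right _ _
  have hq0 : ∀ z, 0 ≤ q z := fun z => le_max_right _ _
  have hpq0 : ∀ z, q z * p z = 0 := by
    intro z
    simp only [hp, hq]
    rcases le_total 0 (u z) with h | h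
    · rw [max_eq_right (a := -u z) (by linarith)]
      ring
    · rw [max_eq_right (a := u z) h]
      ring
  have hAu : ∀ z, ∑ w, A z w * u w = if z = y then 1 else 0 := by
    intro z
    have h1 : (A * A⁻¹) z y = (1 : Matrix ι ι ℝ) z y := by
      rw [Matrix.mul_nonsing_inv A hdet]
    rw [Matrix.mul_apply, Matrix.one_apply] at h1
    exact h1
  by_cases hz : q = 0
  · have h2 := hpq x
    rw [hz] at h2
    have h3 := hp0 x
    change 0 ≤ u x
    rw [h2]
    simpa using h3
  · exfalso
    have hpos := hA.dotProduct_mulVec_pos hz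
    have h1 : star q ⬝ᵥ (A.mulVec q) = ∑ z, ∑ w, q z * (A z w * q w) := by
      simp only [dotProduct, Matrix.mulVec, Pi.star_apply, star_trivial, Finset.mul_sum]
    have h2 : ∑ z, ∑ w, q z * (A z w * p w) ≤ 0 := by
      refine Finset.sum_nonpos fun z _ => Finset.sum_nonpos fun w _ => ?_
      by_cases hzw : z = w
      · subst hzw
        have h := hpq0 z
        have h' : q z * (A z z * p z) = A z z * (q z * p z) := by ring
        rw [h', h, mul_zero]
      · have h3 := hoff z w hzw
        have h4 : 0 ≤ q z * p w := mul_nonneg (hq0 z) (hp0 w)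
        have h5 : q z * (A z w * p w) = A z w * (q z * p w) := by ring
        rw [h5]
        exact mul_nonpos_of_nonpos_of_nonneg h3 h4
    have h3 : ∑ z, ∑ w, q z * (A z w * u w) = q y := by
      have h4 : ∀ z, ∑ w, q z * (A z w * u w) = if z = y then q z else 0 := by
        intro z
        rw [← Finset.mul_sum, hAu z]
        split_ifs <;> ring
      rw [Finset.sum_congr rfl fun z _ => h4 z]
      simp
    have h5 : ∑ z, ∑ w, q z * (A z w * q w) =
        ∑ z, ∑ w, q z * (A z w * p w) - ∑ z, ∑ w, q z * (A z w * u w) := by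
      rw [← Finset.sum_sub_distrib]
      refine Finset.sum_congr rfl fun z _ => ?_
      rw [← Finset.sum_sub_distrib]
      refine Finset.sum_congr rfl fun w _ => ?_
      rw [hpq w]
      ring
    rw [h1, h5, h3] at hpos
    have := hq0 y
    linarith

theorem trace_res (A : Matrix ι ι ℝ) (hA : A.PosDef) (v : ι → ℝ) (hv : ∀ x, 0 < v x)
    (hH : (Hm A v).IsHermitian) (m : ℝ) (hm : 0 ≤ m) :
    (Matrix.diagonal v * (A + m • Matrix.diagonal v)⁻¹).trace = ∑ j, 1 / (hH.eigenvalues j + m) := by
  obtain ⟨U, hU1, hU2, hU3⟩ := spec (Hm A v) hH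
  have hs : ∀ x, 0 < Real.sqrt (v x) := fun x => Real.sqrt_pos.mpr (hv x)
  have hE : ∀ j, 0 < hH.eigenvalues j := fun j => (Hm_posDef A hA v hv).eigenvalues_pos j
  set S : Matrix ι ι ℝ := Matrix.diagonal (fun x => Real.sqrt (v x)) with hS
  set T : Matrix ι ι ℝ := Matrix.diagonal (fun x => 1 / Real.sqrt (v x)) with hT
  set F : Matrix ι ι ℝ := Matrix.diagonal hH.eigenvalues with hF
  set G : Matrix ι ι ℝ := Matrix.diagonal (fun j => 1 / (hH.eigenvalues j + m)) with hG
  have hST : S * T = 1 := by
    rw [hS, hT, Matrix.diagonal_mul_diagonal, ← Matrix.diagonal_one]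
    congr 1
    funext x
    have := hs x
    field_simp
  have hTS : T * S = 1 := by
    rw [hS, hT, Matrix.diagonal_mul_diagonal, ← Matrix.diagonal_one]
    congr 1
    funext x
    have := hs x
    field_simp
  have hSS : S * S = Matrix.diagonal v := by
    rw [hS, Matrix.diagonal_mul_diagonal]
    congr 1
    funext x
    exact Real.mul_self_sqrt (hv x).le
  have hAS : A = S * Hm A v * S := by
    rw [m0_hm, ← hT]
    calc A = (S * T) * A * (T * S) := by rw [hST, hTS, one_mul, mul_one]
      _ = S * (T * A * T) * S := by simp only [mul_assoc]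
  have hFG : (F + m • (1 : Matrix ι ι ℝ)) * G = 1 := by
    have h1 : F + m • (1 : Matrix ι ι ℝ) = Matrix.diagonal (fun j => hH.eigenvalues j + m) := by
      rw [hF, ← Matrix.diagonal_one, ← Matrix.diagonal_smul, Matrix.diagonal_add]
      congr 1
      funext j
      simp
    rw [h1, hG, Matrix.diagonal_mul_diagonal, ← Matrix.diagonal_one]
    congr 1
    funext j
    have := hE j
    have h2 : hH.eigenvalues j + m ≠ 0 := by linarith
    field_simp
  have hinv : (A + m • Matrix.diagonal v) * (T * (U * G * U.transpose) * T) = 1 := by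
    have h1 : A + m • Matrix.diagonal v =
        S * (U * (F + m • (1 : Matrix ι ι ℝ)) * U.transpose) * S := by
      conv_lhs => rw [hAS, hU3]
      rw [← hSS, Matrix.mul_add U, Matrix.add_mul, Matrix.mul_add S, Matrix.add_mul]
      congr 1
      rw [Matrix.mul_smul, Matrix.smul_mul, Matrix.mul_smul, Matrix.smul_mul, mul_one, hU1, mul_one]
    rw [h1]
    calc S * (U * (F + m • (1 : Matrix ι ι ℝ)) * U.transpose) * S *
          (T * (U * G * U.transpose) * T)
        = S * (U * (F + m • (1 : Matrix ι ι ℝ)) * (U.transpose * ((S * T) * U)) *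
          G * U.transpose) * T := by simp only [mul_assoc]
      _ = S * (U * ((F + m • (1 : Matrix ι ι ℝ)) * G) * U.transpose) * T := by
          rw [hST, one_mul, hU2, mul_one]
          simp only [mul_assoc]
      _ = 1 := by rw [hFG, mul_one, hU1, mul_one, hST]
  rw [Matrix.inv_eq_right_inv hinv, ← hSS]
  have h2 : S * S * (T * (U * G * U.transpose) * T) = S * (U * G * U.transpose) * T := by
    calc S * S * (T * (U * G * U.transpose) * T)
        = S * (S * T) * (U * G * U.transpose) * T := by simp only [mul_assoc]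
      _ = S * (U * G * U.transpose) * T := by rw [hST, mul_one]
  rw [h2, Matrix.trace_mul_comm, ← mul_assoc, hTS, one_mul, Matrix.trace_mul_comm, ← mul_assoc,
    hU2, one_mul, hG, Matrix.trace_diagonal]

end CLR
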