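import Pool.Agent.CLR.L2
import Pool.Agent.CLR.M0

/-!
# CLR row L3: summing over the length of the loops

Let `P ≥ 0` entrywise, `P` symmetric positive semidefinite, `1 - P` positive definite (so all
eigenvalues of `P` are in `[0,1)`), `f x = exp(-(m δ v x)) ∈ (0,1]`, `Q = P * diagonal f`.
(1) `Σ_n (P^n) x y` converges absolutely: `P^n = U diag(p^n) Uᵀ` with `0 ≤ p_j < 1`.
(2) `0 ≤ (Q^n) x y ≤ (P^n) x y` (induction), so `Σ_n Q^n` converges entrywise; if `T = Σ_{n ≥ 0} Q^n` then
`(1 - Q) T = 1`, so `T = (1-Q)⁻¹` and `Σ_{n≥0} Q^{n+1} = Q (1-Q)⁻¹`.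
(3) Hence `HasSum (n ↦ δ Tr(diag v Q^{n+1})) (δ Tr(diag v (Q (1-Q)⁻¹)))`, and use `loops_exp`.
`lam_summable`: if `0 ≤ g ≤ 1` on `[0,∞)`, the terms of `Lam P v δ g` are dominated by those for `g = 1`
(`m = 0` in (3)); all loop weights and `S` are nonnegative.
-/

set_option autoImplicit false

open MeasureTheory Set Filter Topology

noncomputable section

namespace CLR

variable {ι : Type} [Fintype ι] [DecidableEq ι]

theorem l3_pow_spec (U : Matrix ι ι ℝ) (p : ι → ℝ) (h2 : U.transpose * U = 1) (h1 : U * U.transpose = 1) (n : ℕ) :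
    (U * Matrix.diagonal p * U.transpose) ^ n = U * Matrix.diagonal (fun j => p j ^ n) * U.transpose := by
  induction n with
  | zero =>
    rw [pow_zero]
    simp only [pow_zero]
    rw [Matrix.diagonal_one, mul_one, h1]
  | succ n ih =>
    rw [pow_succ, ih]
    calc U * Matrix.diagonal (fun j => p j ^ n) * U.transpose * (U * Matrix.diagonal p * U.transpose)
        = U * Matrix.diagonal (fun j => p j ^ n) * (U.transpose * U) * Matrix.diagonal p * U.transpose := by
          simp only [mul_assoc]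
      _ = U * (Matrix.diagonal (fun j => p j ^ n) * Matrix.diagonal p) * U.transpose := by
          rw [h2, mul_one, mul_assoc U]
      _ = _ := by
          rw [Matrix.diagonal_mul_diagonal]
          simp only [pow_succ]

theorem l3_summable_pow (P : Matrix ι ι ℝ) (hPs : P.PosSemidef) (hP1 : (1 - P).PosDef) (x y : ι) :
    Summable (fun n : ℕ => (P ^ n) x y) := by
  obtain ⟨U, h1, h2, hU⟩ := spec P hPs.1
  have hp0 : ∀ j, 0 ≤ hPs.1.eigenvalues j := fun j => hPs.eigenvalues_nonneg j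
  have hp1 : ∀ j, hPs.1.eigenvalues j < 1 := by
    intro j
    have hinj : Function.Injective U.mulVec := by
      intro a b hab
      have h3 : U.transpose.mulVec (U.mulVec a) = U.transpose.mulVec (U.mulVec b) := by rw [hab]
      rw [Matrix.mulVec_mulVec, Matrix.mulVec_mulVec, h2, Matrix.one_mulVec, Matrix.one_mulVec] at h3
      exact h3
    have h4 := hP1.conjTranspose_mul_mul_same hinj
    have h5 : U.conjTranspose * (1 - P) * U = Matrix.diagonal (fun j => 1 - hPs.1.eigenvalues j) := by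
      have h6 : U.conjTranspose = U.transpose := by
        ext a b
        simp [Matrix.conjTranspose_apply]
      rw [h6]
      conv_lhs => rw [hU]
      rw [mul_sub, sub_mul, mul_one, h2]
      have h7 : U.transpose * (U * Matrix.diagonal hPs.1.eigenvalues * U.transpose) * U =
          (U.transpose * U) * Matrix.diagonal hPs.1.eigenvalues * (U.transpose * U) := by
        simp only [mul_assoc]
      rw [h7, h2, one_mul, mul_one, ← Matrix.diagonal_one, ← Matrix.diagonal_sub]
    rw [h5, Matrix.posDef_diagonal_iff] at h4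
    have := h4 j
    linarith
  have h3 : ∀ n : ℕ, (P ^ n) x y = ∑ j, U x j * hPs.1.eigenvalues j ^ n * U y j := by
    intro n
    conv_lhs => rw [hU]
    rw [l3_pow_spec U _ h2 h1 n, Matrix.mul_apply]
    refine Finset.sum_congr rfl fun j _ => ?_
    rw [Matrix.mul_diagonal, Matrix.transpose_apply]
  simp only [h3]
  apply summable_sum
  intro j _
  apply Summable.mul_right
  apply Summable.mul_left
  exact summable_geometric_of_lt_one (hp0 j) (hp1 j)

theorem l3_pow_nonneg (P : Matrix ι ι ℝ) (hP : ∀ x y, 0 ≤ P x y) (n : ℕ) (x y : ι) : 0 ≤ (P ^ n) x y := by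
  induction n generalizing x y with
  | zero =>
    rw [pow_zero, Matrix.one_apply]
    split_ifs <;> norm_num
  | succ n ih =>
    rw [pow_succ, Matrix.mul_apply]
    exact Finset.sum_nonneg fun j _ => mul_nonneg (ih x j) (hP j y)

theorem l3_pow_le (Q P : Matrix ι ι ℝ) (hQ : ∀ x y, 0 ≤ Q x y) (hQP : ∀ x y, Q x y ≤ P x y) (n : ℕ) (x y : ι) :
    (Q ^ n) x y ≤ (P ^ n) x y := by
  induction n generalizing x y with
  | zero => rw [pow_zero, pow_zero]
  | succ n ih =>
    rw [pow_succ, pow_succ, Matrix.mul_apply, Matrix.mul_apply]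
    refine Finset.sum_le_sum fun j _ => ?_
    exact mul_le_mul (ih x j) (hQP j y) (hQ j y)
      (l3_pow_nonneg P (fun a b => (hQ a b).trans (hQP a b)) n x j)

theorem l3_hasSum (P : Matrix ι ι ℝ) (hPs : P.PosSemidef)
    (hP1 : (1 - P).PosDef) (Q : Matrix ι ι ℝ) (hQ : ∀ x y, 0 ≤ Q x y) (hQP : ∀ x y, Q x y ≤ P x y) :
    HasSum (fun n : ℕ => Q ^ (n + 1)) (Q * (1 - Q)⁻¹) := by
  have h1 : Summable (fun n : ℕ => Q ^ n) := by
    refine Pi.summable.2 fun x => Pi.summable.2 fun y => ?_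
    exact Summable.of_nonneg_of_le (fun n => l3_pow_nonneg Q hQ n x y)
      (fun n => l3_pow_le Q P hQ hQP n x y) (l3_summable_pow P hPs hP1 x y)
  obtain ⟨T, hT⟩ := h1
  have h2 : HasSum (fun n : ℕ => Q * Q ^ n) (Q * T) := hT.mul_left Q
  have h3 : HasSum (fun n : ℕ => Q ^ (n + 1)) (Q * T) := by
    simpa only [← pow_succ'] using h2
  have h4 : HasSum (fun n : ℕ => Q ^ (n + 1)) (T - 1) := by
    have := (hasSum_nat_add_iff' 1).2 hT
    simpa using this
  have h5 : Q * T = T - 1 := h3.unique h4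
  have h6 : (1 - Q) * T = 1 := by
    rw [sub_mul, one_mul, h5, sub_sub_cancel]
  rw [Matrix.inv_eq_right_inv h6]
  exact h3

theorem lam_exp (P : Matrix ι ι ℝ) (hP : ∀ x y, 0 ≤ P x y) (hPs : P.PosSemidef)
    (hP1 : (1 - P).PosDef) (v : ι → ℝ) (hv : ∀ x, 0 ≤ v x) (δ m : ℝ) (hδ : 0 ≤ δ) (hm : 0 ≤ m) :
    HasSum (fun n : ℕ => ∑ ω : Fin (n + 1) → ι, loopW P ω * ((δ * ∑ i, v (ω i)) / (n + 1)) *
        Real.exp (-(m * (δ * ∑ i, v (ω i)))))
      (δ * (Matrix.diagonal v *
        (P * Matrix.diagonal (fun x => Real.exp (-(m * (δ * v x))))) *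
        (1 - P * Matrix.diagonal (fun x => Real.exp (-(m * (δ * v x)))))⁻¹).trace) := by
  have h1 := l3_hasSum P hPs hP1 (P * Matrix.diagonal (fun x => Real.exp (-(m * (δ * v x)))))
    (by
      intro x y
      rw [Matrix.mul_diagonal]
      exact mul_nonneg (hP x y) (Real.exp_pos _).le)
    (by
      intro x y
      rw [Matrix.mul_diagonal]
      refine mul_le_of_le_one_right (hP x y) ?_
      apply Real.exp_le_one_iff.2
      have := mul_nonneg hm (mul_nonneg hδ (hv y))
      linarith)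
  have h2 := ((h1.mul_left (Matrix.diagonal v)).map (Matrix.traceAddMonoidHom ι ℝ)
    (Continuous.matrix_trace continuous_id)).mul_left δ
  rw [mul_assoc]
  simp only [loops_exp]
  exact h2

theorem lam_summable (P : Matrix ι ι ℝ) (hP : ∀ x y, 0 ≤ P x y) (hPs : P.PosSemidef)
    (hP1 : (1 - P).PosDef) (v : ι → ℝ) (hv : ∀ x, 0 ≤ v x) (δ : ℝ) (hδ : 0 ≤ δ)
    (g : ℝ → ℝ) (C : ℝ) (hg : ∀ s, 0 ≤ s → |g s| ≤ C) :
    Summable (fun n : ℕ => ∑ ω : Fin (n + 1) → ι, loopW P ω * ((δ * ∑ i, v (ω i)) / (n + 1)) *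
        g (δ * ∑ i, v (ω i))) := by
  have h1 := ((lam_exp P hP hPs hP1 v hv δ 0 hδ le_rfl).summable).mul_left C
  refine Summable.of_norm_bounded h1 fun n => ?_
  rw [Finset.mul_sum]
  refine (norm_sum_le _ _).trans (Finset.sum_le_sum fun ω _ => ?_)
  have hS : 0 ≤ δ * ∑ i, v (ω i) := mul_nonneg hδ (Finset.sum_nonneg fun i _ => hv _)
  have hW : 0 ≤ loopW P ω := Finset.prod_nonneg fun i _ => hP _ _
  have hWS : 0 ≤ loopW P ω * ((δ * ∑ i, v (ω i)) / (n + 1)) :=
    mul_nonneg hW (div_nonneg hS (by positivity))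
  rw [norm_mul, Real.norm_of_nonneg hWS, zero_mul, neg_zero, Real.exp_zero, mul_one, mul_comm C]
  exact mul_le_mul_of_nonneg_left (hg _ hS) hWS

end CLR
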