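import Pool.Agent.CLR.L3
import Pool.Agent.CLR.M0

/-!
# CLR row L4: the limit `δ → 0` of the exponential functionals

`step_small`: for `A` positive definite with nonpositive off-diagonal entries, for all small `δ > 0` the
matrix `P = 1 - δ A` has nonnegative entries, is positive semidefinite, and `1 - P = δ A` is positive
definite.  (Positive semidefinite: `δ * (largest eigenvalue) ≤ 1`; e.g. via `spec`.)

`lam_exp_lim`: with `Q δ = (1 - δ A) diag(exp(-m δ v))`,
`δ (1 - Q δ)⁻¹ = ((1 - Q δ)/δ)⁻¹`, and `(1 - Q δ)/δ → A + m diag v` entrywise as `δ → 0+`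
(`(1 - e^{-mδv})/δ → m v`); `A + m diag v` is positive definite, hence invertible, and inversion is
continuous there (`Matrix.inv_def`, `det`, `adjugate` are polynomials).  Also `Q δ → 1`.  So
`δ Tr(diag v * Q (1-Q)⁻¹) → Tr(diag v (A + m diag v)⁻¹) = Σ 1/(E_j + m)` (`trace_res`).
By `lam_exp` the value of `Lam (1 - δ A) v δ (exp(-m ·))` is this trace for small `δ`.
-/

set_option autoImplicit false

open MeasureTheory Set Filter Topology

noncomputable section

namespace CLR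

variable {ι : Type} [Fintype ι] [DecidableEq ι]

theorem l4_ev_lt (c : ℝ) : ∀ᶠ δ in 𝓝[>] (0 : ℝ), δ * c < 1 := by
  have h : Tendsto (fun δ : ℝ => δ * c) (𝓝[>] 0) (𝓝 (0 * c)) :=
    ((continuous_id.mul continuous_const).tendsto 0).mono_left nhdsWithin_le_nhds
  rw [zero_mul] at h
  exact h.eventually (gt_mem_nhds one_pos)

theorem step_small (A : Matrix ι ι ℝ) (hA : A.PosDef) (hoff : ∀ x y, x ≠ y → A x y ≤ 0) :
    ∀ᶠ δ in 𝓝[>] (0 : ℝ), (∀ x y, 0 ≤ (1 - δ • A) x y) ∧ (1 - δ • A).PosSemidef ∧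
      (1 - (1 - δ • A)).PosDef := by
  obtain ⟨U, hU1, hU2, hU3⟩ := spec A hA.isHermitian
  have h1 : ∀ᶠ δ in 𝓝[>] (0 : ℝ), ∀ x, δ * A x x < 1 :=
    eventually_all.2 fun x => l4_ev_lt _
  have h2 : ∀ᶠ δ in 𝓝[>] (0 : ℝ), ∀ j, δ * hA.isHermitian.eigenvalues j < 1 :=
    eventually_all.2 fun x => l4_ev_lt _
  have h3 : ∀ᶠ δ in 𝓝[>] (0 : ℝ), (0 : ℝ) < δ := self_mem_nhdsWithin
  filter_upwards [h1, h2, h3] with δ h1 h2 h3
  refine ⟨?_, ?_, ?_⟩
  · intro x y
    rw [Matrix.sub_apply, Matrix.smul_apply, smul_eq_mul]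
    by_cases hxy : x = y
    · subst hxy
      rw [Matrix.one_apply_eq]
      linarith [h1 x]
    · rw [Matrix.one_apply_ne hxy]
      have := mul_nonneg h3.le (neg_nonneg.2 (hoff x y hxy))
      linarith
  · have h4 : (1 - δ • A) =
        U * Matrix.diagonal (fun j => 1 - δ * hA.isHermitian.eigenvalues j) * U.transpose := by
      have h5 : Matrix.diagonal (fun j => 1 - δ * hA.isHermitian.eigenvalues j)
          = 1 - δ • Matrix.diagonal hA.isHermitian.eigenvalues := by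
        rw [← Matrix.diagonal_smul, ← Matrix.diagonal_one, Matrix.diagonal_sub]
        congr 1
      rw [h5, Matrix.mul_sub, Matrix.sub_mul, Matrix.mul_one, hU1, Matrix.mul_smul,
        Matrix.smul_mul, ← hU3]
    rw [h4]
    have h6 : (Matrix.diagonal (fun j => 1 - δ * hA.isHermitian.eigenvalues j)).PosSemidef := by
      rw [Matrix.posSemidef_diagonal_iff]
      intro j
      linarith [h2 j]
    have h7 := h6.mul_mul_conjTranspose_same U
    rwa [Matrix.conjTranspose_eq_transpose_of_trivial] at h7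
  · rw [sub_sub_cancel]
    exact hA.smul h3

/-- `(1 - e^{-m δ v})/δ → m v` -/
theorem l4_exp_lim (m v : ℝ) :
    Tendsto (fun δ : ℝ => δ⁻¹ * (1 - Real.exp (-(m * (δ * v))))) (𝓝[>] 0) (𝓝 (m * v)) := by
  have h1 : HasDerivAt (fun δ : ℝ => Real.exp (-(m * (δ * v))))
      (Real.exp (-(m * ((0 : ℝ) * v))) * (-(m * (1 * v)))) 0 := by
    exact ((((hasDerivAt_id (0 : ℝ)).mul_const v).const_mul m).neg).exp
  have h2 : HasDerivAt (fun δ : ℝ => Real.exp (-(m * (δ * v)))) (-(m * v)) 0 := by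
    have : Real.exp (-(m * ((0 : ℝ) * v))) * (-(m * (1 * v))) = -(m * v) := by simp
    rw [this] at h1
    exact h1
  rw [hasDerivAt_iff_tendsto_slope_zero] at h2
  have h3 := (h2.neg).mono_left (nhdsWithin_mono (0 : ℝ) (fun x (hx : x ∈ Ioi (0 : ℝ)) =>
    (show x ∈ ({0}ᶜ : Set ℝ) from ne_of_gt hx)))
  rw [neg_neg] at h3
  refine h3.congr ?_
  intro δ
  simp only [zero_add, zero_mul, mul_zero, neg_zero, Real.exp_zero, smul_eq_mul]
  ring

theorem l4_inv_tendsto {α : Type} {l : Filter α} {M : α → Matrix ι ι ℝ} {N : Matrix ι ι ℝ}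
    (hM : Tendsto M l (𝓝 N)) (hN : N.det ≠ 0) : Tendsto (fun a => (M a)⁻¹) l (𝓝 N⁻¹) := by
  have hdet : Tendsto (fun a => (M a).det) l (𝓝 N.det) :=
    ((Continuous.matrix_det continuous_id).tendsto N).comp hM
  have hadj : Tendsto (fun a => (M a).adjugate) l (𝓝 N.adjugate) :=
    ((Continuous.matrix_adjugate continuous_id).tendsto N).comp hM
  have h := (hdet.inv₀ hN).smul hadj
  rw [Matrix.inv_def, Ring.inverse_eq_inv']
  refine h.congr ?_
  intro a
  rw [Matrix.inv_def, Ring.inverse_eq_inv']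

/-- the scaled matrix `(1 - Q δ)/δ` -/
def l4_M (A : Matrix ι ι ℝ) (v : ι → ℝ) (m δ : ℝ) : Matrix ι ι ℝ :=
  δ⁻¹ • (1 - (1 - δ • A) * Matrix.diagonal (fun x => Real.exp (-(m * (δ * v x)))))

omit [Fintype ι] in
theorem l4_F_lim (v : ι → ℝ) (m : ℝ) :
    Tendsto (fun δ : ℝ => (Matrix.diagonal (fun x => Real.exp (-(m * (δ * v x)))) : Matrix ι ι ℝ))
      (𝓝[>] 0) (𝓝 1) := by
  have h1 : Continuous (fun δ : ℝ =>
      (Matrix.diagonal (fun x => Real.exp (-(m * (δ * v x)))) : Matrix ι ι ℝ)) := by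
    apply Continuous.matrix_diagonal
    fun_prop
  have h2 := (h1.tendsto 0).mono_left (nhdsWithin_le_nhds (s := Ioi (0 : ℝ)))
  have h3 : (Matrix.diagonal (fun x => Real.exp (-(m * ((0 : ℝ) * v x)))) : Matrix ι ι ℝ) = 1 := by
    simp
  rwa [h3] at h2

theorem l4_M_lim (A : Matrix ι ι ℝ) (v : ι → ℝ) (m : ℝ) :
    Tendsto (l4_M A v m) (𝓝[>] 0) (𝓝 (A + m • Matrix.diagonal v)) := by
  have hF := l4_F_lim v m
  have hD : Tendsto (fun δ : ℝ => (Matrix.diagonal
      (fun x => δ⁻¹ * (1 - Real.exp (-(m * (δ * v x))))) : Matrix ι ι ℝ))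
      (𝓝[>] 0) (𝓝 (m • Matrix.diagonal v)) := by
    have h1 : Tendsto (fun δ : ℝ => (fun x => δ⁻¹ * (1 - Real.exp (-(m * (δ * v x)))) : ι → ℝ))
        (𝓝[>] 0) (𝓝 (fun x => m * v x)) := by
      rw [tendsto_pi_nhds]
      intro x
      exact l4_exp_lim m (v x)
    have h2 : Continuous (fun w : ι → ℝ => (Matrix.diagonal w : Matrix ι ι ℝ)) :=
      Continuous.matrix_diagonal continuous_id
    have h3 := (h2.tendsto _).comp h1
    have h4 : (Matrix.diagonal (fun x => m * v x) : Matrix ι ι ℝ) = m • Matrix.diagonal v := by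
      rw [← Matrix.diagonal_smul]; rfl
    rw [h4] at h3
    exact h3
  have h5 := (hF.const_mul A).add hD
  rw [Matrix.mul_one] at h5
  refine h5.congr' ?_
  filter_upwards [self_mem_nhdsWithin] with δ hδ
  have hδ0 : δ ≠ 0 := ne_of_gt hδ
  unfold l4_M
  rw [Matrix.sub_mul, Matrix.one_mul, ← sub_add, smul_add, Matrix.smul_mul, smul_smul,
    inv_mul_cancel₀ hδ0, one_smul, add_comm]
  congr 1
  rw [← Matrix.diagonal_one, Matrix.diagonal_sub, ← Matrix.diagonal_smul]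
  rfl

theorem lam_exp_lim (A : Matrix ι ι ℝ) (hA : A.PosDef) (hoff : ∀ x y, x ≠ y → A x y ≤ 0)
    (v : ι → ℝ) (hv : ∀ x, 0 < v x) (hH : (Hm A v).IsHermitian) (m : ℝ) (hm : 0 ≤ m) :
    Tendsto (fun δ : ℝ => Lam (1 - δ • A) v δ (fun s => Real.exp (-(m * s)))) (𝓝[>] 0)
      (𝓝 (∑ j, 1 / (hH.eigenvalues j + m))) := by
  have hpd : (A + m • Matrix.diagonal v).PosDef := by
    refine hA.add_posSemidef ?_
    have : (Matrix.diagonal v).PosSemidef := by
      rw [Matrix.posSemidef_diagonal_iff]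
      exact fun x => (hv x).le
    exact this.smul hm
  have hdet : (A + m • Matrix.diagonal v).det ≠ 0 := hpd.det_pos.ne'
  have hM := l4_M_lim A v m
  have hMi := l4_inv_tendsto hM hdet
  have hF := l4_F_lim v m
  have hP : Tendsto (fun δ : ℝ => (1 - δ • A : Matrix ι ι ℝ)) (𝓝[>] 0) (𝓝 1) := by
    have h1 : Continuous (fun δ : ℝ => (1 - δ • A : Matrix ι ι ℝ)) := by fun_prop
    have h2 := (h1.tendsto 0).mono_left (nhdsWithin_le_nhds (s := Ioi (0 : ℝ)))
    simpa using h2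
  have hQ : Tendsto (fun δ : ℝ => (1 - δ • A) *
      Matrix.diagonal (fun x => Real.exp (-(m * (δ * v x))))) (𝓝[>] 0)
      (𝓝 (1 : Matrix ι ι ℝ)) := by
    have := hP.mul hF
    rwa [Matrix.mul_one] at this
  have hT : Tendsto (fun δ : ℝ => (Matrix.diagonal v * ((1 - δ • A) *
      Matrix.diagonal (fun x => Real.exp (-(m * (δ * v x))))) * (l4_M A v m δ)⁻¹).trace) (𝓝[>] 0)
      (𝓝 (∑ j, 1 / (hH.eigenvalues j + m))) := by
    rw [← trace_res A hA v hv hH m hm]
    have h1 := (hQ.const_mul (Matrix.diagonal v)).mul hMi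
    rw [Matrix.mul_one] at h1
    exact ((Continuous.matrix_trace continuous_id).tendsto _).comp h1
  refine hT.congr' ?_
  have hdet' : ∀ᶠ δ in 𝓝[>] (0 : ℝ), (l4_M A v m δ).det ≠ 0 := by
    have h1 : Tendsto (fun δ => (l4_M A v m δ).det) (𝓝[>] 0)
        (𝓝 (A + m • Matrix.diagonal v).det) :=
      ((Continuous.matrix_det continuous_id).tendsto _).comp hM
    exact h1.eventually_ne hdet
  have hpos : ∀ᶠ δ in 𝓝[>] (0 : ℝ), (0 : ℝ) < δ := self_mem_nhdsWithin
  filter_upwards [step_small A hA hoff, hdet', hpos] with δ hst hd hδ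
  obtain ⟨hP1, hP2, hP3⟩ := hst
  have hsum := lam_exp (1 - δ • A) hP1 hP2 hP3 v (fun x => (hv x).le) δ m hδ.le hm
  have hlam : Lam (1 - δ • A) v δ (fun s => Real.exp (-(m * s))) = _ := hsum.tsum_eq
  rw [hlam]
  have hinv : (1 - (1 - δ • A) * Matrix.diagonal (fun x => Real.exp (-(m * (δ * v x)))))⁻¹
      = δ⁻¹ • (l4_M A v m δ)⁻¹ := by
    have h1 : (1 - (1 - δ • A) * Matrix.diagonal (fun x => Real.exp (-(m * (δ * v x)))))
        = δ • l4_M A v m δ := by
      unfold l4_M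
      rw [smul_smul, mul_inv_cancel₀ hδ.ne', one_smul]
    rw [h1]
    apply Matrix.inv_eq_right_inv
    rw [Matrix.smul_mul, Matrix.mul_smul, smul_smul, mul_inv_cancel₀ hδ.ne', one_smul,
      Matrix.mul_nonsing_inv _ (Ne.isUnit hd)]
  rw [hinv, Matrix.mul_smul, Matrix.trace_smul, smul_eq_mul, mul_inv_cancel_left₀ hδ.ne']

end CLR
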