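import Mathlib

/-!
# CLR row L5: Weierstrass approximation in the variable `exp (-s)`

The function `q : [0,1] → ℝ`, `q z = max (1 + a / log z) 0` for `0 < z < 1`, `q 0 = 1`, `q 1 = 0` is
continuous on `[0,1]` (as `z → 0+`, `log z → -∞`; for `z ∈ [e^{-a}, 1)` it is `0`).  With `z = e^{-s}`,
`s > 0`, `log z = -s`, `q z = max (1 - a/s) 0`.  Weierstrass
(`exists_polynomial_near_of_continuousOn`) gives the polynomial.
-/

set_option autoImplicit false

open MeasureTheory Set Filter Topology

noncomputable section

namespace CLR

theorem exp_approx (a ε : ℝ) (ha : 0 < a) (hε : 0 < ε) :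
    ∃ p : Polynomial ℝ, ∀ s : ℝ, 0 < s →
      |max (1 - a / s) 0 - p.eval (Real.exp (-s))| ≤ ε := by
  set g : ℝ → ℝ := fun z => 1 - a / max a (-Real.log z) with hg
  set q : ℝ → ℝ := fun z => if z ≤ 0 then 1 else g z with hq
  have hgpos : ∀ z : ℝ, 0 < z → q z = g z := fun z hz => by
    simp only [hq]
    rw [if_neg (not_le.mpr hz)]
  have hcont : ContinuousOn q (Icc 0 1) := by
    intro z hz
    rcases eq_or_lt_of_le hz.1 with h0 | h0
    · subst h0
      have h1 : ContinuousWithinAt q (Ioi 0) 0 := by
        have h2 : q 0 = 1 := by simp [hq]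
        unfold ContinuousWithinAt
        rw [h2]
        have h3 : Tendsto g (𝓝[>] 0) (𝓝 1) := by
          have h4 : Tendsto (fun z : ℝ => max a (-Real.log z)) (𝓝[>] 0) atTop := by
            refine tendsto_atTop_mono (fun z => le_max_right a _) ?_
            exact tendsto_neg_atBot_atTop.comp Real.tendsto_log_nhdsGT_zero
          have h5 : Tendsto (fun z : ℝ => a / max a (-Real.log z)) (𝓝[>] 0) (𝓝 0) :=
            h4.const_div_atTop a
          have h6 := (tendsto_const_nhds (x := (1 : ℝ))).sub h5
          rw [sub_zero] at h6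
          exact h6
        refine h3.congr' ?_
        filter_upwards [self_mem_nhdsWithin] with z hz
        exact (hgpos z hz).symm
      exact (continuousWithinAt_Ioi_iff_Ici.mp h1).mono Icc_subset_Ici_self
    · have h1 : ContinuousAt g z := by
        have h2 : ContinuousAt Real.log z := Real.continuousAt_log h0.ne'
        have h3 : ContinuousAt (fun z : ℝ => max a (-Real.log z)) z :=
          continuousAt_const.max h2.neg
        have h4 : max a (-Real.log z) ≠ 0 := (lt_of_lt_of_le ha (le_max_left _ _)).ne'
        exact continuousAt_const.sub (continuousAt_const.div h3 h4)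
      have h5 : ContinuousAt q z := by
        refine h1.congr ?_
        filter_upwards [lt_mem_nhds h0] with w hw
        exact (hgpos w hw).symm
      exact h5.continuousWithinAt
  obtain ⟨p, hp⟩ := exists_polynomial_near_of_continuousOn 0 1 q hcont ε hε
  refine ⟨p, fun s hs => ?_⟩
  have h1 : 0 < Real.exp (-s) := Real.exp_pos _
  have h2 : Real.exp (-s) ≤ 1 := Real.exp_le_one_iff.mpr (by linarith)
  have h3 := hp (Real.exp (-s)) ⟨h1.le, h2⟩
  have h4 : q (Real.exp (-s)) = max (1 - a / s) 0 := by
    rw [hgpos _ h1]
    simp only [hg]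
    rw [Real.log_exp, neg_neg]
    rcases le_total a s with h5 | h5
    · rw [max_eq_right h5, max_eq_left]
      have : a / s ≤ 1 := (div_le_one hs).mpr h5
      linarith
    · rw [max_eq_left h5, div_self ha.ne', sub_self, max_eq_right]
      have : 1 ≤ a / s := (one_le_div hs).mpr h5
      linarith
  rw [h4] at h3
  rw [abs_sub_comm]
  exact h3.le

end CLR
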