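import Pool.Agent.CLR.L4
import Pool.Agent.CLR.L5

/-!
# CLR row L6: the Lieb functional is bounded by the loop functional

Proof.  Let `g s = max (1 - a/s) 0` and `E = hH.eigenvalues`, all `E j > 0` (`Hm_posDef`).
(1) For a polynomial `p = Σ p_k z^k`: for small `δ`, `Lam (1-δA) v δ (s ↦ p(e^{-s})) = Σ_k p_k Lam(.. e^{-k s})`
(finite sum of summable series, `lam_exp`, `step_small`), so by `lam_exp_lim` it tends to
`Σ_j Σ_k p_k/(E_j + k) = Σ_j ∫_0^∞ p(e^{-s}) e^{-s E_j} ds`.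
(2) Let `Λ1 = Σ_j 1/E_j`.  Given `ε > 0`, take `p` from `exp_approx a ε`.  Then
`Σ_j Fa a (E j) = Σ_j ∫_0^∞ g(s) e^{-s E_j} ds ≤ Σ_j ∫_0^∞ p(e^{-s}) e^{-sE_j} ds + ε Λ1`
(`Fa` is an integral over `(a,∞)`, `g = 0` on `(0,a]`), and for small `δ`
`Lam(p) ≤ Lam(g) + ε Lam(1)` termwise: every loop has `S = δ Σ v > 0`, weights `≥ 0`
(`lam_summable` for summability; `g s ≤ 1`, and at `s ≤ 0` nothing is needed).
`Lam(1) → Λ1`.  So for small `δ`: `Σ Fa ≤ Lam(p) + ε + εΛ1 ≤ Lam(g) + ε (Λ1 + 1) + ε + ε Λ1`.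
-/

set_option autoImplicit false

open MeasureTheory Set Filter Topology

noncomputable section

namespace CLR

variable {ι : Type} [Fintype ι] [DecidableEq ι]

private theorem l6_evalexp (p : Polynomial ℝ) (s : ℝ) :
    p.eval (Real.exp (-s)) = ∑ k ∈ p.support, p.coeff k * Real.exp (-((k : ℝ) * s)) := by
  rw [Polynomial.eval_eq_sum, Polynomial.sum_def]
  apply Finset.sum_congr rfl
  intro k _
  rw [← Real.exp_nat_mul]
  congr 2
  ring

private theorem l6_lin (P : Matrix ι ι ℝ) (hP : ∀ x y, 0 ≤ P x y) (hPs : P.PosSemidef)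
    (hP1 : (1 - P).PosDef) (v : ι → ℝ) (hv : ∀ x, 0 ≤ v x) (δ : ℝ) (hδ : 0 ≤ δ) (p : Polynomial ℝ) :
    Lam P v δ (fun s => p.eval (Real.exp (-s))) =
      ∑ k ∈ p.support, p.coeff k * Lam P v δ (fun s => Real.exp (-((k : ℝ) * s))) := by
  have hs : ∀ k : ℕ, Summable (fun n : ℕ => ∑ ω : Fin (n + 1) → ι,
      loopW P ω * ((δ * ∑ i, v (ω i)) / (n + 1)) * Real.exp (-((k : ℝ) * (δ * ∑ i, v (ω i))))) :=
    fun k => (lam_exp P hP hPs hP1 v hv δ k hδ (Nat.cast_nonneg k)).summable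
  unfold Lam
  have e : ∀ k ∈ p.support, p.coeff k * (∑' n : ℕ, ∑ ω : Fin (n + 1) → ι,
      loopW P ω * ((δ * ∑ i, v (ω i)) / (n + 1)) * Real.exp (-((k : ℝ) * (δ * ∑ i, v (ω i))))) =
      ∑' n : ℕ, p.coeff k * ∑ ω : Fin (n + 1) → ι,
      loopW P ω * ((δ * ∑ i, v (ω i)) / (n + 1)) * Real.exp (-((k : ℝ) * (δ * ∑ i, v (ω i)))) := by
    intro k _
    rw [tsum_mul_left]
  rw [Finset.sum_congr rfl e, ← Summable.tsum_finsetSum (fun k _ => (hs k).mul_left _)]
  apply tsum_congr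
  intro n
  have e2 : ∀ ω : Fin (n + 1) → ι, loopW P ω * ((δ * ∑ i, v (ω i)) / (n + 1)) *
      p.eval (Real.exp (-(δ * ∑ i, v (ω i)))) = ∑ k ∈ p.support, p.coeff k *
      (loopW P ω * ((δ * ∑ i, v (ω i)) / (n + 1)) * Real.exp (-((k : ℝ) * (δ * ∑ i, v (ω i))))) := by
    intro ω
    rw [l6_evalexp, Finset.mul_sum]
    apply Finset.sum_congr rfl
    intro k _
    ring
  simp only [e2]
  rw [Finset.sum_comm]
  simp only [Finset.mul_sum]

omit [Fintype ι] [DecidableEq ι] in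
private theorem l6_loopW (P : Matrix ι ι ℝ) (hP : ∀ x y, 0 ≤ P x y) {n : ℕ} (ω : Fin (n + 1) → ι) :
    0 ≤ loopW P ω := Finset.prod_nonneg fun i _ => hP _ _

private theorem l6_g (a : ℝ) (ha : 0 < a) (s : ℝ) (hs : 0 ≤ s) : |max (1 - a / s) 0| ≤ 1 := by
  rw [abs_of_nonneg (le_max_right _ _)]
  apply max_le _ zero_le_one
  have : 0 ≤ a / s := div_nonneg ha.le hs
  linarith

private theorem l6_cmp (P : Matrix ι ι ℝ) (hP : ∀ x y, 0 ≤ P x y) (hPs : P.PosSemidef)
    (hP1 : (1 - P).PosDef) (v : ι → ℝ) (hv : ∀ x, 0 ≤ v x) (δ : ℝ) (hδ : 0 ≤ δ) (a ε : ℝ)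
    (ha : 0 < a) (p : Polynomial ℝ)
    (hp : ∀ s : ℝ, 0 < s → |max (1 - a / s) 0 - p.eval (Real.exp (-s))| ≤ ε) :
    Lam P v δ (fun s => p.eval (Real.exp (-s))) ≤
      Lam P v δ (fun s => max (1 - a / s) 0) + ε * Lam P v δ (fun s => Real.exp (-(0 * s))) := by
  have hε : 0 ≤ ε := (abs_nonneg _).trans (hp 1 one_pos)
  have hs0 := (lam_exp P hP hPs hP1 v hv δ 0 hδ le_rfl).summable
  have hsg := lam_summable P hP hPs hP1 v hv δ hδ (fun s => max (1 - a / s) 0) 1
    (fun s hs => l6_g a ha s hs)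
  have hsp := lam_summable P hP hPs hP1 v hv δ hδ (fun s => p.eval (Real.exp (-s)))
    (1 + ε + |p.eval 1|) (by
      intro s hs
      rcases hs.eq_or_lt with h | h
      · subst h
        simp only [neg_zero, Real.exp_zero]
        linarith
      · have h1 := hp s h
        have h2 := l6_g a ha s hs
        have h3 : |p.eval (Real.exp (-s))| ≤ |max (1 - a / s) 0| +
            |max (1 - a / s) 0 - p.eval (Real.exp (-s))| := by
          have := abs_sub (max (1 - a / s) 0) (max (1 - a / s) 0 - p.eval (Real.exp (-s)))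
          rwa [sub_sub_cancel] at this
        have h4 := abs_nonneg (p.eval 1)
        linarith)
  have e : Lam P v δ (fun s => max (1 - a / s) 0) + ε * Lam P v δ (fun s => Real.exp (-(0 * s))) =
      ∑' n : ℕ, ((∑ ω : Fin (n + 1) → ι, loopW P ω * ((δ * ∑ i, v (ω i)) / (n + 1)) *
        max (1 - a / (δ * ∑ i, v (ω i))) 0) + ε * ∑ ω : Fin (n + 1) → ι,
        loopW P ω * ((δ * ∑ i, v (ω i)) / (n + 1)) * Real.exp (-(0 * (δ * ∑ i, v (ω i))))) := by
    unfold Lam
    rw [Summable.tsum_add hsg (hs0.mul_left ε), tsum_mul_left]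
  rw [e]
  unfold Lam
  refine Summable.tsum_le_tsum ?_ hsp (hsg.add (hs0.mul_left ε))
  intro n
  rw [Finset.mul_sum, ← Finset.sum_add_distrib]
  apply Finset.sum_le_sum
  intro ω _
  have hS : 0 ≤ δ * ∑ i, v (ω i) := mul_nonneg hδ (Finset.sum_nonneg fun i _ => hv _)
  have hW := l6_loopW P hP ω
  generalize loopW P ω = W at hW ⊢
  generalize δ * ∑ i, v (ω i) = S at hS ⊢
  rcases hS.eq_or_lt with h | h
  · subst h
    simp
  · have h1 := hp S h
    have h2 : p.eval (Real.exp (-S)) ≤ max (1 - a / S) 0 + ε := by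
      have := (abs_le.1 h1).1
      linarith
    have h3 : 0 ≤ W * (S / ((n : ℝ) + 1)) := by positivity
    have h4 : Real.exp (-(0 * S)) = 1 := by simp
    rw [h4]
    calc W * (S / ((n : ℝ) + 1)) * p.eval (Real.exp (-S))
        ≤ W * (S / ((n : ℝ) + 1)) * (max (1 - a / S) 0 + ε) := mul_le_mul_of_nonneg_left h2 h3
      _ = _ := by ring

private theorem l6_int (E : ℝ) (hE : 0 < E) :
    IntegrableOn (fun s : ℝ => Real.exp (-(s * E))) (Ioi 0) ∧
      ∫ s in Ioi (0 : ℝ), Real.exp (-(s * E)) = 1 / E := by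
  have e : (fun s : ℝ => Real.exp (-(s * E))) = fun s => Real.exp (-E * s) := by
    funext s
    congr 1
    ring
  rw [e]
  refine ⟨integrableOn_exp_mul_Ioi (by linarith) 0, ?_⟩
  rw [integral_exp_mul_Ioi (by linarith) 0]
  simp

private theorem l6_Fa (E : ℝ) (hE : 0 < E) (a ε : ℝ) (ha : 0 < a) (p : Polynomial ℝ)
    (hp : ∀ s : ℝ, 0 < s → |max (1 - a / s) 0 - p.eval (Real.exp (-s))| ≤ ε) :
    Fa a E ≤ (∑ k ∈ p.support, p.coeff k * (1 / (E + k))) + ε * (1 / E) := by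
  have e : ∀ s : ℝ, (p.eval (Real.exp (-s)) + ε) * Real.exp (-(s * E)) =
      (∑ k ∈ p.support, p.coeff k * Real.exp (-(s * (E + k)))) + ε * Real.exp (-(s * E)) := by
    intro s
    rw [add_mul, l6_evalexp, Finset.sum_mul]
    congr 1
    apply Finset.sum_congr rfl
    intro k _
    rw [mul_assoc, ← Real.exp_add]
    congr 3
    ring
  have hpos : ∀ k : ℕ, 0 < E + k := fun k => by positivity
  have hint : IntegrableOn (fun s : ℝ => (p.eval (Real.exp (-s)) + ε) * Real.exp (-(s * E)))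
      (Ioi 0) := by
    simp only [e]
    refine Integrable.add ?_ ((l6_int E hE).1.const_mul ε)
    apply integrable_finset_sum
    intro k _
    exact (l6_int (E + k) (hpos k)).1.const_mul _
  have hval : ∫ s in Ioi (0 : ℝ), (p.eval (Real.exp (-s)) + ε) * Real.exp (-(s * E)) =
      (∑ k ∈ p.support, p.coeff k * (1 / (E + k))) + ε * (1 / E) := by
    simp only [e]
    rw [integral_add, integral_finset_sum, integral_const_mul, (l6_int E hE).2]
    · congr 1
      apply Finset.sum_congr rfl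
      intro k _
      rw [integral_const_mul, (l6_int (E + k) (hpos k)).2]
    · intro k _
      exact (l6_int (E + k) (hpos k)).1.const_mul _
    · apply integrable_finset_sum
      intro k _
      exact (l6_int (E + k) (hpos k)).1.const_mul _
    · exact (l6_int E hE).1.const_mul ε
  have hle : ∀ s : ℝ, 0 < s → max (1 - a / s) 0 ≤ p.eval (Real.exp (-s)) + ε := by
    intro s hs
    have := (abs_le.1 (hp s hs)).2
    linarith
  rw [← hval]
  unfold Fa
  calc ∫ s in Ioi a, (1 - a / s) * Real.exp (-(s * E))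
      ≤ ∫ s in Ioi a, (p.eval (Real.exp (-s)) + ε) * Real.exp (-(s * E)) := by
        apply integral_mono_of_nonneg
        · filter_upwards [ae_restrict_mem measurableSet_Ioi] with s hs
          have hs' : a < s := hs
          have : a / s ≤ 1 := (div_le_one (ha.trans hs')).2 hs'.le
          exact mul_nonneg (by linarith) (Real.exp_pos _).le
        · exact hint.mono_set (Ioi_subset_Ioi ha.le)
        · filter_upwards [ae_restrict_mem measurableSet_Ioi] with s hs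
          have hs' : a < s := hs
          exact mul_le_mul_of_nonneg_right ((le_max_left _ _).trans (hle s (ha.trans hs')))
            (Real.exp_pos _).le
    _ ≤ ∫ s in Ioi (0 : ℝ), (p.eval (Real.exp (-s)) + ε) * Real.exp (-(s * E)) := by
        apply setIntegral_mono_set hint
        · filter_upwards [ae_restrict_mem measurableSet_Ioi] with s hs
          exact mul_nonneg ((le_max_right _ _).trans (hle s hs)) (Real.exp_pos _).le
        · exact (Ioi_subset_Ioi ha.le).eventuallyLE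

theorem lam_lower (A : Matrix ι ι ℝ) (hA : A.PosDef) (hoff : ∀ x y, x ≠ y → A x y ≤ 0)
    (v : ι → ℝ) (hv : ∀ x, 0 < v x) (hH : (Hm A v).IsHermitian) (a η : ℝ) (ha : 0 < a)
    (hη : 0 < η) :
    ∀ᶠ δ in 𝓝[>] (0 : ℝ), ∑ j, Fa a (hH.eigenvalues j) ≤
      Lam (1 - δ • A) v δ (fun s => max (1 - a / s) 0) + η := by
  have hE : ∀ j, 0 < hH.eigenvalues j := fun j => (Hm_posDef A hA v hv).eigenvalues_pos j
  set Λ1 : ℝ := ∑ j, 1 / (hH.eigenvalues j + 0) with hΛ
  have hΛ0 : 0 ≤ Λ1 := Finset.sum_nonneg fun j _ => by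
    have := hE j
    positivity
  set ε : ℝ := η / (2 * (2 * Λ1 + 1)) with hεdef
  have hε : 0 < ε := by positivity
  obtain ⟨p, hp⟩ := exp_approx a ε ha hε
  -- limit of the polynomial functional
  have hlim : Tendsto (fun δ : ℝ => ∑ k ∈ p.support, p.coeff k *
      Lam (1 - δ • A) v δ (fun s => Real.exp (-((k : ℝ) * s)))) (𝓝[>] 0)
      (𝓝 (∑ k ∈ p.support, p.coeff k * ∑ j, 1 / (hH.eigenvalues j + (k : ℝ)))) := by
    apply tendsto_finset_sum
    intro k _
    exact (lam_exp_lim A hA hoff v hv hH k (Nat.cast_nonneg k)).const_mul _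
  have hlim0 := lam_exp_lim A hA hoff v hv hH 0 le_rfl
  have h1 := hlim.eventually (lt_mem_nhds (show (∑ k ∈ p.support, p.coeff k *
      ∑ j, 1 / (hH.eigenvalues j + (k : ℝ))) - η / 2 < (∑ k ∈ p.support, p.coeff k *
      ∑ j, 1 / (hH.eigenvalues j + (k : ℝ))) by linarith))
  have h2 := hlim0.eventually (gt_mem_nhds (show (∑ j, 1 / (hH.eigenvalues j + 0)) < Λ1 + 1 by
    rw [← hΛ]; linarith))
  have h3 := step_small A hA hoff
  have h4 : ∀ᶠ δ in 𝓝[>] (0 : ℝ), 0 < δ := self_mem_nhdsWithin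
  have hFa : ∑ j, Fa a (hH.eigenvalues j) ≤ (∑ k ∈ p.support, p.coeff k *
      ∑ j, 1 / (hH.eigenvalues j + (k : ℝ))) + ε * Λ1 := by
    calc ∑ j, Fa a (hH.eigenvalues j) ≤ ∑ j, ((∑ k ∈ p.support, p.coeff k *
          (1 / (hH.eigenvalues j + k))) + ε * (1 / hH.eigenvalues j)) :=
          Finset.sum_le_sum fun j _ => l6_Fa _ (hE j) a ε ha p hp
      _ = _ := by
          rw [Finset.sum_add_distrib, Finset.sum_comm, hΛ, Finset.mul_sum]
          simp only [Finset.mul_sum, add_zero]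
  filter_upwards [h1, h2, h3, h4] with δ k1 k2 k3 k4
  rw [← l6_lin (1 - δ • A) k3.1 k3.2.1 k3.2.2 v (fun x => (hv x).le) δ k4.le p] at k1
  have k5 := l6_cmp (1 - δ • A) k3.1 k3.2.1 k3.2.2 v (fun x => (hv x).le) δ k4.le a ε ha p hp
  have k6 : ε * Lam (1 - δ • A) v δ (fun s => Real.exp (-(0 * s))) ≤ ε * (Λ1 + 1) :=
    mul_le_mul_of_nonneg_left k2.le hε.le
  have k7 : ε * (2 * Λ1 + 1) = η / 2 := by
    rw [hεdef]
    field_simp
  nlinarith

end CLR
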