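import Pool.Agent.CLR.M0

/-!
# CLR row M1: discrete time form of (B')

Notation: `D = diag v`, `H = Hm A v = D^{-1/2} A D^{-1/2}`, `E` its eigenvalues (all `> 0`), and
`R x y = (if x = y then 1 else 0) - δ A x y / v x`, i.e. `R = 1 - δ D⁻¹ A`.
* `R ≥ 0` entrywise (`hδ` on the diagonal, `hoff` off it), row sums `≤ 1` (`hrow`); so the same holds
  for `R^n`.  `v x R x y = v y R y x` (symmetry of `A`), so the same for `R^n`.
* `R = D^{-1/2} (1 - δ H) D^{1/2}`, `R^n = D^{-1/2} (1-δH)^n D^{1/2}`.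
* For fixed `y` let `ρ x = (R^n) y x ≥ 0`, `Σ_x ρ x ≤ 1`, `u = A⁻¹ ρ ≥ 0` (`inv_nonneg`).  Then
  `2 Σ ρ u - uᵀ A u = ρᵀ A⁻¹ ρ`, so `hP` gives `ρᵀ A⁻¹ ρ ≤ Σ_x (c1 ρ x^2/v x + c2 ρ x √(v x))`.
* Multiply by `v y` and sum over `y`:
  `Σ_y v y ρᵀ A⁻¹ ρ = Tr(D R^n A⁻¹ (R^n)ᵀ) = Tr((1-δH)^n H⁻¹ (1-δH)^n) = Σ_j (1/E_j) (1-δE_j)^{2n}`
  (`H⁻¹ = D^{1/2} A⁻¹ D^{1/2}`);
  `Σ_y v y Σ_x ((R^n) y x)^2 / v x = Σ_{x,y} (((1-δH)^n) y x)^2 = Σ_j (1-δE_j)^{2n}`;
  `Σ_y v y Σ_x (R^n) y x √(v x) = Σ_x √(v x) v x Σ_y (R^n) x y ≤ Σ_x (v x)^{3/2}`.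
-/

set_option autoImplicit false

open MeasureTheory Set Filter Topology

noncomputable section

namespace CLR

variable {ι : Type} [Fintype ι] [DecidableEq ι]

theorem m1_sw_mul (U : Matrix ι ι ℝ) (hU : U.transpose * U = 1) (a b : ι → ℝ) :
    (U * Matrix.diagonal a * U.transpose) * (U * Matrix.diagonal b * U.transpose) =
      U * Matrix.diagonal (fun i => a i * b i) * U.transpose := by
  calc (U * Matrix.diagonal a * U.transpose) * (U * Matrix.diagonal b * U.transpose)
      = U * Matrix.diagonal a * (U.transpose * U) * Matrix.diagonal b * U.transpose := by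
        simp only [Matrix.mul_assoc]
    _ = U * (Matrix.diagonal a * Matrix.diagonal b) * U.transpose := by
        rw [hU, Matrix.mul_one]
        simp only [Matrix.mul_assoc]
    _ = _ := by rw [Matrix.diagonal_mul_diagonal]

theorem m1_sw_pow (U : Matrix ι ι ℝ) (hU : U.transpose * U = 1) (hU' : U * U.transpose = 1)
    (a : ι → ℝ) (n : ℕ) :
    (U * Matrix.diagonal a * U.transpose) ^ n =
      U * Matrix.diagonal (fun i => a i ^ n) * U.transpose := by
  induction n with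
  | zero =>
    simp only [pow_zero]
    have h : (Matrix.diagonal fun _ : ι => (1 : ℝ)) = 1 := Matrix.diagonal_one
    rw [h, Matrix.mul_one, hU']
  | succ n ih =>
    rw [pow_succ, ih, m1_sw_mul U hU]
    congr 2

theorem m1_sw_trace (U : Matrix ι ι ℝ) (hU : U.transpose * U = 1) (a : ι → ℝ) :
    (U * Matrix.diagonal a * U.transpose).trace = ∑ i, a i := by
  rw [Matrix.trace_mul_cycle, hU, Matrix.one_mul, Matrix.trace_diagonal]

theorem m1_pow_nonneg (K : Matrix ι ι ℝ) (hK : ∀ x y, 0 ≤ K x y) (n : ℕ) (x y : ι) :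
    0 ≤ (K ^ n) x y := by
  induction n generalizing x y with
  | zero =>
    rw [pow_zero, Matrix.one_apply]
    split_ifs <;> norm_num
  | succ n ih =>
    rw [pow_succ, Matrix.mul_apply]
    exact Finset.sum_nonneg fun z _ => mul_nonneg (ih x z) (hK z y)

theorem m1_pow_le (K : Matrix ι ι ℝ) (hK : ∀ x y, 0 ≤ K x y) (s : ι → ℝ)
    (hs : ∀ x, ∑ y, K x y * s y ≤ s x) (n : ℕ) (x : ι) : ∑ y, (K ^ n) x y * s y ≤ s x := by
  induction n generalizing x with
  | zero => simp [Matrix.one_apply]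
  | succ n ih =>
    have h1 : ∑ y, (K ^ (n + 1)) x y * s y = ∑ z, K x z * ∑ y, (K ^ n) z y * s y := by
      rw [pow_succ']
      simp only [Matrix.mul_apply, Finset.sum_mul, Finset.mul_sum]
      rw [Finset.sum_comm]
      refine Finset.sum_congr rfl fun z _ => Finset.sum_congr rfl fun y _ => by ring
    rw [h1]
    refine le_trans (Finset.sum_le_sum fun z _ => mul_le_mul_of_nonneg_left (ih z) (hK x z)) (hs x)

theorem traceB_discrete (A : Matrix ι ι ℝ) (hA : A.PosDef) (hoff : ∀ x y, x ≠ y → A x y ≤ 0)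
    (hrow : ∀ x, 0 ≤ ∑ y, A x y) (v : ι → ℝ) (hv : ∀ x, 0 < v x) (c1 c2 : ℝ) (hc2 : 0 ≤ c2)
    (hP : ∀ ρ u : ι → ℝ, (∀ x, 0 ≤ ρ x) → ∑ x, ρ x ≤ 1 → (∀ x, 0 ≤ u x) →
      2 * ∑ x, ρ x * u x - ∑ x, ∑ y, u x * A x y * u y ≤
        ∑ x, (c1 * ρ x ^ 2 / v x + c2 * (ρ x * Real.sqrt (v x))))
    (hH : (Hm A v).IsHermitian) (δ : ℝ) (hδ0 : 0 < δ) (hδ : ∀ x, δ * A x x ≤ v x) (n : ℕ) :
    ∑ j, (1 / hH.eigenvalues j - c1) * (1 - δ * hH.eigenvalues j) ^ (2 * n) ≤
      c2 * ∑ x, v x ^ (3 / 2 : ℝ) := by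
  have hE : ∀ j, 0 < hH.eigenvalues j := fun j => (Hm_posDef A hA v hv).eigenvalues_pos j
  obtain ⟨U, hU1, hU2, hHU⟩ := spec (Hm A v) hH
  set E := hH.eigenvalues with hEdef
  set s : ι → ℝ := fun x => Real.sqrt (v x) with hs
  have hs0 : ∀ x, 0 < s x := fun x => Real.sqrt_pos.mpr (hv x)
  have hs2 : ∀ x, s x * s x = v x := fun x => Real.mul_self_sqrt (hv x).le
  have hsym : ∀ x y, A x y = A y x := by
    intro x y
    have h := hA.1.apply x y
    simpa using h.symm
  have hHxy : ∀ x y, Hm A v x y = A x y / (s x * s y) := fun x y => rfl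
  set K : Matrix ι ι ℝ := 1 - δ • Hm A v with hK
  have hKxy : ∀ x y, K x y = (if x = y then 1 else 0) - δ * (A x y / (s x * s y)) := by
    intro x y
    rw [hK, Matrix.sub_apply, Matrix.one_apply, Matrix.smul_apply, smul_eq_mul, hHxy]
  have hK0 : ∀ x y, 0 ≤ K x y := by
    intro x y
    rw [hKxy]
    by_cases h : x = y
    · subst h
      rw [if_pos rfl, hs2]
      have h1 : δ * (A x x / v x) ≤ 1 := by
        rw [← mul_div_assoc]
        exact (div_le_one (hv x)).mpr (hδ x)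
      linarith
    · rw [if_neg h]
      have h1 : A x y / (s x * s y) ≤ 0 :=
        div_nonpos_of_nonpos_of_nonneg (hoff x y h) (mul_pos (hs0 x) (hs0 y)).le
      have h2 : δ * (A x y / (s x * s y)) ≤ 0 := mul_nonpos_of_nonneg_of_nonpos hδ0.le h1
      linarith
  have hKs : ∀ x, ∑ y, K x y * s y ≤ s x := by
    intro x
    have h1 : ∀ y, K x y * s y = (if x = y then s y else 0) - δ / s x * A x y := by
      intro y
      rw [hKxy]
      have := (hs0 x).ne'
      have := (hs0 y).ne'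
      split_ifs with h
      · field_simp
      · field_simp
        ring
    rw [Finset.sum_congr rfl fun y _ => h1 y, Finset.sum_sub_distrib, ← Finset.mul_sum]
    rw [Finset.sum_ite_eq Finset.univ x s, if_pos (Finset.mem_univ x)]
    have h2 : 0 ≤ δ / s x * ∑ y, A x y := mul_nonneg (div_nonneg hδ0.le (hs0 x).le) (hrow x)
    linarith
  set P : Matrix ι ι ℝ := K ^ n with hPdef
  have hP0 : ∀ x y, 0 ≤ P x y := m1_pow_nonneg K hK0 n
  have hPs : ∀ x, ∑ y, P x y * s y ≤ s x := m1_pow_le K hK0 s hKs n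
  -- spectral form
  have hKU : K = U * Matrix.diagonal (fun i => 1 - δ * E i) * U.transpose := by
    have h1 : (Matrix.diagonal fun i => 1 - δ * E i) = 1 - δ • Matrix.diagonal E := by
      ext i j
      by_cases h : i = j
      · subst h; simp
      · simp [h]
    rw [h1, Matrix.mul_sub, Matrix.sub_mul, Matrix.mul_one, hU1, Matrix.mul_smul, Matrix.smul_mul,
      ← hHU]
  have hPU : P = U * Matrix.diagonal (fun i => (1 - δ * E i) ^ n) * U.transpose := by
    rw [hPdef, hKU, m1_sw_pow U hU2 hU1]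
  have hPsym : ∀ x y, P x y = P y x := by
    have h1 : P.transpose = P := by
      rw [hPU, Matrix.transpose_mul, Matrix.transpose_mul, Matrix.transpose_transpose,
        Matrix.diagonal_transpose, Matrix.mul_assoc]
    intro x y
    rw [← h1, Matrix.transpose_apply, h1]
  have hAdet : IsUnit A.det := (Matrix.isUnit_iff_isUnit_det _).mp hA.isUnit
  have hAinv : A * A⁻¹ = 1 := Matrix.mul_nonsing_inv A hAdet
  set Hi : Matrix ι ι ℝ := U * Matrix.diagonal (fun i => 1 / E i) * U.transpose with hHi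
  have hHHi : Hm A v * Hi = 1 := by
    rw [hHU, hHi, m1_sw_mul U hU2]
    have h1 : (fun i => E i * (1 / E i)) = fun _ => (1 : ℝ) := by
      funext i
      rw [mul_one_div_cancel (hE i).ne']
    rw [h1]
    have h : (Matrix.diagonal fun _ : ι => (1 : ℝ)) = 1 := Matrix.diagonal_one
    rw [h, Matrix.mul_one, hU1]
  have hHi2 : ∀ x y, Hi x y = s x * A⁻¹ x y * s y := by
    have h1 : Hm A v * (Matrix.of fun x y => s x * A⁻¹ x y * s y) = 1 := by
      ext x y
      rw [Matrix.mul_apply]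
      have h2 : ∀ z, Hm A v x z * (Matrix.of fun x y => s x * A⁻¹ x y * s y) z y =
          (A x z * A⁻¹ z y) * (s y / s x) := by
        intro z
        rw [hHxy, Matrix.of_apply]
        have := (hs0 x).ne'
        have := (hs0 z).ne'
        field_simp
      rw [Finset.sum_congr rfl fun z _ => h2 z, ← Finset.sum_mul, ← Matrix.mul_apply, hAinv,
        Matrix.one_apply]
      split_ifs with h
      · subst h
        rw [one_mul, div_self (hs0 x).ne']
      · rw [zero_mul]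
    have h2 : Hi = Matrix.of fun x y => s x * A⁻¹ x y * s y := by
      have h3 : Hi * Hm A v = 1 := mul_eq_one_comm.mp hHHi
      calc Hi = Hi * (Hm A v * (Matrix.of fun x y => s x * A⁻¹ x y * s y)) := by
            rw [h1, Matrix.mul_one]
        _ = (Hi * Hm A v) * (Matrix.of fun x y => s x * A⁻¹ x y * s y) := by
            exact (Matrix.mul_assoc Hi _ _).symm
        _ = _ := by rw [h3, Matrix.one_mul]
    intro x y
    rw [h2, Matrix.of_apply]
  -- traces
  have ht1 : ∑ j, (1 / E j) * (1 - δ * E j) ^ (2 * n) = (P * Hi * P).trace := by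
    rw [hPU, hHi, m1_sw_mul U hU2, m1_sw_mul U hU2, m1_sw_trace U hU2]
    refine Finset.sum_congr rfl fun j _ => ?_
    rw [two_mul, pow_add]
    ring
  have ht2 : ∑ j, (1 - δ * E j) ^ (2 * n) = (P * P).trace := by
    rw [hPU, m1_sw_mul U hU2, m1_sw_trace U hU2]
    refine Finset.sum_congr rfl fun j _ => ?_
    rw [two_mul, pow_add]
  -- the inequality for every `y`
  have hy : ∀ y, ∑ x, ∑ x', P y x * Hi x x' * P x' y ≤
      c1 * ∑ x, P y x * P x y + c2 * ∑ x, s y * P y x * v x := by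
    intro y
    set ρ : ι → ℝ := fun x => P y x * s x / s y with hρ
    have hρ0 : ∀ x, 0 ≤ ρ x := fun x => div_nonneg (mul_nonneg (hP0 y x) (hs0 x).le) (hs0 y).le
    have hρ1 : ∑ x, ρ x ≤ 1 := by
      rw [hρ, ← Finset.sum_div]
      exact (div_le_one (hs0 y)).mpr (hPs y)
    set u : ι → ℝ := fun x => ∑ x', A⁻¹ x x' * ρ x' with hu
    have hu0 : ∀ x, 0 ≤ u x := fun x =>
      Finset.sum_nonneg fun x' _ => mul_nonneg (inv_nonneg A hA hoff x x') (hρ0 x')
    have hAu : ∀ x, ∑ x', A x x' * u x' = ρ x := by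
      intro x
      have h1 : ∑ x', A x x' * u x' = (A.mulVec (A⁻¹.mulVec ρ)) x := rfl
      rw [h1, Matrix.mulVec_mulVec, hAinv, Matrix.one_mulVec]
    have h1 := hP ρ u hρ0 hρ1 hu0
    have h2 : ∑ x, ∑ x', u x * A x x' * u x' = ∑ x, ρ x * u x := by
      refine Finset.sum_congr rfl fun x _ => ?_
      rw [← hAu x, Finset.sum_mul]
      refine Finset.sum_congr rfl fun x' _ => by ring
    rw [h2] at h1
    have h3 : ∑ x, ρ x * u x ≤ ∑ x, (c1 * ρ x ^ 2 / v x + c2 * (ρ x * Real.sqrt (v x))) := by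
      linarith
    have h4 := mul_le_mul_of_nonneg_left h3 (hv y).le
    have h5 : v y * ∑ x, ρ x * u x = ∑ x, ∑ x', P y x * Hi x x' * P x' y := by
      rw [Finset.mul_sum]
      refine Finset.sum_congr rfl fun x _ => ?_
      rw [hu, Finset.mul_sum, Finset.mul_sum]
      refine Finset.sum_congr rfl fun x' _ => ?_
      rw [hHi2, hPsym x' y, hρ, ← hs2 y]
      have := (hs0 y).ne'
      field_simp
    have h6 : v y * ∑ x, (c1 * ρ x ^ 2 / v x + c2 * (ρ x * Real.sqrt (v x))) =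
        c1 * ∑ x, P y x * P x y + c2 * ∑ x, s y * P y x * v x := by
      rw [Finset.mul_sum, Finset.mul_sum, Finset.mul_sum, ← Finset.sum_add_distrib]
      refine Finset.sum_congr rfl fun x _ => ?_
      have h7 : Real.sqrt (v x) = s x := rfl
      rw [h7, hPsym x y, hρ, ← hs2 y, ← hs2 x]
      have := (hs0 y).ne'
      have := (hs0 x).ne'
      field_simp
    rw [h5, h6] at h4
    exact h4
  have htr1 : (P * Hi * P).trace = ∑ y, ∑ x, ∑ x', P y x * Hi x x' * P x' y := by
    rw [Matrix.trace]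
    refine Finset.sum_congr rfl fun y _ => ?_
    rw [Matrix.diag_apply, Matrix.mul_apply]
    simp only [Matrix.mul_apply, Finset.sum_mul]
    rw [Finset.sum_comm]
  have htr2 : (P * P).trace = ∑ y, ∑ x, P y x * P x y := by
    rw [Matrix.trace]
    refine Finset.sum_congr rfl fun y _ => ?_
    rw [Matrix.diag_apply, Matrix.mul_apply]
  have hsum := Finset.sum_le_sum fun y (_ : y ∈ Finset.univ) => hy y
  rw [Finset.sum_add_distrib, ← Finset.mul_sum, ← Finset.mul_sum, ← htr1, ← htr2, ← ht1, ← ht2]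
    at hsum
  have hlast : ∑ y, ∑ x, s y * P y x * v x ≤ ∑ x, v x ^ (3 / 2 : ℝ) := by
    rw [Finset.sum_comm]
    refine Finset.sum_le_sum fun x _ => ?_
    have h1 : ∑ y, s y * P y x * v x = v x * ∑ y, P x y * s y := by
      rw [Finset.mul_sum]
      refine Finset.sum_congr rfl fun y _ => ?_
      rw [hPsym y x]
      ring
    have h2 : v x ^ (3 / 2 : ℝ) = v x * s x := by
      have h3 : (3 / 2 : ℝ) = 1 + 1 / 2 := by norm_num
      rw [h3, Real.rpow_add (hv x), Real.rpow_one, ← Real.sqrt_eq_rpow]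
    rw [h1, h2]
    exact mul_le_mul_of_nonneg_left (hPs x) (hv x).le
  have hfin : ∑ j, (1 / E j - c1) * (1 - δ * E j) ^ (2 * n) =
      ∑ j, (1 / E j) * (1 - δ * E j) ^ (2 * n) - c1 * ∑ j, (1 - δ * E j) ^ (2 * n) := by
    rw [Finset.mul_sum, ← Finset.sum_sub_distrib]
    refine Finset.sum_congr rfl fun j _ => by ring
  rw [hfin]
  have h8 := mul_le_mul_of_nonneg_left hlast hc2
  linarith

end CLR
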