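import Pool.Agent.CLR.Defs

/-!
# CLR row N1: bounds for `Fa`

`Fa a E = ∫_a^∞ (1 - a/s) e^{-sE} ds` (`a, E > 0`; integrand nonnegative, `≤ e^{-sE}`, integrable).
`Fa_anti`: monotonicity of the integrand in `E`.
`Fa_lower`: with `x = a E` the claim is `Fa a E ≥ a e^{-x} (x+4)/(x (x^2+6x+6))`.
Proof A: substitute `s = a + y`: `Fa a E = e^{-x} ∫_0^∞ y/(a+y) e^{-yE} dy`.  Let
`Q y = (yE)^2 - 6 (yE) + 6`, `Q(-a) = x^2+6x+6`.  Pointwise, for `y ≥ 0`,
`1/(a+y) ≥ (1 - Q(y)^2/Q(-a)^2)/(a+y) =: p y`, a cubic polynomial in `y` (the numerator vanishes at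
`y = -a`), and `∫_0^∞ y p(y) e^{-yE} dy` is a combination of `∫ y^k e^{-yE} = k!/E^{k+1}`, equal to
`a (x+4)/(x (x^2+6x+6))` (2 point Gauss-Laguerre quadrature).
Proof B: `J E = Fa a E - lower E` satisfies `J' = -12 e^{-x}.../(..)^2 < 0` and `J → 0` at infinity
(`d/dE Fa = -∫_a^∞ (s-a) e^{-sE} ds = -e^{-aE}/E^2`).
-/

set_option autoImplicit false

open MeasureTheory Set Filter Topology

noncomputable section

namespace CLR

/-- antiderivative of `t^k e^{-t}` -/
def n1_F : ℕ → ℝ → ℝ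
  | 0, t => -Real.exp (-t)
  | k + 1, t => -(t ^ (k + 1) * Real.exp (-t)) + (k + 1) * n1_F k t

theorem n1_F_deriv (k : ℕ) (t : ℝ) : HasDerivAt (n1_F k) (t ^ k * Real.exp (-t)) t := by
  induction k with
  | zero =>
    have h := ((hasDerivAt_neg t).exp).neg
    have h2 : HasDerivAt (n1_F 0) (-(Real.exp (-t) * -1)) t := h
    convert h2 using 1
    ring
  | succ k ih =>
    have h1 : HasDerivAt (fun t : ℝ => t ^ (k + 1) * Real.exp (-t))
        (((k + 1 : ℕ) : ℝ) * t ^ k * Real.exp (-t) + t ^ (k + 1) * (Real.exp (-t) * -1)) t :=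
      (hasDerivAt_pow (k + 1) t).mul (hasDerivAt_neg t).exp
    have h2 : HasDerivAt (n1_F (k + 1))
        (-(((k + 1 : ℕ) : ℝ) * t ^ k * Real.exp (-t) + t ^ (k + 1) * (Real.exp (-t) * -1)) +
          (k + 1) * (t ^ k * Real.exp (-t))) t := h1.neg.add (ih.const_mul ((k : ℝ) + 1))
    convert h2 using 1
    push_cast
    ring

theorem n1_F_lim (k : ℕ) : Tendsto (n1_F k) atTop (𝓝 0) := by
  induction k with
  | zero =>
    have h := (Real.tendsto_exp_neg_atTop_nhds_zero).neg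
    rw [neg_zero] at h
    exact h
  | succ k ih =>
    have h := ((Real.tendsto_pow_mul_exp_neg_atTop_nhds_zero (k + 1)).neg).add
      (ih.const_mul ((k : ℝ) + 1))
    rw [neg_zero, mul_zero, add_zero] at h
    exact h

theorem n1_F_zero (k : ℕ) : n1_F k 0 = -(k.factorial : ℝ) := by
  induction k with
  | zero => simp [n1_F]
  | succ k ih =>
    simp only [n1_F, ih, Nat.factorial_succ]
    push_cast
    simp

theorem n1_pow (a E : ℝ) (hE : 0 < E) (k : ℕ) :
    IntegrableOn (fun s => ((s - a) * E) ^ k * Real.exp (-((s - a) * E))) (Ioi a) ∧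
      ∫ s in Ioi a, ((s - a) * E) ^ k * Real.exp (-((s - a) * E)) = (k.factorial : ℝ) / E := by
  have hd : ∀ s : ℝ, HasDerivAt (fun s => n1_F k ((s - a) * E) / E)
      (((s - a) * E) ^ k * Real.exp (-((s - a) * E))) s := by
    intro s
    have h1 : HasDerivAt (fun s : ℝ => (s - a) * E) (1 * E) s :=
      ((hasDerivAt_id s).sub_const a).mul_const E
    have h2 := ((n1_F_deriv k ((s - a) * E)).comp s h1).div_const E
    have h3 : ((s - a) * E) ^ k * Real.exp (-((s - a) * E)) =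
        ((s - a) * E) ^ k * Real.exp (-((s - a) * E)) * (1 * E) / E := by
      rw [one_mul, mul_div_assoc, div_self hE.ne', mul_one]
    rw [h3]
    exact h2
  have hlim : Tendsto (fun s => n1_F k ((s - a) * E) / E) atTop (𝓝 0) := by
    have h1 : Tendsto (fun s : ℝ => (s - a) * E) atTop atTop :=
      (tendsto_atTop_add_const_right _ (-a) tendsto_id).atTop_mul_const hE
    have h2 := ((n1_F_lim k).comp h1).div_const E
    rw [zero_div] at h2
    exact h2
  have hcont : ContinuousWithinAt (fun s => n1_F k ((s - a) * E) / E) (Ici a) a :=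
    (hd a).continuousAt.continuousWithinAt
  have hint : IntegrableOn (fun s => ((s - a) * E) ^ k * Real.exp (-((s - a) * E))) (Ioi a) := by
    refine integrableOn_Ioi_deriv_of_nonneg hcont (fun s _ => hd s) ?_ hlim
    intro s hs
    have : 0 < s - a := sub_pos.2 hs
    positivity
  refine ⟨hint, ?_⟩
  rw [integral_Ioi_of_hasDerivAt_of_tendsto hcont (fun s _ => hd s) hint hlim, sub_self, zero_mul,
    n1_F_zero]
  ring

theorem n1_int (a E : ℝ) (ha : 0 < a) (hE : 0 < E) :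
    IntegrableOn (fun s => (1 - a / s) * Real.exp (-(s * E))) (Ioi a) := by
  have h1 : IntegrableOn (fun s : ℝ => Real.exp (-E * s)) (Ioi a) := exp_neg_integrableOn_Ioi a hE
  refine Integrable.mono h1 ?_ ?_
  · refine ContinuousOn.aestronglyMeasurable ?_ measurableSet_Ioi
    refine ContinuousOn.mul ?_ (by fun_prop)
    refine ContinuousOn.sub continuousOn_const ?_
    refine ContinuousOn.div continuousOn_const continuousOn_id ?_
    intro s hs
    exact (ha.trans hs).ne'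
  · refine (ae_restrict_iff' measurableSet_Ioi).2 (ae_of_all _ ?_)
    intro s hs
    have hs' : a < s := hs
    have hs0 : 0 < s := ha.trans hs'
    have h2 : 0 ≤ 1 - a / s := by
      rw [sub_nonneg, div_le_one hs0]; exact hs'.le
    have h3 : 1 - a / s ≤ 1 := by
      have : 0 < a / s := div_pos ha hs0
      linarith
    rw [Real.norm_of_nonneg (mul_nonneg h2 (Real.exp_pos _).le),
      Real.norm_of_nonneg (Real.exp_pos _).le]
    have h4 : -(s * E) = -E * s := by ring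
    rw [h4]
    exact mul_le_of_le_one_left (Real.exp_pos _).le h3

theorem Fa_nonneg (a E : ℝ) (ha : 0 < a) (hE : 0 < E) : 0 ≤ Fa a E := by
  refine setIntegral_nonneg measurableSet_Ioi ?_
  intro s hs
  have hs' : a < s := hs
  have hs0 : 0 < s := ha.trans hs'
  have h2 : 0 ≤ 1 - a / s := by
    rw [sub_nonneg, div_le_one hs0]; exact hs'.le
  exact mul_nonneg h2 (Real.exp_pos _).le

theorem Fa_anti (a E1 E2 : ℝ) (ha : 0 < a) (hE : 0 < E1) (h : E1 ≤ E2) : Fa a E2 ≤ Fa a E1 := by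
  refine setIntegral_mono_on (n1_int a E2 ha (hE.trans_le h)) (n1_int a E1 ha hE)
    measurableSet_Ioi ?_
  intro s hs
  have hs' : a < s := hs
  have hs0 : 0 < s := ha.trans hs'
  have h2 : 0 ≤ 1 - a / s := by
    rw [sub_nonneg, div_le_one hs0]; exact hs'.le
  refine mul_le_mul_of_nonneg_left ?_ h2
  rw [Real.exp_le_exp, neg_le_neg_iff]
  exact mul_le_mul_of_nonneg_left h hs0.le

/-- the pointwise bound -/
theorem n1_pt (x t q : ℝ) (hx : 0 < x) (ht : 0 < t) (hq : q = x ^ 2 + 6 * x + 6) :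
    ((x + 6) * (q + 6) * t - (q + 6 + 6 * (x + 6)) * t ^ 2 + (x + 12) * t ^ 3 - t ^ 4) / q ^ 2
      ≤ t / (t + x) := by
  have hq0 : 0 < q := by rw [hq]; positivity
  rw [div_le_div_iff₀ (by positivity) (by positivity)]
  have h1 : ((x + 6) * (q + 6) * t - (q + 6 + 6 * (x + 6)) * t ^ 2 + (x + 12) * t ^ 3 - t ^ 4) *
      (t + x) = t * q ^ 2 - t * (t ^ 2 - 6 * t + 6) ^ 2 := by
    rw [hq]; ring
  rw [h1]
  have : 0 ≤ t * (t ^ 2 - 6 * t + 6) ^ 2 := by positivity
  linarith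

theorem n1_lin {μ : Measure ℝ} {f1 f2 f3 f4 : ℝ → ℝ} (c c1 c2 c3 : ℝ) (h1 : Integrable f1 μ)
    (h2 : Integrable f2 μ) (h3 : Integrable f3 μ) (h4 : Integrable f4 μ) :
    Integrable (fun s => c * (c1 * f1 s - c2 * f2 s + c3 * f3 s - f4 s)) μ ∧
      ∫ s, c * (c1 * f1 s - c2 * f2 s + c3 * f3 s - f4 s) ∂μ =
        c * (c1 * (∫ s, f1 s ∂μ) - c2 * (∫ s, f2 s ∂μ) + c3 * (∫ s, f3 s ∂μ) - ∫ s, f4 s ∂μ) := by
  have k1 : Integrable (fun s => c1 * f1 s) μ := h1.const_mul c1
  have k2 : Integrable (fun s => c2 * f2 s) μ := h2.const_mul c2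
  have k3 : Integrable (fun s => c3 * f3 s) μ := h3.const_mul c3
  have m1 : Integrable (fun s => c1 * f1 s - c2 * f2 s) μ := k1.sub k2
  have m2 : Integrable (fun s => c1 * f1 s - c2 * f2 s + c3 * f3 s) μ := m1.add k3
  have m3 : Integrable (fun s => c1 * f1 s - c2 * f2 s + c3 * f3 s - f4 s) μ := m2.sub h4
  refine ⟨m3.const_mul c, ?_⟩
  rw [integral_const_mul, integral_sub m2 h4, integral_add m1 k3, integral_sub k1 k2,
    integral_const_mul, integral_const_mul, integral_const_mul]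

theorem Fa_lower (a E : ℝ) (ha : 0 < a) (hE : 0 < E) :
    a * Real.exp (-(a * E)) * (a * E + 4) /
      (a * E * ((a * E) ^ 2 + 6 * (a * E) + 6)) ≤ Fa a E := by
  obtain ⟨x, hx⟩ : ∃ x, x = a * E := ⟨_, rfl⟩
  obtain ⟨q, hq⟩ : ∃ q, q = x ^ 2 + 6 * x + 6 := ⟨_, rfl⟩
  have hx0 : 0 < x := by rw [hx]; positivity
  have hq0 : 0 < q := by rw [hq]; positivity
  obtain ⟨i1, e1⟩ := n1_pow a E hE 1
  obtain ⟨i2, e2⟩ := n1_pow a E hE 2
  obtain ⟨i3, e3⟩ := n1_pow a E hE 3
  obtain ⟨i4, e4⟩ := n1_pow a E hE 4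
  obtain ⟨hint, hv⟩ := n1_lin (Real.exp (-x) / q ^ 2) ((x + 6) * (q + 6))
    (q + 6 + 6 * (x + 6)) (x + 12) i1 i2 i3 i4
  have hval : ∫ s in Ioi a, Real.exp (-x) / q ^ 2 *
      ((x + 6) * (q + 6) * (((s - a) * E) ^ 1 * Real.exp (-((s - a) * E))) -
        (q + 6 + 6 * (x + 6)) * (((s - a) * E) ^ 2 * Real.exp (-((s - a) * E))) +
        (x + 12) * (((s - a) * E) ^ 3 * Real.exp (-((s - a) * E))) -
        ((s - a) * E) ^ 4 * Real.exp (-((s - a) * E)))
      = a * Real.exp (-(a * E)) * (a * E + 4) /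
      (a * E * ((a * E) ^ 2 + 6 * (a * E) + 6)) := by
    rw [hv, e1, e2, e3, e4, ← hx, ← hq]
    have ha' : a = x / E := by rw [hx]; field_simp
    rw [ha']
    have f1 : (Nat.factorial 1 : ℝ) = 1 := by norm_num [Nat.factorial]
    have f2 : (Nat.factorial 2 : ℝ) = 2 := by norm_num [Nat.factorial]
    have f3 : (Nat.factorial 3 : ℝ) = 6 := by norm_num [Nat.factorial]
    have f4 : (Nat.factorial 4 : ℝ) = 24 := by norm_num [Nat.factorial]
    rw [f1, f2, f3, f4]
    field_simp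
    ring
  rw [← hval]
  unfold Fa
  refine setIntegral_mono_on hint (n1_int a E ha hE) measurableSet_Ioi ?_
  intro s hs
  have hs' : a < s := hs
  have hs0 : 0 < s := ha.trans hs'
  have ht : 0 < (s - a) * E := mul_pos (sub_pos.2 hs') hE
  have hpt := n1_pt x ((s - a) * E) q hx0 ht hq
  have h1 : 1 - a / s = ((s - a) * E) / ((s - a) * E + x) := by
    rw [hx]
    have : (s - a) * E + a * E = s * E := by ring
    rw [this]
    field_simp
  have h2 : Real.exp (-(s * E)) = Real.exp (-x) * Real.exp (-((s - a) * E)) := by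
    rw [← Real.exp_add]
    congr 1
    rw [hx]; ring
  rw [h1, h2]
  have h3 := mul_le_mul_of_nonneg_right hpt
    (mul_pos (Real.exp_pos (-x)) (Real.exp_pos (-((s - a) * E)))).le
  refine le_trans (le_of_eq ?_) h3
  ring

end CLR
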