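import Pool.Agent.CLR.N1

/-!
# CLR row N2: the value `Fa 0.16 1 = .62667...`

`Fa a 1 = e^{-a} - a ∫_a^∞ e^{-s}/s ds`.  Needed: `∫_{.16}^∞ e^{-s}/s ds ≤ 1.41215` (true value 1.409187) and
`e^{-.16} ≥ .85214`.  Split at `2`.
`∫_2^∞ e^{-s}/s ds = e^{-2} ... `: from `Fa_lower 2 1`: `Fa 2 1 = e^{-2} - 2 ∫_2^∞ e^{-s}/s ≥ 2 e^{-2} * 6/(2*22)`, so
`∫_2^∞ e^{-s}/s ds ≤ (8/22) e^{-2} = .049213` (true .048901).
`∫_{.16}^2 e^{-s}/s ds`: `e^{-s} ≤ Σ_{k ≤ 8} (-s)^k/k!` for `s ≥ 0`, so it is
`≤ log(12.5) + Σ_{k=1}^{8} (-1)^k (2^k - .16^k)/(k * k!)` (excess ≤ .00016), `log 12.5 = 2.525728..`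
(`log 12.5 = 4 log 2 + log (25/32)`; e.g. `log (25/32) ≤ -0.24686` or any bound good to `.001`).
Total `≤ 1.4097`.
-/

set_option autoImplicit false

open MeasureTheory Set Filter Topology

noncomputable section

namespace CLR

/-- Taylor polynomial of `exp (-s)`. -/
def n2P (n : ℕ) (s : ℝ) : ℝ := ∑ k ∈ Finset.range (n + 1), (-s) ^ k / (Nat.factorial k : ℝ)

theorem n2P_zero (n : ℕ) : n2P n 0 = 1 := by
  unfold n2P
  rw [Finset.sum_range_succ']
  simp

theorem n2P_deriv (n : ℕ) (s : ℝ) : HasDerivAt (n2P (n + 1)) (- n2P n s) s := by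
  unfold n2P
  have h1 : ∀ k ∈ Finset.range (n + 1 + 1), HasDerivAt (fun s : ℝ => (-s) ^ k / (Nat.factorial k : ℝ))
      ((k : ℝ) * (-s) ^ (k - 1) * (-1) / (Nat.factorial k : ℝ)) s := by
    intro k _
    exact (((hasDerivAt_id s).neg).pow k).div_const _
  have h2 := HasDerivAt.fun_sum h1
  refine h2.congr_deriv ?_
  rw [Finset.sum_range_succ']
  simp only [Nat.cast_zero, zero_mul, zero_div, add_zero]
  rw [← Finset.sum_neg_distrib]
  refine Finset.sum_congr rfl fun k _ => ?_
  rw [Nat.add_sub_cancel, Nat.factorial_succ]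
  push_cast
  have h3 : (Nat.factorial k : ℝ) ≠ 0 := by positivity
  field_simp

theorem n2_taylor (n : ℕ) : ∀ s : ℝ, 0 ≤ s → 0 ≤ (-1 : ℝ) ^ n * (n2P n s - Real.exp (-s)) := by
  induction n with
  | zero =>
    intro s hs
    have h1 : Real.exp (-s) ≤ 1 := Real.exp_le_one_iff.mpr (by linarith)
    simp [n2P]
    linarith
  | succ n ih =>
    intro s hs
    have hd : ∀ y : ℝ, HasDerivAt (fun y : ℝ => (-1 : ℝ) ^ (n + 1) * (n2P (n + 1) y - Real.exp (-y)))
        ((-1 : ℝ) ^ (n + 1) * (- n2P n y - (Real.exp (-y) * (-1)))) y := by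
      intro y
      have h2 : HasDerivAt (fun y : ℝ => Real.exp (-y)) (Real.exp (-y) * (-1)) y :=
        ((hasDerivAt_id y).neg).exp
      exact ((n2P_deriv n y).sub h2).const_mul _
    have hmono : MonotoneOn (fun y : ℝ => (-1 : ℝ) ^ (n + 1) * (n2P (n + 1) y - Real.exp (-y)))
        (Set.Ici 0) := by
      apply monotoneOn_of_deriv_nonneg (convex_Ici 0)
      · intro y _
        exact (hd y).continuousAt.continuousWithinAt
      · intro y _
        exact (hd y).differentiableAt.differentiableWithinAt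
      · intro y hy
        rw [interior_Ici] at hy
        rw [(hd y).deriv]
        have h3 := ih y (le_of_lt hy)
        have h4 : (-1 : ℝ) ^ (n + 1) * (- n2P n y - (Real.exp (-y) * (-1))) =
            (-1 : ℝ) ^ n * (n2P n y - Real.exp (-y)) := by rw [pow_succ]; ring
        rw [h4]
        exact h3
    have h5 := hmono (Set.mem_Ici.mpr le_rfl) (Set.mem_Ici.mpr hs) hs
    simp only [n2P_zero, neg_zero, Real.exp_zero, sub_self, mul_zero] at h5
    exact h5

theorem n2_log : Real.log (25 / 2) ≤ 25260 / 10000 := by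
  have h2 := Real.log_two_lt_d9
  have h5 : 3 * Real.log 5 ≤ 7 * Real.log 2 - 3 / 128 := by
    have h1 : Real.log (125 / 128) ≤ 125 / 128 - 1 := Real.log_le_sub_one_of_pos (by norm_num)
    rw [Real.log_div (by norm_num) (by norm_num),
      show (125 : ℝ) = 5 ^ 3 by norm_num, show (128 : ℝ) = 2 ^ 7 by norm_num, Real.log_pow,
      Real.log_pow] at h1
    push_cast at h1
    norm_num at h1 ⊢
    linarith
  have h3 : Real.log (25 / 2) = 2 * Real.log 5 - Real.log 2 := by
    rw [Real.log_div (by norm_num) (by norm_num), show (25 : ℝ) = 5 ^ 2 by norm_num,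
      Real.log_pow]
    push_cast
    ring
  rw [h3]
  have h1 := Real.log_two_gt_d9
  linarith

theorem n2_intOn (a : ℝ) (ha : 0 < a) :
    IntegrableOn (fun s : ℝ => Real.exp (-s) / s) (Ioi a) := by
  have h1 : IntegrableOn (fun s : ℝ => (1 / a) * Real.exp (-s)) (Ioi a) :=
    (integrableOn_exp_neg_Ioi a).const_mul _
  refine Integrable.mono' h1 ?_ ?_
  · apply ContinuousOn.aestronglyMeasurable _ measurableSet_Ioi
    intro s hs
    have hs0 : (0 : ℝ) < s := ha.trans hs
    apply ContinuousAt.continuousWithinAt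
    exact (Real.continuous_exp.comp continuous_neg).continuousAt.div continuousAt_id hs0.ne'
  · filter_upwards [ae_restrict_mem measurableSet_Ioi] with s hs
    have hs0 : (0 : ℝ) < s := ha.trans hs
    have h2 : 0 < Real.exp (-s) := Real.exp_pos _
    rw [Real.norm_eq_abs, abs_of_pos (div_pos h2 hs0), div_eq_mul_one_div, mul_comm]
    exact mul_le_mul_of_nonneg_right (one_div_le_one_div_of_le ha (le_of_lt hs)) h2.le

theorem n2_Fa (a : ℝ) (ha : 0 < a) :
    Fa a 1 = Real.exp (-a) - a * ∫ s in Ioi a, Real.exp (-s) / s := by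
  unfold Fa
  have h1 : ∀ s ∈ Ioi a, (1 - a / s) * Real.exp (-(s * 1)) =
      Real.exp (-s) - a * (Real.exp (-s) / s) := by
    intro s hs
    have hs0 : s ≠ 0 := (ha.trans hs).ne'
    rw [mul_one]
    field_simp
  rw [setIntegral_congr_fun measurableSet_Ioi h1,
    integral_sub (integrableOn_exp_neg_Ioi a) ((n2_intOn a ha).const_mul _),
    integral_exp_neg_Ioi, integral_const_mul]

/-- antiderivative of the Taylor polynomial of degree eight divided by `s` -/
def n2A (s : ℝ) : ℝ := Real.log s - s + s ^ 2 / 4 - s ^ 3 / 18 + s ^ 4 / 96 - s ^ 5 / 600 +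
  s ^ 6 / 4320 - s ^ 7 / 35280 + s ^ 8 / 322560

theorem n2A_deriv {s : ℝ} (hs : 0 < s) : HasDerivAt n2A (n2P 8 s / s) s := by
  have h0 : s ≠ 0 := hs.ne'
  have h := ((((((((Real.hasDerivAt_log h0).sub (hasDerivAt_id s)).add
    ((hasDerivAt_pow 2 s).div_const 4)).sub ((hasDerivAt_pow 3 s).div_const 18)).add
    ((hasDerivAt_pow 4 s).div_const 96)).sub ((hasDerivAt_pow 5 s).div_const 600)).add
    ((hasDerivAt_pow 6 s).div_const 4320)).sub ((hasDerivAt_pow 7 s).div_const 35280)).add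
    ((hasDerivAt_pow 8 s).div_const 322560)
  refine h.congr_deriv ?_
  unfold n2P
  simp only [Finset.sum_range_succ, Finset.sum_range_zero, Nat.factorial]
  field_simp
  push_cast
  ring

theorem n2_mid : ∫ s in Ioc (4 / 25 : ℝ) 2, Real.exp (-s) / s ≤ n2A 2 - n2A (4 / 25) := by
  have hc : ContinuousOn (fun s : ℝ => n2P 8 s / s) (Set.uIcc (4 / 25 : ℝ) 2) := by
    intro s hs
    rw [Set.uIcc_of_le (by norm_num)] at hs
    have hs0 : (0 : ℝ) < s := by linarith [hs.1]
    apply ContinuousAt.continuousWithinAt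
    have h1 : ContinuousAt (n2P 8) s := (n2P_deriv 7 s).continuousAt
    exact h1.div continuousAt_id hs0.ne'
  have h1 : ∫ s in (4 / 25 : ℝ)..2, n2P 8 s / s = n2A 2 - n2A (4 / 25) := by
    apply intervalIntegral.integral_eq_sub_of_hasDerivAt
    · intro s hs
      rw [Set.uIcc_of_le (by norm_num)] at hs
      exact n2A_deriv (by linarith [hs.1])
    · exact hc.intervalIntegrable
  rw [← h1, intervalIntegral.integral_of_le (by norm_num)]
  have hc' := hc.intervalIntegrable (μ := volume)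
  rw [intervalIntegrable_iff_integrableOn_Ioc_of_le (by norm_num)] at hc'
  refine setIntegral_mono_on ((n2_intOn (4 / 25) (by norm_num)).mono_set Ioc_subset_Ioi_self)
    hc' measurableSet_Ioc ?_
  intro s hs
  have hs0 : (0 : ℝ) < s := by linarith [hs.1]
  have h2 := n2_taylor 8 s hs0.le
  norm_num at h2
  exact div_le_div_of_nonneg_right h2 hs0.le

theorem n2_tail : ∫ s in Ioi (2 : ℝ), Real.exp (-s) / s ≤ (4 / 11) * Real.exp (-2) := by
  have h1 := Fa_lower 2 1 (by norm_num) (by norm_num)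
  rw [n2_Fa 2 (by norm_num)] at h1
  norm_num at h1
  linarith

theorem Fa_one : (0.6262 : ℝ) ≤ Fa (4 / 25) 1 := by
  rw [n2_Fa (4 / 25) (by norm_num)]
  have hsplit : ∫ s in Ioi (4 / 25 : ℝ), Real.exp (-s) / s =
      (∫ s in Ioc (4 / 25 : ℝ) 2, Real.exp (-s) / s) +
        ∫ s in Ioi (2 : ℝ), Real.exp (-s) / s := by
    rw [← setIntegral_union (Set.Ioc_disjoint_Ioi le_rfl) measurableSet_Ioi
      ((n2_intOn (4 / 25) (by norm_num)).mono_set Ioc_subset_Ioi_self)
      (n2_intOn 2 (by norm_num)), Set.Ioc_union_Ioi_eq_Ioi (by norm_num)]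
  rw [hsplit]
  have hm := n2_mid
  have ht := n2_tail
  have hA : n2A 2 - n2A (4 / 25) ≤ 1.3612 := by
    unfold n2A
    have h1 : Real.log 2 - Real.log (4 / 25) = Real.log (25 / 2) := by
      rw [← Real.log_div (by norm_num) (by norm_num)]
      norm_num
    have h2 := n2_log
    norm_num at h2 ⊢
    linarith
  have he2 : Real.exp (-2) ≤ 0.13534 := by
    rw [Real.exp_neg]
    have h1 : (2.7182818283 : ℝ) < Real.exp 1 := Real.exp_one_gt_d9
    have h2 : Real.exp 2 = Real.exp 1 * Real.exp 1 := by rw [← Real.exp_add]; norm_num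
    have h3 : (7.3890 : ℝ) ≤ Real.exp 2 := by rw [h2]; nlinarith
    rw [inv_le_comm₀ (Real.exp_pos 2) (by norm_num)]
    refine le_trans ?_ h3
    norm_num
  have hea : 0.8521 ≤ Real.exp (-(4 / 25)) := by
    have h1 := n2_taylor 3 (4 / 25) (by norm_num)
    unfold n2P at h1
    simp only [Finset.sum_range_succ, Finset.sum_range_zero, Nat.factorial] at h1
    norm_num at h1 ⊢
    linarith
  have htot : (∫ s in Ioc (4 / 25 : ℝ) 2, Real.exp (-s) / s) +
        ∫ s in Ioi (2 : ℝ), Real.exp (-s) / s ≤ 1.3612 + (4 / 11) * 0.13534 := by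
    linarith
  norm_num at htot hea ⊢
  linarith

end CLR
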