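import Pool.Agent.CLR.P1

/-!
# CLR row P2: the calibration function

`φ := TC ∘ MC⁻¹` on `[0,1]`, `ψ := (x (1-x) f x) ∘ MC⁻¹`.

Proof.  (1) `HasDerivAt MC (60 x^2 (1-x)^3) x`, `HasDerivAt TC (60 x^3 (1-x)^4 f x) x` (`ring`
identities), `MC 0 = 0`, `MC 1 = 1`, `MC` strictly increasing and continuous on `[0,1]`
(`strictMonoOn_of_deriv_pos` on the convex set `[0,1]`, derivative positive on the interior).
(2) `f > 0` on `[0,1]` (cubic; min about 4.9 near... just nlinarith) and `x (1-x) f x ≤ 3.49 ≤ 5`.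
(3) Let `ξ : [0,1] → [0,1]` be the inverse of `MC` (continuous, strictly increasing; e.g.
`StrictMonoOn.orderIso`, or define `ξ m = sSup {x ∈ [0,1] | MC x ≤ m}`; or
`Function.invFunOn MC (Icc 0 1)` with continuity from `ContinuousOn`/compactness:
`IsCompact` + injective => closed embedding).  For `m ∈ (0,1)`: `ξ m ∈ (0,1)`,
`MC' (ξ m) ≠ 0`, so `HasDerivAt ξ (1 / MC' (ξ m)) m` (`HasDerivAt.of_local_left_inverse`), and
`φ = TC ∘ ξ` has derivative `TC'(ξ)/MC'(ξ) = ξ (1-ξ) f ξ = ψ m`.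
(4) the inequality is `poly_ineq` at `ξ m`; on the closed interval `[0,1]` drop the 4th power.
-/

set_option autoImplicit false

open MeasureTheory Set Filter Topology

noncomputable section

namespace CLR

private theorem p2_dM (x : ℝ) : HasDerivAt MC (60 * x ^ 2 * (1 - x) ^ 3) x := by
  have h3 := (hasDerivAt_pow 3 x).const_mul 20
  have h4 := (hasDerivAt_pow 4 x).const_mul 45
  have h5 := (hasDerivAt_pow 5 x).const_mul 36
  have h6 := (hasDerivAt_pow 6 x).const_mul 10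
  have h := ((h3.sub h4).add h5).sub h6
  refine (h.congr_deriv ?_)
  norm_num
  ring

private theorem p2_dT (x : ℝ) : HasDerivAt TC (60 * x ^ 3 * (1 - x) ^ 4 * fC x) x := by
  have h4 := (hasDerivAt_pow 4 x).const_mul (4419 / 20 : ℝ)
  have h5 := (hasDerivAt_pow 5 x).const_mul (16761 / 25 : ℝ)
  have h6 := (hasDerivAt_pow 6 x).const_mul (6263 / 10 : ℝ)
  have h7 := (hasDerivAt_pow 7 x).const_mul (1287 / 7 : ℝ)
  have h8 := (hasDerivAt_pow 8 x).const_mul (6615 / 8 : ℝ)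
  have h9 := (hasDerivAt_pow 9 x).const_mul (10447 / 15 : ℝ)
  have h10 := (hasDerivAt_pow 10 x).const_mul (13509 / 50 : ℝ)
  have h11 := (hasDerivAt_pow 11 x).const_mul (2361 / 55 : ℝ)
  have h := (((((((h4.sub h5).add h6).add h7).sub h8).add h9).sub h10).add h11)
  refine (h.congr_deriv ?_)
  unfold fC
  norm_num
  ring

private theorem p2_M0 : MC 0 = 0 := by unfold MC; norm_num

private theorem p2_M1 : MC 1 = 1 := by unfold MC; norm_num

private theorem p2_cont : Continuous MC := by unfold MC; fun_prop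

private theorem p2_mono : StrictMonoOn MC (Icc 0 1) := by
  refine strictMonoOn_of_deriv_pos (convex_Icc 0 1) p2_cont.continuousOn fun x hx => ?_
  rw [interior_Icc] at hx
  rw [(p2_dM x).deriv]
  have h1 := hx.1
  have h2 : 0 < 1 - x := by linarith [hx.2]
  positivity

private theorem p2_f (x : ℝ) (h0 : 0 ≤ x) (h1 : x ≤ 1) : 0 < fC x ∧ fC x ≤ 18 := by
  have hx2 : x ^ 2 ≤ 1 := by nlinarith
  have hx3 : x ^ 3 ≤ x ^ 2 := by nlinarith [sq_nonneg x]
  have hx4 : 0 ≤ x ^ 3 := by positivity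
  have hx5 : 0 ≤ x ^ 2 := by positivity
  unfold fC
  constructor
  · nlinarith
  · nlinarith

private theorem p2_inv : ∃ ξ : ℝ → ℝ, Continuous ξ ∧ (∀ m, ξ m ∈ Icc (0 : ℝ) 1) ∧
    ∀ m ∈ Icc (0 : ℝ) 1, MC (ξ m) = m := by
  have hmaps : ∀ x ∈ Icc (0 : ℝ) 1, MC x ∈ Icc (0 : ℝ) 1 := by
    intro x hx
    have h1 := p2_mono.monotoneOn (left_mem_Icc.2 zero_le_one) hx hx.1
    have h2 := p2_mono.monotoneOn hx (right_mem_Icc.2 zero_le_one) hx.2
    rw [p2_M0] at h1
    rw [p2_M1] at h2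
    exact ⟨h1, h2⟩
  let F : Icc (0 : ℝ) 1 → Icc (0 : ℝ) 1 := fun x => ⟨MC x, hmaps x x.2⟩
  have hF : Continuous F := by
    apply Continuous.subtype_mk
    exact p2_cont.comp continuous_subtype_val
  have hbij : Function.Bijective F := by
    constructor
    · intro x y hxy
      exact Subtype.ext (p2_mono.injOn x.2 y.2 (congrArg Subtype.val hxy))
    · intro y
      have h1 := intermediate_value_Icc (zero_le_one : (0 : ℝ) ≤ 1) p2_cont.continuousOn
      rw [p2_M0, p2_M1] at h1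
      obtain ⟨x, hx, hxy⟩ := h1 y.2
      exact ⟨⟨x, hx⟩, Subtype.ext hxy⟩
  let e : Icc (0 : ℝ) 1 ≃ Icc (0 : ℝ) 1 := Equiv.ofBijective F hbij
  have he : Continuous e := hF
  let g : Icc (0 : ℝ) 1 ≃ₜ Icc (0 : ℝ) 1 := he.homeoOfEquivCompactToT2
  refine ⟨fun m => (g.symm (projIcc 0 1 zero_le_one m) : ℝ), ?_, fun m => Subtype.mem _, ?_⟩
  · exact continuous_subtype_val.comp (g.symm.continuous.comp continuous_projIcc)
  · intro m hm
    have h1 : F (g.symm (projIcc 0 1 zero_le_one m)) = projIcc 0 1 zero_le_one m :=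
      g.apply_symm_apply _
    have h2 := congrArg Subtype.val h1
    rw [projIcc_of_mem zero_le_one hm] at h2
    show MC (g.symm (projIcc 0 1 zero_le_one m) : ℝ) = m
    rw [projIcc_of_mem zero_le_one hm]
    exact h2

theorem calib : ∃ φ ψ : ℝ → ℝ, ContinuousOn φ (Icc 0 1) ∧ φ 0 = 0 ∧
    (∀ m ∈ Ioo (0 : ℝ) 1, HasDerivAt φ (ψ m) m ∧ 0 ≤ ψ m ∧ ψ m ≤ 5 ∧
      m ^ 2 + (791 / 20000) ^ 2 * ψ m ^ 4 ≤ φ m / 3) ∧
    (∀ m ∈ Icc (0 : ℝ) 1, m ^ 2 ≤ φ m / 3) := by
  obtain ⟨ξ, hξc, hξm, hξ⟩ := p2_inv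
  refine ⟨fun m => TC (ξ m), fun m => ξ m * (1 - ξ m) * fC (ξ m), ?_, ?_, ?_, ?_⟩
  · have hT : Continuous TC := by unfold TC; fun_prop
    exact (hT.comp hξc).continuousOn
  · have h1 : MC (ξ 0) = MC 0 := by rw [hξ 0 (left_mem_Icc.2 zero_le_one), p2_M0]
    have h2 : ξ 0 = 0 := p2_mono.injOn (hξm 0) (left_mem_Icc.2 zero_le_one) h1
    show TC (ξ 0) = 0
    rw [h2]
    unfold TC
    norm_num
  · intro m hm
    have hmI : m ∈ Icc (0 : ℝ) 1 := Ioo_subset_Icc_self hm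
    have e := hξ m hmI
    have h0 := (hξm m).1
    have h1 := (hξm m).2
    have h0' : 0 < ξ m := by
      refine lt_of_le_of_ne h0 fun h => ?_
      rw [← h, p2_M0] at e
      exact hm.1.ne e
    have h1' : ξ m < 1 := by
      refine lt_of_le_of_ne h1 fun h => ?_
      rw [h, p2_M1] at e
      exact hm.2.ne' e
    have h1'' : 0 < 1 - ξ m := by linarith
    have hf := p2_f (ξ m) h0 h1
    have hne : 60 * ξ m ^ 2 * (1 - ξ m) ^ 3 ≠ 0 := by positivity
    have hloc : ∀ᶠ y in 𝓝 m, MC (ξ y) = y := by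
      filter_upwards [Ioo_mem_nhds hm.1 hm.2] with y hy
      exact hξ y (Ioo_subset_Icc_self hy)
    have hd := HasDerivAt.of_local_left_inverse hξc.continuousAt (p2_dM (ξ m)) hne hloc
    have hd2 := (p2_dT (ξ m)).comp m hd
    refine ⟨?_, ?_, ?_, ?_⟩
    · refine hd2.congr_deriv ?_
      field_simp
    · have := hf.1
      positivity
    · have h3 : ξ m * (1 - ξ m) ≤ 1 / 4 := by nlinarith [sq_nonneg (ξ m - 1 / 2)]
      have h4 : 0 ≤ ξ m * (1 - ξ m) := by positivity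
      nlinarith [hf.1, hf.2]
    · have h5 := poly_ineq (ξ m) h0 h1
      rw [e] at h5
      exact h5
  · intro m hm
    have h5 := poly_ineq (ξ m) (hξm m).1 (hξm m).2
    rw [hξ m hm] at h5
    have h6 : 0 ≤ ((791 : ℝ) / 20000) ^ 2 * (ξ m * (1 - ξ m) * fC (ξ m)) ^ 4 := by positivity
    show m ^ 2 ≤ TC (ξ m) / 3
    linarith

end CLR
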