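import Pool.Agent.CLR.P2

/-!
# CLR row P3: radial Lane-Emden inequality

Proof.  If `s 0 = 0` then `s r = 0` for all `r ≥ 0`, `m r = 0` for `r ≥ 0`: trivial.  Otherwise let
`r1 = sSup {r ∈ [0,R] | 0 < s r}`: by continuity and monotonicity `0 < r1 ≤ R`, `s > 0` on
`[0, r1)`, `s = 0` on `[r1, ∞)`.  On `(0, r1)`, `m' = 8 π κ s^3 r^2 > 0`, so `0 < m r < m r1 = m R ≤ 1`
(`κ = kap`); also `m r ≤ C r^3`.  Let `S r = φ (m r) / (12 π r)` with `φ, ψ` from `calib`.
For `0 < r < r1`, with `a = ψ (m r)`, `b = r * s r`: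
`S' = ψ(m) 8πκ s^3 r^2/(12 π r) - φ(m)/(12 π r^2) = (2/3) κ a b^3 / r^2 - φ(m)/(12 π r^2)`.
By `calib`: `φ(m)/(12 π) ≥ (m^2 + k a^4)/(4 π)`, `k = (791/20000)^2`, and
`(2/3) κ a b^3 ≤ (k/(4π)) a^4 + 12 π κ b^4`, because `κ = (144 π)^2 k` (this is `kap`), and after
multiplication by `4π/k` the inequality is `4 a (24 π b)^3 ≤ a^4 + 3 (24 π b)^4`
(AM-GM: `x^4 + 3 y^4 - 4 x y^3 = (x-y)^2 (x^2+2xy+3y^2) ≥ 0`).  Hence
`S' ≤ 12 π κ r^2 s^4 - m^2/(4 π r^2)` on `(0, r1)`.
Integrate over `[ε, r1]` (`intervalIntegral.sub_le_integral_of_hasDeriv_right_of_le` or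
`image_le_of_deriv...`; `S` is continuous on `[ε, r1]`, since `φ` is continuous on `[0,1]`):
`S r1 - S ε ≤ 12 π κ ∫_ε^{r1} r^2 s^4 - ∫_ε^{r1} m^2/(4 π r^2)`.
On `[r1, R]`, `m = m R =: M`, and `∫_{r1}^R M^2/(4πr^2) ≤ M^2/(4 π r1) ≤ φ(M)/(12 π r1) = S r1`.
Moreover `0 ≤ φ m ≤ 5 m` on `[0,1]` (mean value theorem), so `S ε ≤ 5 m(ε)/(12 π ε) → 0`, and
`m^2/(4πr^2) ≤ C r^4` is integrable on `(0, R)` (it is even continuous).  Let `ε → 0`.
-/

set_option autoImplicit false

open MeasureTheory Set Filter Topology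

noncomputable section

namespace CLR

theorem p3_key (a y : ℝ) : 0 ≤ a ^ 4 + 3 * y ^ 4 - 4 * a * y ^ 3 := by
  have h : a ^ 4 + 3 * y ^ 4 - 4 * a * y ^ 3 = (a - y) ^ 2 * ((a + y) ^ 2 + 2 * y ^ 2) := by ring
  rw [h]
  positivity

theorem p3_deriv_bound (a s r M φ : ℝ) (hr : 0 < r)
    (h : M ^ 2 + (791 / 20000) ^ 2 * a ^ 4 ≤ φ / 3) :
    (a * (8 * Real.pi * kap * s ^ 3 * r ^ 2) * (12 * Real.pi * r) - φ * (12 * Real.pi)) /
      (12 * Real.pi * r) ^ 2 ≤
      12 * Real.pi * kap * (r ^ 2 * s ^ 4) - M ^ 2 / (4 * Real.pi * r ^ 2) := by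
  have hπ : 0 < Real.pi := Real.pi_pos
  rw [← sub_nonneg]
  have e : 12 * Real.pi * kap * (r ^ 2 * s ^ 4) - M ^ 2 / (4 * Real.pi * r ^ 2) -
      (a * (8 * Real.pi * kap * s ^ 3 * r ^ 2) * (12 * Real.pi * r) - φ * (12 * Real.pi)) /
      (12 * Real.pi * r) ^ 2 =
      ((φ / 3 - (M ^ 2 + (791 / 20000) ^ 2 * a ^ 4)) + (791 / 20000) ^ 2 *
        (a ^ 4 + 3 * (24 * Real.pi * r * s) ^ 4 - 4 * a * (24 * Real.pi * r * s) ^ 3)) /
        (4 * Real.pi * r ^ 2) := by
    rw [kap, sk]
    field_simp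
    ring
  rw [e]
  apply div_nonneg _ (by positivity)
  have := p3_key a (24 * Real.pi * r * s)
  have h2 : (0 : ℝ) ≤ φ / 3 - (M ^ 2 + (791 / 20000) ^ 2 * a ^ 4) := by linarith
  positivity

theorem p3_kap_pos : 0 < kap := by
  rw [kap, sk]
  have := Real.pi_pos
  positivity

theorem radP (s : ℝ → ℝ) (R : ℝ) (hR : 0 < R) (hs : Continuous s) (hanti : AntitoneOn s (Ici 0))
    (h0 : ∀ r, 0 ≤ s r) (hR0 : ∀ r, R ≤ r → s r = 0) (m : ℝ → ℝ)
    (hm : ∀ r, m r = ∫ τ in (0 : ℝ)..r, 8 * Real.pi * kap * s τ ^ 3 * τ ^ 2) (hmR : m R ≤ 1) :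
    ∫ r in (0 : ℝ)..R, m r ^ 2 / (4 * Real.pi * r ^ 2) ≤
      12 * Real.pi * kap * ∫ r in (0 : ℝ)..R, r ^ 2 * s r ^ 4 := by
  obtain ⟨φ, ψ, hφc, hφ0, hφ, hφ'⟩ := calib
  have hπ : 0 < Real.pi := Real.pi_pos
  have hκ : 0 < kap := p3_kap_pos
  set g : ℝ → ℝ := fun τ => 8 * Real.pi * kap * s τ ^ 3 * τ ^ 2 with hg
  have hgc : Continuous g := by rw [hg]; fun_prop
  have hg0 : ∀ τ, 0 ≤ g τ := by
    intro τ
    have := h0 τ
    simp only [hg]
    positivity
  have hm' : m = fun r => ∫ τ in (0 : ℝ)..r, g τ := funext hm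
  have hmd : ∀ r, HasDerivAt m (g r) r := by
    intro r
    rw [hm']
    exact (hgc.integral_hasStrictDerivAt 0 r).hasDerivAt
  have hmc : Continuous m := continuous_iff_continuousAt.2 fun r => (hmd r).continuousAt
  have hmsub : ∀ x y, m y - m x = ∫ τ in x..y, g τ := by
    intro x y
    rw [hm', ← intervalIntegral.integral_interval_sub_left (hgc.intervalIntegrable _ _)
      (hgc.intervalIntegrable _ _)]
  have hmono : Monotone m := by
    intro x y hxy
    rw [← sub_nonneg, hmsub]
    exact intervalIntegral.integral_nonneg hxy fun τ _ => hg0 τ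
  have hm0 : m 0 = 0 := by rw [hm, intervalIntegral.integral_same]
  have hmI : ∀ r ∈ Icc (0 : ℝ) R, m r ∈ Icc (0 : ℝ) 1 := by
    intro r hr
    exact ⟨by rw [← hm0]; exact hmono hr.1, (hmono hr.2).trans hmR⟩
  -- growth of `m`
  set C : ℝ := 8 * Real.pi * kap * s 0 ^ 3 with hC
  have hC0 : 0 ≤ C := by
    have := h0 0
    positivity
  have hmC : ∀ r, 0 ≤ r → m r ≤ C * r ^ 3 := by
    intro r hr
    rw [hm]
    calc ∫ τ in (0 : ℝ)..r, g τ ≤ ∫ τ in (0 : ℝ)..r, C * r ^ 2 := by
          apply intervalIntegral.integral_mono_on hr (hgc.intervalIntegrable _ _)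
            (continuous_const.intervalIntegrable _ _)
          intro τ hτ
          simp only [hg, hC]
          have h1 : s τ ≤ s 0 := hanti (mem_Ici.2 le_rfl) (mem_Ici.2 hτ.1) hτ.1
          have h2 : s τ ^ 3 ≤ s 0 ^ 3 := pow_le_pow_left₀ (h0 τ) h1 3
          have h3 : τ ^ 2 ≤ r ^ 2 := pow_le_pow_left₀ hτ.1 hτ.2 2
          have h4 := h0 τ
          have h5 := h0 0
          gcongr
      _ = C * r ^ 3 := by
          rw [intervalIntegral.integral_const, smul_eq_mul]
          ring
  -- `φ m ≤ 5 m`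
  have hφ5 : ∀ x ∈ Icc (0 : ℝ) 1, φ x ≤ 5 * x := by
    intro x hx
    have h := Convex.image_sub_le_mul_sub_of_deriv_le (convex_Icc (0 : ℝ) 1) hφc
      (fun y hy => by
        rw [interior_Icc] at hy
        exact (hφ y hy).1.differentiableAt.differentiableWithinAt) (C := 5)
      (fun y hy => by
        rw [interior_Icc] at hy
        rw [(hφ y hy).1.deriv]
        exact (hφ y hy).2.2.1) 0 (left_mem_Icc.2 zero_le_one) x hx hx.1
    rw [hφ0] at h
    linarith
  have hφnn : ∀ x ∈ Icc (0 : ℝ) 1, 0 ≤ φ x := by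
    intro x hx
    have := hφ' x hx
    nlinarith [sq_nonneg x]
  set S : ℝ → ℝ := fun r => φ (m r) / (12 * Real.pi * r) with hS
  have hS0 : ∀ r ∈ Icc (0 : ℝ) R, 0 ≤ S r := by
    intro r hr
    exact div_nonneg (hφnn _ (hmI r hr)) (by have := hr.1; positivity)
  have hSC : ∀ r ∈ Icc (0 : ℝ) R, S r ≤ C * r ^ 2 := by
    intro r hr
    rcases hr.1.eq_or_lt with h | h
    · rw [← h]; simp [hS]
    · simp only [hS]
      rw [div_le_iff₀ (by positivity)]
      have h1 := hφ5 _ (hmI r hr)
      have h2 := hmC r hr.1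
      have h3 : (5 : ℝ) ≤ 12 * Real.pi := by nlinarith [Real.pi_gt_three]
      calc φ (m r) ≤ 5 * (C * r ^ 3) := by linarith
        _ ≤ (12 * Real.pi) * (C * r ^ 3) := mul_le_mul_of_nonneg_right h3 (by positivity)
        _ = _ := by ring
  have hSc : ContinuousOn S (Icc 0 R) := by
    intro r hr
    rcases hr.1.eq_or_lt with h | h
    · rw [ContinuousWithinAt]
      have hS00 : S r = 0 := by rw [← h]; simp [hS]
      rw [hS00]
      apply squeeze_zero' (g := fun r => C * r ^ 2)
      · exact eventually_mem_nhdsWithin.mono fun x hx => hS0 x hx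
      · exact eventually_mem_nhdsWithin.mono fun x hx => hSC x hx
      · have : Tendsto (fun r : ℝ => C * r ^ 2) (𝓝 r) (𝓝 (C * r ^ 2)) := by
          apply Continuous.tendsto; fun_prop
        rw [← h] at this ⊢
        simpa using this.mono_left nhdsWithin_le_nhds
    · apply ContinuousWithinAt.div
      · exact (hφc (m r) (hmI r hr)).comp hmc.continuousWithinAt (fun x hx => hmI x hx)
      · exact (by fun_prop : Continuous fun r : ℝ => 12 * Real.pi * r).continuousWithinAt
      · positivity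
  -- the integrand
  set H : ℝ → ℝ := fun r => m r ^ 2 / (4 * Real.pi * r ^ 2) with hH
  have hHm : Measurable H := by
    apply Measurable.div
    · exact (hmc.pow 2).measurable
    · fun_prop
  have hHint : IntegrableOn H (Icc 0 R) := by
    apply Measure.integrableOn_of_bounded (M := C ^ 2 * R ^ 4) (by simp)
      hHm.aestronglyMeasurable
    refine (ae_restrict_mem measurableSet_Icc).mono fun r hr => ?_
    rw [Real.norm_eq_abs, abs_of_nonneg (by simp only [hH]; positivity)]
    rcases hr.1.eq_or_lt with h | h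
    · rw [← h]; simp only [hH]; norm_num; positivity
    · simp only [hH]
      rw [div_le_iff₀ (by positivity)]
      have h1 := hmC r hr.1
      have h2 := (hmI r hr).1
      have h3 : m r ^ 2 ≤ (C * r ^ 3) ^ 2 := pow_le_pow_left₀ h2 h1 2
      have h4 : r ^ 4 ≤ R ^ 4 := pow_le_pow_left₀ hr.1 hr.2 4
      have h5 : (1 : ℝ) ≤ 4 * Real.pi := by nlinarith [Real.pi_gt_three]
      calc m r ^ 2 ≤ (C * r ^ 3) ^ 2 := h3
        _ = 1 * (C ^ 2 * r ^ 4 * r ^ 2) := by ring
        _ ≤ (4 * Real.pi) * (C ^ 2 * R ^ 4 * r ^ 2) := by gcongr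
        _ = _ := by ring
  have hXc : Continuous fun r : ℝ => 12 * Real.pi * kap * (r ^ 2 * s r ^ 4) := by fun_prop
  have hHX : IntegrableOn (fun r => 12 * Real.pi * kap * (r ^ 2 * s r ^ 4) - H r) (Icc 0 R) :=
    (hXc.continuousOn.integrableOn_Icc).sub hHint
  have hmain : S R - S 0 ≤ ∫ r in (0 : ℝ)..R, (12 * Real.pi * kap * (r ^ 2 * s r ^ 4) - H r) := by
    apply intervalIntegral.sub_le_integral_of_hasDeriv_right_of_le
      (g' := fun r => (ψ (m r) * g r * (12 * Real.pi * r) - φ (m r) * (12 * Real.pi)) /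
        (12 * Real.pi * r) ^ 2) hR.le hSc _ hHX
    · -- the bound
      intro r hr
      rcases (h0 r).eq_or_lt with h | h
      · have hgr : g r = 0 := by simp only [hg]; rw [← h]; ring
        have h1 := p3_deriv_bound 0 0 r (m r) (φ (m r)) hr.1 (by
          have := hφ' _ (hmI r ⟨hr.1.le, hr.2.le⟩)
          simpa using this)
        simp only [hgr, mul_zero, zero_mul, hH]
        rw [← h]
        simpa using h1
      · have hmr : m r ∈ Ioo (0 : ℝ) 1 := by
          have hgr : 0 < g r := by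
            simp only [hg]
            have := hr.1
            positivity
          constructor
          · have h1 := hmsub 0 r
            rw [hm0, sub_zero] at h1
            rw [h1]
            exact intervalIntegral.integral_pos hr.1 hgc.continuousOn (fun x _ => hg0 x)
              ⟨r, right_mem_Icc.2 hr.1.le, hgr⟩
          · have h1 := hmsub r R
            have h2 : 0 < ∫ τ in r..R, g τ :=
              intervalIntegral.integral_pos hr.2 hgc.continuousOn (fun x _ => hg0 x)
                ⟨r, left_mem_Icc.2 hr.2.le, hgr⟩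
            linarith
        exact p3_deriv_bound (ψ (m r)) (s r) r (m r) (φ (m r)) hr.1 (hφ _ hmr).2.2.2
    · -- the derivative
      intro r hr
      have hr0 : (12 * Real.pi * r) ≠ 0 := by
        have := hr.1
        positivity
      have hd2 : HasDerivAt (fun r : ℝ => 12 * Real.pi * r) (12 * Real.pi) r := by
        simpa using (hasDerivAt_id r).const_mul (12 * Real.pi)
      rcases (h0 r).eq_or_lt with h | h
      · have hgr : g r = 0 := by simp only [hg]; rw [← h]; ring
        have hconst : ∀ x ∈ Ici r, m x = m r := by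
          intro x hx
          rw [← sub_eq_zero, hmsub]
          have : ∫ τ in r..x, g τ = ∫ τ in r..x, (0 : ℝ) := by
            apply intervalIntegral.integral_congr
            intro τ hτ
            rw [uIcc_of_le (mem_Ici.1 hx)] at hτ
            have h1 : s τ ≤ s r := hanti (mem_Ici.2 hr.1.le) (mem_Ici.2 (hr.1.le.trans hτ.1)) hτ.1
            have h2 : s τ = 0 := le_antisymm (by rw [← h] at h1; exact h1) (h0 τ)
            simp only [hg]
            rw [h2]; ring
          rw [this, intervalIntegral.integral_zero]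
        have h1 : HasDerivAt (fun x : ℝ => φ (m r) / (12 * Real.pi * x))
            ((0 * (12 * Real.pi * r) - φ (m r) * (12 * Real.pi)) / (12 * Real.pi * r) ^ 2) r :=
          (hasDerivAt_const r (φ (m r))).fun_div hd2 hr0
        have h2 : HasDerivWithinAt S
            ((0 * (12 * Real.pi * r) - φ (m r) * (12 * Real.pi)) / (12 * Real.pi * r) ^ 2)
            (Ioi r) r := by
          apply h1.hasDerivWithinAt.congr
          · intro x hx
            simp only [hS]
            rw [hconst x (mem_Ici.2 (mem_Ioi.1 hx).le)]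
          · rfl
        simpa only [hgr, mul_zero] using h2
      · have hmr : m r ∈ Ioo (0 : ℝ) 1 := by
          have hgr : 0 < g r := by
            simp only [hg]
            have := hr.1
            positivity
          constructor
          · have h1 := hmsub 0 r
            rw [hm0, sub_zero] at h1
            rw [h1]
            exact intervalIntegral.integral_pos hr.1 hgc.continuousOn (fun x _ => hg0 x)
              ⟨r, right_mem_Icc.2 hr.1.le, hgr⟩
          · have h1 := hmsub r R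
            have h2 : 0 < ∫ τ in r..R, g τ :=
              intervalIntegral.integral_pos hr.2 hgc.continuousOn (fun x _ => hg0 x)
                ⟨r, left_mem_Icc.2 hr.2.le, hgr⟩
            linarith
        have h1 : HasDerivAt (fun x => φ (m x)) (ψ (m r) * g r) r :=
          (hφ _ hmr).1.comp r (hmd r)
        exact (h1.fun_div hd2 hr0).hasDerivWithinAt
  have hS00 : S 0 = 0 := by simp [hS]
  have hSR := hS0 R (right_mem_Icc.2 hR.le)
  rw [hS00, sub_zero, intervalIntegral.integral_sub (hXc.intervalIntegrable _ _)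
    ((intervalIntegrable_iff_integrableOn_Icc_of_le hR.le).2 hHint),
    intervalIntegral.integral_const_mul] at hmain
  linarith

end CLR
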