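import Pool.Agent.CLR.Defs

/-!
# CLR row R1: reflections

`refl e b x = x - (2 (⟨e,x⟩ - b)) • e`, `‖e‖ = 1`.  All statements are direct computations:
`⟨e, refl x⟩ = 2 b - ⟨e, x⟩`; `‖refl x - refl y‖ = ‖x - y‖` (linear part is the Householder
reflection); `‖refl x‖^2 = ‖x‖^2 - 4 b (⟨e,x⟩ - b)`;
`‖x - refl y‖^2 = ‖x - y‖^2 + 4 (⟨e,x⟩ - b)(⟨e,y⟩ - b)`.
Measure preserving: isometry equivalence (`IsometryEquiv`) composed of a linear isometry
(`LinearIsometryEquiv.measurePreserving`) and a translation.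
-/

set_option autoImplicit false

open MeasureTheory Set Filter Topology

noncomputable section

namespace CLR

variable (e : E3) (b : ℝ)

theorem refl_inner (he : ‖e‖ = 1) (x : E3) : inner ℝ e (refl e b x) = 2 * b - inner ℝ e x := by
  unfold refl
  rw [inner_sub_right, inner_smul_right, real_inner_self_eq_norm_sq, he]
  ring

theorem refl_refl (he : ‖e‖ = 1) (x : E3) : refl e b (refl e b x) = x := by
  have h := refl_inner e b he x
  have h1 : refl e b (refl e b x) = refl e b x - (2 * (inner ℝ e (refl e b x) - b)) • e := rfl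
  rw [h1, h]
  unfold refl
  rw [sub_sub, ← add_smul]
  have h2 : 2 * (inner ℝ e x - b) + 2 * (2 * b - inner ℝ e x - b) = 0 := by ring
  rw [h2, zero_smul, sub_zero]

theorem refl_norm_sq (he : ‖e‖ = 1) (x : E3) :
    ‖refl e b x‖ ^ 2 = ‖x‖ ^ 2 - 4 * b * (inner ℝ e x - b) := by
  unfold refl
  rw [norm_sub_sq_real, norm_smul, he, mul_one, inner_smul_right, real_inner_comm, Real.norm_eq_abs, sq_abs]
  ring

theorem norm_le_refl (he : ‖e‖ = 1) (hb : 0 ≤ b) (x : E3) (hx : inner ℝ e x ≤ b) :
    ‖x‖ ≤ ‖refl e b x‖ := by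
  have h := refl_norm_sq e b he x
  have h1 : 0 ≤ b * (b - inner ℝ e x) := mul_nonneg hb (by linarith)
  have h2 : ‖x‖ ^ 2 ≤ ‖refl e b x‖ ^ 2 := by linarith
  exact (sq_le_sq₀ (norm_nonneg _) (norm_nonneg _)).1 h2

theorem norm_lt_refl (he : ‖e‖ = 1) (hb : 0 < b) (x : E3) (hx : inner ℝ e x < b) :
    ‖x‖ < ‖refl e b x‖ := by
  have h := refl_norm_sq e b he x
  have h1 : 0 < b * (b - inner ℝ e x) := mul_pos hb (by linarith)
  have h2 : ‖x‖ ^ 2 < ‖refl e b x‖ ^ 2 := by linarith
  exact (sq_lt_sq₀ (norm_nonneg _) (norm_nonneg _)).1 h2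

theorem r1_zero_norm (he : ‖e‖ = 1) (x : E3) : ‖refl e 0 x‖ = ‖x‖ := by
  have h := refl_norm_sq e 0 he x
  have h2 : ‖refl e 0 x‖ ^ 2 = ‖x‖ ^ 2 := by rw [h]; ring
  exact (sq_eq_sq₀ (norm_nonneg _) (norm_nonneg _)).1 h2

theorem refl_dist (he : ‖e‖ = 1) (x y : E3) : ‖refl e b x - refl e b y‖ = ‖x - y‖ := by
  rw [← r1_zero_norm e he (x - y)]
  congr 1
  unfold refl
  rw [inner_sub_right]
  module

theorem dist_refl_sq (he : ‖e‖ = 1) (x y : E3) :
    ‖x - refl e b y‖ ^ 2 = ‖x - y‖ ^ 2 + 4 * (inner ℝ e x - b) * (inner ℝ e y - b) := by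
  have h : x - refl e b y = (x - y) + (2 * (inner ℝ e y - b)) • e := by
    unfold refl
    module
  rw [h, norm_add_sq_real, norm_smul, he, mul_one, inner_smul_right, real_inner_comm e (x - y), Real.norm_eq_abs,
    sq_abs, inner_sub_right]
  ring

theorem refl_sub_comm (he : ‖e‖ = 1) (x y : E3) : ‖refl e b x - y‖ = ‖x - refl e b y‖ := by
  conv_lhs => rw [← refl_refl e b he y]
  exact refl_dist e b he x (refl e b y)

theorem refl_continuous : Continuous (refl e b) := by
  unfold refl
  fun_prop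

theorem refl_mp (he : ‖e‖ = 1) : MeasurePreserving (refl e b) (volume : Measure E3) volume := by
  let f : E3 →ₗ[ℝ] E3 :=
    { toFun := fun x => refl e 0 x
      map_add' := fun x y => by
        simp only [refl, inner_add_right]
        module
      map_smul' := fun c x => by
        simp only [refl, inner_smul_right, RingHom.id_apply]
        module }
  have hinv : Function.Involutive f := fun x => refl_refl e 0 he x
  let L : E3 ≃ₗᵢ[ℝ] E3 :=
    { toLinearEquiv := LinearEquiv.ofInvolutive f hinv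
      norm_map' := fun x => r1_zero_norm e he x }
  have h1 : MeasurePreserving (fun x => L x + (2 * b) • e) (volume : Measure E3) volume :=
    (measurePreserving_add_right volume ((2 * b) • e)).comp L.measurePreserving
  have h2 : (fun x => L x + (2 * b) • e) = refl e b := by
    funext x
    have h3 : L x = refl e 0 x := rfl
    rw [h3]
    unfold refl
    module
  rw [h2] at h1
  exact h1

/-- points on the hyperplane are fixed -/
theorem refl_fix (x : E3) (hx : inner ℝ e x = b) : refl e b x = x := by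
  unfold refl
  rw [hx, sub_self, mul_zero, zero_smul, sub_zero]

end CLR
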