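import Pool.Agent.CLR.R1

/-!
# CLR row R2: polarization preserves admissible functions

Proof.  Nonnegativity: max/min of nonnegative numbers.  Support: let `R ≤ ‖x‖`, so `f x = 0`.  If
`⟨e,x⟩ ≤ b` then `‖refl x‖ ≥ ‖x‖ ≥ R` (`norm_le_refl`), so `f (refl x) = 0` and the max is `0`.  If
`⟨e,x⟩ > b`, the min of `0` and a nonnegative number is `0`.
Lipschitz: `|pol f x - pol f y| ≤ K ‖x - y‖`.  Same side: max (min) of the two `K`-Lipschitz functions
`f`, `f ∘ refl`.  Opposite sides, `⟨e,x⟩ ≤ b < ⟨e,y⟩`: `max(f x, f(refl x)) - min(f y, f(refl y))` is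
`f p - f q` with `p ∈ {x, refl x}`, `q ∈ {y, refl y}`, and `‖p - q‖ ≤ ‖x - y‖` in the four cases
(`dist_refl_sq`: the product of the two signed distances is `≤ 0`; `refl_dist`, `refl_sub_comm`);
and `min(f y, ..) - max(f x, ..) ≤ f y - f x ≤ K ‖x - y‖`.
`pol_pair`: the unordered pair of values at `x`, `refl x` is unchanged (on the hyperplane both are
`f x`), so `Φ (pol f x) + Φ (pol f (refl x)) = Φ (f x) + Φ (f (refl x))` for every `Φ`.
-/

set_option autoImplicit false

open MeasureTheory Set Filter Topology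

noncomputable section

namespace CLR

theorem pol_pair (e : E3) (b : ℝ) (he : ‖e‖ = 1) (f : E3 → ℝ) (Φ : ℝ → ℝ) (x : E3) :
    Φ (pol e b f x) + Φ (pol e b f (refl e b x)) = Φ (f x) + Φ (f (refl e b x)) := by
  have hi := refl_inner e b he x
  rcases lt_trichotomy (inner ℝ e x) b with h | h | h
  · have h1 : ¬ inner ℝ e (refl e b x) ≤ b := by
      rw [hi]; linarith
    unfold pol
    rw [if_pos h.le, if_neg h1, refl_refl e b he x]
    rcases le_total (f x) (f (refl e b x)) with h2 | h2
    · rw [max_eq_right h2, min_eq_right h2, add_comm]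
    · rw [max_eq_left h2, min_eq_left h2]
  · rw [refl_fix e b x h]
    unfold pol
    rw [refl_fix e b x h, if_pos h.le, max_self]
  · have h1 : inner ℝ e (refl e b x) ≤ b := by
      rw [hi]; linarith
    unfold pol
    rw [if_neg (not_le.2 h), if_pos h1, refl_refl e b he x]
    rcases le_total (f x) (f (refl e b x)) with h2 | h2
    · rw [max_eq_left h2, min_eq_left h2]
    · rw [max_eq_right h2, min_eq_right h2, add_comm]

theorem r2_cross (e : E3) (b : ℝ) (he : ‖e‖ = 1) (K : NNReal) (f : E3 → ℝ)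
    (hL : ∀ p q, |f p - f q| ≤ K * ‖p - q‖) (x y : E3) (hx : inner ℝ e x ≤ b)
    (hy : b < inner ℝ e y) :
    |max (f x) (f (refl e b x)) - min (f y) (f (refl e b y))| ≤ K * ‖x - y‖ := by
  have hK : (0 : ℝ) ≤ K := K.2
  have h1 : ‖x - refl e b y‖ ≤ ‖x - y‖ := by
    have h := dist_refl_sq e b he x y
    have h2 : (inner ℝ e x - b) * (inner ℝ e y - b) ≤ 0 :=
      mul_nonpos_of_nonpos_of_nonneg (by linarith) (by linarith)
    have h3 : ‖x - refl e b y‖ ^ 2 ≤ ‖x - y‖ ^ 2 := by nlinarith
    exact (sq_le_sq₀ (norm_nonneg _) (norm_nonneg _)).1 h3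
  have h2 : ‖refl e b x - y‖ ≤ ‖x - y‖ := by
    rw [refl_sub_comm e b he x y]
    exact h1
  have a1 := (abs_le.1 (hL x y)).2
  have a1' := (abs_le.1 (hL x y)).1
  have a2 := (abs_le.1 (hL x (refl e b y))).2
  have a3 := (abs_le.1 (hL (refl e b x) y)).2
  have a4 := (abs_le.1 (hL (refl e b x) (refl e b y))).2
  rw [refl_dist e b he x y] at a4
  have b2 := mul_le_mul_of_nonneg_left h1 hK
  have b3 := mul_le_mul_of_nonneg_left h2 hK
  rw [abs_le]
  constructor
  · have c1 : f x ≤ max (f x) (f (refl e b x)) := le_max_left _ _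
    have c2 : min (f y) (f (refl e b y)) ≤ f y := min_le_left _ _
    linarith
  · rcases max_choice (f x) (f (refl e b x)) with c | c <;>
      rcases min_choice (f y) (f (refl e b y)) with d | d <;> rw [c, d] <;> linarith

theorem pol_adm (e : E3) (b : ℝ) (he : ‖e‖ = 1) (hb : 0 ≤ b) (K : NNReal) (R : ℝ) (f : E3 → ℝ)
    (hf : Adm K R f) : Adm K R (pol e b f) := by
  have hL : ∀ p q, |f p - f q| ≤ K * ‖p - q‖ := by
    intro p q
    have h := hf.lip.dist_le_mul p q
    rwa [Real.dist_eq, dist_eq_norm] at h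
  refine ⟨?_, ?_, ?_⟩
  · intro x
    unfold pol
    split_ifs
    · exact le_max_of_le_left (hf.nonneg x)
    · exact le_min (hf.nonneg x) (hf.nonneg _)
  · refine LipschitzWith.of_dist_le_mul ?_
    intro x y
    rw [Real.dist_eq, dist_eq_norm]
    unfold pol
    by_cases hx : inner ℝ e x ≤ b
    · by_cases hy : inner ℝ e y ≤ b
      · rw [if_pos hx, if_pos hy]
        refine (abs_max_sub_max_le_max _ _ _ _).trans (max_le (hL x y) ?_)
        have h := hL (refl e b x) (refl e b y)
        rwa [refl_dist e b he x y] at h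
      · rw [if_pos hx, if_neg hy]
        exact r2_cross e b he K f hL x y hx (not_le.1 hy)
    · by_cases hy : inner ℝ e y ≤ b
      · rw [if_neg hx, if_pos hy, abs_sub_comm, norm_sub_rev]
        exact r2_cross e b he K f hL y x hy (not_le.1 hx)
      · rw [if_neg hx, if_neg hy]
        refine (abs_min_sub_min_le_max _ _ _ _).trans (max_le (hL x y) ?_)
        have h := hL (refl e b x) (refl e b y)
        rwa [refl_dist e b he x y] at h
  · intro x hx
    unfold pol
    split_ifs with h
    · have h1 : R ≤ ‖refl e b x‖ := hx.trans (norm_le_refl e b he hb x h)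
      rw [hf.supp x hx, hf.supp _ h1, max_self]
    · rw [hf.supp x hx]
      exact min_eq_left (hf.nonneg _)

end CLR
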