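import Pool.Agent.CLR.R2

/-!
# CLR row R3: polarization and integrals over `E3`

`pol_integral`: `2 ∫ Φ(F) = ∫ (Φ(F x) + Φ(F (refl x))) dx` for `F = f` and `F = pol f`
(`refl_mp`; `Φ ∘ F` is continuous with compact support because `Φ 0 = 0`, hence integrable) and the
integrands agree by `pol_pair`.

`pol_gG`: `2 gG F = ∫ (F x e^{-‖x‖^2} + F(refl x) e^{-‖refl x‖^2}) dx`.  Put
`D x = [pol f x e^{-‖x‖^2} + pol f (refl x) e^{-‖refl x‖^2}] - [f x e^{-‖x‖^2} + f (refl x) e^{-‖refl x‖^2}]`.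
For `⟨e,x⟩ ≤ b`: `D x = (max (f x) (f (refl x)) - f x) (e^{-‖x‖^2} - e^{-‖refl x‖^2}) ≥ 0`; the other
side by symmetry (`D (refl x) = D x`).  So `gG f ≤ gG (pol f)`.  If equality holds, the continuous
nonnegative function `D` has integral `0`, so `D = 0` everywhere; if `b > 0` and `⟨e,x⟩ < b` the
second factor is positive (`norm_lt_refl`), so `f (refl x) ≤ f x`; if `⟨e,x⟩ = b`, `refl x = x`.
-/

set_option autoImplicit false

open MeasureTheory Set Filter Topology

noncomputable section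

namespace CLR

theorem r3_me (e : E3) (b : ℝ) (he : ‖e‖ = 1) : MeasurableEmbedding (refl e b) :=
  (MeasurableEquiv.ofInvolutive (refl e b) (refl_refl e b he)
    (refl_continuous e b).measurable).measurableEmbedding

theorem r3_comp (e : E3) (b : ℝ) (he : ‖e‖ = 1) (g : E3 → ℝ) :
    ∫ x : E3, g (refl e b x) = ∫ x : E3, g x :=
  (refl_mp e b he).integral_comp (r3_me e b he) g

theorem r3_cs {K : NNReal} {R : ℝ} {F g : E3 → ℝ} (hF : Adm K R F) (h : ∀ x, F x = 0 → g x = 0) :
    HasCompactSupport g := by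
  refine HasCompactSupport.intro (isCompact_closedBall (0 : E3) R) ?_
  intro x hx
  apply h
  apply hF.supp
  rw [Metric.mem_closedBall, dist_zero_right, not_le] at hx
  exact hx.le

theorem r3_double (e : E3) (b : ℝ) (he : ‖e‖ = 1) (g : E3 → ℝ) (hg : Integrable g) :
    Integrable (fun x => g x + g (refl e b x)) ∧
      ∫ x : E3, (g x + g (refl e b x)) = 2 * ∫ x : E3, g x := by
  have h2 : Integrable (fun x => g (refl e b x)) :=
    ((refl_mp e b he).integrable_comp_emb (r3_me e b he)).2 hg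
  refine ⟨hg.add h2, ?_⟩
  rw [integral_add hg h2, r3_comp e b he g]
  ring

theorem pol_integral (e : E3) (b : ℝ) (he : ‖e‖ = 1) (hb : 0 ≤ b) (K : NNReal) (R : ℝ) (f : E3 → ℝ)
    (hf : Adm K R f) (Φ : ℝ → ℝ) (hΦ : Continuous Φ) (hΦ0 : Φ 0 = 0) :
    ∫ x : E3, Φ (pol e b f x) = ∫ x : E3, Φ (f x) := by
  have hint : ∀ F : E3 → ℝ, Adm K R F → Integrable (fun x => Φ (F x)) := by
    intro F hF
    refine (hΦ.comp hF.lip.continuous).integrable_of_hasCompactSupport ?_
    refine r3_cs hF ?_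
    intro x hx
    simp [hx, hΦ0]
  have h1 := (r3_double e b he _ (hint _ (pol_adm e b he hb K R f hf))).2
  have h2 := (r3_double e b he _ (hint _ hf)).2
  have h3 : ∫ x : E3, (Φ (pol e b f x) + Φ (pol e b f (refl e b x))) =
      ∫ x : E3, (Φ (f x) + Φ (f (refl e b x))) := by
    congr 1
    funext x
    exact pol_pair e b he f Φ x
  linarith

theorem pol_T4 (e : E3) (b : ℝ) (he : ‖e‖ = 1) (hb : 0 ≤ b) (K : NNReal) (R : ℝ) (f : E3 → ℝ)
    (hf : Adm K R f) (t : ℝ) (ht : 0 ≤ t) : T4 t (pol e b f) = T4 t f := by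
  refine pol_integral e b he hb K R f hf (fun u => (max (u - t) 0) ^ 4) (by fun_prop) ?_
  have h : max (0 - t) 0 = 0 := max_eq_right (by linarith)
  simp only [h]
  norm_num

/-- the difference of the symmetrised integrands -/
def r3D (e : E3) (b : ℝ) (f : E3 → ℝ) (x : E3) : ℝ :=
  (pol e b f x * Real.exp (-‖x‖ ^ 2) +
      pol e b f (refl e b x) * Real.exp (-‖refl e b x‖ ^ 2)) -
    (f x * Real.exp (-‖x‖ ^ 2) + f (refl e b x) * Real.exp (-‖refl e b x‖ ^ 2))

theorem r3D_symm (e : E3) (b : ℝ) (he : ‖e‖ = 1) (f : E3 → ℝ) (x : E3) :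
    r3D e b f (refl e b x) = r3D e b f x := by
  unfold r3D
  rw [refl_refl e b he x]
  ring

theorem r3D_eq (e : E3) (b : ℝ) (he : ‖e‖ = 1) (f : E3 → ℝ) (x : E3) (hx : inner ℝ e x ≤ b) :
    r3D e b f x = (max (f x) (f (refl e b x)) - f x) *
      (Real.exp (-‖x‖ ^ 2) - Real.exp (-‖refl e b x‖ ^ 2)) := by
  have h1 : pol e b f x = max (f x) (f (refl e b x)) := if_pos hx
  have h2 := pol_pair e b he f id x
  simp only [id] at h2
  unfold r3D
  rw [h1] at h2 ⊢
  linear_combination (Real.exp (-‖refl e b x‖ ^ 2)) * h2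

theorem r3D_nonneg (e : E3) (b : ℝ) (he : ‖e‖ = 1) (hb : 0 ≤ b) (f : E3 → ℝ) (x : E3) :
    0 ≤ r3D e b f x := by
  have key : ∀ y : E3, inner ℝ e y ≤ b → 0 ≤ r3D e b f y := by
    intro y hy
    rw [r3D_eq e b he f y hy]
    apply mul_nonneg
    · exact sub_nonneg.2 (le_max_left _ _)
    · rw [sub_nonneg, Real.exp_le_exp, neg_le_neg_iff]
      exact pow_le_pow_left₀ (norm_nonneg _) (norm_le_refl e b he hb y hy) 2
  rcases le_total (inner ℝ e x) b with h | h
  · exact key x h
  · rw [← r3D_symm e b he f x]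
    apply key
    rw [refl_inner e b he]
    linarith

theorem pol_gG (e : E3) (b : ℝ) (he : ‖e‖ = 1) (hb : 0 < b) (K : NNReal) (R : ℝ) (f : E3 → ℝ)
    (hf : Adm K R f) : gG f ≤ gG (pol e b f) ∧
      (gG (pol e b f) = gG f → ∀ x, inner ℝ e x ≤ b → f (refl e b x) ≤ f x) := by
  have hp := pol_adm e b he hb.le K R f hf
  have hc : ∀ F : E3 → ℝ, Adm K R F → Continuous (fun x => F x * Real.exp (-‖x‖ ^ 2)) := by
    intro F hF
    have := hF.lip.continuous
    fun_prop
  have hint : ∀ F : E3 → ℝ, Adm K R F → Integrable (fun x => F x * Real.exp (-‖x‖ ^ 2)) := by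
    intro F hF
    refine (hc F hF).integrable_of_hasCompactSupport ?_
    refine r3_cs hF ?_
    intro x hx
    simp [hx]
  obtain ⟨i1, e1⟩ := r3_double e b he _ (hint _ hp)
  obtain ⟨i2, e2⟩ := r3_double e b he _ (hint _ hf)
  have hD : ∫ x : E3, r3D e b f x = 2 * gG (pol e b f) - 2 * gG f := by
    have h := integral_sub i1 i2
    rw [e1, e2] at h
    exact h
  have hDi : Integrable (r3D e b f) := i1.sub i2
  have hDn : ∀ x, 0 ≤ r3D e b f x := r3D_nonneg e b he hb.le f
  constructor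
  · have h : 0 ≤ ∫ x : E3, r3D e b f x := integral_nonneg hDn
    rw [hD] at h
    linarith
  · intro heq x hx
    have h0 : ∫ x : E3, r3D e b f x = 0 := by
      rw [hD, heq]
      ring
    have h1 : r3D e b f =ᵐ[volume] 0 :=
      (integral_eq_zero_iff_of_nonneg hDn hDi).1 h0
    have hcont : Continuous (r3D e b f) := by
      have c1 := hc _ hp
      have c2 := hc _ hf
      have c3 := refl_continuous e b
      exact (c1.add (c1.comp c3)).sub (c2.add (c2.comp c3))
    have h2 : r3D e b f = 0 := (hcont.ae_eq_iff_eq volume continuous_const).1 h1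
    rcases hx.lt_or_eq with h | h
    · have h3 : r3D e b f x = 0 := congrFun h2 x
      rw [r3D_eq e b he f x hx] at h3
      have h4 : 0 < Real.exp (-‖x‖ ^ 2) - Real.exp (-‖refl e b x‖ ^ 2) := by
        rw [sub_pos, Real.exp_lt_exp, neg_lt_neg_iff]
        exact pow_lt_pow_left₀ (norm_lt_refl e b he hb x h) (norm_nonneg _) two_ne_zero
      have h5 : max (f x) (f (refl e b x)) - f x = 0 := (mul_eq_zero.1 h3).resolve_right h4.ne'
      have h6 := le_max_right (f x) (f (refl e b x))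
      linarith
    · rw [refl_fix e b x h]

end CLR
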