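import Pool.Agent.CLR.R3

/-!
# CLR row R4: polarization decreases the Gaussian energy

Proof.  Let `h_F (x,z) = exp(-‖z‖^2) (F (x + s z) - F x)^2`, `y = x + s z`, `x' = refl x`, `y' = refl y`.
The maps `σ (x,z) = (x', refl₀ z)` (so `y(σ) = y'`) and `ρ (x,z) = (x, refl₀ z + s⁻¹ (x' - x))` (so
`y(ρ) = y'`) preserve the measure, so four times the energy is the integral of
`h_F + h_F ∘ σ + h_F ∘ ρ + h_F ∘ σ ∘ ρ`, which is
`W [(F y - F x)^2 + (F y' - F x')^2] + W' [(F y' - F x)^2 + (F y - F x')^2]`,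
`W = exp(-‖z‖^2)`, `W' = exp(-‖ρ z‖^2)`, and `W' ≤ W` iff `x`, `y` are on the same side (`dist_refl_sq`).  The
sum of the two brackets is the same for `F = f` and `F = pol f`, and the first one decreases if `x`, `y` are on the
same side, the second one decreases if they are on different sides.
-/

set_option autoImplicit false

open MeasureTheory Set Filter Topology

noncomputable section

namespace CLR

theorem r4_alg (a a' c c' W W' : ℝ) (h : W' ≤ W) :
    W * ((max c c' - max a a') ^ 2 + (min c c' - min a a') ^ 2) +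
      W' * ((min c c' - max a a') ^ 2 + (max c c' - min a a') ^ 2) ≤
    W * ((c - a) ^ 2 + (c' - a') ^ 2) + W' * ((c' - a) ^ 2 + (c - a') ^ 2) := by
  rcases le_total a a' with h1 | h1 <;> rcases le_total c c' with h2 | h2
  · rw [max_eq_right h1, max_eq_right h2, min_eq_left h1, min_eq_left h2]
    nlinarith
  · rw [max_eq_right h1, max_eq_left h2, min_eq_left h1, min_eq_right h2]
    nlinarith [mul_nonneg (sub_nonneg.2 h) (mul_nonneg (sub_nonneg.2 h1) (sub_nonneg.2 h2))]
  · rw [max_eq_left h1, max_eq_right h2, min_eq_right h1, min_eq_left h2]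
    nlinarith [mul_nonneg (sub_nonneg.2 h) (mul_nonneg (sub_nonneg.2 h1) (sub_nonneg.2 h2))]
  · rw [max_eq_left h1, max_eq_left h2, min_eq_right h1, min_eq_right h2]

theorem r4_pol_le (e : E3) (b : ℝ) (he : ‖e‖ = 1) (f : E3 → ℝ) (x : E3) (hx : inner ℝ e x ≤ b) :
    pol e b f x = max (f x) (f (refl e b x)) ∧ pol e b f (refl e b x) = min (f x) (f (refl e b x)) := by
  have h1 : pol e b f x = max (f x) (f (refl e b x)) := if_pos hx
  refine ⟨h1, ?_⟩
  have h2 := pol_pair e b he f id x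
  simp only [id] at h2
  rw [h1] at h2
  have h3 := max_add_min (f x) (f (refl e b x))
  linarith

theorem r4_pol_ge (e : E3) (b : ℝ) (he : ‖e‖ = 1) (f : E3 → ℝ) (x : E3) (hx : b ≤ inner ℝ e x) :
    pol e b f x = min (f x) (f (refl e b x)) ∧ pol e b f (refl e b x) = max (f x) (f (refl e b x)) := by
  have h1 : inner ℝ e (refl e b x) ≤ b := by
    rw [refl_inner e b he x]; linarith
  have h2 := r4_pol_le e b he f (refl e b x) h1
  rw [refl_refl e b he x] at h2
  exact ⟨by rw [h2.2, min_comm], by rw [h2.1, max_comm]⟩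

theorem r4_lin (e : E3) (b s : ℝ) (x z : E3) :
    refl e b (x + s • z) = refl e b x + s • refl e 0 z := by
  unfold refl
  rw [inner_add_right, inner_smul_right]
  module

/-- reflection of both points -/
def r4σ (e : E3) (b : ℝ) (p : E3 × E3) : E3 × E3 := (refl e b p.1, refl e 0 p.2)

/-- reflection of the second point -/
def r4ρ (e : E3) (b s : ℝ) (p : E3 × E3) : E3 × E3 :=
  (p.1, refl e 0 p.2 + s⁻¹ • (refl e b p.1 - p.1))

theorem r4_mpσ (e : E3) (b : ℝ) (he : ‖e‖ = 1) :
    MeasurePreserving (r4σ e b) (volume : Measure (E3 × E3)) volume :=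
  (refl_mp e b he).prod (refl_mp e 0 he)

theorem r4_mpρ (e : E3) (b s : ℝ) (he : ‖e‖ = 1) :
    MeasurePreserving (r4ρ e b s) (volume : Measure (E3 × E3)) volume := by
  refine (MeasurePreserving.id (volume : Measure E3)).skew_product
    (g := fun x z => refl e 0 z + s⁻¹ • (refl e b x - x)) ?_ ?_
  · have h1 := refl_continuous e b
    have h2 := refl_continuous e 0
    apply Continuous.measurable
    unfold Function.uncurry
    fun_prop
  · refine Eventually.of_forall fun x => ?_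
    exact ((measurePreserving_add_right volume (s⁻¹ • (refl e b x - x))).comp (refl_mp e 0 he)).map_eq

/-- the integrand of the Gaussian energy -/
def r4h (s : ℝ) (F : E3 → ℝ) (p : E3 × E3) : ℝ :=
  Real.exp (-‖p.2‖ ^ 2) * (F (p.1 + s • p.2) - F p.1) ^ 2

theorem r4h_cont (s : ℝ) (F : E3 → ℝ) (hF : Continuous F) : Continuous (r4h s F) := by
  unfold r4h
  fun_prop

theorem r4_gauss : Integrable (fun z : E3 => Real.exp (-‖z‖ ^ 2)) := by
  have h := GaussianFourier.integrable_cexp_neg_mul_sq_norm_add (V := E3) (b := 1) (by simp) 0 0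
  refine h.norm.congr ?_
  refine Eventually.of_forall fun z => ?_
  simp only [Complex.norm_exp]
  congr 1
  simp [← Complex.ofReal_pow]

theorem r4_int (s : ℝ) {K : NNReal} {R : ℝ} {F : E3 → ℝ} (hF : Adm K R F) : Integrable (r4h s F) := by
  have hc := hF.lip.continuous
  have h1 : Integrable (fun x => F x ^ 2) := by
    refine (hc.pow 2).integrable_of_hasCompactSupport ?_
    refine HasCompactSupport.intro (isCompact_closedBall (0 : E3) R) ?_
    intro x hx
    rw [Metric.mem_closedBall, dist_zero_right, not_le] at hx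
    rw [Pi.pow_apply, hF.supp x hx.le]
    norm_num
  have h2 : Integrable (fun p : E3 × E3 => F p.1 ^ 2 * Real.exp (-‖p.2‖ ^ 2)) := h1.mul_prod r4_gauss
  -- the shear
  have hτ : MeasurePreserving (fun p : E3 × E3 => (p.1 + s • p.2, p.2)) (volume : Measure (E3 × E3)) volume := by
    have h3 : MeasurePreserving (fun p : E3 × E3 => (p.1, p.2 + s • p.1)) (volume : Measure (E3 × E3)) volume := by
      refine (MeasurePreserving.id (volume : Measure E3)).skew_product
        (g := fun z x => x + s • z) ?_ ?_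
      · apply Continuous.measurable
        unfold Function.uncurry
        fun_prop
      · refine Eventually.of_forall fun z => ?_
        exact (measurePreserving_add_right volume (s • z)).map_eq
    have h4 : MeasurePreserving (Prod.swap : E3 × E3 → E3 × E3) volume volume := Measure.measurePreserving_swap
    exact h4.comp (h3.comp h4)
  have h5 : Integrable (fun p : E3 × E3 => F (p.1 + s • p.2) ^ 2 * Real.exp (-‖p.2‖ ^ 2)) :=
    (hτ.integrable_comp h2.aestronglyMeasurable).2 h2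
  refine ((h5.const_mul 2).add (h2.const_mul 2)).mono (r4h_cont s F hc).aestronglyMeasurable ?_
  refine Eventually.of_forall fun p => ?_
  have hE := Real.exp_pos (-‖p.2‖ ^ 2)
  rw [Real.norm_eq_abs, Real.norm_eq_abs, abs_of_nonneg (by unfold r4h; positivity),
    abs_of_nonneg (by simp only [Pi.add_apply]; positivity)]
  unfold r4h
  simp only [Pi.add_apply]
  nlinarith [mul_nonneg hE.le (sq_nonneg (F (p.1 + s • p.2) + F p.1))]

/-- the symmetrised integrand -/
def r4B (e : E3) (b s : ℝ) (F : E3 → ℝ) (p : E3 × E3) : ℝ :=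
  r4h s F p + r4h s F (r4σ e b p) + r4h s F (r4ρ e b s p) + r4h s F (r4σ e b (r4ρ e b s p))

theorem r4_comp {T : E3 × E3 → E3 × E3} (hT : MeasurePreserving T (volume : Measure (E3 × E3)) volume)
    {g : E3 × E3 → ℝ} (hg : Integrable g) :
    Integrable (fun p => g (T p)) ∧ ∫ p, g (T p) = ∫ p, g p := by
  refine ⟨(hT.integrable_comp hg.aestronglyMeasurable).2 hg, ?_⟩
  have h : ∫ p, g p ∂(Measure.map T volume) = ∫ p, g (T p) :=
    integral_map hT.measurable.aemeasurable (by rw [hT.map_eq]; exact hg.aestronglyMeasurable)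
  rw [hT.map_eq] at h
  exact h.symm

theorem r4_four (e : E3) (b s : ℝ) (he : ‖e‖ = 1) {K : NNReal} {R : ℝ} {F : E3 → ℝ} (hF : Adm K R F) :
    Integrable (r4B e b s F) ∧ ∫ p, r4B e b s F p = 4 * gE s F := by
  have h0 := r4_int s hF
  obtain ⟨i1, e1⟩ := r4_comp (r4_mpσ e b he) h0
  obtain ⟨i2, e2⟩ := r4_comp (r4_mpρ e b s he) h0
  obtain ⟨i3, e3⟩ := r4_comp (r4_mpρ e b s he) i1
  have i12 := h0.add i1
  have i123 := i12.add i2
  refine ⟨i123.add i3, ?_⟩
  have hg : gE s F = ∫ p, r4h s F p := rfl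
  have hk : r4B e b s F = ((r4h s F + fun p => r4h s F (r4σ e b p)) + fun p => r4h s F (r4ρ e b s p)) +
      fun p => r4h s F (r4σ e b (r4ρ e b s p)) := rfl
  rw [hk, integral_add' i123 i3, integral_add' i12 i2, integral_add' h0 i1, e3, e2, e1, hg]
  ring

/-- the four terms -/
theorem r4B_eq (e : E3) (b s : ℝ) (he : ‖e‖ = 1) (hs : 0 < s) (F : E3 → ℝ) (x z : E3) :
    r4B e b s F (x, z) =
      Real.exp (-‖z‖ ^ 2) * ((F (x + s • z) - F x) ^ 2 + (F (refl e b (x + s • z)) - F (refl e b x)) ^ 2) +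
      Real.exp (-‖refl e 0 z + s⁻¹ • (refl e b x - x)‖ ^ 2) *
        ((F (refl e b (x + s • z)) - F x) ^ 2 + (F (x + s • z) - F (refl e b x)) ^ 2) := by
  have hn : ∀ w : E3, ‖refl e 0 w‖ ^ 2 = ‖w‖ ^ 2 := by
    intro w
    rw [refl_norm_sq e 0 he w]
    ring
  have h1 : x + s • (refl e 0 z + s⁻¹ • (refl e b x - x)) = refl e b (x + s • z) := by
    rw [r4_lin, smul_add, smul_smul, mul_inv_cancel₀ hs.ne', one_smul]
    abel
  have h2 : refl e b x + s • refl e 0 (refl e 0 z + s⁻¹ • (refl e b x - x)) = x + s • z := by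
    rw [← r4_lin, h1, refl_refl e b he]
  unfold r4B r4h r4σ r4ρ
  dsimp only
  rw [h2, h1, ← r4_lin, hn, hn]
  ring

theorem r4B_le (e : E3) (b s : ℝ) (he : ‖e‖ = 1) (hs : 0 < s) (f : E3 → ℝ) (p : E3 × E3) :
    r4B e b s (pol e b f) p ≤ r4B e b s f p := by
  obtain ⟨x, z⟩ := p
  rw [r4B_eq e b s he hs, r4B_eq e b s he hs]
  -- the two distances
  have hd : ‖refl e 0 z + s⁻¹ • (refl e b x - x)‖ ^ 2 =
      ‖z‖ ^ 2 + 4 * (s⁻¹) ^ 2 * ((inner ℝ e x - b) * (inner ℝ e (x + s • z) - b)) := by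
    have h1 : refl e 0 z + s⁻¹ • (refl e b x - x) = s⁻¹ • (refl e b (x + s • z) - x) := by
      rw [r4_lin, smul_sub, smul_sub, smul_add, smul_smul, inv_mul_cancel₀ hs.ne', one_smul]
      abel
    have h2 : ‖x - (x + s • z)‖ ^ 2 = s ^ 2 * ‖z‖ ^ 2 := by
      rw [sub_add_cancel_left, norm_neg, norm_smul, mul_pow, Real.norm_eq_abs, sq_abs]
    rw [h1, norm_smul, mul_pow, norm_sub_rev, dist_refl_sq e b he, h2, Real.norm_eq_abs, sq_abs]
    field_simp
  have hW : ∀ u v : ℝ, v ≤ u → Real.exp (-u) ≤ Real.exp (-v) := fun u v h =>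
    Real.exp_le_exp.2 (neg_le_neg h)
  have hs2 : 0 ≤ 4 * (s⁻¹) ^ 2 := by positivity
  rcases le_total (inner ℝ e x) b with hx | hx <;> rcases le_total (inner ℝ e (x + s • z)) b with hy | hy
  · obtain ⟨p1, p2⟩ := r4_pol_le e b he f x hx
    obtain ⟨q1, q2⟩ := r4_pol_le e b he f (x + s • z) hy
    rw [p1, p2, q1, q2]
    apply r4_alg
    apply hW
    rw [hd]
    have h3 : 0 ≤ (inner ℝ e x - b) * (inner ℝ e (x + s • z) - b) :=
      mul_nonneg_of_nonpos_of_nonpos (by linarith) (by linarith)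
    nlinarith [mul_nonneg hs2 h3]
  · obtain ⟨p1, p2⟩ := r4_pol_le e b he f x hx
    obtain ⟨q1, q2⟩ := r4_pol_ge e b he f (x + s • z) hy
    rw [p1, p2, q1, q2]
    have h3 : (inner ℝ e x - b) * (inner ℝ e (x + s • z) - b) ≤ 0 :=
      mul_nonpos_of_nonpos_of_nonneg (by linarith) (by linarith)
    have h4 := r4_alg (f x) (f (refl e b x)) (f (refl e b (x + s • z))) (f (x + s • z))
      (Real.exp (-‖refl e 0 z + s⁻¹ • (refl e b x - x)‖ ^ 2)) (Real.exp (-‖z‖ ^ 2)) (by
        apply hW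
        rw [hd]
        nlinarith [mul_nonneg hs2 (neg_nonneg.2 h3)])
    rw [max_comm (f (refl e b (x + s • z))), min_comm (f (refl e b (x + s • z)))] at h4
    linarith
  · obtain ⟨p1, p2⟩ := r4_pol_ge e b he f x hx
    obtain ⟨q1, q2⟩ := r4_pol_le e b he f (x + s • z) hy
    rw [p1, p2, q1, q2]
    have h3 : (inner ℝ e x - b) * (inner ℝ e (x + s • z) - b) ≤ 0 :=
      mul_nonpos_of_nonneg_of_nonpos (by linarith) (by linarith)
    have h4 := r4_alg (f x) (f (refl e b x)) (f (refl e b (x + s • z))) (f (x + s • z))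
      (Real.exp (-‖refl e 0 z + s⁻¹ • (refl e b x - x)‖ ^ 2)) (Real.exp (-‖z‖ ^ 2)) (by
        apply hW
        rw [hd]
        nlinarith [mul_nonneg hs2 (neg_nonneg.2 h3)])
    rw [max_comm (f (refl e b (x + s • z))), min_comm (f (refl e b (x + s • z)))] at h4
    linarith
  · obtain ⟨p1, p2⟩ := r4_pol_ge e b he f x hx
    obtain ⟨q1, q2⟩ := r4_pol_ge e b he f (x + s • z) hy
    rw [p1, p2, q1, q2]
    have h3 : 0 ≤ (inner ℝ e x - b) * (inner ℝ e (x + s • z) - b) :=
      mul_nonneg (by linarith) (by linarith)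
    have h4 := r4_alg (f x) (f (refl e b x)) (f (x + s • z)) (f (refl e b (x + s • z)))
      (Real.exp (-‖z‖ ^ 2)) (Real.exp (-‖refl e 0 z + s⁻¹ • (refl e b x - x)‖ ^ 2)) (by
        apply hW
        rw [hd]
        nlinarith [mul_nonneg hs2 h3])
    linarith

theorem pol_gE (e : E3) (b : ℝ) (he : ‖e‖ = 1) (hb : 0 ≤ b) (K : NNReal) (R : ℝ) (f : E3 → ℝ)
    (hf : Adm K R f) (s : ℝ) (hs : 0 < s) : gE s (pol e b f) ≤ gE s f := by
  obtain ⟨i1, e1⟩ := r4_four e b s he (pol_adm e b he hb K R f hf)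
  obtain ⟨i2, e2⟩ := r4_four e b s he hf
  have h := integral_mono i1 i2 (r4B_le e b s he hs f)
  rw [e1, e2] at h
  linarith

end CLR
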