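import Pool.Agent.CLR.Defs

/-!
# CLR row R5: compactness of admissible functions

Proof.  If `R ≤ 0` all admissible functions are `0`.  Otherwise `0 ≤ f ≤ 2 K R` (distance of a point of
the ball to a point of norm `R` is at most `2 R`).  Arzela-Ascoli: either
`BoundedContinuousFunction.arzela_ascoli` on the compact space `closedBall 0 R`, and sequential
compactness (`IsCompact.tendsto_subseq`), then extend by zero; or by hand: a diagonal argument on a
countable dense set (`exists_seq_strictMono_tendsto` ...), equicontinuity and compactness of the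
ball.  The limit is admissible since the conditions are closed under pointwise limits
(Lipschitz: `‖g x - g y‖ = lim ‖f_n x - f_n y‖ ≤ K ‖x-y‖`).
-/

set_option autoImplicit false

open MeasureTheory Set Filter Topology

noncomputable section

namespace CLR

theorem adm_bound (K : NNReal) (R : ℝ) (hR : 0 ≤ R) (f : E3 → ℝ) (hf : Adm K R f) (x : E3) :
    f x ≤ 2 * K * R := by
  have hK : (0 : ℝ) ≤ K := K.2
  by_cases hx : R ≤ ‖x‖
  · rw [hf.supp x hx]
    positivity
  · push Not at hx
    have hy : ‖(R • EuclideanSpace.single (0 : Fin 3) (1 : ℝ) : E3)‖ = R := by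
      rw [norm_smul]
      simp [abs_of_nonneg hR]
    have h1 := hf.lip.dist_le_mul x (R • EuclideanSpace.single (0 : Fin 3) (1 : ℝ))
    rw [hf.supp _ hy.ge, Real.dist_eq, sub_zero] at h1
    have h2 : dist x (R • EuclideanSpace.single (0 : Fin 3) (1 : ℝ) : E3) ≤ 2 * R := by
      rw [dist_eq_norm]
      refine (norm_sub_le _ _).trans ?_
      rw [hy]
      linarith
    calc f x ≤ |f x| := le_abs_self _
      _ ≤ K * dist x (R • EuclideanSpace.single (0 : Fin 3) (1 : ℝ) : E3) := h1
      _ ≤ K * (2 * R) := mul_le_mul_of_nonneg_left h2 hK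
      _ = 2 * K * R := by ring

theorem adm_compact (K : NNReal) (R : ℝ) (f : ℕ → E3 → ℝ) (hf : ∀ n, Adm K R (f n)) :
    ∃ g : E3 → ℝ, Adm K R g ∧ ∃ ns : ℕ → ℕ, StrictMono ns ∧
      TendstoUniformly (fun n => f (ns n)) g atTop := by
  classical
  let B : Set E3 := Metric.closedBall (0 : E3) R
  have hcB : CompactSpace B := isCompact_iff_compactSpace.1 (isCompact_closedBall 0 R)
  let F : ℕ → BoundedContinuousFunction B ℝ := fun n =>
    BoundedContinuousFunction.mkOfCompact
      ⟨fun x : B => f n x, (hf n).lip.continuous.comp continuous_subtype_val⟩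
  have hF : ∀ n (x : B), F n x = f n x := fun _ _ => rfl
  have hcomp : IsCompact (closure (range F)) := by
    refine BoundedContinuousFunction.arzela_ascoli (Icc 0 (2 * K * |R|)) isCompact_Icc _ ?_ ?_
    · rintro _ x ⟨n, rfl⟩
      rw [hF]
      have hx : ‖(x : E3)‖ ≤ R := by
        have := x.2
        rwa [mem_closedBall_zero_iff] at this
      have hR : 0 ≤ R := (norm_nonneg _).trans hx
      refine ⟨(hf n).nonneg _, ?_⟩
      rw [abs_of_nonneg hR]
      exact adm_bound K R hR _ (hf n) _
    · have h1 : UniformEquicontinuous (fun (φ : range F) (x : B) => (φ : BoundedContinuousFunction B ℝ) x) := by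
        refine LipschitzWith.uniformEquicontinuous _ K ?_
        rintro ⟨_, n, rfl⟩
        exact (hf n).lip.comp (LipschitzWith.subtype_val B) |>.weaken (by simp)
      exact h1.equicontinuous
  obtain ⟨a, -, ns, hns, hlim⟩ := hcomp.tendsto_subseq (fun n => subset_closure (mem_range_self (f := F) n))
  let g : E3 → ℝ := fun x => if h : x ∈ B then a ⟨x, h⟩ else 0
  have hunif : TendstoUniformly (fun n => f (ns n)) g atTop := by
    rw [Metric.tendstoUniformly_iff]
    intro ε hε
    have h1 := (Metric.tendsto_nhds.1 hlim) ε hε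
    filter_upwards [h1] with n hn x
    by_cases hx : x ∈ B
    · have e1 : g x = a ⟨x, hx⟩ := dif_pos hx
      rw [e1]
      have h2 : dist ((F (ns n)) ⟨x, hx⟩) (a ⟨x, hx⟩) ≤ dist (F (ns n)) a :=
        BoundedContinuousFunction.dist_coe_le_dist _
      rw [dist_comm]
      exact lt_of_le_of_lt h2 hn
    · have e1 : g x = 0 := dif_neg hx
      have hx' : R ≤ ‖x‖ := by
        by_contra hcon
        apply hx
        rw [mem_closedBall_zero_iff]
        exact (not_le.1 hcon).le
      rw [e1, (hf (ns n)).supp x hx', dist_self]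
      exact hε
  have hpt : ∀ x, Tendsto (fun n => f (ns n) x) atTop (𝓝 (g x)) := fun x => hunif.tendsto_at x
  refine ⟨g, ⟨fun x => ?_, ?_, fun x hx => ?_⟩, ns, hns, hunif⟩
  · exact ge_of_tendsto' (hpt x) fun n => (hf (ns n)).nonneg x
  · refine LipschitzWith.of_dist_le_mul fun x y => ?_
    exact le_of_tendsto' ((hpt x).dist (hpt y)) fun n => (hf (ns n)).lip.dist_le_mul x y
  · refine tendsto_nhds_unique (hpt x) ?_
    have : (fun n => f (ns n) x) = fun _ => (0 : ℝ) := funext fun n => (hf (ns n)).supp x hx
    rw [this]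
    exact tendsto_const_nhds

end CLR
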