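import Pool.Agent.CLR.R5

/-!
# CLR row R6: continuity of the functionals

Proof.  Dominated convergence (`tendsto_integral_of_dominated_convergence`), pointwise convergence
from uniform convergence.  With `M = 2 K max(R,0)` (`adm_bound`; if `R ≤ 0` everything is zero):
`|f_n x e^{-‖x‖^2}| ≤ M 1_{‖x‖ ≤ R}`, `(max (f_n x - t) 0)^4 ≤ M^4 1_{‖x‖ ≤ R}` (for `t ≥ 0`), and for
`gE`: `e^{-‖z‖^2} (f_n(x+sz) - f_n x)^2 ≤ e^{-‖z‖^2} M^2 (1_{‖x‖ ≤ R} + 1_{‖x+sz‖ ≤ R})`, integrable on
`E3 × E3` (product measure; the second term by the measure preserving shear `(x,z) ↦ (x+sz,z)`,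
or bound the second indicator by `1_{‖x‖ ≤ R + s‖z‖}` and integrate in `x` first).
-/

set_option autoImplicit false

open MeasureTheory Set Filter Topology

noncomputable section

namespace CLR

/-- indicator of the closed ball -/
def r6_ind (R : ℝ) : E3 → ℝ := (Metric.closedBall (0 : E3) R).indicator fun _ => 1

theorem r6_ind_nonneg (R : ℝ) (x : E3) : 0 ≤ r6_ind R x :=
  indicator_nonneg (fun _ _ => zero_le_one) x

theorem r6_ind_of_le {R : ℝ} {x : E3} (h : ‖x‖ ≤ R) : r6_ind R x = 1 :=
  indicator_of_mem (mem_closedBall_zero_iff.2 h) _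

theorem r6_ind_integrable (R : ℝ) : Integrable (r6_ind R) := by
  unfold r6_ind
  rw [integrable_indicator_iff Metric.isClosed_closedBall.measurableSet]
  exact integrableOn_const (measure_closedBall_lt_top.ne)

theorem r6_gauss : Integrable (fun z : E3 => Real.exp (-‖z‖ ^ 2)) := by
  have h := GaussianFourier.integrable_cexp_neg_mul_sq_norm_add (V := E3) (b := 1) (by simp) 0 0
  have h2 := h.norm
  refine h2.congr (Eventually.of_forall fun z => ?_)
  simp only [Complex.norm_exp]
  congr 1
  simp [pow_two]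

/-- a uniform bound -/
theorem r6_bound {K : NNReal} {R : ℝ} {f : E3 → ℝ} (hf : Adm K R f) (x : E3) :
    |f x| ≤ 2 * K * |R| * r6_ind R x := by
  rw [abs_of_nonneg (hf.nonneg x)]
  have hK : (0 : ℝ) ≤ K := K.2
  by_cases hx : ‖x‖ ≤ R
  · rw [r6_ind_of_le hx, mul_one, abs_of_nonneg ((norm_nonneg _).trans hx)]
    exact adm_bound K R ((norm_nonneg _).trans hx) f hf x
  · rw [hf.supp x (not_le.1 hx).le]
    have := r6_ind_nonneg R x
    positivity

theorem r6_ind_sq (R : ℝ) (x : E3) : r6_ind R x ^ 2 = r6_ind R x := by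
  unfold r6_ind
  by_cases hx : x ∈ Metric.closedBall (0 : E3) R
  · rw [indicator_of_mem hx]; norm_num
  · rw [indicator_of_notMem hx]; norm_num

theorem r6_ind_pow4 (R : ℝ) (x : E3) : r6_ind R x ^ 4 = r6_ind R x := by
  have h := r6_ind_sq R x
  calc r6_ind R x ^ 4 = (r6_ind R x ^ 2) ^ 2 := by ring
    _ = r6_ind R x := by rw [h, h]

theorem r6_measurable (R : ℝ) : Measurable (r6_ind R) :=
  measurable_const.indicator Metric.isClosed_closedBall.measurableSet

/-- the dominating function for the energy -/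
theorem r6_prod (R s : ℝ) : Integrable (fun p : E3 × E3 =>
    Real.exp (-‖p.2‖ ^ 2) * (r6_ind R (p.1 + s • p.2) + r6_ind R p.1)) := by
  have h1 : Integrable (fun p : E3 × E3 => r6_ind R p.1 * Real.exp (-‖p.2‖ ^ 2)) :=
    (r6_ind_integrable R).mul_prod r6_gauss
  have h2 : Integrable (fun p : E3 × E3 =>
      r6_ind R (p.1 + s • p.2) * Real.exp (-‖p.2‖ ^ 2)) := by
    rw [Measure.volume_eq_prod, integrable_prod_iff']
    · constructor
      · refine Eventually.of_forall fun z => ?_
        exact ((r6_ind_integrable R).comp_add_right (s • z)).mul_const (Real.exp (-‖z‖ ^ 2))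
      · have e : (fun z : E3 => ∫ x : E3, ‖r6_ind R (x + s • z) * Real.exp (-‖z‖ ^ 2)‖) =
            fun z : E3 => (∫ x : E3, ‖r6_ind R x‖) * Real.exp (-‖z‖ ^ 2) := by
          funext z
          have e2 : ∀ x : E3, ‖r6_ind R (x + s • z) * Real.exp (-‖z‖ ^ 2)‖ =
              ‖r6_ind R (x + s • z)‖ * Real.exp (-‖z‖ ^ 2) := fun x => by
            rw [norm_mul, Real.norm_of_nonneg (Real.exp_pos _).le]
          simp only [e2]
          rw [integral_mul_const, integral_add_right_eq_self (fun x => ‖r6_ind R x‖)]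
        rw [e]
        exact r6_gauss.const_mul _
    · refine Measurable.aestronglyMeasurable ?_
      refine Measurable.mul ((r6_measurable R).comp ?_) ?_
      · exact measurable_fst.add (measurable_snd.const_smul s)
      · fun_prop
  refine (h2.add h1).congr (Eventually.of_forall fun p => ?_)
  simp only [Pi.add_apply]
  ring

theorem adm_lim (K : NNReal) (R : ℝ) (f : ℕ → E3 → ℝ) (g : E3 → ℝ) (hf : ∀ n, Adm K R (f n))
    (hg : Adm K R g) (hlim : TendstoUniformly f g atTop) :
    Tendsto (fun n => gG (f n)) atTop (𝓝 (gG g)) ∧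
    (∀ t : ℝ, 0 ≤ t → Tendsto (fun n => T4 t (f n)) atTop (𝓝 (T4 t g))) ∧
    (∀ s : ℝ, 0 < s → Tendsto (fun n => gE s (f n)) atTop (𝓝 (gE s g))) := by
  have hpt : ∀ x, Tendsto (fun n => f n x) atTop (𝓝 (g x)) := fun x => hlim.tendsto_at x
  have hcont : ∀ n, Continuous (f n) := fun n => (hf n).lip.continuous
  refine ⟨?_, fun t ht => ?_, fun s hs => ?_⟩
  · refine tendsto_integral_of_dominated_convergence (fun x => 2 * K * |R| * r6_ind R x) ?_ ?_ ?_ ?_
    · intro n
      exact ((hcont n).mul (by fun_prop)).aestronglyMeasurable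
    · exact (r6_ind_integrable R).const_mul _
    · intro n
      refine Eventually.of_forall fun x => ?_
      rw [norm_mul, Real.norm_of_nonneg (Real.exp_pos _).le, Real.norm_eq_abs]
      have h1 := r6_bound (hf n) x
      have h2 : Real.exp (-‖x‖ ^ 2) ≤ 1 := by
        rw [Real.exp_le_one_iff]
        have := sq_nonneg ‖x‖
        linarith
      calc |f n x| * Real.exp (-‖x‖ ^ 2) ≤ |f n x| * 1 :=
            mul_le_mul_of_nonneg_left h2 (abs_nonneg _)
        _ ≤ _ := by rw [mul_one]; exact h1
    · exact Eventually.of_forall fun x => (hpt x).mul_const _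
  · refine tendsto_integral_of_dominated_convergence
      (fun x => (2 * K * |R|) ^ 4 * r6_ind R x) ?_ ?_ ?_ ?_
    · intro n
      exact ((((hcont n).sub continuous_const).max continuous_const).pow 4).aestronglyMeasurable
    · exact (r6_ind_integrable R).const_mul _
    · intro n
      refine Eventually.of_forall fun x => ?_
      have h0 := (hf n).nonneg x
      have h1 := r6_bound (hf n) x
      rw [abs_of_nonneg h0] at h1
      have h2 : max (f n x - t) 0 ≤ f n x := max_le (by linarith) h0
      have h3 : 0 ≤ max (f n x - t) 0 := le_max_right _ _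
      rw [Real.norm_of_nonneg (pow_nonneg h3 4)]
      calc (max (f n x - t) 0) ^ 4 ≤ (2 * K * |R| * r6_ind R x) ^ 4 :=
            pow_le_pow_left₀ h3 (h2.trans h1) 4
        _ = _ := by rw [mul_pow, r6_ind_pow4]
    · refine Eventually.of_forall fun x => ?_
      exact (((hpt x).sub tendsto_const_nhds).max tendsto_const_nhds).pow 4
  · refine tendsto_integral_of_dominated_convergence
      (fun p : E3 × E3 => (2 * K * |R|) ^ 2 *
        (Real.exp (-‖p.2‖ ^ 2) * (r6_ind R (p.1 + s • p.2) + r6_ind R p.1))) ?_ ?_ ?_ ?_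
    · intro n
      refine Continuous.aestronglyMeasurable ?_
      refine Continuous.mul (by fun_prop) (Continuous.pow (Continuous.sub ?_ ?_) 2)
      · exact (hcont n).comp (by fun_prop)
      · exact (hcont n).comp continuous_fst
    · exact (r6_prod R s).const_mul _
    · intro n
      refine Eventually.of_forall fun p => ?_
      have ha := (hf n).nonneg (p.1 + s • p.2)
      have hb := (hf n).nonneg p.1
      have ha1 := r6_bound (hf n) (p.1 + s • p.2)
      have hb1 := r6_bound (hf n) p.1
      rw [abs_of_nonneg ha] at ha1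
      rw [abs_of_nonneg hb] at hb1
      have h3 : (f n (p.1 + s • p.2) - f n p.1) ^ 2 ≤
          (2 * K * |R|) ^ 2 * (r6_ind R (p.1 + s • p.2) + r6_ind R p.1) := by
        have h4 : (f n (p.1 + s • p.2)) ^ 2 ≤ (2 * K * |R|) ^ 2 * r6_ind R (p.1 + s • p.2) := by
          calc (f n (p.1 + s • p.2)) ^ 2 ≤ (2 * K * |R| * r6_ind R (p.1 + s • p.2)) ^ 2 :=
                pow_le_pow_left₀ ha ha1 2
            _ = _ := by rw [mul_pow, r6_ind_sq]
        have h5 : (f n p.1) ^ 2 ≤ (2 * K * |R|) ^ 2 * r6_ind R p.1 := by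
          calc (f n p.1) ^ 2 ≤ (2 * K * |R| * r6_ind R p.1) ^ 2 :=
                pow_le_pow_left₀ hb hb1 2
            _ = _ := by rw [mul_pow, r6_ind_sq]
        have h6 : 0 ≤ f n (p.1 + s • p.2) * f n p.1 := mul_nonneg ha hb
        nlinarith [h4, h5, h6]
      rw [norm_mul, Real.norm_of_nonneg (Real.exp_pos _).le, Real.norm_of_nonneg (sq_nonneg _)]
      calc Real.exp (-‖p.2‖ ^ 2) * (f n (p.1 + s • p.2) - f n p.1) ^ 2
          ≤ Real.exp (-‖p.2‖ ^ 2) *
            ((2 * K * |R|) ^ 2 * (r6_ind R (p.1 + s • p.2) + r6_ind R p.1)) :=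
            mul_le_mul_of_nonneg_left h3 (Real.exp_pos _).le
        _ = _ := by ring
    · refine Eventually.of_forall fun p => ?_
      exact tendsto_const_nhds.mul (((hpt _).sub (hpt _)).pow 2)

end CLR
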