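import Pool.Agent.CLR.R4
import Pool.Agent.CLR.R6

/-!
# CLR row R7: maximizer of the Gaussian functional

Proof.  Let `𝓕` be the set of `g` with `Adm K R g`, `T4 t g = T4 t w` for all `t ≥ 0`,
`gE s g ≤ gE s w` for all `s > 0`.  `w ∈ 𝓕`.  `gG` is bounded above on `𝓕` (`adm_bound`; if `R < 0`
then `w = 0`...; `gG g ≤ ∫ M e^{-‖x‖^2}`).  Take `g_n ∈ 𝓕` with `gG g_n → S = sup`; a subsequence
converges uniformly to `g` (`adm_compact`), `g ∈ 𝓕` and `gG g = S` (`adm_lim`, limits of equalities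
and inequalities).  For `‖e‖ = 1`, `b > 0`: `pol e b g ∈ 𝓕` (`pol_adm`, `pol_T4`, `pol_gE`), so
`gG (pol e b g) ≤ S = gG g`, hence equality by `pol_gG`, whose second part gives the claim.
-/

set_option autoImplicit false

open MeasureTheory Set Filter Topology

noncomputable section

namespace CLR

private def r7F (K : NNReal) (R : ℝ) (w : E3 → ℝ) : Set (E3 → ℝ) :=
  {g | Adm K R g ∧ (∀ t : ℝ, 0 ≤ t → T4 t g = T4 t w) ∧ (∀ s : ℝ, 0 < s → gE s g ≤ gE s w)}

private theorem r7_seq (K : NNReal) (R : ℝ) (w : E3 → ℝ) (f : ℕ → E3 → ℝ)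
    (hf : ∀ n, f n ∈ r7F K R w) :
    ∃ g ∈ r7F K R w, ∃ ns : ℕ → ℕ, StrictMono ns ∧
      Tendsto (fun n => gG (f (ns n))) atTop (𝓝 (gG g)) := by
  obtain ⟨g, hg, ns, hns, hu⟩ := adm_compact K R f (fun n => (hf n).1)
  obtain ⟨h1, h2, h3⟩ := adm_lim K R (fun n => f (ns n)) g (fun n => (hf (ns n)).1) hg hu
  refine ⟨g, ⟨hg, ?_, ?_⟩, ns, hns, h1⟩
  · intro t ht
    refine tendsto_nhds_unique (h2 t ht) ?_
    have : (fun n => T4 t (f (ns n))) = fun _ => T4 t w := by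
      funext n
      exact (hf (ns n)).2.1 t ht
    rw [this]
    exact tendsto_const_nhds
  · intro s hs
    exact le_of_tendsto (h3 s hs) (Eventually.of_forall fun n => (hf (ns n)).2.2 s hs)

theorem exists_max (K : NNReal) (R : ℝ) (w : E3 → ℝ) (hw : Adm K R w) :
    ∃ g : E3 → ℝ, Adm K R g ∧ (∀ t : ℝ, 0 ≤ t → T4 t g = T4 t w) ∧
      (∀ s : ℝ, 0 < s → gE s g ≤ gE s w) ∧
      ∀ (e : E3) (b : ℝ), ‖e‖ = 1 → 0 < b → ∀ x, inner ℝ e x ≤ b → g (refl e b x) ≤ g x := by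
  have hwF : w ∈ r7F K R w := ⟨hw, fun _ _ => rfl, fun _ _ => le_rfl⟩
  have hne : (gG '' r7F K R w).Nonempty := ⟨_, w, hwF, rfl⟩
  have hbdd : BddAbove (gG '' r7F K R w) := by
    by_contra hb
    rw [not_bddAbove_iff] at hb
    have hb' : ∀ n : ℕ, ∃ f ∈ r7F K R w, (n : ℝ) < gG f := by
      intro n
      obtain ⟨_, ⟨f, hf, rfl⟩, hn⟩ := hb n
      exact ⟨f, hf, hn⟩
    choose f hf hn using hb'
    obtain ⟨g, _, ns, hns, hlim⟩ := r7_seq K R w f hf
    have hinf : Tendsto (fun n => gG (f (ns n))) atTop atTop := by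
      refine tendsto_atTop_mono (fun n => (hn (ns n)).le) ?_
      exact tendsto_natCast_atTop_atTop.comp hns.tendsto_atTop
    exact not_tendsto_nhds_of_tendsto_atTop hinf _ hlim
  obtain ⟨u, _, hu, huS⟩ := exists_seq_tendsto_sSup hne hbdd
  choose f hf hfu using huS
  obtain ⟨g, hg, ns, hns, hlim⟩ := r7_seq K R w f hf
  have hS : gG g = sSup (gG '' r7F K R w) := by
    refine tendsto_nhds_unique hlim ?_
    have : (fun n => gG (f (ns n))) = fun n => u (ns n) := by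
      funext n
      exact hfu (ns n)
    rw [this]
    exact hu.comp hns.tendsto_atTop
  refine ⟨g, hg.1, hg.2.1, hg.2.2, ?_⟩
  intro e b he hb x hx
  have hp : pol e b g ∈ r7F K R w := by
    refine ⟨pol_adm e b he hb.le K R g hg.1, ?_, ?_⟩
    · intro t ht
      rw [pol_T4 e b he hb.le K R g hg.1 t ht]
      exact hg.2.1 t ht
    · intro s hs
      exact (pol_gE e b he hb.le K R g hg.1 s hs).trans (hg.2.2 s hs)
  have hle : gG (pol e b g) ≤ gG g := by
    rw [hS]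
    exact le_csSup hbdd ⟨_, hp, rfl⟩
  obtain ⟨h1, h2⟩ := pol_gG e b he hb K R g hg.1
  exact h2 (le_antisymm hle h1) x hx

end CLR
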