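import Pool.Agent.CLR.Defs

/-!
# CLR row R9: small scale limit of the Gaussian energy

`gauss_quad`: for a continuous linear form `L` on `E3`, `∫ e^{-‖y‖^2} (L y)^2 dy = c0 ‖L‖^2`,
`c0 = ∫ e^{-‖y‖^2} (y 0)^2 dy > 0`.  Proof: if `L ≠ 0` choose a linear isometry equivalence of `E3`
mapping the `0`-th basis vector to the unit vector representing `L/‖L‖` (e.g. extend to an
orthonormal basis, or a Householder reflection), volume preserving; then `L (U y) = ‖L‖ y_0`.
Or: write `L y = Σ a_i y_i`, expand, `∫ e^{-‖y‖^2} y_i y_j = 0` for `i ≠ j` by the substitution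
`y_i ↦ -y_i`, and `∫ e^{-‖y‖^2} y_i^2` does not depend on `i` by permuting coordinates;
`‖L‖^2 = Σ a_i^2`.

`gE_limit`: dominated convergence on `E3 × E3`.  For `0 < s ≤ 1` the integrand of `gE s f / s^2` is
`e^{-‖z‖^2} ((f(x+sz) - f x)/s)^2`, dominated by `e^{-‖z‖^2} K^2 ‖z‖^2 1_{‖x‖ ≤ |R| + ‖z‖}` (if
`‖x‖ > |R| + ‖z‖` both values vanish), which is integrable (integrate in `x`: volume of a ball is
`C (|R| + ‖z‖)^3`; then a polynomial times a Gaussian).  For almost every `x` (Rademacher,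
`LipschitzWith.ae_differentiableAt`), `f` is differentiable at `x` and the integrand tends to
`e^{-‖z‖^2} (fderiv ℝ f x z)^2` for every `z`.  Fubini and `gauss_quad` give
`c0 ∫ ‖fderiv ℝ f x‖^2 dx`.
-/

set_option autoImplicit false

open MeasureTheory Set Filter Topology

noncomputable section

namespace CLR

theorem r9_pow_le (t : ℝ) (ht : 0 ≤ t) (k : ℕ) :
    t ^ k * Real.exp (-t ^ 2) ≤ (k.factorial : ℝ) * Real.exp (1 / 2) * Real.exp (-(1 / 2) * t ^ 2) := by
  have h1 : t ^ k ≤ (k.factorial : ℝ) * Real.exp t := by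
    have := Real.pow_div_factorial_le_exp t ht k
    rw [div_le_iff₀ (by positivity)] at this
    linarith
  have h2 : Real.exp t * Real.exp (-t ^ 2) ≤ Real.exp (1 / 2) * Real.exp (-(1 / 2) * t ^ 2) := by
    rw [← Real.exp_add, ← Real.exp_add]
    apply Real.exp_le_exp.mpr
    nlinarith [sq_nonneg (t - 1)]
  calc t ^ k * Real.exp (-t ^ 2) ≤ ((k.factorial : ℝ) * Real.exp t) * Real.exp (-t ^ 2) :=
        mul_le_mul_of_nonneg_right h1 (Real.exp_pos _).le
    _ = (k.factorial : ℝ) * (Real.exp t * Real.exp (-t ^ 2)) := by ring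
    _ ≤ (k.factorial : ℝ) * (Real.exp (1 / 2) * Real.exp (-(1 / 2) * t ^ 2)) :=
        mul_le_mul_of_nonneg_left h2 (by positivity)
    _ = _ := by ring

theorem r9_gauss_int (b : ℝ) (hb : 0 < b) :
    Integrable (fun y : E3 => Real.exp (-b * ‖y‖ ^ 2)) := by
  have h := GaussianFourier.integrable_cexp_neg_mul_sq_norm_add (V := E3) (b := (b : ℂ))
    (by simpa using hb) 0 0
  have h2 := h.re
  refine h2.congr (Filter.Eventually.of_forall fun y => ?_)
  have : (-(b : ℂ) * (‖y‖ : ℂ) ^ 2) = ((-b * ‖y‖ ^ 2 : ℝ) : ℂ) := by push_cast; ring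
  simp only [zero_mul, add_zero, this]
  exact Complex.exp_ofReal_re _

/-- polynomial times Gaussian is integrable -/
theorem r9_pow_int (k : ℕ) :
    Integrable (fun y : E3 => ‖y‖ ^ k * Real.exp (-‖y‖ ^ 2)) := by
  refine Integrable.mono' ((r9_gauss_int (1 / 2) (by norm_num)).const_mul
    ((k.factorial : ℝ) * Real.exp (1 / 2))) ?_ ?_
  · apply Continuous.aestronglyMeasurable
    fun_prop
  · refine Filter.Eventually.of_forall fun y => ?_
    rw [Real.norm_eq_abs, abs_of_nonneg (by positivity)]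
    exact r9_pow_le ‖y‖ (norm_nonneg _) k

/-- Gaussian second moment -/
def c0 : ℝ := ∫ y : E3, Real.exp (-‖y‖ ^ 2) * (y 0) ^ 2

theorem r9_int0 : Integrable (fun y : E3 => Real.exp (-‖y‖ ^ 2) * (y 0) ^ 2) := by
  refine Integrable.mono' (r9_pow_int 2) ?_ ?_
  · apply Continuous.aestronglyMeasurable
    fun_prop
  · refine Filter.Eventually.of_forall fun y => ?_
    rw [Real.norm_eq_abs, abs_of_nonneg (by positivity), mul_comm]
    apply mul_le_mul_of_nonneg_right _ (Real.exp_pos _).le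
    have h := PiLp.norm_apply_le y 0
    rw [Real.norm_eq_abs] at h
    rw [← sq_abs]
    exact pow_le_pow_left₀ (abs_nonneg _) h 2

theorem c0_pos : 0 < c0 := by
  unfold c0
  rw [integral_pos_iff_support_of_nonneg (fun y => by positivity) r9_int0]
  have hopen : IsOpen (Function.support fun y : E3 => Real.exp (-‖y‖ ^ 2) * (y 0) ^ 2) := by
    apply Continuous.isOpen_support
    fun_prop
  refine hopen.measure_pos volume ⟨EuclideanSpace.single 0 1, ?_⟩
  simp [Function.mem_support]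

theorem gauss_quad (L : E3 →L[ℝ] ℝ) :
    ∫ y : E3, Real.exp (-‖y‖ ^ 2) * (L y) ^ 2 = c0 * ‖L‖ ^ 2 := by
  by_cases hL : L = 0
  · subst hL; simp
  set a : E3 := (InnerProductSpace.toDual ℝ E3).symm L with ha
  have hLa : ∀ y, L y = inner ℝ a y := fun y => by
    rw [ha, InnerProductSpace.toDual_symm_apply]
  have hna : ‖a‖ = ‖L‖ := by rw [ha, LinearIsometryEquiv.norm_map]
  have hnL : 0 < ‖L‖ := norm_pos_iff.mpr hL
  have hapos : 0 < ‖a‖ := by rw [hna]; exact hnL
  set e : E3 := (‖a‖⁻¹ : ℝ) • a with he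
  have hne : ‖e‖ = 1 := by
    rw [he, norm_smul, norm_inv, norm_norm, inv_mul_cancel₀ hapos.ne']
  obtain ⟨b, hb⟩ := Orthonormal.exists_orthonormalBasis_extension_of_card_eq (𝕜 := ℝ) (E := E3)
    (ι := Fin 3) (by simp) (v := fun _ => e) (s := {0}) (by
      rw [orthonormal_iff_ite]
      rintro ⟨i, hi⟩ ⟨j, hj⟩
      simp only [mem_singleton_iff] at hi hj
      subst hi; subst hj
      simp [hne])
  have hb0 : b 0 = e := hb 0 (by simp)
  have key : ∀ y : E3, L (b.repr.symm y) = ‖L‖ * y 0 := by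
    intro y
    have h1 : y 0 = inner ℝ (b 0) (b.repr.symm y) := by
      rw [← b.repr_apply_apply]; simp
    rw [hLa, h1, hb0, he, inner_smul_left, ← hna]
    simp only [conj_trivial]
    field_simp
  have hmp := b.repr.symm.measurePreserving
  have h2 := hmp.integral_comp b.repr.symm.toHomeomorph.measurableEmbedding
    (fun y : E3 => Real.exp (-‖y‖ ^ 2) * (L y) ^ 2)
  rw [← h2]
  have h3 : ∀ y : E3, Real.exp (-‖b.repr.symm y‖ ^ 2) * (L (b.repr.symm y)) ^ 2 =
      ‖L‖ ^ 2 * (Real.exp (-‖y‖ ^ 2) * (y 0) ^ 2) := by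
    intro y
    rw [key, LinearIsometryEquiv.norm_map]
    ring
  simp only [h3]
  rw [integral_const_mul, c0]
  ring

end CLR
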